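import Mathlib

/-!
# UFC: interface definitions

Project UFC (MP_be1fae_nt): an unconditional bound `K N^ε` for the number of all `S`-solutions of
generalised Fermat equations.

Everything about covers of the projective line is encoded by polynomial identities.  A cover of
degree `D` of the `T`-line, unramified outside `0, 1, ∞` and with ramification indices dividing
`p, q, r` there, is given by a polynomial `P(U, T)`, monic of degree `D` in `U`
(`P : A[X][X]`, the outer variable is `U`, the inner variable is `T`).
-/

set_option autoImplicit false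

namespace Pool.Agent.UFC

open Polynomial

section defs

variable {A : Type*} [CommRing A]

/-- `ev t P` is `P(U, t)`. -/
noncomputable def ev (t : A) (P : A[X][X]) : A[X] := P.map (evalRingHom t)

/-- `subT c P` is `P(U, c(T))`. -/
noncomputable def subT (c : A[X]) (P : A[X][X]) : A[X][X] := P.map (compRingHom c)

/-- `inf2 D P` is `W^(2D) P(U / W^2, 1 / W)`: the monic polynomial over `A[W]` whose roots are
`U W^2 = U / T^2`, where `W = 1 / T` and `U` are the roots of `P`, provided that the coefficient of
`U^j` in `P` has degree at most `2 (D - j)`. -/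
noncomputable def inf2 (D : ℕ) (P : A[X][X]) : A[X][X] :=
  ∑ j ∈ Finset.range (D + 1), monomial j ((P.coeff j).reflect (2 * (D - j)))

/-- A second presentation of the algebra `A[T][U] / P`, up to denominators `d, e`:
for a root `a` of `P(., t)` the element `b = h(a, t) / d(t)` is a root of `Q(., t)` and
`a = g(d(t) b, t) / e(t)`. -/
structure Loc (P Q h g : A[X][X]) (d e : A[X]) : Prop where
  monic : Q.Monic
  d_lead : IsUnit d.leadingCoeff
  e_lead : IsUnit e.leadingCoeff
  root : P ∣ (Q.scaleRoots d).comp h
  back : P ∣ g.comp h - C e * X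

/-- `P` defines a cover which is unramified above `T = 0`: there is a second presentation `Q` such
that `Q(., 0)` is separable. -/
def Bd (P : A[X][X]) : Prop :=
  ∃ (Q h g : A[X][X]) (d e u v : A[X]), Loc P Q h g d e ∧
    u * ev 0 Q + v * derivative (ev 0 Q) = 1

/-- `P` defines a cover which is unramified outside `T = 0, 1, ∞`: there are presentations `Q i` such
that `(Q i)(., T)` is separable where `r i` does not vanish, and the `r i` generate a
power of `T (1 - T)`. -/
def Gn (P : A[X][X]) : Prop :=
  ∃ (n : ℕ) (Q h g u v : Fin n → A[X][X]) (d e r c : Fin n → A[X]) (a b : ℕ),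
    (∀ i, Loc P (Q i) (h i) (g i) (d i) (e i)) ∧
    (∀ i, u i * Q i + v i * derivative (Q i) = C (r i)) ∧
    ∑ i, c i * r i = X ^ a * (1 - X) ^ b

end defs

/-- `P` defines a cover of degree `D` of the line, unramified outside `0, 1, ∞`, with ramification
indices dividing `p, q, r` above `0, 1, ∞`. -/
structure PCD (A : Type*) [CommRing A] (p q r D : ℕ) (P : A[X][X]) : Prop where
  monic : P.Monic
  deg : P.natDegree = D
  wt : ∀ j, (P.coeff j).natDegree ≤ 2 * (D - j)
  b0 : Bd (subT (X ^ p) P)
  b1 : Bd (subT (1 - X ^ q) P)
  binf : Bd (subT (X ^ r) (inf2 D P))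
  gen : Gn P

/-- The rational number `t` satisfies the conditions of an `S`-solution of signature `(p, q, r)`,
`t = a x^p / (c z^r)`. -/
def SolT (S : Finset ℕ) (p q r : ℕ) (t : ℚ) : Prop :=
  t ≠ 0 ∧ t ≠ 1 ∧ ∀ l : ℕ, l.Prime → l ∉ S →
    (0 < padicValRat l t → (p : ℤ) ∣ padicValRat l t) ∧
    (0 < padicValRat l (1 - t) → (q : ℤ) ∣ padicValRat l (1 - t)) ∧
    (padicValRat l t < 0 → (r : ℤ) ∣ padicValRat l t)

/-- `P` over the complex numbers. -/
noncomputable def toC {K : Type*} [CommRing K] [Algebra K ℂ] (P : K[X][X]) : ℂ[X][X] :=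
  P.map (mapRingHom (algebraMap K ℂ))

end Pool.Agent.UFC
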