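import Mathlib
import Pool.Agent.UFC.Defs

/-!
# UFC, B1: the certificate of a cover is preserved by ring homomorphisms

Everything in `PCD` is an identity between polynomials, 'monic', 'the leading coefficient is a unit' or a degree bound.
Let `φ = mapRingHom f : A[X] → B[X]` and `Φ = Polynomial.map φ : A[X][X] → B[X][X]`.
* `ev (f t) (Φ P) = (ev t P).map f`; `subT (c.map f) (Φ P) = Φ (subT c P)` and `(X ^ p).map f = X ^ p`,
  `(1 - X ^ q).map f = 1 - X ^ q`.
* `inf2 D (Φ P) = Φ (inf2 D P)`: `Polynomial.map_sum`, `Polynomial.map_monomial`, `Polynomial.reflect_map`.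
* `Loc`: `Q` monic gives `Φ Q` monic; a unit leading coefficient `u = d.leadingCoeff` gives
  `(d.map f).leadingCoeff = f u` (`Polynomial.leadingCoeff_map_of_leadingCoeff_ne_zero`, `f u ≠ 0` because it is a unit and `B`
  is nontrivial), a unit; `Φ ((Q.scaleRoots d).comp h) = ((Φ Q).scaleRoots (d.map f)).comp (Φ h)`
  (`Polynomial.map_scaleRoots` for monic `Q`; `Polynomial.map_comp`), so divisibility is preserved.
* `Bd`, `Gn`: apply `Φ` to the witnesses.
-/

set_option autoImplicit false

namespace Pool.Agent.UFC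

open Polynomial

section B1

variable {A B : Type*} [CommRing A] [CommRing B]

theorem B1.ev_map (f : A →+* B) (t : A) (P : A[X][X]) :
    ev (f t) (P.map (mapRingHom f)) = (ev t P).map f := by
  unfold ev
  rw [Polynomial.map_map, Polynomial.map_map]
  congr 1
  ext x
  · simp
  · simp

theorem B1.subT_map (f : A →+* B) (c : A[X]) (P : A[X][X]) :
    subT (c.map f) (P.map (mapRingHom f)) = (subT c P).map (mapRingHom f) := by
  unfold subT
  rw [Polynomial.map_map, Polynomial.map_map]
  congr 1
  ext x
  · simp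
  · simp

theorem B1.inf2_map (f : A →+* B) (D : ℕ) (P : A[X][X]) :
    inf2 D (P.map (mapRingHom f)) = (inf2 D P).map (mapRingHom f) := by
  unfold inf2
  rw [Polynomial.map_sum]
  refine Finset.sum_congr rfl fun j _ => ?_
  rw [Polynomial.map_monomial, Polynomial.coeff_map, coe_mapRingHom, Polynomial.reflect_map]

theorem B1.loc_map [Nontrivial B] (f : A →+* B) {P Q h g : A[X][X]} {d e : A[X]}
    (H : Loc P Q h g d e) :
    Loc (P.map (mapRingHom f)) (Q.map (mapRingHom f)) (h.map (mapRingHom f))
      (g.map (mapRingHom f)) (d.map f) (e.map f) := by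
  have key : ∀ c : A[X], IsUnit c.leadingCoeff → IsUnit (c.map f).leadingCoeff := by
    intro c hc
    have h1 : IsUnit (f c.leadingCoeff) := hc.map f
    rw [Polynomial.leadingCoeff_map_of_leadingCoeff_ne_zero f h1.ne_zero]
    exact h1
  refine ⟨H.monic.map _, key d H.d_lead, key e H.e_lead, ?_, ?_⟩
  · have h1 := Polynomial.map_dvd (mapRingHom f) H.root
    rw [Polynomial.map_comp, Polynomial.map_scaleRoots] at h1
    · exact h1
    · rw [H.monic.leadingCoeff, map_one]
      exact one_ne_zero
  · have h1 := Polynomial.map_dvd (mapRingHom f) H.back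
    rw [Polynomial.map_sub, Polynomial.map_comp, Polynomial.map_mul, Polynomial.map_C,
      Polynomial.map_X] at h1
    exact h1

theorem B1.bd_map [Nontrivial B] (f : A →+* B) {P : A[X][X]} (H : Bd P) :
    Bd (P.map (mapRingHom f)) := by
  obtain ⟨Q, h, g, d, e, u, v, h1, h2⟩ := H
  refine ⟨Q.map (mapRingHom f), h.map (mapRingHom f), g.map (mapRingHom f), d.map f, e.map f,
    u.map f, v.map f, B1.loc_map f h1, ?_⟩
  have h3 := congrArg (Polynomial.map f) h2
  rw [Polynomial.map_add, Polynomial.map_mul, Polynomial.map_mul, Polynomial.map_one,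
    ← Polynomial.derivative_map, ← B1.ev_map, map_zero] at h3
  exact h3

theorem B1.gn_map [Nontrivial B] (f : A →+* B) {P : A[X][X]} (H : Gn P) :
    Gn (P.map (mapRingHom f)) := by
  obtain ⟨n, Q, h, g, u, v, d, e, r, c, a, b, h1, h2, h3⟩ := H
  refine ⟨n, fun i => (Q i).map (mapRingHom f), fun i => (h i).map (mapRingHom f),
    fun i => (g i).map (mapRingHom f), fun i => (u i).map (mapRingHom f),
    fun i => (v i).map (mapRingHom f), fun i => (d i).map f, fun i => (e i).map f,
    fun i => (r i).map f, fun i => (c i).map f, a, b, fun i => B1.loc_map f (h1 i), ?_, ?_⟩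
  · intro i
    have h4 := congrArg (Polynomial.map (mapRingHom f)) (h2 i)
    rw [Polynomial.map_add, Polynomial.map_mul, Polynomial.map_mul,
      ← Polynomial.derivative_map, Polynomial.map_C] at h4
    exact h4
  · have h4 := congrArg (Polynomial.map f) h3
    simpa [Polynomial.map_sum, Polynomial.map_mul, Polynomial.map_pow, Polynomial.map_sub] using h4

end B1

theorem PCD.map {A B : Type*} [CommRing A] [CommRing B] [Nontrivial B] (f : A →+* B)
    {p q r D : ℕ} {P : A[X][X]} (hP : PCD A p q r D P) :
    PCD B p q r D (P.map (mapRingHom f)) := by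
  have hX : ∀ n : ℕ, ((X : B[X]) ^ n) = ((X : A[X]) ^ n).map f := by
    intro n
    rw [Polynomial.map_pow, Polynomial.map_X]
  have h1X : ((1 : B[X]) - X ^ q) = ((1 : A[X]) - X ^ q).map f := by
    rw [Polynomial.map_sub, Polynomial.map_one, hX]
  refine ⟨hP.monic.map _, ?_, ?_, ?_, ?_, ?_, B1.gn_map f hP.gen⟩
  · rw [hP.monic.natDegree_map]
    exact hP.deg
  · intro j
    rw [Polynomial.coeff_map, coe_mapRingHom]
    exact (Polynomial.natDegree_map_le).trans (hP.wt j)
  · rw [hX, B1.subT_map]
    exact B1.bd_map f hP.b0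
  · rw [h1X, B1.subT_map]
    exact B1.bd_map f hP.b1
  · rw [hX, B1.inf2_map, B1.subT_map]
    exact B1.bd_map f hP.binf

end Pool.Agent.UFC
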