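import Mathlib
import Pool.Agent.UFC.Defs

/-!
# UFC, B2: the certificate over the complex numbers is defined over a finitely generated subring

Call a property `φ` of subalgebras `A` of `ℂ` *eventual* if there is a finite set `s` such that `φ A` holds for all `A ⊇ s`.
Eventual properties are closed under `∧` (union of the finite sets) and under finite `∀ i : Fin n`.
* For `u : ℂ[X]` eventually `∃ u' : A[X], u'.map A.val = u` (put the coefficients of `u` into `s`;
  `Polynomial.lifts_iff_coeff_lifts` or `mem_lifts`), same for `ℂ[X][X]` (coefficients of coefficients).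
* `Polynomial.map` along the injection `A → ℂ` is injective, so every identity between lifted polynomials can be checked over
  `ℂ`; a lift of a monic polynomial is monic, and if the leading coefficient of `d` is nonzero and its inverse is in `A` then the
  leading coefficient of a lift of `d` is a unit of `A`.
* Hence: if `Bd P` (over `ℂ`) then eventually `∀ P' : A[X][X], P'.map (mapRingHom A.val) = P → Bd P'`: put in `s` all
  coefficients of `Q, h, g, d, e, u, v`, of the two cofactors of the divisibilities `P ∣ …`, and the inverses of the leading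
  coefficients of `d`, `e`.  Same for `Gn`.  Then apply this to `subT (X^p) P`, `subT (1 - X^q) P`, `subT (X^r) (inf2 D P)`,
  `P`, since `subT` and `inf2` commute with `map`.
-/

set_option autoImplicit false

namespace Pool.Agent.UFC

open Polynomial

/-- A property of subalgebras of `ℂ` is eventual if it holds for all subalgebras containing a
suitable finite set. -/
def BEv (φ : Subalgebra ℚ ℂ → Prop) : Prop :=
  ∃ s : Finset ℂ, ∀ A : Subalgebra ℚ ℂ, (s : Set ℂ) ⊆ (A : Set ℂ) → φ A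

/-- The inclusion of a subalgebra. -/
noncomputable abbrev bι (A : Subalgebra ℚ ℂ) : A →+* ℂ := A.val.toRingHom

theorem bι_injective (A : Subalgebra ℚ ℂ) : Function.Injective (bι A) :=
  Subtype.val_injective

theorem bmap_injective (A : Subalgebra ℚ ℂ) :
    Function.Injective (Polynomial.map (bι A)) :=
  Polynomial.map_injective _ (bι_injective A)

theorem bmap2_injective (A : Subalgebra ℚ ℂ) :
    Function.Injective (Polynomial.map (mapRingHom (bι A))) :=
  Polynomial.map_injective _ (fun _ _ h => bmap_injective A h)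

theorem BEv.mono {φ ψ : Subalgebra ℚ ℂ → Prop} (h : BEv φ) (hφ : ∀ A, φ A → ψ A) : BEv ψ := by
  obtain ⟨s, hs⟩ := h
  exact ⟨s, fun A hA => hφ A (hs A hA)⟩

theorem BEv.and {φ ψ : Subalgebra ℚ ℂ → Prop} (h : BEv φ) (h' : BEv ψ) :
    BEv (fun A => φ A ∧ ψ A) := by
  classical
  obtain ⟨s, hs⟩ := h
  obtain ⟨s', hs'⟩ := h'
  refine ⟨s ∪ s', fun A hA => ⟨hs A fun x hx => hA ?_, hs' A fun x hx => hA ?_⟩⟩
  · simp only [Finset.coe_union]; exact Or.inl hx
  · simp only [Finset.coe_union]; exact Or.inr hx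

theorem BEv.fin {n : ℕ} {φ : Fin n → Subalgebra ℚ ℂ → Prop} (h : ∀ i, BEv (φ i)) :
    BEv (fun A => ∀ i, φ i A) := by
  classical
  choose s hs using h
  refine ⟨Finset.univ.biUnion s, fun A hA i => hs i A fun x hx => hA ?_⟩
  simp only [Finset.coe_biUnion, Finset.coe_univ, Set.mem_univ, Set.iUnion_true, Set.mem_iUnion]
  exact ⟨i, hx⟩

theorem BEv.mem (c : ℂ) : BEv (fun A => c ∈ A) :=
  ⟨{c}, fun A hA => hA (by simp)⟩

theorem BEv.lift1 (u : ℂ[X]) : BEv (fun A => ∃ u' : A[X], u'.map (bι A) = u) := by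
  classical
  refine ⟨u.support.image u.coeff, fun A hA => ?_⟩
  have h : u ∈ Polynomial.lifts (bι A) := by
    rw [Polynomial.lifts_iff_coeff_lifts]
    intro n
    by_cases hn : u.coeff n = 0
    · rw [hn]; exact ⟨0, map_zero _⟩
    · have : u.coeff n ∈ A := hA (by
        simp only [Finset.coe_image, Set.mem_image, Finset.mem_coe, mem_support_iff]
        exact ⟨n, hn, rfl⟩)
      exact ⟨⟨_, this⟩, rfl⟩
  exact (Polynomial.mem_lifts _).1 h

theorem BEv.lift2 (u : ℂ[X][X]) :
    BEv (fun A => ∃ u' : A[X][X], u'.map (mapRingHom (bι A)) = u) := by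
  classical
  have h1 : BEv (fun A => ∀ i : Fin (u.natDegree + 1),
      ∃ w : A[X], w.map (bι A) = u.coeff i) := BEv.fin fun i => BEv.lift1 _
  refine h1.mono fun A hA => ?_
  have h : u ∈ Polynomial.lifts (mapRingHom (bι A)) := by
    rw [Polynomial.lifts_iff_coeff_lifts]
    intro n
    by_cases hn : n ≤ u.natDegree
    · obtain ⟨w, hw⟩ := hA ⟨n, by omega⟩
      exact ⟨w, by simpa using hw⟩
    · rw [Polynomial.coeff_eq_zero_of_natDegree_lt (by omega)]
      exact ⟨0, map_zero _⟩
  exact (Polynomial.mem_lifts _).1 h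

theorem exists_lift (P : ℂ[X][X]) :
    ∃ s : Finset ℂ, ∀ A : Subalgebra ℚ ℂ, (s : Set ℂ) ⊆ (A : Set ℂ) →
      ∃ P' : A[X][X], P'.map (mapRingHom A.val.toRingHom) = P :=
  BEv.lift2 P

theorem bmonic {A : Subalgebra ℚ ℂ} {P : A[X][X]} (h : (P.map (mapRingHom (bι A))).Monic) :
    P.Monic :=
  Polynomial.monic_of_injective (fun _ _ h => bmap_injective A h) h

theorem blead {A : Subalgebra ℚ ℂ} {d : A[X]} (h : IsUnit (d.map (bι A)).leadingCoeff)
    (h' : (d.map (bι A)).leadingCoeff⁻¹ ∈ A) : IsUnit d.leadingCoeff := by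
  have h1 : (d.map (bι A)).leadingCoeff = bι A d.leadingCoeff :=
    Polynomial.leadingCoeff_map_of_injective (bι_injective A) d
  have h2 : d.leadingCoeff * (⟨_, h'⟩ : A) = 1 := by
    apply bι_injective A
    rw [map_mul, map_one, ← h1]
    exact mul_inv_cancel₀ h.ne_zero
  exact IsUnit.of_mul_eq_one _ h2

theorem bmap_ev {A : Subalgebra ℚ ℂ} (t : A) (P : A[X][X]) :
    (ev t P).map (bι A) = ev (bι A t) (P.map (mapRingHom (bι A))) := by
  unfold ev
  rw [Polynomial.map_map, Polynomial.map_map]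
  congr 1
  ext <;> simp

theorem bmap_subT {A : Subalgebra ℚ ℂ} (c : A[X]) (P : A[X][X]) :
    (subT c P).map (mapRingHom (bι A)) = subT (c.map (bι A)) (P.map (mapRingHom (bι A))) := by
  unfold subT
  rw [Polynomial.map_map, Polynomial.map_map]
  congr 1
  apply Polynomial.ringHom_ext
  · intro a; simp
  · simp

theorem bmap_inf2 {A : Subalgebra ℚ ℂ} (D : ℕ) (P : A[X][X]) :
    (inf2 D P).map (mapRingHom (bι A)) = inf2 D (P.map (mapRingHom (bι A))) := by
  unfold inf2
  rw [Polynomial.map_sum]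
  refine Finset.sum_congr rfl fun j _ => ?_
  rw [Polynomial.map_monomial, Polynomial.coeff_map]
  congr 1
  simp only [coe_mapRingHom]
  rw [Polynomial.reflect_map]

theorem bloc {P Q h g : ℂ[X][X]} {d e : ℂ[X]} (hL : Loc P Q h g d e) :
    BEv (fun A => ∀ (P' Q' h' g' : A[X][X]) (d' e' : A[X]),
      P'.map (mapRingHom (bι A)) = P → Q'.map (mapRingHom (bι A)) = Q →
      h'.map (mapRingHom (bι A)) = h → g'.map (mapRingHom (bι A)) = g →
      d'.map (bι A) = d → e'.map (bι A) = e → Loc P' Q' h' g' d' e') := by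
  obtain ⟨k1, hk1⟩ := hL.root
  obtain ⟨k2, hk2⟩ := hL.back
  refine (((BEv.lift2 k1).and (BEv.lift2 k2)).and
    ((BEv.mem d.leadingCoeff⁻¹).and (BEv.mem e.leadingCoeff⁻¹))).mono ?_
  rintro A ⟨⟨⟨k1', hk1'⟩, k2', hk2'⟩, hd, he⟩ P' Q' h' g' d' e' rfl rfl rfl rfl rfl rfl
  have hQ : Q'.Monic := bmonic hL.monic
  refine ⟨hQ, blead hL.d_lead hd, blead hL.e_lead he, ⟨k1', ?_⟩, ⟨k2', ?_⟩⟩
  · apply bmap2_injective A
    simp only [Polynomial.map_mul, Polynomial.map_comp]
    rw [Polynomial.map_scaleRoots _ _ _ (by rw [hQ.leadingCoeff, map_one]; exact one_ne_zero),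
      hk1', ← hk1]
    simp only [coe_mapRingHom]
  · apply bmap2_injective A
    simp only [Polynomial.map_mul, Polynomial.map_comp, Polynomial.map_sub, Polynomial.map_C,
      Polynomial.map_X, coe_mapRingHom]
    rw [hk2', ← hk2]

theorem bBd {P : ℂ[X][X]} (hP : Bd P) :
    BEv (fun A => ∀ P' : A[X][X], P'.map (mapRingHom (bι A)) = P → Bd P') := by
  obtain ⟨Q, h, g, d, e, u, v, hL, huv⟩ := hP
  refine ((bloc hL).and (((BEv.lift2 Q).and ((BEv.lift2 h).and (BEv.lift2 g))).and
    (((BEv.lift1 d).and (BEv.lift1 e)).and ((BEv.lift1 u).and (BEv.lift1 v))))).mono ?_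
  rintro A ⟨hA, ⟨⟨Q', hQ⟩, ⟨h', hh⟩, ⟨g', hg⟩⟩, ⟨⟨d', hd⟩, ⟨e', he⟩⟩, ⟨u', hu⟩, ⟨v', hv⟩⟩ P' hP'
  refine ⟨Q', h', g', d', e', u', v', hA _ _ _ _ _ _ hP' hQ hh hg hd he, ?_⟩
  apply bmap_injective A
  simp only [Polynomial.map_add, Polynomial.map_mul, ← Polynomial.derivative_map, bmap_ev,
    map_zero, hQ, hu, hv, huv, Polynomial.map_one]

theorem bGn {P : ℂ[X][X]} (hP : Gn P) :
    BEv (fun A => ∀ P' : A[X][X], P'.map (mapRingHom (bι A)) = P → Gn P') := by
  obtain ⟨n, Q, h, g, u, v, d, e, r, c, a, b, hL, huv, hsum⟩ := hP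
  refine ((BEv.fin fun i => bloc (hL i)).and
    (((BEv.fin fun i => BEv.lift2 (Q i)).and
      ((BEv.fin fun i => BEv.lift2 (h i)).and (BEv.fin fun i => BEv.lift2 (g i)))).and
    (((BEv.fin fun i => BEv.lift2 (u i)).and (BEv.fin fun i => BEv.lift2 (v i))).and
    (((BEv.fin fun i => BEv.lift1 (d i)).and (BEv.fin fun i => BEv.lift1 (e i))).and
      ((BEv.fin fun i => BEv.lift1 (r i)).and (BEv.fin fun i => BEv.lift1 (c i))))))).mono ?_
  rintro A ⟨hA, ⟨hQ, hh, hg⟩, ⟨hu, hv⟩, ⟨hd, he⟩, hr, hc⟩ P' hP'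
  choose Q' hQ using hQ
  choose h' hh using hh
  choose g' hg using hg
  choose u' hu using hu
  choose v' hv using hv
  choose d' hd using hd
  choose e' he using he
  choose r' hr using hr
  choose c' hc using hc
  refine ⟨n, Q', h', g', u', v', d', e', r', c', a, b,
    fun i => hA i _ _ _ _ _ _ hP' (hQ i) (hh i) (hg i) (hd i) (he i), fun i => ?_, ?_⟩
  · apply bmap2_injective A
    simp only [Polynomial.map_add, Polynomial.map_mul, ← Polynomial.derivative_map, hQ, hu, hv,
      Polynomial.map_C, coe_mapRingHom, hr, huv]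
  · apply bmap_injective A
    simp only [Polynomial.map_sum, Polynomial.map_mul, hc, hr, hsum, Polynomial.map_pow,
      Polynomial.map_X, Polynomial.map_sub, Polynomial.map_one]

theorem PCD.eventually {p q r D : ℕ} {P : ℂ[X][X]} (hP : PCD ℂ p q r D P) :
    ∃ s : Finset ℂ, ∀ A : Subalgebra ℚ ℂ, (s : Set ℂ) ⊆ (A : Set ℂ) →
      ∀ P' : A[X][X], P'.map (mapRingHom A.val.toRingHom) = P → PCD A p q r D P' := by
  refine (((bBd hP.b0).and (bBd hP.b1)).and ((bBd hP.binf).and (bGn hP.gen))).mono ?_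
  rintro A ⟨⟨h0, h1⟩, hinf, hgen⟩ P' rfl
  refine ⟨bmonic hP.monic, ?_, fun j => ?_, h0 _ ?_, h1 _ ?_, hinf _ ?_, hgen _ rfl⟩
  · rw [← hP.deg]
    exact (Polynomial.natDegree_map_eq_of_injective (fun _ _ h => bmap_injective A h) P').symm
  · have := hP.wt j
    rw [Polynomial.coeff_map, coe_mapRingHom,
      Polynomial.natDegree_map_eq_of_injective (bι_injective A)] at this
    exact this
  · rw [bmap_subT]; simp
  · rw [bmap_subT]; simp
  · rw [bmap_subT, bmap_inf2]; simp

end Pool.Agent.UFC
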