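import Mathlib
import Pool.Agent.UFC.Defs

/-!
# UFC, B3: irreducibility is preserved by all specialisations of a finitely generated ring

Let `P : ℂ[X][X]` be monic of degree `D` and irreducible, `B` a bound for the degrees in `T` of the coefficients of `P`.
For a commutative ring `R`, `n₁` and `c : Fin n₁ × Fin (B+1) → R` put
`gf n₁ c = X^n₁ + ∑_{(i,j)} C (C (c (i,j)) * X^j) * X^i : R[X][X]` (general monic polynomial of degree `n₁` in `U` with
coefficients of degree `≤ B` in `T`).  For `0 < n₁ < D` let `σ = (Fin n₁ × Fin (B+1)) ⊕ (Fin (D-n₁) × Fin (B+1))`, and over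
`MvPolynomial σ R` let `E_{ij}` (`i, j : ℕ`) be the coefficients of `P.map C - gf n₁ (X ∘ inl) * gf (D-n₁) (X ∘ inr)`.
* Over `ℂ` the ideal generated by the `E_{ij}` is `⊤`: otherwise it is contained in a maximal ideal, which by the
  Nullstellensatz (`MvPolynomial.isMaximal_iff_eq_vanishingIdeal_singleton`) is the ideal of a point `x`, and evaluating
  at `x` gives `P = gf n₁ x₁ * gf (D-n₁) x₂`, a nontrivial factorisation (monic factors of degrees `n₁, D - n₁ > 0` are not
  units: degree, `ℂ[X]` is a domain).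
* So `1 = ∑_{finite} a_{ij} E_{ij}`; take `s` = all coefficients of all `a_{ij}` for all `n₁`.  If `A ⊇ s` and `P' ↦ P` then the
  same identity holds over `MvPolynomial σ A` (lift the `a_{ij}`, `MvPolynomial.map` is injective).
* Let `f : A →+* ℂ`, `P'' = P'.map (mapRingHom f)`, monic of degree `D` (`P'` is monic because `A → ℂ` is injective).  The
  degrees in `T` of the coefficients of `P''` are `≤ B`.  `P''` is not a unit (`D > 0`: a monic `P` of degree `0` is `1`, not
  irreducible).  If `P'' = G * H` with `G, H` not units, then the leading coefficients of `G, H` are units of `ℂ[X]`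
  (product `1`), we may take `G, H` monic, of degrees `n₁, D - n₁`, both `> 0` (monic of degree `0` is `1`).  The degree in `T`
  of the coefficients of `G` and `H` is `≤ B`: the degree in `T` is additive (`Polynomial.degreeOf`/swap the variables with
  `Polynomial.Bivariate.swap`, `ℂ[X]` is a domain: `natDegree_mul`).  So `G = gf n₁ x₁`, `H = gf (D-n₁) x₂` for some vectors
  over `ℂ`, and the ring homomorphism `MvPolynomial.eval₂Hom f (Sum.elim x₁ x₂)` maps all `E_{ij}` to `0`, hence `1` to `0`: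
  contradiction.
-/

set_option autoImplicit false

namespace Pool.Agent.UFC

open Polynomial

namespace B3

/-- general monic polynomial -/
noncomputable def gf {R : Type*} [CommRing R] (B n : ℕ) (c : Fin n × Fin (B + 1) → R) : R[X][X] :=
  X ^ n + ∑ i : Fin n, ∑ j : Fin (B + 1), C (C (c (i, j)) * X ^ (j : ℕ)) * X ^ (i : ℕ)

theorem gf_map {R S : Type*} [CommRing R] [CommRing S] (B n : ℕ) (c : Fin n × Fin (B + 1) → R)
    (φ : R →+* S) : (gf B n c).map (mapRingHom φ) = gf B n (fun k => φ (c k)) := by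
  simp [gf, Polynomial.map_sum]

theorem gf_monic_natDegree {R : Type*} [CommRing R] [Nontrivial R] (B n : ℕ)
    (c : Fin n × Fin (B + 1) → R) : (gf B n c).Monic ∧ (gf B n c).natDegree = n := by
  have hd : (∑ i : Fin n, ∑ j : Fin (B + 1),
      (C (C (c (i, j)) * X ^ (j : ℕ)) * X ^ (i : ℕ) : R[X][X])).degree < (n : WithBot ℕ) := by
    rw [← mem_degreeLT]
    refine Submodule.sum_mem _ fun i _ => Submodule.sum_mem _ fun j _ => ?_
    rw [mem_degreeLT]
    refine lt_of_le_of_lt (degree_C_mul_X_pow_le _ _) ?_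
    exact_mod_cast i.2
  constructor
  · exact monic_X_pow_add hd
  · have h1 : (gf B n c).degree = n := by
      rw [gf, degree_add_eq_left_of_degree_lt, degree_X_pow]
      rw [degree_X_pow]; exact hd
    exact natDegree_eq_of_degree_eq_some h1

theorem eq_gf {R : Type*} [CommRing R] {B : ℕ} {G : R[X][X]} (hG : G.Monic)
    (hB : ∀ i, (G.coeff i).natDegree ≤ B) :
    G = gf B G.natDegree (fun k => (G.coeff k.1).coeff k.2) := by
  conv_lhs => rw [hG.as_sum]
  rw [gf]
  congr 1
  rw [← Fin.sum_univ_eq_sum_range (fun i => C (G.coeff i) * X ^ i)]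
  refine Finset.sum_congr rfl fun i _ => ?_
  rw [← Finset.sum_mul, ← map_sum]
  congr 2
  conv_lhs => rw [(G.coeff i).as_sum_range_C_mul_X_pow' (n := B + 1) (by have := hB i; omega)]
  rw [← Fin.sum_univ_eq_sum_range (fun j => C ((G.coeff i).coeff j) * X ^ j)]

theorem coeff_swap {R : Type*} [CommRing R] (p : R[X][X]) (i j : ℕ) :
    ((Bivariate.swap p).coeff i).coeff j = (p.coeff j).coeff i := by
  induction p using Polynomial.induction_on' with
  | add p q hp hq => simp [hp, hq]
  | monomial n f =>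
    induction f using Polynomial.induction_on' with
    | add f g hf hg => simp only [map_add, coeff_add, hf, hg]
    | monomial m r =>
      rw [Bivariate.swap_monomial_monomial]
      simp only [coeff_monomial]
      by_cases h1 : m = i <;> by_cases h2 : n = j <;> simp [h1, h2, coeff_monomial]

theorem natDegree_swap_le {R : Type*} [CommRing R] {p : R[X][X]} {B : ℕ} :
    (Bivariate.swap p).natDegree ≤ B ↔ ∀ i, (p.coeff i).natDegree ≤ B := by
  constructor
  · intro h i
    rw [natDegree_le_iff_coeff_eq_zero]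
    intro N hN
    rw [← coeff_swap, coeff_eq_zero_of_natDegree_lt (lt_of_le_of_lt h hN), coeff_zero]
  · intro h
    rw [natDegree_le_iff_coeff_eq_zero]
    intro N hN
    ext j
    rw [coeff_swap, coeff_zero, coeff_eq_zero_of_natDegree_lt (lt_of_le_of_lt (h j) hN)]

/-- T-degrees of factors -/
theorem factor_bound {R : Type*} [CommRing R] [IsDomain R] {G H : R[X][X]} {B : ℕ} (hG : G ≠ 0)
    (hH : H ≠ 0) (h : ∀ i, ((G * H).coeff i).natDegree ≤ B) :
    (∀ i, (G.coeff i).natDegree ≤ B) ∧ (∀ i, (H.coeff i).natDegree ≤ B) := by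
  rw [← natDegree_swap_le] at h
  have hG' : (Bivariate.swap G) ≠ 0 := by
    intro h0; exact hG (by simpa using h0)
  have hH' : (Bivariate.swap H) ≠ 0 := by
    intro h0; exact hH (by simpa using h0)
  rw [map_mul, natDegree_mul hG' hH'] at h
  exact ⟨natDegree_swap_le.1 (by omega), natDegree_swap_le.1 (by omega)⟩

/-- coefficients of the difference -/
noncomputable def E {R : Type*} [CommRing R] (B n₁ n₂ : ℕ) (P : R[X][X]) (k : ℕ × ℕ) :
    MvPolynomial ((Fin n₁ × Fin (B + 1)) ⊕ (Fin n₂ × Fin (B + 1))) R :=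
  ((P.map (mapRingHom MvPolynomial.C) - gf B n₁ (fun a => MvPolynomial.X (Sum.inl a)) *
    gf B n₂ (fun a => MvPolynomial.X (Sum.inr a))).coeff k.1).coeff k.2

theorem E_map {R S : Type*} [CommRing R] [CommRing S] (B n₁ n₂ : ℕ) (P : R[X][X]) (k : ℕ × ℕ)
    (ψ : MvPolynomial ((Fin n₁ × Fin (B + 1)) ⊕ (Fin n₂ × Fin (B + 1))) R →+* S) :
    ψ (E B n₁ n₂ P k) = ((P.map (mapRingHom (ψ.comp MvPolynomial.C)) -
      gf B n₁ (fun a => ψ (MvPolynomial.X (Sum.inl a))) *
      gf B n₂ (fun a => ψ (MvPolynomial.X (Sum.inr a)))).coeff k.1).coeff k.2 := by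
  rw [E, ← gf_map B n₁ (fun a => MvPolynomial.X (Sum.inl a)) ψ,
    ← gf_map B n₂ (fun a => MvPolynomial.X (Sum.inr a)) ψ, ← Polynomial.map_mul]
  have h1 : P.map (mapRingHom (ψ.comp MvPolynomial.C)) =
      (P.map (mapRingHom MvPolynomial.C)).map (mapRingHom ψ) := by
    rw [Polynomial.map_map]
    congr 1
    ext <;> simp
  rw [h1, ← Polynomial.map_sub, coeff_map, coe_mapRingHom, coeff_map]

theorem E_map' {R S : Type*} [CommRing R] [CommRing S] (B n₁ n₂ : ℕ) (P : R[X][X]) (k : ℕ × ℕ)
    (φ : R →+* S) :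
    MvPolynomial.map φ (E B n₁ n₂ P k) = E B n₁ n₂ (P.map (mapRingHom φ)) k := by
  rw [E_map, E]
  simp only [MvPolynomial.map_X]
  rw [Polynomial.map_map]
  have : mapRingHom ((MvPolynomial.map φ).comp
      (MvPolynomial.C (σ := (Fin n₁ × Fin (B + 1)) ⊕ (Fin n₂ × Fin (B + 1))))) =
      (mapRingHom MvPolynomial.C).comp (mapRingHom φ) := by
    rw [mapRingHom_comp]
    congr 1
    ext <;> simp
  rw [this]

theorem cert {P : ℂ[X][X]} (hirr : Irreducible P) (B : ℕ) {n₁ n₂ : ℕ}
    (h₁ : 0 < n₁) (h₂ : 0 < n₂) :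
    ∃ a : (ℕ × ℕ) →₀ MvPolynomial ((Fin n₁ × Fin (B + 1)) ⊕ (Fin n₂ × Fin (B + 1))) ℂ,
      (a.sum fun k r => r * E B n₁ n₂ P k) = 1 := by
  rw [← Finsupp.mem_ideal_span_range_iff_exists_finsupp]
  by_contra hne
  have hne' : Ideal.span (Set.range (E B n₁ n₂ P)) ≠ ⊤ := by
    intro h; apply hne; rw [h]; trivial
  obtain ⟨M, hM, hle⟩ := Ideal.exists_le_maximal _ hne'
  obtain ⟨x, rfl⟩ := MvPolynomial.isMaximal_iff_eq_vanishingIdeal_singleton.1 hM
  have hz : ∀ k, MvPolynomial.eval x (E B n₁ n₂ P k) = 0 := by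
    intro k
    have := hle (Ideal.subset_span ⟨k, rfl⟩)
    rw [MvPolynomial.mem_vanishingIdeal_iff] at this
    simpa using this x (by simp)
  have hP : P = gf B n₁ (fun a => x (Sum.inl a)) * gf B n₂ (fun a => x (Sum.inr a)) := by
    ext i j
    have h1 := hz (i, j)
    rw [E_map] at h1
    have h2 : (MvPolynomial.eval x).comp (MvPolynomial.C (R := ℂ)) = RingHom.id ℂ := by
      ext; simp
    rw [h2] at h1
    simp only [MvPolynomial.eval_X, mapRingHom_id, Polynomial.map_id, coeff_sub] at h1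
    exact sub_eq_zero.1 h1
  obtain ⟨m1, d1⟩ := gf_monic_natDegree B n₁ (fun a => x (Sum.inl a))
  obtain ⟨m2, d2⟩ := gf_monic_natDegree B n₂ (fun a => x (Sum.inr a))
  rcases hirr.isUnit_or_isUnit hP with h | h
  · rw [m1.eq_one_of_isUnit h, natDegree_one] at d1
    omega
  · rw [m2.eq_one_of_isUnit h, natDegree_one] at d2
    omega

theorem cert_fin {P : ℂ[X][X]} (hirr : Irreducible P) (B : ℕ) {n₁ n₂ : ℕ}
    (h₁ : 0 < n₁) (h₂ : 0 < n₂) :
    ∃ s : Finset ℂ, ∀ A : Subalgebra ℚ ℂ, (s : Set ℂ) ⊆ (A : Set ℂ) →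
      ∀ P' : A[X][X], P'.map (mapRingHom A.val.toRingHom) = P →
        ∃ a : (ℕ × ℕ) →₀ MvPolynomial ((Fin n₁ × Fin (B + 1)) ⊕ (Fin n₂ × Fin (B + 1))) A,
      (a.sum fun k r => r * E B n₁ n₂ P' k) = 1 := by
  classical
  obtain ⟨a, ha⟩ := cert hirr B h₁ h₂
  refine ⟨a.support.biUnion (fun k => (a k).coeffs), fun A hA P' hP' => ?_⟩
  have hinj : Function.Injective A.val.toRingHom := Subtype.val_injective
  have h1 : ∀ k, ∃ b : MvPolynomial ((Fin n₁ × Fin (B + 1)) ⊕ (Fin n₂ × Fin (B + 1))) A,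
      MvPolynomial.map A.val.toRingHom b = a k := by
    intro k
    by_cases hk : k ∈ a.support
    · have : a k ∈ Set.range (MvPolynomial.map A.val.toRingHom) := by
        rw [MvPolynomial.mem_range_map_iff_coeffs_subset]
        intro z hz
        have hz' : z ∈ (A : Set ℂ) := hA (by
          rw [Finset.mem_coe, Finset.mem_biUnion]
          exact ⟨k, hk, hz⟩)
        exact ⟨⟨z, hz'⟩, rfl⟩
      exact this
    · refine ⟨0, ?_⟩
      rw [Finsupp.notMem_support_iff.1 hk, map_zero]
  choose b hb using h1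
  have hb0 : ∀ k, b k ≠ 0 → k ∈ a.support := by
    intro k hk
    rw [Finsupp.mem_support_iff]
    intro h0
    apply hk
    apply MvPolynomial.map_injective _ hinj
    rw [hb, h0, map_zero]
  refine ⟨Finsupp.onFinset a.support b hb0, ?_⟩
  apply MvPolynomial.map_injective _ hinj
  rw [Finsupp.onFinset_sum _ (by intro k; simp), map_sum, map_one, ← ha, Finsupp.sum]
  refine Finset.sum_congr rfl fun k _ => ?_
  rw [map_mul, hb]
  congr 1
  rw [E_map', hP']

end B3

open B3

theorem irr_eventually {P : ℂ[X][X]} (hP : P.Monic) (hirr : Irreducible P) :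
    ∃ s : Finset ℂ, ∀ A : Subalgebra ℚ ℂ, (s : Set ℂ) ⊆ (A : Set ℂ) →
      ∀ P' : A[X][X], P'.map (mapRingHom A.val.toRingHom) = P →
        ∀ f : A →+* ℂ, Irreducible (P'.map (mapRingHom f)) := by
  classical
  set D := P.natDegree with hD
  obtain ⟨B, hB⟩ : ∃ B, ∀ i, (P.coeff i).natDegree ≤ B :=
    ⟨(Bivariate.swap P).natDegree, natDegree_swap_le.1 le_rfl⟩
  have hc : ∀ n : ℕ × ℕ, ∃ s : Finset ℂ, 0 < n.1 → 0 < n.2 →
      ∀ A : Subalgebra ℚ ℂ, (s : Set ℂ) ⊆ (A : Set ℂ) →
      ∀ P' : A[X][X], P'.map (mapRingHom A.val.toRingHom) = P →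
        ∃ a : (ℕ × ℕ) →₀ MvPolynomial ((Fin n.1 × Fin (B + 1)) ⊕ (Fin n.2 × Fin (B + 1))) A,
      (a.sum fun k r => r * E B n.1 n.2 P' k) = 1 := by
    intro n
    by_cases h : 0 < n.1 ∧ 0 < n.2
    · obtain ⟨s, hs⟩ := cert_fin hirr B h.1 h.2
      exact ⟨s, fun _ _ => hs⟩
    · exact ⟨∅, fun h1 h2 => absurd ⟨h1, h2⟩ h⟩
  choose s hs using hc
  refine ⟨(Finset.range (D + 1) ×ˢ Finset.range (D + 1)).biUnion s, fun A hA P' hP' f => ?_⟩
  have hinj : Function.Injective A.val.toRingHom := Subtype.val_injective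
  have hinj' : Function.Injective (mapRingHom A.val.toRingHom) := by
    intro p q h
    exact Polynomial.map_injective _ hinj h
  have hmon : P'.Monic := monic_of_injective hinj' (by rw [hP']; exact hP)
  have hdeg : P'.natDegree = D := by
    rw [hD, ← hP', natDegree_map_eq_of_injective hinj']
  have hmon2 : (P'.map (mapRingHom f)).Monic := hmon.map _
  have hdeg2 : (P'.map (mapRingHom f)).natDegree = D := by
    rw [hmon.natDegree_map, hdeg]
  have hDpos : 0 < D := by
    rcases Nat.eq_zero_or_pos D with h | h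
    · exfalso
      have : P = 1 := hP.natDegree_eq_zero.1 (by rw [← hD]; exact h)
      exact hirr.not_isUnit (by rw [this]; exact isUnit_one)
    · exact h
  have hB2 : ∀ i, ((P'.map (mapRingHom f)).coeff i).natDegree ≤ B := by
    intro i
    rw [coeff_map, coe_mapRingHom]
    refine natDegree_map_le.trans ?_
    have h1 : ((P'.coeff i).map A.val.toRingHom).natDegree = (P'.coeff i).natDegree :=
      natDegree_map_eq_of_injective hinj _
    have h2 : (P.coeff i) = (P'.coeff i).map A.val.toRingHom := by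
      rw [← hP', coeff_map, coe_mapRingHom]
    rw [← h1, ← h2]
    exact hB i
  rw [hmon2.irreducible_iff_natDegree]
  refine ⟨?_, ?_⟩
  · intro h
    rw [h, natDegree_one] at hdeg2
    omega
  · intro G H hG hH hGH
    by_contra hcon
    push Not at hcon
    obtain ⟨hG0, hH0⟩ := hcon
    have hsum : G.natDegree + H.natDegree = D := by
      rw [← hG.natDegree_mul hH, hGH, hdeg2]
    obtain ⟨bG, bH⟩ := factor_bound hG.ne_zero hH.ne_zero (B := B) (by rw [hGH]; exact hB2)
    obtain ⟨a, ha⟩ := hs (G.natDegree, H.natDegree) (Nat.pos_of_ne_zero hG0)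
      (Nat.pos_of_ne_zero hH0) A (by
        refine subset_trans ?_ hA
        intro z hz
        rw [Finset.mem_coe, Finset.mem_biUnion]
        refine ⟨(G.natDegree, H.natDegree), ?_, hz⟩
        rw [Finset.mem_product, Finset.mem_range, Finset.mem_range]
        constructor <;> simp only <;> omega) P' hP'
    set x₁ : Fin G.natDegree × Fin (B + 1) → ℂ := fun k => (G.coeff k.1).coeff k.2 with hx₁
    set x₂ : Fin H.natDegree × Fin (B + 1) → ℂ := fun k => (H.coeff k.1).coeff k.2 with hx₂
    set ψ : MvPolynomial ((Fin G.natDegree × Fin (B + 1)) ⊕ (Fin H.natDegree × Fin (B + 1))) A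
      →+* ℂ := MvPolynomial.eval₂Hom f (Sum.elim x₁ x₂) with hψ
    have hz : ∀ k, ψ (E B G.natDegree H.natDegree P' k) = 0 := by
      intro k
      rw [E_map]
      have h2 : ψ.comp MvPolynomial.C = f := by
        ext; simp [hψ]
      have h3 : (fun a => ψ (MvPolynomial.X (Sum.inl a))) = x₁ := by
        ext a; simp [hψ]
      have h4 : (fun a => ψ (MvPolynomial.X (Sum.inr a))) = x₂ := by
        ext a; simp [hψ]
      rw [h2, h3, h4, ← eq_gf hG bG, ← eq_gf hH bH, hGH, sub_self, coeff_zero, coeff_zero]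
    have := congrArg ψ ha
    rw [Finsupp.sum, map_sum, map_one] at this
    have h0 : ∑ k ∈ a.support, ψ (a k * E B G.natDegree H.natDegree P' k) = 0 := by
      refine Finset.sum_eq_zero fun k _ => ?_
      rw [map_mul, hz, mul_zero]
    rw [h0] at this
    exact zero_ne_one this

end Pool.Agent.UFC
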