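import Mathlib

/-!
# UFC, B4: a finitely generated subring of the complex numbers has an algebraic point

Let `A` be a finitely generated `ℚ`-subalgebra of `ℂ`.  It is nontrivial; let `m` be a maximal ideal.  `A/m` is a field, of
finite type over `ℚ`, hence finite over `ℚ` (Zariski's lemma, `finite_of_finite_type_of_isJacobsonRing`), so algebraic; let
`g : A/m →ₐ[ℚ] ℂ` (`IsAlgClosed.lift`) and `K = g.fieldRange`, finite dimensional over `ℚ`.  `A → A/m → K`.
-/

set_option autoImplicit false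

namespace Pool.Agent.UFC

theorem exists_alg_point (A : Subalgebra ℚ ℂ) (hA : A.FG) :
    ∃ K : IntermediateField ℚ ℂ, FiniteDimensional ℚ K ∧ Nonempty (A →+* K) := by
  obtain ⟨m, hm⟩ := Ideal.exists_maximal A
  haveI : Algebra.FiniteType ℚ A := (Subalgebra.fg_iff_finiteType A).1 hA
  have h1 : Algebra.FiniteType ℚ (A ⧸ m) :=
    Algebra.FiniteType.of_surjective (Ideal.Quotient.mkₐ ℚ m) (Ideal.Quotient.mkₐ_surjective ℚ m)
  letI : Field (A ⧸ m) := Ideal.Quotient.field m
  have h2 : Module.Finite ℚ (A ⧸ m) := finite_of_finite_type_of_isJacobsonRing ℚ (A ⧸ m)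
  haveI := h2
  have h3 : Algebra.IsAlgebraic ℚ (A ⧸ m) := Algebra.IsAlgebraic.of_finite ℚ (A ⧸ m)
  haveI := h3
  let g : (A ⧸ m) →ₐ[ℚ] ℂ := IsAlgClosed.lift
  refine ⟨g.fieldRange, ?_, ⟨(g.rangeRestrict : (A ⧸ m) →+* g.range).comp (Ideal.Quotient.mk m)⟩⟩
  exact Module.Finite.of_surjective (g.rangeRestrict.toLinearMap : (A ⧸ m) →ₗ[ℚ] g.range)
    g.rangeRestrict_surjective

end Pool.Agent.UFC
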