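import Mathlib
import Pool.Agent.UFC.Defs

/-!
# UFC, part C: inertia. Definitions.

`A` is a valuation ring of a field `M` (the valuation ring of a prime ideal above `l` in a number field).
`Inert A σ` says that the automorphism `σ` of `M` maps `A` to itself and acts trivially on the residue
field of `A`.
-/

set_option autoImplicit false

namespace Pool.Agent.UFC

open Polynomial

/-- `σ` lies in the inertia group of `A` -/
def Inert {M : Type*} [Field M] (A : ValuationSubring M) (σ : M ≃+* M) : Prop :=
  ∀ a ∈ A, A.valuation (σ a - a) < 1

theorem Inert.mem {M : Type*} [Field M] {A : ValuationSubring M} {σ : M ≃+* M} (h : Inert A σ)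
    {a : M} (ha : a ∈ A) : σ a ∈ A := by
  have h1 : σ a - a ∈ A := (A.valuation_le_one_iff _).1 (h a ha).le
  have h2 : σ a = (σ a - a) + a := by ring
  rw [h2]
  exact A.add_mem _ _ h1 ha

end Pool.Agent.UFC
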