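import Mathlib
import Pool.Agent.UFC.C0

/-!
# UFC, module C1: inertia fixes the roots of polynomials with separable reduction

PROOF.  `A` is integrally closed and `F` is monic over `A`, so `β ∈ A`; `σ β` is a root of `F` as well
(apply `σ` to `F(β) = 0`, `F.map σ = F`), and `σ β ≡ β` modulo the maximal ideal (`Inert`).  Suppose `σ β ≠ β`.
Then `F = (X - β) (X - σ β) G` with `G` over `A` (division by monic polynomials over the subring `A`, or: `(X-β) ∣ F`
over `A`, quotient `F1` over `A`, `F1(σ β) (σ β - β) = 0`, so `F1(σ β) = 0`, and `F'(β) = F1(β) ≡ F1(σ β) = 0` modulo the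
maximal ideal).  So `F(β) = 0` and `F'(β)` is in the maximal ideal; as `F₀ ≡ F` coefficientwise, `F₀(β)` and `F₀'(β)` are
in the maximal ideal, so `ρ = u(β) F₀(β) + v(β) F₀'(β)` is in the maximal ideal, contradicting `hρ`.
It is convenient to work in the quotient by the maximal ideal: reduce everything to `A[X]` first
(`F ∈ lifts A.subtype`, `Polynomial.lifts_iff_coeff_lifts`), residue field `IsLocalRing.ResidueField A`.
-/

set_option autoImplicit false

namespace Pool.Agent.UFC

open Polynomial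

theorem fr_ev_lt {M : Type*} [Field M] (A : ValuationSubring M) (D : M[X]) (x : M)
    (hD : ∀ i, A.valuation (D.coeff i) < 1) (hx : A.valuation x ≤ 1) :
    A.valuation (D.eval x) < 1 := by
  rw [eval_eq_sum_range]
  refine Valuation.map_sum_lt _ one_ne_zero fun i _ => ?_
  rw [map_mul, map_pow]
  exact mul_lt_one_of_lt_of_le (hD i) (pow_le_one' hx i)

theorem fr_ev_le {M : Type*} [Field M] (A : ValuationSubring M) (D : M[X]) (x : M)
    (hD : ∀ i, D.coeff i ∈ A) (hx : A.valuation x ≤ 1) :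
    A.valuation (D.eval x) ≤ 1 := by
  rw [eval_eq_sum_range]
  refine Valuation.map_sum_le _ fun i _ => ?_
  rw [map_mul, map_pow]
  exact mul_le_one' ((A.valuation_le_one_iff _).2 (hD i)) (pow_le_one' hx i)

theorem fixed_root {M : Type*} [Field M] (A : ValuationSubring M) (σ : M ≃+* M) (hσ : Inert A σ)
    (F F₀ u v : M[X]) (ρ β : M) (hF : F.Monic) (hFA : ∀ i, F.coeff i ∈ A)
    (hF0 : ∀ i, A.valuation (F.coeff i - F₀.coeff i) < 1)
    (hu : ∀ i, u.coeff i ∈ A) (hv : ∀ i, v.coeff i ∈ A) (hρ : A.valuation ρ = 1)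
    (huv : u * F₀ + v * derivative F₀ = C ρ) (hfix : F.map (σ : M →+* M) = F)
    (hβ : F.eval β = 0) : σ β = β := by
  by_contra hne
  -- lift F to A
  obtain ⟨FA, hFAm, hFAmonic⟩ : ∃ FA : A[X], FA.map (algebraMap A M) = F ∧ FA.Monic := by
    have h1 : F ∈ lifts (algebraMap A M) := by
      rw [lifts_iff_coeff_lifts]
      intro i
      exact ⟨⟨F.coeff i, hFA i⟩, rfl⟩
    obtain ⟨q, hq, _, hqm⟩ := lifts_and_degree_eq_and_monic h1 hF
    exact ⟨q, hq, hqm⟩
  have hinj : Function.Injective (algebraMap A M) := Subtype.coe_injective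
  have hβA : β ∈ A := by
    have hint : IsIntegral A β := by
      refine ⟨FA, hFAmonic, ?_⟩
      rw [← eval_map, hFAm, hβ]
    obtain ⟨y, hy⟩ := IsIntegrallyClosed.isIntegral_iff.1 hint
    rw [← hy]
    exact y.2
  have hσA : σ β ∈ A := hσ.mem hβA
  have hσβ : F.eval (σ β) = 0 := by
    have h1 : (F.map (σ : M →+* M)).eval ((σ : M →+* M) β) = (σ : M →+* M) (F.eval β) := by
      rw [eval_map, eval₂_hom]
    rw [hfix, hβ, map_zero] at h1
    exact h1
  have hevA : ∀ (G : A[X]) (a : A), ((G.eval a : A) : M) = (G.map (algebraMap A M)).eval (a : M) := by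
    intro G a
    rw [eval_map]
    exact (eval₂_hom (algebraMap A M) a).symm
  have hb0 : FA.eval ⟨β, hβA⟩ = 0 := by
    apply hinj
    have := hevA FA ⟨β, hβA⟩
    rw [hFAm] at this
    change ((FA.eval ⟨β, hβA⟩ : A) : M) = _
    rw [this, map_zero]
    exact hβ
  have hb1 : FA.eval ⟨σ β, hσA⟩ = 0 := by
    apply hinj
    have := hevA FA ⟨σ β, hσA⟩
    rw [hFAm] at this
    change ((FA.eval ⟨σ β, hσA⟩ : A) : M) = _
    rw [this, map_zero]
    exact hσβ
  obtain ⟨G, hG⟩ := dvd_iff_isRoot.2 hb0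
  have hG1 : G.eval ⟨σ β, hσA⟩ = 0 := by
    rw [hG, eval_mul, eval_sub, eval_X, eval_C] at hb1
    rcases mul_eq_zero.1 hb1 with h | h
    · exfalso
      apply hne
      have := congrArg (fun z : A => (z : M)) (sub_eq_zero.1 h)
      exact this
    · exact h
  have hG0 : A.valuation ((G.eval ⟨β, hβA⟩ : A) : M) < 1 := by
    obtain ⟨w, hw⟩ := sub_dvd_eval_sub (⟨σ β, hσA⟩ : A) ⟨β, hβA⟩ G
    rw [hG1, zero_sub] at hw
    have h1 : ((G.eval ⟨β, hβA⟩ : A) : M) = -((σ β - β) * (w : M)) := by
      have := congrArg (fun z : A => (z : M)) (neg_eq_iff_eq_neg.1 hw)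
      exact this
    rw [h1, Valuation.map_neg, map_mul]
    exact mul_lt_one_of_lt_of_le (hσ β hβA) ((A.valuation_le_one_iff _).2 w.2)
  have hFd : A.valuation ((derivative F).eval β) < 1 := by
    have h1 : (derivative FA).eval ⟨β, hβA⟩ = G.eval ⟨β, hβA⟩ := by
      rw [hG, derivative_mul, eval_add, eval_mul, eval_mul]
      simp
    have h2 := hevA (derivative FA) ⟨β, hβA⟩
    rw [← derivative_map, hFAm, h1] at h2
    change ((G.eval ⟨β, hβA⟩ : A) : M) = (derivative F).eval β at h2
    rw [← h2]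
    exact hG0
  have hβ1 : A.valuation β ≤ 1 := (A.valuation_le_one_iff _).2 hβA
  have hD0 : A.valuation ((F - F₀).eval β) < 1 := by
    apply fr_ev_lt A _ _ _ hβ1
    intro i
    rw [coeff_sub]
    exact hF0 i
  have hD1 : A.valuation ((derivative (F - F₀)).eval β) < 1 := by
    apply fr_ev_lt A _ _ _ hβ1
    intro i
    rw [coeff_derivative, map_mul, coeff_sub]
    refine mul_lt_one_of_lt_of_le (hF0 _) ?_
    rw [A.valuation_le_one_iff]
    exact A.add_mem _ _ (natCast_mem A i) A.one_mem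
  have hE0 : A.valuation (F₀.eval β) < 1 := by
    have h1 : F₀.eval β = F.eval β - (F - F₀).eval β := by rw [eval_sub]; ring
    rw [h1, hβ, zero_sub, Valuation.map_neg]
    exact hD0
  have hE1 : A.valuation ((derivative F₀).eval β) < 1 := by
    have h1 : (derivative F₀).eval β = (derivative F).eval β - (derivative (F - F₀)).eval β := by
      rw [derivative_sub, eval_sub]; ring
    rw [h1]
    exact Valuation.map_sub_lt _ hFd hD1
  have h1 := congrArg (eval β) huv
  rw [eval_add, eval_mul, eval_mul, eval_C] at h1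
  have h2 : A.valuation ρ < 1 := by
    rw [← h1]
    refine Valuation.map_add_lt _ ?_ ?_
    · rw [map_mul, mul_comm]
      exact mul_lt_one_of_lt_of_le hE0 (fr_ev_le A _ _ hu hβ1)
    · rw [map_mul, mul_comm]
      exact mul_lt_one_of_lt_of_le hE1 (fr_ev_le A _ _ hv hβ1)
  exact absurd hρ h2.ne

end Pool.Agent.UFC
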