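import Mathlib
import Pool.Agent.UFC.C0

/-!
# UFC, module C2: rational numbers and radicals

`A` is a valuation ring of `M` in which the prime number `l` is not a unit.

* `val_nat`: a natural number prime to `l` is a unit of `A` (Bezout: `a m + b l = 1`, if `val m < 1` then
  `val 1 < 1`; integers are in `A`).
* `val_rat_eq_one`, `val_rat_lt_one`: `t = l^v a / b` with `a, b` prime to `l`.
* `fixed_radical`: `w^k = t`, `k` prime to `l`, `k ∣ v_l(t)`.  Put `w' = w / l^(v/k)` (zpow), so
  `val (w'^k) = val (t / l^v) = 1`, hence `val w' = 1`, `w' ∈ A`.  `ξ = σ w' / w'` satisfies `ξ^k = 1` and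
  `val (ξ - 1) < 1`.  From `0 = ξ^k - 1 = (ξ - 1) (1 + ξ + .. + ξ^(k-1))` and
  `1 + ξ + .. + ξ^(k-1) ≡ k` modulo the maximal ideal, `k` a unit of `A`: `ξ = 1`.
* `val_radical`: `w^k = t`, `val t < 1` implies `val w < 1`.
-/

set_option autoImplicit false

namespace Pool.Agent.UFC

open Polynomial

variable {M : Type*} [Field M] [CharZero M] (A : ValuationSubring M) (l : ℕ) (hl : l.Prime)
  (hlA : A.valuation (l : M) < 1)

theorem val_int_le {M : Type*} [Field M] (A : ValuationSubring M) (n : ℤ) :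
    A.valuation (n : M) ≤ 1 :=
  (A.valuation_le_one_iff _).2 (intCast_mem A n)

include hl hlA in
theorem val_nat (m : ℕ) (hm : ¬ l ∣ m) : A.valuation (m : M) = 1 := by
  have hle : A.valuation (m : M) ≤ 1 := by
    have h := val_int_le A (m : ℤ)
    simpa using h
  refine le_antisymm hle (not_lt.1 fun hlt => ?_)
  have hco : Nat.Coprime m l := ((Nat.Prime.coprime_iff_not_dvd hl).2 hm).symm
  obtain ⟨a, b, hab⟩ := (Nat.isCoprime_iff_coprime.2 hco)
  have h1 : (1 : M) = (a : M) * (m : M) + (b : M) * (l : M) := by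
    have h2 := congrArg (fun n : ℤ => (n : M)) hab
    simp only [Int.cast_add, Int.cast_mul, Int.cast_natCast, Int.cast_one] at h2
    exact h2.symm
  have h3 : A.valuation (1 : M) < 1 := by
    rw [h1]
    refine (A.valuation.map_add _ _).trans_lt (max_lt ?_ ?_)
    · rw [map_mul]
      exact (mul_le_mul_left (val_int_le A a) _).trans_lt (by rw [one_mul]; exact hlt)
    · rw [map_mul]
      exact (mul_le_mul_left (val_int_le A b) _).trans_lt (by rw [one_mul]; exact hlA)
  rw [map_one] at h3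
  exact lt_irrefl _ h3

include hl hlA in
theorem val_nat_pow (m : ℕ) (hm : m ≠ 0) :
    A.valuation (m : M) = A.valuation (l : M) ^ padicValNat l m := by
  have := Fact.mk hl
  obtain ⟨q, hq⟩ := pow_padicValNat_dvd (p := l) (n := m)
  have hql : ¬ l ∣ q := by
    intro h
    obtain ⟨r, hr⟩ := h
    have h1 : l ^ (padicValNat l m + 1) ∣ m := by
      refine ⟨r, ?_⟩
      rw [pow_succ, mul_assoc, ← hr]
      exact hq
    exact pow_succ_padicValNat_not_dvd hm h1
  have h2 : (m : M) = (l : M) ^ padicValNat l m * (q : M) := by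
    have h3 := congrArg (fun n : ℕ => (n : M)) hq
    simpa using h3
  rw [h2, map_mul, map_pow, val_nat A l hl hlA q hql, mul_one]

omit [CharZero M] in
theorem val_natAbs {M : Type*} [Field M] (A : ValuationSubring M) (n : ℤ) :
    A.valuation (n : M) = A.valuation (n.natAbs : M) := by
  rcases Int.natAbs_eq n with h | h
  · have h1 : ((n : ℤ) : M) = ((n.natAbs : ℤ) : M) := congrArg (fun k : ℤ => (k : M)) h
    rw [h1, Int.cast_natCast]
  · have h1 : ((n : ℤ) : M) = ((-(n.natAbs : ℤ) : ℤ) : M) := congrArg (fun k : ℤ => (k : M)) h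
    rw [h1, Int.cast_neg, Valuation.map_neg, Int.cast_natCast]

include hl hlA in
theorem val_rat (t : ℚ) (ht : t ≠ 0) :
    A.valuation (t : M) = A.valuation (l : M) ^ padicValRat l t := by
  have hl0 : A.valuation (l : M) ≠ 0 := by
    rw [ne_eq, map_eq_zero]
    exact_mod_cast hl.ne_zero
  have h1 : (t : M) = (t.num : M) / (t.den : M) := Rat.cast_def t
  rw [h1, map_div₀, val_natAbs A t.num, val_nat_pow A l hl hlA t.num.natAbs (by simpa using ht),
    val_nat_pow A l hl hlA t.den t.den_ne_zero, padicValRat_def, padicValInt, zpow_sub₀ hl0,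
    zpow_natCast, zpow_natCast]

include hl hlA in
theorem val_rat_eq_one (t : ℚ) (ht : t ≠ 0) (h : padicValRat l t = 0) :
    A.valuation (t : M) = 1 := by
  rw [val_rat A l hl hlA t ht, h, zpow_zero]

include hl hlA in
theorem val_rat_lt_one (t : ℚ) (ht : t ≠ 0) (h : 0 < padicValRat l t) :
    A.valuation (t : M) < 1 := by
  rw [val_rat A l hl hlA t ht]
  obtain ⟨n, hn⟩ := Int.eq_ofNat_of_zero_le h.le
  rw [hn, zpow_natCast]
  exact pow_lt_one₀ zero_le' hlA (by omega)

theorem val_radical (k : ℕ) (w : M) (h : A.valuation (w ^ k) < 1) : A.valuation w < 1 := by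
  by_contra h1
  rw [map_pow] at h
  exact absurd h (not_lt.2 (one_le_pow₀ (not_lt.1 h1)))

include hl hlA in
/-- a root of unity of order prime to `l` which is congruent to `1` is `1` -/
theorem root_one (k : ℕ) (hkl : ¬ l ∣ k) (ξ : M) (hξ : ξ ^ k = 1) (h1 : A.valuation (ξ - 1) < 1) :
    ξ = 1 := by
  by_contra hne
  have hξ1 : A.valuation ξ ≤ 1 := by
    have h2 : ξ = (ξ - 1) + 1 := by ring
    rw [h2]
    refine (A.valuation.map_add _ _).trans (max_le h1.le ?_)
    rw [map_one]
  have h3 : ∀ i : ℕ, A.valuation (ξ ^ i - 1) < 1 := by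
    intro i
    induction i with
    | zero => simp
    | succ i ih =>
      have h4 : ξ ^ (i + 1) - 1 = ξ * (ξ ^ i - 1) + (ξ - 1) := by ring
      rw [h4]
      refine (A.valuation.map_add _ _).trans_lt (max_lt ?_ h1)
      rw [map_mul]
      exact (mul_le_mul_left hξ1 _).trans_lt (by rw [one_mul]; exact ih)
  have h5 : ∑ i ∈ Finset.range k, ξ ^ i = 0 := by
    have h6 := mul_geom_sum ξ k
    rw [hξ, sub_self] at h6
    exact (mul_eq_zero.1 h6).resolve_left (sub_ne_zero.2 hne)
  have h7 : A.valuation (k : M) < 1 := by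
    have h8 : (k : M) = - ∑ i ∈ Finset.range k, (ξ ^ i - 1) := by
      rw [Finset.sum_sub_distrib, h5]
      simp
    rw [h8, Valuation.map_neg]
    exact Valuation.map_sum_lt _ one_ne_zero (fun i _ => h3 i)
  rw [val_nat A l hl hlA k hkl] at h7
  exact lt_irrefl _ h7

include hl hlA in
theorem fixed_radical (σ : M ≃+* M) (hσ : Inert A σ) (k : ℕ) (hk : 0 < k) (hkl : ¬ l ∣ k)
    (t : ℚ) (ht : t ≠ 0) (w : M) (hw : w ^ k = (t : M)) (hdiv : (k : ℤ) ∣ padicValRat l t) :
    σ w = w := by
  obtain ⟨j, hj⟩ := hdiv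
  have hl0 : (l : M) ≠ 0 := by exact_mod_cast hl.ne_zero
  have hvl0 : A.valuation (l : M) ≠ 0 := by
    rw [ne_eq, map_eq_zero]
    exact hl0
  have ht0 : (t : M) ≠ 0 := by exact_mod_cast ht
  have hw0 : w ≠ 0 := by
    intro h
    rw [h, zero_pow hk.ne'] at hw
    exact ht0 hw.symm
  have hp0 : (l : M) ^ j ≠ 0 := zpow_ne_zero _ hl0
  obtain ⟨w', hw'⟩ : ∃ w', w' = w / (l : M) ^ j := ⟨_, rfl⟩
  have hw'0 : w' ≠ 0 := by
    rw [hw']
    exact div_ne_zero hw0 hp0
  have hww : w = w' * (l : M) ^ j := by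
    rw [hw']
    field_simp
  have hvk : A.valuation w' ^ k = 1 := by
    rw [← map_pow, hw', div_pow, hw, map_div₀, val_rat A l hl hlA t ht, hj, map_pow, map_zpow₀,
      ← zpow_natCast, ← zpow_mul, mul_comm j (k : ℤ)]
    exact div_self (zpow_ne_zero _ hvl0)
  have hv1 : A.valuation w' = 1 := (pow_eq_one_iff_of_nonneg zero_le' hk.ne').1 hvk
  have hσl : σ ((l : M) ^ j) = (l : M) ^ j := by
    rw [map_zpow₀, map_natCast]
  have hσt : σ (t : M) = (t : M) := map_ratCast σ t
  have h1 : (σ w' / w') ^ k = 1 := by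
    have h2 : (σ w') ^ k = w' ^ k := by
      rw [← map_pow, hw', div_pow, hw, map_div₀, map_pow, hσl, hσt]
    rw [div_pow, h2]
    exact div_self (pow_ne_zero _ hw'0)
  have h3 : A.valuation (σ w' / w' - 1) < 1 := by
    have h4 : σ w' / w' - 1 = (σ w' - w') / w' := by
      field_simp
    rw [h4, map_div₀, hv1, div_one]
    exact hσ w' ((A.valuation_le_one_iff _).1 hv1.le)
  have h5 := root_one A l hl hlA k hkl _ h1 h3
  have h6 : σ w' = w' := by
    rw [div_eq_one_iff_eq hw'0] at h5
    exact h5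
  rw [hww, map_mul, h6, hσl]

end Pool.Agent.UFC
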