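import Mathlib

/-!
# UFC, C2a: the different of a Galois number field is not divisible by a large power of a prime

Let `M/ℚ` be of degree `n`, `l` a prime, `k = v_l(n)`.  Claim: `l^(k+1)` does not divide the different `𝔇`.
Suppose it does.  Then `l^(-(k+1)) ∈ 𝔇⁻¹ = ` dual of `O_M` for the trace form, so `Tr(l^(-(k+1))) = n / l^(k+1)` is an integer:
contradiction.  (No Galois hypothesis is needed.)
-/

set_option autoImplicit false

namespace Pool.Agent.UFC

theorem not_pow_dvd_different (M : Type) [Field M] [NumberField M] [IsGalois ℚ M] (l : ℕ) (hl : l.Prime) :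
    ¬ (Ideal.span {((l : NumberField.RingOfIntegers M)) ^
        (padicValNat l (Module.finrank ℚ M) + 1)} : Ideal (NumberField.RingOfIntegers M)) ∣
      differentIdeal ℤ (NumberField.RingOfIntegers M) := by
  intro h
  have hle := Ideal.dvd_iff_le.1 h
  set N : ℕ := l ^ (padicValNat l (Module.finrank ℚ M) + 1) with hN
  have hN0 : N ≠ 0 := pow_ne_zero _ hl.ne_zero
  have hspan : (Ideal.span {((l : NumberField.RingOfIntegers M)) ^
      (padicValNat l (Module.finrank ℚ M) + 1)} : Ideal (NumberField.RingOfIntegers M)) =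
      Ideal.span {((N : ℕ) : NumberField.RingOfIntegers M)} := by
    rw [hN]; push_cast; rfl
  rw [hspan] at hle
  have hI : (Ideal.span {((N : ℕ) : NumberField.RingOfIntegers M)} :
      Ideal (NumberField.RingOfIntegers M)) ≠ ⊥ := by
    rw [Ne, Ideal.span_singleton_eq_bot]
    exact_mod_cast hN0
  rw [differentialIdeal_le_iff (K := ℚ) (L := M) hI] at hle
  have hmem : ((N : M))⁻¹ ∈
      ((((Ideal.span {((N : ℕ) : NumberField.RingOfIntegers M)} :
        Ideal (NumberField.RingOfIntegers M)) :
        FractionalIdeal (nonZeroDivisors (NumberField.RingOfIntegers M)) M)⁻¹ :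
        FractionalIdeal (nonZeroDivisors (NumberField.RingOfIntegers M)) M) :
        Submodule (NumberField.RingOfIntegers M) M) := by
    rw [FractionalIdeal.coeIdeal_span_singleton, FractionalIdeal.spanSingleton_inv]
    rw [FractionalIdeal.mem_coe]
    simp only [map_natCast]
    exact FractionalIdeal.mem_spanSingleton_self _ _
  have htr := hle ⟨_, hmem, rfl⟩
  obtain ⟨m, hm⟩ := Submodule.mem_one.1 htr
  have h1 : ((N : M))⁻¹ = algebraMap ℚ M ((N : ℚ)⁻¹) := by simp
  have h2 : Algebra.trace ℚ M ((N : M))⁻¹ = (Module.finrank ℚ M : ℚ) * (N : ℚ)⁻¹ := by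
    rw [h1, Algebra.trace_algebraMap]; simp
  have h3 : (m : ℚ) = (Module.finrank ℚ M : ℚ) * (N : ℚ)⁻¹ := by
    rw [← h2]; simpa using hm
  have hNq : (N : ℚ) ≠ 0 := by exact_mod_cast hN0
  have h4 : (m : ℚ) * N = Module.finrank ℚ M := by
    rw [h3]; field_simp
  have h5 : (N : ℤ) ∣ (Module.finrank ℚ M : ℤ) := ⟨m, by
    have : m * (N : ℤ) = (Module.finrank ℚ M : ℤ) := by exact_mod_cast h4
    rw [← this, mul_comm]⟩
  have h6 : N ∣ Module.finrank ℚ M := by exact_mod_cast h5
  have hn : Module.finrank ℚ M ≠ 0 := Module.finrank_pos.ne'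
  have : Fact l.Prime := ⟨hl⟩
  exact pow_succ_padicValNat_not_dvd hn h6

end Pool.Agent.UFC
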