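import Mathlib
import Pool.Agent.UFC.C2a

/-!
# UFC, C2b: bound for the discriminant of a Galois number field with given ramified primes

`|disc M| = N(𝔇)`, `𝔇 = differentIdeal ℤ (𝓞 M)` (`NumberField.absNorm_differentIdeal`).  Let `n = [M : ℚ]`.  It is enough that
`𝔇 ∣ (nB)`: then `N(𝔇) ∣ N((nB)) = (nB)^n` (`Ideal.absNorm_span_natCast` or `absNorm_span_singleton`, `Algebra.norm_algebraMap`).
Let `P` be a prime ideal dividing `𝔇`, `l` the prime number in `P`.  `N(P) ∣ N(𝔇)` and `N(P)` is a power of `l`, `> 1`, so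
`l ∣ disc M`, hence `l ∣ B`.  Let `k = v_l(n)`, `e` the ramification index of `P` over `l`.  `𝔇` is invariant under
`Gal(M/ℚ)` (the trace form is), and the Galois group is transitive on the primes above `l`, all of ramification index `e`: if
`P^(e(k+1)) ∣ 𝔇` then all `P'^(e(k+1)) ∣ 𝔇` for `P' ∣ l`, so their product `(l^(k+1)) ∣ 𝔇`, contradiction to `C2a`.  So
`v_P(𝔇) < e(k+1) = v_P(l^(k+1)) ≤ v_P(nB)`, since `l^(k+1) ∣ nB`.
-/

set_option autoImplicit false

namespace Pool.Agent.UFC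

namespace C2bAux

open NumberField Pointwise nonZeroDivisors

/-- elementwise description of the different -/
theorem mem_diff (M : Type) [Field M] [NumberField M] (x : 𝓞 M) :
    x ∈ differentIdeal ℤ (𝓞 M) ↔
      ∀ y : M, (∀ z : 𝓞 M, ∃ k : ℤ, Algebra.trace ℚ M (y * (z : M)) = (k : ℚ)) →
        ∃ w : 𝓞 M, (x : M) * y = (w : M) := by
  have h1 : x ∈ differentIdeal ℤ (𝓞 M) ↔ (algebraMap (𝓞 M) M x) ∈
      ((differentIdeal ℤ (𝓞 M) : Ideal (𝓞 M)) : FractionalIdeal (𝓞 M)⁰ M) := by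
    rw [FractionalIdeal.mem_coeIdeal]
    constructor
    · intro h
      exact ⟨x, h, rfl⟩
    · rintro ⟨x', hx', h⟩
      have := FaithfulSMul.algebraMap_injective (𝓞 M) M h
      rwa [← this]
  have h10 : (1 : FractionalIdeal (𝓞 M)⁰ M) ≠ 0 := one_ne_zero
  rw [h1, coeIdeal_differentIdeal ℤ ℚ M (𝓞 M), FractionalIdeal.mem_inv_iff
    (FractionalIdeal.dual_ne_zero ℤ ℚ h10)]
  constructor
  · intro h y hy
    have h2 : y ∈ FractionalIdeal.dual ℤ ℚ (1 : FractionalIdeal (𝓞 M)⁰ M) := by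
      rw [FractionalIdeal.mem_dual h10]
      intro a ha
      obtain ⟨z, hz⟩ := (FractionalIdeal.mem_one_iff _).mp ha
      obtain ⟨k, hk⟩ := hy z
      refine ⟨k, ?_⟩
      rw [Algebra.traceForm_apply, ← hz]
      exact hk.symm
    obtain ⟨w, hw⟩ := (FractionalIdeal.mem_one_iff _).mp (h y h2)
    exact ⟨w, hw.symm⟩
  · intro h y hy
    rw [FractionalIdeal.mem_dual h10] at hy
    obtain ⟨w, hw⟩ := h y (fun z => by
      obtain ⟨k, hk⟩ := hy (algebraMap (𝓞 M) M z) ((FractionalIdeal.mem_one_iff _).mpr ⟨z, rfl⟩)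
      exact ⟨k, hk.symm⟩)
    exact (FractionalIdeal.mem_one_iff _).mpr ⟨w, hw.symm⟩

theorem smul_mem_diff (M : Type) [Field M] [NumberField M] (σ : M ≃ₐ[ℚ] M) {x : 𝓞 M}
    (hx : x ∈ differentIdeal ℤ (𝓞 M)) : σ • x ∈ differentIdeal ℤ (𝓞 M) := by
  rw [mem_diff] at hx ⊢
  intro y hy
  obtain ⟨w, hw⟩ := hx (σ.symm y) (fun z => by
    obtain ⟨k, hk⟩ := hy (σ • z)
    refine ⟨k, ?_⟩
    rw [← hk, ← Algebra.trace_eq_of_algEquiv σ (σ.symm y * (z : M)), map_mul,
      AlgEquiv.apply_symm_apply]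
    rfl)
  refine ⟨σ • w, ?_⟩
  have h1 : ((σ • x : 𝓞 M) : M) = σ (x : M) := rfl
  have h2 : ((σ • w : 𝓞 M) : M) = σ (w : M) := rfl
  rw [h1, h2, ← hw, map_mul, AlgEquiv.apply_symm_apply]

theorem smul_diff (M : Type) [Field M] [NumberField M] (σ : M ≃ₐ[ℚ] M) :
    σ • differentIdeal ℤ (𝓞 M) = differentIdeal ℤ (𝓞 M) := by
  ext x
  rw [Ideal.mem_pointwise_smul_iff_inv_smul_mem]
  constructor
  · intro h
    have := smul_mem_diff M σ h
    rwa [smul_inv_smul] at this
  · exact fun h => smul_mem_diff M σ⁻¹ h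

theorem smul_span (M : Type) [Field M] [NumberField M] (σ : M ≃ₐ[ℚ] M) (a : ℕ) :
    σ • (Ideal.span {(a : 𝓞 M)} : Ideal (𝓞 M)) = Ideal.span {(a : 𝓞 M)} := by
  rw [Ideal.pointwise_smul_def, Ideal.map_span, Set.image_singleton]
  congr 2
  exact map_natCast _ _

theorem pow_dvd_smul (M : Type) [Field M] [NumberField M] (σ : M ≃ₐ[ℚ] M) {P I : Ideal (𝓞 M)}
    {j : ℕ} (h : P ^ j ∣ I) (hI : σ • I = I) : (σ • P) ^ j ∣ I := by
  obtain ⟨C, hC⟩ := h
  refine ⟨σ • C, ?_⟩
  rw [← smul_pow', ← smul_mul', ← hC, hI]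

/-- divisibility criterion -/
theorem dvd_of_prime_pow {R : Type*} [CommRing R] [IsDedekindDomain R] {I J : Ideal R} (hI : I ≠ 0)
    (h : ∀ (P : Ideal R) (j : ℕ), Prime P → P ^ j ∣ I → P ^ j ∣ J) : I ∣ J := by
  classical
  by_cases hJ : J = 0
  · rw [hJ]
    exact dvd_zero I
  rw [UniqueFactorizationMonoid.dvd_iff_normalizedFactors_le_normalizedFactors hI hJ,
    Multiset.le_iff_count]
  intro P
  by_cases hP : P ∈ UniqueFactorizationMonoid.normalizedFactors I
  · have hPp := UniqueFactorizationMonoid.prime_of_normalized_factor P hP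
    have e1 := UniqueFactorizationMonoid.emultiplicity_eq_count_normalizedFactors
      hPp.irreducible hI
    have e2 := UniqueFactorizationMonoid.emultiplicity_eq_count_normalizedFactors
      hPp.irreducible hJ
    rw [normalize_eq] at e1 e2
    have h1 := h P _ hPp (pow_dvd_of_le_emultiplicity e1.ge)
    have h2 := le_emultiplicity_of_pow_dvd h1
    rw [e2] at h2
    exact_mod_cast h2
  · rw [Multiset.count_eq_zero_of_notMem hP]
    exact Nat.zero_le _

end C2bAux

open C2bAux NumberField Pointwise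

theorem disc_bound (M : Type) [Field M] [NumberField M] [IsGalois ℚ M] (B : ℕ) (hB : 0 < B)
    (h : ∀ l : ℕ, l.Prime → (l : ℤ) ∣ NumberField.discr M → l ∣ B) :
    |NumberField.discr M| ≤ ((Module.finrank ℚ M * B : ℕ) : ℤ) ^ Module.finrank ℚ M := by
  have hn : 0 < Module.finrank ℚ M := Module.finrank_pos
  have hD0 : differentIdeal ℤ (𝓞 M) ≠ 0 := differentIdeal_ne_bot
  have key : differentIdeal ℤ (𝓞 M) ∣
      Ideal.span {((Module.finrank ℚ M * B : ℕ) : 𝓞 M)} := by
    refine dvd_of_prime_pow hD0 fun P i hP hPi => ?_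
    rcases Nat.eq_zero_or_pos i with hi | hi
    · rw [hi, pow_zero]
      exact one_dvd _
    have hPD : P ∣ differentIdeal ℤ (𝓞 M) := (dvd_pow_self P hi.ne').trans hPi
    have hPp : P.IsPrime := Ideal.isPrime_of_prime hP
    have hP0 : P ≠ ⊥ := hP.ne_zero
    -- the prime number below
    have hU0 : P.under ℤ ≠ ⊥ := mt Ideal.eq_bot_of_comap_eq_bot hP0
    obtain ⟨a, ha⟩ := (IsPrincipalIdealRing.principal (P.under ℤ)).principal
    have ha' : P.under ℤ = Ideal.span {a} := ha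
    have ha0 : a ≠ 0 := by
      rintro rfl
      apply hU0
      rw [ha', Ideal.span_singleton_eq_bot]
    have hUp : (P.under ℤ).IsPrime := inferInstance
    have hap : Prime a := by
      rw [ha'] at hUp
      exact (Ideal.span_singleton_prime ha0).mp hUp
    set l : ℕ := a.natAbs with hl
    have hlp : l.Prime := Int.prime_iff_natAbs_prime.mp hap
    have hUl : P.under ℤ = Ideal.span {(l : ℤ)} := by
      rw [ha', hl, Int.span_natAbs]
    have hover : P.LiesOver (Ideal.span {(l : ℤ)}) := ⟨hUl.symm⟩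
    have hldisc : (l : ℤ) ∣ discr M := by
      by_contra hcon
      have h1 := (NumberField.not_dvd_discr_iff_forall_liesOver M (𝓞 M)
        (Nat.prime_iff_prime_int.mp hlp)).mp hcon P
        (Ideal.IsPrime.isMaximal hPp hP0) hover
      exact (not_dvd_differentIdeal_iff.mpr h1) hPD
    have hlB : l ∣ B := h l hlp hldisc
    set k : ℕ := padicValNat l (Module.finrank ℚ M) with hk
    -- the prime where `l^(k+1)` does not divide
    have hno := not_pow_dvd_different M l hlp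
    rw [← hk] at hno
    have hcast : ((l : 𝓞 M)) ^ (k + 1) = ((l ^ (k + 1) : ℕ) : 𝓞 M) := by push_cast; rfl
    rw [hcast] at hno
    have hl0 : (Ideal.span {((l ^ (k + 1) : ℕ) : 𝓞 M)} : Ideal (𝓞 M)) ≠ 0 := by
      intro h0
      have h1 := Ideal.span_singleton_eq_bot.mp h0
      have h2 : (l ^ (k + 1) : ℕ) = 0 := by exact_mod_cast h1
      exact (pow_pos hlp.pos _).ne' h2
    have hex : ∃ (P' : Ideal (𝓞 M)) (j : ℕ), Prime P' ∧
        P' ^ j ∣ Ideal.span {((l ^ (k + 1) : ℕ) : 𝓞 M)} ∧ ¬ P' ^ j ∣ differentIdeal ℤ (𝓞 M) := by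
      by_contra hcon
      push Not at hcon
      exact hno (dvd_of_prime_pow hl0 fun P' j h1 h2 => hcon P' j h1 h2)
    obtain ⟨P', j, hP', hj1, hj2⟩ := hex
    have hj0 : j ≠ 0 := by
      rintro rfl
      exact hj2 (by rw [pow_zero]; exact one_dvd _)
    have hP'p : P'.IsPrime := Ideal.isPrime_of_prime hP'
    have hlP' : (l : 𝓞 M) ∈ P' := by
      have h1 : P' ∣ Ideal.span {((l ^ (k + 1) : ℕ) : 𝓞 M)} := (dvd_pow_self P' hj0).trans hj1
      have h2 : ((l ^ (k + 1) : ℕ) : 𝓞 M) ∈ P' :=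
        (Ideal.span_singleton_le_iff_mem _).mp (Ideal.dvd_iff_le.mp h1)
      rw [← hcast] at h2
      exact hP'p.mem_of_pow_mem _ h2
    have hover' : P'.LiesOver (Ideal.span {(l : ℤ)}) := by
      have hmax : (Ideal.span {(l : ℤ)}).IsMaximal :=
        PrincipalIdealRing.isMaximal_of_irreducible (Nat.prime_iff_prime_int.mp hlp).irreducible
      refine ⟨hmax.eq_of_le ?_ ?_⟩
      · exact (Ideal.IsPrime.under ℤ P').ne_top
      · rw [Ideal.span_singleton_le_iff_mem, Ideal.under_def, Ideal.mem_comap]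
        simpa using hlP'
    obtain ⟨σ, hσ⟩ := Ideal.exists_smul_eq_of_isGaloisGroup (Ideal.span {(l : ℤ)}) P' P
      (M ≃ₐ[ℚ] M)
    have hPj : P ^ j ∣ Ideal.span {((l ^ (k + 1) : ℕ) : 𝓞 M)} := by
      rw [← hσ]
      exact pow_dvd_smul M σ hj1 (smul_span M σ _)
    have hPj2 : ¬ P ^ j ∣ differentIdeal ℤ (𝓞 M) := by
      intro h1
      apply hj2
      have h2 := pow_dvd_smul M σ⁻¹ h1 (smul_diff M σ⁻¹)
      rwa [← hσ, inv_smul_smul] at h2
    have hij : i ≤ j := by
      by_contra hcon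
      exact hPj2 ((pow_dvd_pow P (by omega)).trans hPi)
    refine ((pow_dvd_pow P hij).trans hPj).trans ?_
    rw [Ideal.dvd_span_singleton, Ideal.mem_span_singleton]
    have hdn : l ^ (k + 1) ∣ Module.finrank ℚ M * B := by
      rw [pow_succ]
      exact mul_dvd_mul pow_padicValNat_dvd hlB
    exact Nat.cast_dvd_cast hdn
  have h1 : (differentIdeal ℤ (𝓞 M)).absNorm ∣
      (Ideal.span {((Module.finrank ℚ M * B : ℕ) : 𝓞 M)}).absNorm := map_dvd _ key
  rw [absNorm_differentIdeal M, Ideal.absNorm_span_natCast, RingOfIntegers.rank] at h1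
  have h2 := Nat.le_of_dvd (by positivity) h1
  rw [Int.abs_eq_natAbs]
  exact_mod_cast h2

end Pool.Agent.UFC
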