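import Mathlib
import Pool.Agent.UFC.C1

/-!
# UFC, module C3: inertia fixes the roots of `P(., w)` when a second presentation is separable modulo the prime

PROOF.  Write `P_M, Q_M, ..` for the images over `M`, `F = Q_M(., w)`.  From `Loc.root`, evaluating at `U = α`, `T = w`:
`P(α, w) = 0` gives `(Q.scaleRoots d)(h(α, w), w) = 0`, that is, `F.scaleRoots (d w)` vanishes at `h(α,w)`, so
`β = h(α, w) / d(w)` is a root of `F` (`Polynomial.scaleRoots`: `(F.scaleRoots s).eval (s * b) = s^n F.eval b`,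
`scaleRoots_eval₂_mul` or similar).  `F` is monic with coefficients in `A`, and `F.map σ = F` since `σ` fixes `K` and `w`.
By `fixed_root`: `σ β = β`.  From `Loc.back`: `g(h(α,w), w) = e(w) α`, so `α = g(d(w) β, w) / e(w)` is fixed by `σ`.
(`scaleRoots` commutes with `map` because `Q` is monic: `Polynomial.map_scaleRoots`.)
-/

set_option autoImplicit false

namespace Pool.Agent.UFC

open Polynomial

/-- `P(., w)` over an extension field `M` of `K` -/
noncomputable def evM {K M : Type*} [CommRing K] [CommRing M] [Algebra K M] (w : M) (P : K[X][X]) : M[X] :=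
  ev w (P.map (mapRingHom (algebraMap K M)))

theorem loc_fixed {K M : Type*} [Field K] [Field M] [Algebra K M] (A : ValuationSubring M)
    (σ : M ≃+* M) (hσ : Inert A σ) (hK : ∀ x : K, σ (algebraMap K M x) = algebraMap K M x)
    (P Q h g : K[X][X]) (d e : K[X]) (hloc : Loc P Q h g d e)
    (w : M) (hw : σ w = w) (hd : aeval w d ≠ 0) (he : aeval w e ≠ 0)
    (F₀ u v : M[X]) (ρ : M) (hFA : ∀ i, (evM w Q).coeff i ∈ A)
    (hF0 : ∀ i, A.valuation ((evM w Q).coeff i - F₀.coeff i) < 1)
    (hu : ∀ i, u.coeff i ∈ A) (hv : ∀ i, v.coeff i ∈ A) (hρ : A.valuation ρ = 1)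
    (huv : u * F₀ + v * derivative F₀ = C ρ)
    (α : M) (hα : (evM w P).eval α = 0) : σ α = α := by
  set ψ : K[X] →+* M := ((aeval w : K[X] →ₐ[K] M) : K[X] →+* M) with hψ
  have hev : ∀ R : K[X][X], evM w R = R.map ψ := by
    intro R
    rw [evM, ev, Polynomial.map_map]
    congr 1
    ext x
    · simp [hψ]
    · simp [hψ]
  rw [hev] at hα
  rw [hev] at hFA hF0
  have hfixψ : ∀ c : K[X], σ (ψ c) = ψ c := by
    intro c
    have h1 : ((σ : M →+* M).comp ψ) = ψ := by
      ext x
      · simp [hψ, hK]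
      · simp [hψ, hw]
    exact congrArg (fun r : K[X] →+* M => r c) h1
  have hmapσ : ∀ R : K[X][X], (R.map ψ).map (σ : M →+* M) = R.map ψ := by
    intro R
    ext i
    simp only [coeff_map]
    exact hfixψ _
  have hd' : ψ d ≠ 0 := hd
  have he' : ψ e ≠ 0 := he
  set H : M := (h.map ψ).eval α with hH
  set β : M := H / ψ d with hβdef
  have hHβ : H = ψ d * β := by
    rw [hβdef]
    field_simp
  have hβ : (Q.map ψ).eval β = 0 := by
    have h1 : (P.map ψ) ∣ ((Q.scaleRoots d).comp h).map ψ := Polynomial.map_dvd ψ hloc.root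
    have h2 : (((Q.scaleRoots d).comp h).map ψ).eval α = 0 :=
      Polynomial.eval_eq_zero_of_dvd_of_eval_eq_zero h1 hα
    rw [Polynomial.map_comp, Polynomial.eval_comp, ← hH,
      Polynomial.map_scaleRoots Q d ψ (by rw [hloc.monic.leadingCoeff, map_one]; exact one_ne_zero),
      hHβ] at h2
    have h3 := Polynomial.scaleRoots_eval₂_mul (p := Q.map ψ) (RingHom.id M) β (ψ d)
    simp only [RingHom.id_apply] at h3
    rw [Polynomial.eval₂_id, Polynomial.eval₂_id, h2] at h3
    exact (mul_eq_zero.1 h3.symm).resolve_left (pow_ne_zero _ hd')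
  have hσβ : σ β = β :=
    fixed_root A σ hσ (Q.map ψ) F₀ u v ρ β (hloc.monic.map ψ) hFA hF0 hu hv hρ huv (hmapσ Q) hβ
  have hσH : σ H = H := by
    rw [hHβ, map_mul, hfixψ, hσβ]
  have hback : (g.map ψ).eval H = ψ e * α := by
    have h1 : (P.map ψ) ∣ (g.comp h - C e * X).map ψ := Polynomial.map_dvd ψ hloc.back
    have h2 := Polynomial.eval_eq_zero_of_dvd_of_eval_eq_zero h1 hα
    rw [Polynomial.map_sub, Polynomial.map_comp, Polynomial.map_mul, Polynomial.map_C,
      Polynomial.map_X, Polynomial.eval_sub, Polynomial.eval_comp, ← hH, Polynomial.eval_mul,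
      Polynomial.eval_C, Polynomial.eval_X] at h2
    exact sub_eq_zero.1 h2
  have h4 : σ ((g.map ψ).eval H) = (g.map ψ).eval H := by
    have h5 : (σ : M →+* M) ((g.map ψ).eval H) = ((g.map ψ).map (σ : M →+* M)).eval (σ H) :=
      (Polynomial.eval_map_apply (σ : M →+* M) H).symm
    rw [hmapσ, hσH] at h5
    exact h5
  rw [hback, map_mul, hfixψ] at h4
  exact mul_left_cancel₀ he' h4

end Pool.Agent.UFC
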