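import Mathlib
import Pool.Agent.UFC.C0

/-!
# UFC, module C4: finitely many bad primes

PROOF.  Every `x ∈ K` is algebraic over `ℚ`, so there is a natural number `m > 0` with `m x` integral over `ℤ`
(`exists_integral_multiple` or `IsAlgebraic.exists_integral_multiple`).  Let `B` be the product of these `m` for `x ∈ s`.
If `l ∤ B` then `m` is a unit of `A` (as in C2: `l` is not a unit of `A`, `a m + b l = 1`), `m x` is in `A` since `A` is integrally closed and
contains `ℤ`, so `x ∈ A`.
-/

set_option autoImplicit false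

namespace Pool.Agent.UFC

open Polynomial

theorem bad_primes (K : IntermediateField ℚ ℂ) [FiniteDimensional ℚ K] (s : Finset K) :
    ∃ B : ℕ, 0 < B ∧ ∀ (M : IntermediateField ℚ ℂ) (hKM : K ≤ M) (A : ValuationSubring M) (l : ℕ),
      l.Prime → ¬ l ∣ B → A.valuation (l : M) < 1 →
      ∀ x ∈ s, IntermediateField.inclusion hKM x ∈ A := by
  obtain ⟨y, hy0, hy⟩ := exists_integral_multiples (A := ℤ) (K := ℚ) (L := K) s
  refine ⟨y.natAbs, Int.natAbs_pos.2 hy0, ?_⟩
  intro M hKM A l hl hlB hv x hx
  have hcop : IsCoprime (y : ℤ) (l : ℤ) := by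
    rw [Int.isCoprime_iff_gcd_eq_one]
    have h1 : Nat.Coprime l y.natAbs := (Nat.Prime.coprime_iff_not_dvd hl).2 hlB
    rw [Int.gcd_eq_natAbs]
    simpa using h1.symm
  obtain ⟨a, b, hab⟩ := hcop
  -- integers are in A
  have hint : ∀ n : ℤ, ((n : ℤ) : M) ∈ A := fun n => intCast_mem A n
  -- `y` is a unit of `A`
  have hym : A.valuation ((y : ℤ) : M) = 1 := by
    by_contra hne
    have hle : A.valuation ((y : ℤ) : M) ≤ 1 := (A.valuation_le_one_iff _).2 (hint y)
    have hlt : A.valuation ((y : ℤ) : M) < 1 := lt_of_le_of_ne hle hne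
    have h1 : A.valuation (((a : ℤ) : M) * ((y : ℤ) : M)) < 1 := by
      rw [map_mul]
      exact (mul_le_of_le_one_left' ((A.valuation_le_one_iff _).2 (hint a))).trans_lt hlt
    have h2 : A.valuation (((b : ℤ) : M) * ((l : ℕ) : M)) < 1 := by
      rw [map_mul]
      exact (mul_le_of_le_one_left' ((A.valuation_le_one_iff _).2 (hint b))).trans_lt hv
    have h3 := A.valuation.map_add_lt h1 h2
    have h4 : ((a : ℤ) : M) * ((y : ℤ) : M) + ((b : ℤ) : M) * ((l : ℕ) : M) = 1 := by
      have := congrArg (fun t : ℤ => (t : M)) hab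
      simpa using this
    rw [h4, map_one] at h3
    exact lt_irrefl _ h3
  have hmem : ((y : ℤ) : M) * IntermediateField.inclusion hKM x ∈ A := by
    have h1 : IsIntegral ℤ (IntermediateField.inclusion hKM (y • x)) :=
      (hy x hx).map (IntermediateField.inclusion hKM).toRingHom.toIntAlgHom
    have h2 : IntermediateField.inclusion hKM (y • x) =
        ((y : ℤ) : M) * IntermediateField.inclusion hKM x := by
      rw [zsmul_eq_mul, map_mul, map_intCast]
    rw [h2] at h1
    have h3 : IsIntegral A (((y : ℤ) : M) * IntermediateField.inclusion hKM x) := h1.tower_top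
    obtain ⟨z, hz⟩ := IsIntegrallyClosed.isIntegral_iff.1 h3
    rw [← hz]
    exact z.2
  have h5 : A.valuation (IntermediateField.inclusion hKM x) ≤ 1 := by
    have h6 := (A.valuation_le_one_iff _).2 hmem
    rwa [map_mul, hym, one_mul] at h6
  exact (A.valuation_le_one_iff _).1 h5

end Pool.Agent.UFC
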