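import Mathlib
import Pool.Agent.UFC.C1
import Pool.Agent.UFC.C4

/-!
# UFC, module C5a: inertia fixes `K`

`K = ℚ(θ)` (primitive element), `f = minpoly ℚ θ` is separable: `u f + v f' = 1` with `u, v` over `ℚ`.
Let `B` be the bad number of C4 for all coefficients of `f, u, v`.  Then `fixed_root` (C1) with `F = F₀ = f` (over `M`), `ρ = 1`
gives `σ θ = θ`, hence `σ` fixes `ℚ(θ)` pointwise (`σ` fixes `ℚ`).
-/

set_option autoImplicit false

namespace Pool.Agent.UFC

open Polynomial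

theorem k_fixed (K : IntermediateField ℚ ℂ) [FiniteDimensional ℚ K] :
    ∃ B : ℕ, 0 < B ∧ ∀ (M : IntermediateField ℚ ℂ) (_ : K ≤ M) (A : ValuationSubring M) (l : ℕ),
      l.Prime → ¬ l ∣ B → A.valuation (l : M) < 1 → ∀ σ : M ≃+* M, Inert A σ →
      ∀ x : M, (x : ℂ) ∈ K → σ x = x := by
  classical
  obtain ⟨n, b⟩ : ∃ n, Nonempty (Module.Basis (Fin n) ℚ K) := ⟨_, ⟨Module.finBasis ℚ K⟩⟩
  obtain ⟨b⟩ := b
  have hsep : ∀ i, ∃ u v : ℚ[X],
      u * minpoly ℚ (b i) + v * derivative (minpoly ℚ (b i)) = 1 := fun i =>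
    (separable_def' _).1 (Algebra.IsSeparable.isSeparable ℚ (b i))
  choose u v huv using hsep
  let cs : ℚ[X] → Finset K := fun p => p.support.image fun n => algebraMap ℚ K (p.coeff n)
  obtain ⟨B, hB, hB2⟩ := bad_primes K
    (Finset.univ.biUnion fun i => cs (minpoly ℚ (b i)) ∪ (cs (u i) ∪ cs (v i)))
  refine ⟨B, hB, fun M hKM A l hl hlB hlA σ hσ x hx => ?_⟩
  have hbad := hB2 M hKM A l hl hlB hlA
  have hcoef : ∀ p : ℚ[X], (∀ y ∈ cs p, IntermediateField.inclusion hKM y ∈ A) →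
      ∀ n, (p.map (algebraMap ℚ M)).coeff n ∈ A := by
    intro p hp n
    rw [coeff_map]
    by_cases h0 : p.coeff n = 0
    · rw [h0, map_zero]
      exact A.zero_mem
    · have h1 := hp (algebraMap ℚ K (p.coeff n))
        (Finset.mem_image.2 ⟨n, mem_support_iff.2 h0, rfl⟩)
      rw [eq_ratCast, map_ratCast] at h1
      rw [eq_ratCast]
      exact h1
  have hfix : ∀ i, σ (IntermediateField.inclusion hKM (b i)) =
      IntermediateField.inclusion hKM (b i) := by
    intro i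
    have hi : Finset.univ.biUnion (fun i => cs (minpoly ℚ (b i)) ∪ (cs (u i) ∪ cs (v i))) ⊇
        cs (minpoly ℚ (b i)) ∪ (cs (u i) ∪ cs (v i)) :=
      Finset.subset_biUnion_of_mem (fun i => cs (minpoly ℚ (b i)) ∪ (cs (u i) ∪ cs (v i)))
        (Finset.mem_univ i)
    have hint : IsIntegral ℚ (b i) := Algebra.IsIntegral.isIntegral (b i)
    refine fixed_root A σ hσ ((minpoly ℚ (b i)).map (algebraMap ℚ M))
      ((minpoly ℚ (b i)).map (algebraMap ℚ M)) ((u i).map (algebraMap ℚ M))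
      ((v i).map (algebraMap ℚ M)) 1 _ ((minpoly.monic hint).map _) ?_ ?_ ?_ ?_ (map_one _) ?_ ?_
      ?_
    · exact hcoef _ fun y hy => hbad y (hi (Finset.mem_union_left _ hy))
    · intro n
      rw [sub_self, map_zero]
      exact zero_lt_one
    · exact hcoef _ fun y hy => hbad y (hi (Finset.mem_union_right _
        (Finset.mem_union_left _ hy)))
    · exact hcoef _ fun y hy => hbad y (hi (Finset.mem_union_right _
        (Finset.mem_union_right _ hy)))
    · rw [derivative_map, ← Polynomial.map_mul, ← Polynomial.map_mul, ← Polynomial.map_add, huv,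
        Polynomial.map_one, C_1]
    · rw [Polynomial.map_map]
      congr 1
      exact Subsingleton.elim _ _
    · rw [eval_map_algebraMap, aeval_algHom_apply, minpoly.aeval, map_zero]
  -- two linear maps
  let φ : K →ₐ[ℚ] M := IntermediateField.inclusion hKM
  let ψ : K →ₐ[ℚ] M := ((σ : M →+* M).comp (φ : K →+* M)).toRatAlgHom
  have hφψ : ψ.toLinearMap = φ.toLinearMap := b.ext fun i => hfix i
  have h1 := LinearMap.congr_fun hφψ ⟨(x : ℂ), hx⟩
  have h2 : φ ⟨(x : ℂ), hx⟩ = x := Subtype.ext rfl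
  have h3 : ψ ⟨(x : ℂ), hx⟩ = σ (φ ⟨(x : ℂ), hx⟩) := rfl
  have h4 : ψ ⟨(x : ℂ), hx⟩ = φ ⟨(x : ℂ), hx⟩ := h1
  rw [h3, h2] at h4
  exact h4

end Pool.Agent.UFC
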