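import Mathlib
import Pool.Agent.UFC.C3
import Pool.Agent.UFC.C4

/-!
# UFC, module C5b: inertia fixes the roots above a branch point

`Bd P` gives `Loc P Q h g d e` and `u * ev 0 Q + v * derivative (ev 0 Q) = 1`.  `B` = bad number of C4 (`bad_primes`) for the (finitely many)
coefficients of the coefficients of `Q` and the coefficients of `u, v`; `W` = zeros of `d` and `e` in `ℂ` (`d, e ≠ 0`).
Apply `loc_fixed` with `F₀ = Q(., 0)` over `M`, `ρ = 1`: `Q(., w) - Q(., 0)` has coefficients `c(w) - c(0)`, `c` a polynomial with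
coefficients in `A`, `val w < 1`.
`K ≤ M` makes `M` a `K`-algebra: `(IntermediateField.inclusion hK).toRingHom.toAlgebra`; `evM w P` is related to
`ev (w : ℂ) (toC P)` by the embedding `M → ℂ`: `(evM w P).map (algebraMap M ℂ) = ev (w : ℂ) (toC P)`.
-/

set_option autoImplicit false

namespace Pool.Agent.UFC

open Polynomial

theorem c5b_map {K M N : Type*} [CommRing K] [CommRing M] [CommRing N] (φ : K →+* M) (ι : M →+* N)
    (w : M) (P : K[X][X]) : (ev w (P.map (mapRingHom φ))).map ι =
      ev (ι w) (P.map (mapRingHom (ι.comp φ))) := by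
  unfold ev
  rw [Polynomial.map_map, Polynomial.map_map, Polynomial.map_map]
  congr 1
  apply Polynomial.ringHom_ext
  · intro a
    simp
  · simp

theorem c5b_coeff {K M : Type*} [CommRing K] [CommRing M] (φ : K →+* M) (w : M) (P : K[X][X])
    (i : ℕ) : (ev w (P.map (mapRingHom φ))).coeff i = ((P.coeff i).map φ).eval w := by
  unfold ev
  simp [coeff_map]

theorem c5b_eval_mem {M : Type*} [Field M] (A : ValuationSubring M) (q : M[X])
    (hq : ∀ i, q.coeff i ∈ A) (w : M) (hw : w ∈ A) : q.eval w ∈ A := by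
  rw [eval_eq_sum_range]
  exact sum_mem fun i _ => mul_mem (hq i) (pow_mem hw i)

theorem c5b_coeffs {R S : Type*} [CommRing R] [Field S] (A : ValuationSubring S) (φ : R →+* S)
    (q : R[X]) (s : Finset R) (hs : q.coeffs ⊆ s) (h : ∀ x ∈ s, φ x ∈ A) (i : ℕ) :
    (q.map φ).coeff i ∈ A := by
  rw [coeff_map]
  by_cases hi : q.coeff i = 0
  · rw [hi, map_zero]
    exact A.zero_mem
  · exact h _ (hs (coeff_mem_coeffs hi))

theorem bd_fixed (K : IntermediateField ℚ ℂ) [FiniteDimensional ℚ K] (P : K[X][X]) (hP : Bd P) :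
    ∃ (B : ℕ) (W : Set ℂ), 0 < B ∧ W.Finite ∧
      ∀ (M : IntermediateField ℚ ℂ) (_ : K ≤ M) (A : ValuationSubring M) (l : ℕ),
      l.Prime → ¬ l ∣ B → A.valuation (l : M) < 1 → ∀ σ : M ≃+* M, Inert A σ →
      (∀ x : M, (x : ℂ) ∈ K → σ x = x) → ∀ w : M, (w : ℂ) ∉ W → σ w = w → A.valuation w < 1 →
      ∀ x : M, (ev (w : ℂ) (toC P)).eval (x : ℂ) = 0 → σ x = x := by
  classical
  obtain ⟨Q, h, g, d, e, u, v, hloc, huv⟩ := hP
  obtain ⟨B, hB, hbad⟩ := bad_primes K (Q.coeffs.biUnion coeffs ∪ (u.coeffs ∪ v.coeffs))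
  have hd0 : d ≠ 0 := by
    rintro rfl
    have := hloc.d_lead
    rw [leadingCoeff_zero] at this
    exact not_isUnit_zero this
  have he0 : e ≠ 0 := by
    rintro rfl
    have := hloc.e_lead
    rw [leadingCoeff_zero] at this
    exact not_isUnit_zero this
  have hinj : Function.Injective (algebraMap K ℂ) := (algebraMap K ℂ).injective
  refine ⟨B, {w | (d.map (algebraMap K ℂ)).IsRoot w} ∪ {w | (e.map (algebraMap K ℂ)).IsRoot w},
    hB, ?_, ?_⟩
  · exact (finite_setOfPred_isRoot ((Polynomial.map_ne_zero_iff hinj).2 hd0)).union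
      (finite_setOfPred_isRoot ((Polynomial.map_ne_zero_iff hinj).2 he0))
  intro M hKM A l hl hlB hlA σ hσ hfix w hwW hw hwA x hx
  letI : Algebra K M := (IntermediateField.inclusion hKM).toRingHom.toAlgebra
  have hbad' : ∀ y ∈ Q.coeffs.biUnion coeffs ∪ (u.coeffs ∪ v.coeffs), algebraMap K M y ∈ A :=
    hbad M hKM A l hl hlB hlA
  have hcomp : (algebraMap M ℂ).comp (algebraMap K M) = algebraMap K ℂ := by
    ext y
    rfl
  have hwmem : w ∈ A := (A.valuation_le_one_iff w).1 hwA.le
  have hQA : ∀ i j, ((Q.coeff i).map (algebraMap K M)).coeff j ∈ A := by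
    intro i j
    by_cases hi : Q.coeff i = 0
    · rw [hi, Polynomial.map_zero, coeff_zero]
      exact A.zero_mem
    · refine c5b_coeffs A (algebraMap K M) (Q.coeff i) _ ?_ hbad' j
      intro y hy
      exact Finset.mem_union_left _ (Finset.mem_biUnion.2 ⟨_, coeff_mem_coeffs hi, hy⟩)
  have hev : ∀ q : K[X], (q.map (algebraMap K ℂ)).eval (w : ℂ) = ((aeval w q : M) : ℂ) := by
    intro q
    have h1 := Polynomial.hom_eval₂ q (algebraMap K M) (algebraMap M ℂ) w
    rw [hcomp] at h1
    rw [aeval_def, eval_map]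
    exact h1.symm
  have hdw : aeval w d ≠ 0 := by
    intro h0
    apply hwW
    left
    show (d.map (algebraMap K ℂ)).eval (w : ℂ) = 0
    rw [hev, h0]
    rfl
  have hew : aeval w e ≠ 0 := by
    intro h0
    apply hwW
    right
    show (e.map (algebraMap K ℂ)).eval (w : ℂ) = 0
    rw [hev, h0]
    rfl
  refine loc_fixed A σ hσ ?_ P Q h g d e hloc w hw hdw hew ((ev 0 Q).map (algebraMap K M))
    (u.map (algebraMap K M)) (v.map (algebraMap K M)) 1 ?_ ?_ ?_ ?_ (map_one _) ?_ x ?_
  · intro y
    exact hfix _ y.2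
  · intro i
    unfold evM
    rw [c5b_coeff]
    exact c5b_eval_mem A _ (hQA i) w hwmem
  · intro i
    unfold evM
    rw [c5b_coeff]
    have h0 : ((ev 0 Q).map (algebraMap K M)).coeff i =
        ((Q.coeff i).map (algebraMap K M)).coeff 0 := by
      unfold ev
      rw [coeff_map, coeff_map, coeff_map, coe_evalRingHom, ← coeff_zero_eq_eval_zero]
    rw [h0]
    have h1 := Polynomial.divX_mul_X_add ((Q.coeff i).map (algebraMap K M))
    have h2 : ((Q.coeff i).map (algebraMap K M)).eval w -
        ((Q.coeff i).map (algebraMap K M)).coeff 0 =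
        ((Q.coeff i).map (algebraMap K M)).divX.eval w * w := by
      have h3 := congrArg (eval w) h1
      rw [eval_add, eval_mul, eval_X, eval_C] at h3
      rw [← h3]
      ring
    rw [h2, map_mul]
    have h4 : A.valuation (((Q.coeff i).map (algebraMap K M)).divX.eval w) ≤ 1 := by
      rw [A.valuation_le_one_iff]
      refine c5b_eval_mem A _ (fun j => ?_) w hwmem
      rw [coeff_divX]
      exact hQA i (j + 1)
    calc A.valuation (((Q.coeff i).map (algebraMap K M)).divX.eval w) * A.valuation w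
        ≤ 1 * A.valuation w := by gcongr
      _ = A.valuation w := one_mul _
      _ < 1 := hwA
  · exact c5b_coeffs A (algebraMap K M) u _ (fun y hy =>
      Finset.mem_union_right _ (Finset.mem_union_left _ hy)) hbad'
  · exact c5b_coeffs A (algebraMap K M) v _ (fun y hy =>
      Finset.mem_union_right _ (Finset.mem_union_right _ hy)) hbad'
  · have h1 := congrArg (Polynomial.map (algebraMap K M)) huv
    rw [Polynomial.map_add, Polynomial.map_mul, Polynomial.map_mul, Polynomial.map_one,
      ← derivative_map] at h1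
    rw [h1, map_one]
  · have h1 := c5b_map (algebraMap K M) (algebraMap M ℂ) w P
    rw [hcomp] at h1
    have h2 : ((evM w P).map (algebraMap M ℂ)).eval (x : ℂ) = 0 := by
      unfold evM
      rw [h1]
      exact hx
    have h3 : ((evM w P).map (algebraMap M ℂ)).eval (algebraMap M ℂ x) =
        algebraMap M ℂ ((evM w P).eval x) := eval_map_apply _ _
    have h4 : algebraMap M ℂ ((evM w P).eval x) = 0 := by
      rw [← h3]
      exact h2
    exact (map_eq_zero_iff _ (algebraMap M ℂ).injective).1 h4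

end Pool.Agent.UFC
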