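import Mathlib
import Pool.Agent.UFC.C3
import Pool.Agent.UFC.C4

/-!
# UFC, module C5c: inertia fixes the roots above the other points

`Gn P` gives presentations `Q i` with `u i * Q i + v i * Q i' = C (r i)`, `∑ c_i r_i = X^a (1-X)^b`.  `B` = bad number of C4 (`bad_primes`)
for all the coefficients (of `c i`, `r i`, and of the coefficients of `Q i, u i, v i`); `W` = zeros in `ℂ` of all `d i, e i`.
`∑ c_i(w) r_i(w) = w^a (1-w)^b` has valuation `1` and all `c_i(w), r_i(w)` are in `A`, so some `r_i(w)` has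
valuation `1`; apply `loc_fixed` (C3) with `F₀ = Q_i(., w)`, `u_i(., w)`, `v_i(., w)`, `ρ = r_i(w)`.
(`evM w (derivative Q) = derivative (evM w Q)`, `Polynomial.derivative_map`.)
`K ≤ M` makes `M` a `K`-algebra: `(IntermediateField.inclusion hK).toRingHom.toAlgebra`; `evM w P` is related to
`ev (w : ℂ) (toC P)` by the embedding `M → ℂ`: `(evM w P).map (algebraMap M ℂ) = ev (w : ℂ) (toC P)`.
-/

set_option autoImplicit false

namespace Pool.Agent.UFC

open Polynomial

section c5c

variable {K M : Type*} [Field K] [Field M] [Algebra K M]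

/-- The finite set of the coefficients of a polynomial. -/
noncomputable def c5cCf [DecidableEq K] (p : K[X]) : Finset K := p.support.image p.coeff

/-- The finite set of the coefficients of the coefficients of a polynomial. -/
noncomputable def c5cCf2 [DecidableEq K] (p : K[X][X]) : Finset K :=
  p.support.biUnion fun j => c5cCf (p.coeff j)

theorem c5c_coeff_mem [DecidableEq K] (A : ValuationSubring M) (p : K[X])
    (h : ∀ x ∈ c5cCf p, algebraMap K M x ∈ A) (j : ℕ) : algebraMap K M (p.coeff j) ∈ A := by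
  by_cases hj : p.coeff j = 0
  · rw [hj, map_zero]; exact A.zero_mem
  · exact h _ (Finset.mem_image.2 ⟨j, mem_support_iff.2 hj, rfl⟩)

theorem c5c_aeval_mem (A : ValuationSubring M) (p : K[X])
    (h : ∀ j, algebraMap K M (p.coeff j) ∈ A) (w : M) (hw : w ∈ A) : aeval w p ∈ A := by
  rw [aeval_eq_sum_range]
  refine A.toSubring.sum_mem fun j _ => ?_
  rw [Algebra.smul_def]
  exact A.mul_mem _ _ (h j) (A.toSubring.pow_mem hw j)

theorem c5c_evM_coeff (w : M) (p : K[X][X]) (j : ℕ) : (evM w p).coeff j = aeval w (p.coeff j) := by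
  unfold evM ev
  rw [coeff_map, coeff_map, coe_mapRingHom, coe_evalRingHom, eval_map_algebraMap]

theorem c5c_evM_mem [DecidableEq K] (A : ValuationSubring M) (p : K[X][X])
    (h : ∀ x ∈ c5cCf2 p, algebraMap K M x ∈ A) (w : M) (hw : w ∈ A) (j : ℕ) :
    (evM w p).coeff j ∈ A := by
  rw [c5c_evM_coeff]
  by_cases hj : p.coeff j = 0
  · rw [hj, map_zero]; exact A.zero_mem
  · refine c5c_aeval_mem A _ (fun k => c5c_coeff_mem A _ (fun x hx => h x ?_) k) w hw
    exact Finset.mem_biUnion.2 ⟨j, mem_support_iff.2 hj, hx⟩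

theorem c5c_evM_rel (w : M) (Q u v : K[X][X]) (r : K[X]) (h : u * Q + v * derivative Q = C r) :
    evM w u * evM w Q + evM w v * derivative (evM w Q) = C (aeval w r) := by
  have h1 : evM w (u * Q + v * derivative Q) = evM w (C r) := by rw [h]
  have h2 : evM w (C r) = C (aeval w r) := by
    unfold evM ev
    rw [Polynomial.map_C, Polynomial.map_C, coe_mapRingHom, coe_evalRingHom, eval_map_algebraMap]
  rw [h2] at h1
  rw [← h1]
  simp only [evM, ev, Polynomial.map_add, Polynomial.map_mul, Polynomial.derivative_map]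

theorem c5c_exists_unit (A : ValuationSubring M) {n : ℕ} (c r : Fin n → M)
    (hc : ∀ i, c i ∈ A) (hr : ∀ i, r i ∈ A) (h : A.valuation (∑ i, c i * r i) = 1) :
    ∃ i, A.valuation (r i) = 1 := by
  by_contra hcon
  push Not at hcon
  have hlt : ∀ i, A.valuation (c i * r i) < 1 := by
    intro i
    rw [map_mul]
    have h1 : A.valuation (c i) ≤ 1 := (A.valuation_le_one_iff _).2 (hc i)
    have h2 : A.valuation (r i) < 1 := lt_of_le_of_ne ((A.valuation_le_one_iff _).2 (hr i)) (hcon i)
    exact lt_of_le_of_lt (mul_le_of_le_one_left' h1) h2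
  have := Valuation.map_sum_lt A.valuation one_ne_zero (s := Finset.univ) (f := fun i => c i * r i)
    (fun i _ => hlt i)
  exact absurd h this.ne

end c5c

theorem gn_fixed (K : IntermediateField ℚ ℂ) [FiniteDimensional ℚ K] (P : K[X][X]) (hP : Gn P) :
    ∃ (B : ℕ) (W : Set ℂ), 0 < B ∧ W.Finite ∧
      ∀ (M : IntermediateField ℚ ℂ) (_ : K ≤ M) (A : ValuationSubring M) (l : ℕ),
      l.Prime → ¬ l ∣ B → A.valuation (l : M) < 1 → ∀ σ : M ≃+* M, Inert A σ →
      (∀ x : M, (x : ℂ) ∈ K → σ x = x) → ∀ w : M, (w : ℂ) ∉ W → σ w = w → A.valuation w = 1 →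
      A.valuation (1 - w) = 1 →
      ∀ x : M, (ev (w : ℂ) (toC P)).eval (x : ℂ) = 0 → σ x = x := by
  classical
  obtain ⟨n, Q, h, g, u, v, d, e, r, c, a, b, hL, huv, hsum⟩ := hP
  set s : Finset K := Finset.univ.biUnion fun i : Fin n =>
    c5cCf (c i) ∪ c5cCf (r i) ∪ c5cCf2 (Q i) ∪ c5cCf2 (u i) ∪ c5cCf2 (v i) with hs
  obtain ⟨B, hB, hbad⟩ := bad_primes K s
  have hd0 : ∀ i, d i ≠ 0 := fun i h0 => by
    have := (hL i).d_lead; rw [h0, leadingCoeff_zero] at this; exact not_isUnit_zero this
  have he0 : ∀ i, e i ≠ 0 := fun i h0 => by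
    have := (hL i).e_lead; rw [h0, leadingCoeff_zero] at this; exact not_isUnit_zero this
  refine ⟨B, ⋃ i, ({z : ℂ | aeval z (d i) = 0} ∪ {z : ℂ | aeval z (e i) = 0}), hB,
    Set.finite_iUnion fun i => ?_, ?_⟩
  · have hfin : ∀ p : K[X], p ≠ 0 → {z : ℂ | aeval z p = 0}.Finite := by
      intro p hp
      refine (p.rootSet_finite ℂ).subset fun z hz => ?_
      rw [Polynomial.mem_rootSet]
      exact ⟨hp, hz⟩
    exact (hfin _ (hd0 i)).union (hfin _ (he0 i))
  · intro M hKM A l hl hlB hlA σ hσ hσK w hwW hσw hw1 hw2 x hx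
    let _ : Algebra K M := (IntermediateField.inclusion hKM).toRingHom.toAlgebra
    have hmap : ∀ y : K, algebraMap K M y = IntermediateField.inclusion hKM y := fun y => rfl
    have : IsScalarTower K M ℂ := IsScalarTower.of_algebraMap_eq fun y => rfl
    have hmemS : ∀ y ∈ s, algebraMap K M y ∈ A := fun y hy => hbad M hKM A l hl hlB hlA y hy
    have hsub : ∀ i : Fin n, ∀ y, y ∈ c5cCf (c i) ∪ c5cCf (r i) ∪ c5cCf2 (Q i) ∪ c5cCf2 (u i) ∪
        c5cCf2 (v i) → y ∈ s := fun i y hy => Finset.mem_biUnion.2 ⟨i, Finset.mem_univ _, hy⟩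
    have hwA : w ∈ A := (A.valuation_le_one_iff _).1 hw1.le
    have hcA : ∀ i, aeval w (c i) ∈ A := fun i => c5c_aeval_mem A _ (fun j =>
      c5c_coeff_mem A _ (fun y hy => hmemS y (hsub i y (by
        simp only [Finset.mem_union]; tauto))) j) w hwA
    have hrA : ∀ i, aeval w (r i) ∈ A := fun i => c5c_aeval_mem A _ (fun j =>
      c5c_coeff_mem A _ (fun y hy => hmemS y (hsub i y (by
        simp only [Finset.mem_union]; tauto))) j) w hwA
    have hval : A.valuation (∑ i, aeval w (c i) * aeval w (r i)) = 1 := by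
      have h1 : ∑ i, aeval w (c i) * aeval w (r i) = w ^ a * (1 - w) ^ b := by
        have h2 := congrArg (aeval w) hsum
        simpa [map_sum, map_mul] using h2
      rw [h1, map_mul, map_pow, map_pow, hw1, hw2, one_pow, one_pow, one_mul]
    obtain ⟨i, hi⟩ := c5c_exists_unit A _ _ hcA hrA hval
    have hQA : ∀ j, (evM w (Q i)).coeff j ∈ A := c5c_evM_mem A _ (fun y hy => hmemS y (hsub i y (by
        simp only [Finset.mem_union]; tauto))) w hwA
    have huA : ∀ j, (evM w (u i)).coeff j ∈ A := c5c_evM_mem A _ (fun y hy => hmemS y (hsub i y (by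
        simp only [Finset.mem_union]; tauto))) w hwA
    have hvA : ∀ j, (evM w (v i)).coeff j ∈ A := c5c_evM_mem A _ (fun y hy => hmemS y (hsub i y (by
        simp only [Finset.mem_union]; tauto))) w hwA
    have hdw : aeval w (d i) ≠ 0 := by
      intro h0
      apply hwW
      refine Set.mem_iUnion.2 ⟨i, Or.inl ?_⟩
      have : aeval (algebraMap M ℂ w) (d i) = algebraMap M ℂ (aeval w (d i)) :=
        Polynomial.aeval_algebraMap_apply ℂ w (d i)
      rw [h0, map_zero] at this
      exact this
    have hew : aeval w (e i) ≠ 0 := by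
      intro h0
      apply hwW
      refine Set.mem_iUnion.2 ⟨i, Or.inr ?_⟩
      have : aeval (algebraMap M ℂ w) (e i) = algebraMap M ℂ (aeval w (e i)) :=
        Polynomial.aeval_algebraMap_apply ℂ w (e i)
      rw [h0, map_zero] at this
      exact this
    have hα : (evM w P).eval x = 0 := by
      have h1 : (evM w P).map (algebraMap M ℂ) = ev (w : ℂ) (toC P) := by
        unfold evM ev toC
        rw [Polynomial.map_map, Polynomial.map_map, Polynomial.map_map]
        congr 1
        apply Polynomial.ringHom_ext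
        · intro y
          simp only [RingHom.comp_apply, coe_mapRingHom, Polynomial.map_C, coe_evalRingHom, eval_C]
          rfl
        · simp only [RingHom.comp_apply, coe_mapRingHom, Polynomial.map_X, coe_evalRingHom, eval_X]
          rfl
      have h2 : (algebraMap M ℂ) ((evM w P).eval x) = 0 := by
        rw [← Polynomial.eval_map_apply, h1]
        exact hx
      exact (map_eq_zero _).1 h2
    refine loc_fixed A σ hσ (fun y => hσK _ y.2) P (Q i) (h i) (g i) (d i) (e i) (hL i) w hσw
      hdw hew (evM w (Q i)) (evM w (u i)) (evM w (v i)) (aeval w (r i)) hQA (fun j => ?_) huA hvA hi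
      (c5c_evM_rel w _ _ _ _ (huv i)) x hα
    rw [sub_self, map_zero]
    exact zero_lt_one

end Pool.Agent.UFC
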