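import Mathlib
import Pool.Agent.UFC.C2
import Pool.Agent.UFC.C5a
import Pool.Agent.UFC.C5b
import Pool.Agent.UFC.C5c
import Pool.Agent.UFC.A.Inf

/-!
# UFC, module C6: inertia fixes all roots of `P(., t)`

PROOF.  `B` = product of `p q r` and of the bad numbers of `k_fixed K`, `bd_fixed K (subT (X^p) P)`,
`bd_fixed K (subT (1 - X^q) P)`, `bd_fixed K (subT (X^r) (inf2 D P))`, `gn_fixed K P` (modules C5a, C5b, C5c); `F` = the finite set of rational `t` such that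
`t ∈ W_gn`, or `t = w^p`, `w ∈ W_0`, or `t = 1 - w^q`, `w ∈ W_1`, or `t⁻¹ = w^r`, `w ∈ W_∞`.  (Every `t ∉ F` has then the corresponding `w0, w1, w2 ∉ W`.)
Let `σ` be inert at `A`.  `σ` fixes `K` by `k_fixed`.
* `v_l(t) > 0`: `p ∣ v_l(t)`, so `σ w0 = w0` (`fixed_radical`), `val w0 < 1` (`val_rat_lt_one`, `val_radical`); a root of `P(., t)` is a root of
  `(subT (X^p) P)(., w0) = P(., w0^p)`.  Use `bd_fixed`.
* `v_l(1 - t) > 0`: the same with `w1`, `t = 1 - w1^q`.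
* `v_l(t) < 0`: `r ∣ v_l(t⁻¹)`; `x` root of `P(., t)` implies `x / t^2 = x w2^(2r)` root of `(inf2 D P)(., t⁻¹)` (multiply `P(x, t) = 0` by
  `t^(-2D)`, `(P.coeff j)(t) = t^(2(D-j)) (reflect ..)(t⁻¹)`, `Polynomial.eval₂_reflect_mul_pow`), so `σ` fixes `x / t^2` and `x`.
* otherwise `v_l(t) = 0` and `v_l(1-t) = 0` (if `v_l(t) = 0` then `v_l(1-t) ≥ 0`): `gn_fixed` with `w = t`.
-/

set_option autoImplicit false

namespace Pool.Agent.UFC

open Polynomial

theorem c6_ev_toC_subT (K : IntermediateField ℚ ℂ) (c : K[X]) (P : K[X][X]) (w : ℂ) :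
    ev w (toC (subT c P)) = ev ((c.map (algebraMap K ℂ)).eval w) (toC P) := by
  unfold ev toC subT
  rw [map_map, map_map, map_map]
  congr 1
  apply RingHom.ext
  intro a
  simp only [RingHom.comp_apply, coe_compRingHom_apply, coe_mapRingHom, coe_evalRingHom]
  rw [map_comp, eval_comp]

theorem c6_toC_inf2 (K : IntermediateField ℚ ℂ) (D : ℕ) (P : K[X][X]) :
    toC (inf2 D P) = inf2 D (toC P) := by
  unfold toC inf2
  rw [Polynomial.map_sum]
  refine Finset.sum_congr rfl fun j _ => ?_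
  rw [map_monomial, coeff_map, coe_mapRingHom, reflect_map]

theorem c6_ev_inf2_scale (D : ℕ) (P : ℂ[X][X]) (hP : P.Monic) (hD : P.natDegree = D)
    (hwt : ∀ j, (P.coeff j).natDegree ≤ 2 * (D - j)) (w : ℂ) (hw : w ≠ 0) :
    ev w (inf2 D P) = (ev w⁻¹ P).scaleRoots (w ^ 2) := by
  have hdeg : (ev w⁻¹ P).natDegree = D := by
    unfold ev
    rw [hP.natDegree_map, hD]
  ext k
  rw [coeff_scaleRoots, hdeg]
  unfold ev
  rw [coeff_map, coeff_map, coeff_inf2]
  split_ifs with hk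
  · rw [coe_evalRingHom, coe_evalRingHom, eval_reflect _ _ (hwt k) _ hw, ← pow_mul]
    ring
  · have : P.coeff k = 0 := coeff_eq_zero_of_natDegree_lt (by omega)
    rw [this]
    simp

theorem core_fixed (K : IntermediateField ℚ ℂ) [FiniteDimensional ℚ K] (p q r D : ℕ) (hp : 0 < p)
    (hq : 0 < q) (hr : 0 < r) (P : K[X][X]) (hP : PCD K p q r D P) :
    ∃ (B : ℕ) (F : Finset ℚ), 0 < B ∧ ∀ t ∉ F, ∀ S : Finset ℕ, SolT S p q r t →
      ∀ (M : IntermediateField ℚ ℂ) (_ : K ≤ M) (w0 w1 w2 : M),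
      (w0 : ℂ) ^ p = t → (w1 : ℂ) ^ q = 1 - t → (w2 : ℂ) ^ r = (t : ℂ)⁻¹ →
      ∀ (A : ValuationSubring M) (l : ℕ), l.Prime → l ∉ S → ¬ l ∣ B → A.valuation (l : M) < 1 →
      ∀ σ : M ≃+* M, Inert A σ →
        (∀ x : M, (x : ℂ) ∈ K → σ x = x) ∧
        ∀ x : M, (ev (t : ℂ) (toC P)).eval (x : ℂ) = 0 → σ x = x := by
  obtain ⟨B0, hB0, H0⟩ := k_fixed K
  obtain ⟨B1, W1, hB1, hW1, H1⟩ := bd_fixed K (subT (X ^ p) P) hP.b0
  obtain ⟨B2, W2, hB2, hW2, H2⟩ := bd_fixed K (subT (1 - X ^ q) P) hP.b1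
  obtain ⟨B3, W3, hB3, hW3, H3⟩ := bd_fixed K (subT (X ^ r) (inf2 D P)) hP.binf
  obtain ⟨B4, W4, hB4, hW4, H4⟩ := gn_fixed K P hP.gen
  have hfin : (((fun t : ℚ => (t : ℂ)) ⁻¹' (W4 ∪ ((fun w : ℂ => w ^ p) '' W1) ∪
      ((fun w : ℂ => 1 - w ^ q) '' W2) ∪ ((fun w : ℂ => (w ^ r)⁻¹) '' W3)))).Finite :=
    Set.Finite.preimage (Rat.cast_injective.injOn)
      (((hW4.union (hW1.image _)).union (hW2.image _)).union (hW3.image _))
  refine ⟨p * q * r * B0 * B1 * B2 * B3 * B4, hfin.toFinset, by positivity, ?_⟩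
  intro t ht S hS M hKM w0 w1 w2 h0 h1 h2 A l hl hlS hlB hlA σ hσ
  rw [Set.Finite.mem_toFinset] at ht
  simp only [Set.mem_preimage, Set.mem_union, Set.mem_image, not_or, not_exists, not_and] at ht
  obtain ⟨⟨⟨ht4, ht1⟩, ht2⟩, ht3⟩ := ht
  have hlp : ¬ l ∣ p := fun h => hlB (by
    obtain ⟨c, rfl⟩ := h
    exact ⟨c * q * r * B0 * B1 * B2 * B3 * B4, by ring⟩)
  have hlq : ¬ l ∣ q := fun h => hlB (by
    obtain ⟨c, rfl⟩ := h
    exact ⟨p * c * r * B0 * B1 * B2 * B3 * B4, by ring⟩)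
  have hlr : ¬ l ∣ r := fun h => hlB (by
    obtain ⟨c, rfl⟩ := h
    exact ⟨p * q * c * B0 * B1 * B2 * B3 * B4, by ring⟩)
  have hl0 : ¬ l ∣ B0 := fun h => hlB (by
    obtain ⟨c, rfl⟩ := h
    exact ⟨p * q * r * c * B1 * B2 * B3 * B4, by ring⟩)
  have hl1 : ¬ l ∣ B1 := fun h => hlB (by
    obtain ⟨c, rfl⟩ := h
    exact ⟨p * q * r * B0 * c * B2 * B3 * B4, by ring⟩)
  have hl2 : ¬ l ∣ B2 := fun h => hlB (by
    obtain ⟨c, rfl⟩ := h
    exact ⟨p * q * r * B0 * B1 * c * B3 * B4, by ring⟩)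
  have hl3 : ¬ l ∣ B3 := fun h => hlB (by
    obtain ⟨c, rfl⟩ := h
    exact ⟨p * q * r * B0 * B1 * B2 * c * B4, by ring⟩)
  have hl4 : ¬ l ∣ B4 := fun h => hlB (h.trans (Dvd.intro_left _ rfl))
  have hk : ∀ x : M, (x : ℂ) ∈ K → σ x = x := H0 M hKM A l hl hl0 hlA σ hσ
  refine ⟨hk, fun x hx => ?_⟩
  obtain ⟨ht0, ht1', hSl⟩ := hS
  obtain ⟨hv0, hv1, hvi⟩ := hSl l hl hlS
  have : Fact l.Prime := ⟨hl⟩
  have hw0 : w0 ^ p = ((t : ℚ) : M) := by
    apply Subtype.ext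
    push_cast
    exact h0
  have hw1 : w1 ^ q = ((1 - t : ℚ) : M) := by
    apply Subtype.ext
    push_cast
    exact h1
  have hw2 : w2 ^ r = ((t⁻¹ : ℚ) : M) := by
    apply Subtype.ext
    push_cast
    exact h2
  have ht1'' : (1 - t : ℚ) ≠ 0 := fun h => ht1' (by linarith)
  have htC : (t : ℂ) ≠ 0 := by exact_mod_cast ht0
  rcases lt_trichotomy (padicValRat l t) 0 with hneg | hzero | hpos
  · -- above infinity
    have hdiv := hvi hneg
    have hdiv' : (r : ℤ) ∣ padicValRat l t⁻¹ := by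
      rw [padicValRat.inv]; exact (dvd_neg).2 hdiv
    have hpos' : 0 < padicValRat l t⁻¹ := by
      rw [padicValRat.inv]; omega
    have hti : (t⁻¹ : ℚ) ≠ 0 := inv_ne_zero ht0
    have hfix := fixed_radical A l hl hlA σ hσ r hr hlr t⁻¹ hti w2 hw2 hdiv'
    have hval : A.valuation w2 < 1 := val_radical A r w2 (by
      rw [hw2]; exact val_rat_lt_one A l hl hlA t⁻¹ hti hpos')
    have hw2W : (w2 : ℂ) ∉ W3 := fun h => ht3 _ h (by rw [h2, inv_inv])
    have hroot : (ev (w2 : ℂ) (toC (subT (X ^ r) (inf2 D P)))).eval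
        ((x * ((t⁻¹ : ℚ) : M) ^ 2 : M) : ℂ) = 0 := by
      have hevw : ((X ^ r : K[X]).map (algebraMap K ℂ)).eval (w2 : ℂ) = (t : ℂ)⁻¹ := by
        simp [h2]
      rw [c6_ev_toC_subT, hevw, c6_toC_inf2]
      have hPm : (toC P).Monic := hP.monic.map _
      have hPd : (toC P).natDegree = D := by
        unfold toC
        rw [hP.monic.natDegree_map, hP.deg]
      have hwt : ∀ j, ((toC P).coeff j).natDegree ≤ 2 * (D - j) := fun j => by
        unfold toC
        rw [coeff_map, coe_mapRingHom]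
        exact (natDegree_map_le).trans (hP.wt j)
      rw [c6_ev_inf2_scale D (toC P) hPm hPd hwt _ (inv_ne_zero htC), inv_inv]
      have := scaleRoots_eval₂_eq_zero (RingHom.id ℂ) (s := ((t : ℂ)⁻¹) ^ 2)
        (p := ev (t : ℂ) (toC P)) (r := (x : ℂ)) (by rw [eval₂_id]; exact hx)
      rw [eval₂_id] at this
      rw [← this]
      congr 1
      push_cast
      simp [mul_comm]
    have hx' := H3 M hKM A l hl hl3 hlA σ hσ hk w2 hw2W hfix hval _ hroot
    rw [map_mul, map_pow, map_ratCast] at hx'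
    have htM : (((t⁻¹ : ℚ) : M) ^ 2) ≠ 0 := pow_ne_zero _ (by exact_mod_cast hti)
    exact mul_right_cancel₀ htM hx'
  · have h1nn : 0 ≤ padicValRat l (1 - t) := by
      have := padicValRat.min_le_padicValRat_add (p := l) (q := 1) (r := -t)
        (by rw [← sub_eq_add_neg]; exact ht1'')
      rw [padicValRat.one, padicValRat.neg, hzero, min_self, ← sub_eq_add_neg] at this
      exact this
    rcases h1nn.lt_or_eq with hpos | hz1
    · -- above one
      have hdiv := hv1 hpos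
      have hfix := fixed_radical A l hl hlA σ hσ q hq hlq (1 - t) ht1'' w1 hw1 hdiv
      have hval : A.valuation w1 < 1 := val_radical A q w1 (by
        rw [hw1]; exact val_rat_lt_one A l hl hlA (1 - t) ht1'' hpos)
      have hwW : (w1 : ℂ) ∉ W2 := fun h => ht2 _ h (by rw [h1]; ring)
      refine H2 M hKM A l hl hl2 hlA σ hσ hk w1 hwW hfix hval x ?_
      have hevw : ((1 - X ^ q : K[X]).map (algebraMap K ℂ)).eval (w1 : ℂ) = (t : ℂ) := by
        simp [h1]
      rw [c6_ev_toC_subT, hevw]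
      exact hx
    · -- generic
      have hval : A.valuation ((t : ℚ) : M) = 1 := val_rat_eq_one A l hl hlA t ht0 hzero
      have hval1 : A.valuation (1 - ((t : ℚ) : M)) = 1 := by
        have := val_rat_eq_one A l hl hlA (1 - t) ht1'' hz1.symm
        rwa [Rat.cast_sub, Rat.cast_one] at this
      have hcoe : (((t : ℚ) : M) : ℂ) = (t : ℂ) := by push_cast; rfl
      refine H4 M hKM A l hl hl4 hlA σ hσ hk ((t : ℚ) : M) (by rw [hcoe]; exact ht4)
        (map_ratCast σ t) hval hval1 x ?_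
      rw [hcoe]
      exact hx
  · -- above zero
    have hdiv := hv0 hpos
    have hfix := fixed_radical A l hl hlA σ hσ p hp hlp t ht0 w0 hw0 hdiv
    have hval : A.valuation w0 < 1 := val_radical A p w0 (by
      rw [hw0]; exact val_rat_lt_one A l hl hlA t ht0 hpos)
    have hwW : (w0 : ℂ) ∉ W1 := fun h => ht1 _ h (by rw [h0])
    refine H1 M hKM A l hl hl1 hlA σ hσ hk w0 hwW hfix hval x ?_
    have hevw : ((X ^ p : K[X]).map (algebraMap K ℂ)).eval (w0 : ℂ) = (t : ℂ) := by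
      simp [h0]
    rw [c6_ev_toC_subT, hevw]
    exact hx

end Pool.Agent.UFC
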