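import Mathlib
import Pool.Agent.UFC.C0

/-!
# UFC, module C7a: the valuation ring of a prime ideal, inertia

PROOF.  `A` = the elements `a / s` with `a, s ∈ 𝓞 M`, `s ∉ Q`: the valuation subring of the `Q`-adic valuation
(`IsDedekindDomain.HeightOneSpectrum.valuation M v` with `v.asIdeal = Q`, its `valuationSubring`), elements of `Q` have valuation `< 1`, elements of `𝓞 M`
outside `Q` have valuation `1`.  For `x = a / s ∈ A`, `s ∉ Q` (existence of such a representation: e.g. the valuation ring is the localisation at `Q`):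
`σ x - x = (s σ a - a σ s)/(s σ s)`, `s σ a - a σ s = s (σ a - a) - a (σ s - s) ∈ Q`, `σ s ≡ s` modulo `Q`, so `s σ s ∉ Q`.
-/

set_option autoImplicit false

namespace Pool.Agent.UFC

open Polynomial NumberField

theorem inert_of_inertia (M : Type*) [Field M] [NumberField M] (Q : Ideal (𝓞 M)) (hQ : Q.IsPrime)
    (l : ℕ) (hl : l.Prime) (hlQ : (l : 𝓞 M) ∈ Q) :
    ∃ A : ValuationSubring M, A.valuation (l : M) < 1 ∧
      ∀ σ : M ≃ₐ[ℚ] M, (∀ a : 𝓞 M, ∃ b ∈ Q, σ (a : M) - (a : M) = ((b : 𝓞 M) : M)) →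
        Inert A (σ : M ≃+* M) := by
  have hbot : Q ≠ ⊥ := by
    rintro rfl
    have h : (l : 𝓞 M) = 0 := by simpa using hlQ
    exact hl.ne_zero (by exact_mod_cast h)
  let v : IsDedekindDomain.HeightOneSpectrum (𝓞 M) := ⟨Q, hQ, hbot⟩
  let w := v.valuation M
  have heq : w.IsEquiv w.valuationSubring.valuation := Valuation.isEquiv_valuation_valuationSubring w
  have hlt : ∀ x : M, w.valuationSubring.valuation x < 1 ↔ w x < 1 := fun x =>
    (heq.lt_one_iff_lt_one (x := x)).symm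
  have hmem : ∀ r : 𝓞 M, w (r : M) < 1 ↔ r ∈ Q := fun r =>
    v.valuation_lt_one_iff_mem (K := M) r
  have hle : ∀ r : 𝓞 M, w (r : M) ≤ 1 := fun r => v.valuation_le_one (K := M) r
  have hone : ∀ r : 𝓞 M, r ∉ Q → w (r : M) = 1 := fun r hr =>
    le_antisymm (hle r) (not_lt.1 fun h => hr ((hmem r).1 h))
  refine ⟨w.valuationSubring, ?_, ?_⟩
  · rw [hlt]
    have := (hmem (l : 𝓞 M)).2 hlQ
    simpa using this
  · intro σ hσ x hx
    rw [hlt]
    have hx1 : w x ≤ 1 := hx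
    obtain ⟨n, d, hnd⟩ := v.exists_primeCompl_mul_eq_of_integer x hx1
    have hd : (d : 𝓞 M) ∉ Q := d.2
    have hnd' : x * ((d : 𝓞 M) : M) = (n : M) := hnd
    obtain ⟨b, hb, hbe⟩ := hσ n
    obtain ⟨c, hc, hce⟩ := hσ (d : 𝓞 M)
    have hσd : σ ((d : 𝓞 M) : M) = (((d : 𝓞 M) + c : 𝓞 M) : M) := by
      have h0 : (((d : 𝓞 M) + c : 𝓞 M) : M) = ((d : 𝓞 M) : M) + (c : M) := by push_cast; rfl
      rw [h0, ← hce]; ring
    have hdc : (d : 𝓞 M) + c ∉ Q := fun h => hd ((Ideal.add_mem_iff_left Q hc).1 h)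
    have h1 : w ((d : 𝓞 M) : M) = 1 := hone _ hd
    have h2 : w (σ ((d : 𝓞 M) : M)) = 1 := by rw [hσd]; exact hone _ hdc
    -- (σ x - x) * (d * σ d) = d * σ n - n * σ d
    have h3 : (σ x - x) * (((d : 𝓞 M) : M) * σ ((d : 𝓞 M) : M))
        = (((d : 𝓞 M) * b - n * c : 𝓞 M) : M) := by
      have e1 : σ x * σ ((d : 𝓞 M) : M) = σ (n : M) := by rw [← map_mul, hnd']
      have e2 : σ (n : M) = (n : M) + (b : M) := by rw [← hbe]; ring
      have e3 : σ ((d : 𝓞 M) : M) = ((d : 𝓞 M) : M) + (c : M) := by rw [← hce]; ring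
      calc (σ x - x) * (((d : 𝓞 M) : M) * σ ((d : 𝓞 M) : M))
          = ((d : 𝓞 M) : M) * (σ x * σ ((d : 𝓞 M) : M))
            - (x * ((d : 𝓞 M) : M)) * σ ((d : 𝓞 M) : M) := by ring
        _ = ((d : 𝓞 M) : M) * ((n : M) + (b : M)) - (n : M) * (((d : 𝓞 M) : M) + (c : M)) := by
            rw [e1, hnd', e2, e3]
        _ = (((d : 𝓞 M) * b - n * c : 𝓞 M) : M) := by
            push_cast; ring
    have h4 : w (σ x - x) = w (((d : 𝓞 M) * b - n * c : 𝓞 M) : M) := by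
      rw [← h3, map_mul, map_mul, h1, h2, mul_one, mul_one]
    change w (σ x - x) < 1
    rw [h4, hmem]
    exact Q.sub_mem (Q.mul_mem_left _ hb) (Q.mul_mem_left _ hc)

end Pool.Agent.UFC
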