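import Mathlib
import Pool.Agent.UFC.C0

/-!
# UFC, module C7b: a prime whose inertia groups act trivially on `M` does not divide the discriminant of `M`

PROOF.  Suppose `l ∣ discr M`.  Then some prime ideal `P` of `𝓞 M` above `l` divides the different
(`NumberField.absNorm_differentIdeal`: the absolute norm of the different is `|discr M|`, divisible by `l`, so the different is
contained in a maximal ideal `P` with `l ∈ P`), so `P` is ramified (`not_dvd_differentIdeal_iff`), ramification index `e(P/l) ≥ 2`.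
Let `Q` be a prime of `𝓞 M'` above `P`.  By hypothesis the inertia group `Q.inertia Gal(M'/ℚ)` is contained in `Gal(M'/M)`.  Hence
`e(Q/l) = card (Q.inertia Gal(M'/ℚ)) = card (Q.inertia Gal(M'/M)) = e(Q/P)` (`Ideal.card_inertia_eq_ramificationIdxIn` for
`M'/ℚ` and for `M'/M`), while `e(Q/l) = e(Q/P) e(P/l)`: `e(P/l) = 1`, contradiction.
(See Mathlib/NumberTheory/RamificationInertia/Galois.lean, HilbertTheory.lean and Unramified.lean; perhaps the theorems on inertia fields in
HilbertTheory.lean give the result at once: `M` is contained in the inertia field of every `Q`.)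
-/

set_option autoImplicit false

namespace Pool.Agent.UFC

open Polynomial NumberField

theorem discr_of_inertia_aux (K L : Type*) [Field K] [Field L] [NumberField K] [NumberField L]
    [Algebra K L] [IsGalois ℚ L] (l : ℕ) (hl : l.Prime)
    (h : ∀ Q : Ideal (𝓞 L), Q.IsPrime → (l : 𝓞 L) ∈ Q → ∀ σ : L ≃ₐ[ℚ] L,
      (∀ a : 𝓞 L, ∃ b ∈ Q, σ (a : L) - (a : L) = ((b : 𝓞 L) : L)) →
      ∀ x : K, σ (algebraMap K L x) = algebraMap K L x) :
    ¬ (l : ℤ) ∣ NumberField.discr K := by
  have hlZ : Prime (l : ℤ) := Nat.prime_iff_prime_int.mp hl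
  have : IsGalois K L := IsGalois.tower_top_of_isGalois ℚ K L
  rw [NumberField.not_dvd_discr_iff_forall_liesOver K (𝓞 K) hlZ]
  intro P hP hPl
  have : P.IsPrime := hP.isPrime
  set p : Ideal ℤ := Ideal.span {(l : ℤ)} with hp
  have hpmax : p.IsMaximal :=
    ((Ideal.span_singleton_prime hlZ.ne_zero).mpr hlZ).isMaximal
      (by rw [Ne, Ideal.span_singleton_eq_bot]; exact hlZ.ne_zero)
  have : p.IsPrime := hpmax.isPrime
  -- a prime of `𝓞 L` above `P`
  obtain ⟨Q, -, hQp, hQP⟩ := Ideal.exists_ideal_over_prime_of_isIntegral (S := 𝓞 L) P ⊥ (by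
    rw [← RingHom.ker_eq_comap_bot, (RingHom.injective_iff_ker_eq_bot _).mp
      (FaithfulSMul.algebraMap_injective (𝓞 K) (𝓞 L))]
    exact bot_le)
  have : Q.LiesOver P := ⟨hQP.symm⟩
  have : Q.LiesOver p := Ideal.LiesOver.trans Q P p
  have hlQ : (l : 𝓞 L) ∈ Q := by
    have h1 : (l : ℤ) ∈ p := Ideal.mem_span_singleton_self _
    have h2 : p = Q.under ℤ := Ideal.LiesOver.over
    rw [h2, Ideal.mem_comap] at h1
    simpa using h1
  -- the two inertia groups
  have e1 : Nat.card (Q.inertia (L ≃ₐ[ℚ] L)) = Q.ramificationIdx ℤ := by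
    rw [Ideal.card_inertia_eq_ramificationIdxIn p Q,
      Ideal.ramificationIdxIn_eq_ramificationIdx p Q (L ≃ₐ[ℚ] L)]
  have e2 : Nat.card (Q.inertia (L ≃ₐ[K] L)) = Q.ramificationIdx (𝓞 K) := by
    rw [Ideal.card_inertia_eq_ramificationIdxIn P Q,
      Ideal.ramificationIdxIn_eq_ramificationIdx P Q (L ≃ₐ[K] L)]
  have e3 : Nat.card (Q.inertia (L ≃ₐ[ℚ] L)) ≤ Nat.card (Q.inertia (L ≃ₐ[K] L)) := by
    have hfix : ∀ σ : Q.inertia (L ≃ₐ[ℚ] L), ∀ x : K, σ.1 (algebraMap K L x) = algebraMap K L x := by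
      intro σ x
      refine h Q hQp hlQ σ.1 (fun a => ⟨σ.1 • a - a, σ.2 a, ?_⟩) x
      rfl
    let f : Q.inertia (L ≃ₐ[ℚ] L) → Q.inertia (L ≃ₐ[K] L) := fun σ =>
      ⟨AlgEquiv.ofRingEquiv (f := (σ.1 : L ≃+* L)) (hfix σ), fun a => σ.2 a⟩
    refine Nat.card_le_card_of_injective f (fun σ τ hστ => ?_)
    apply Subtype.ext
    apply AlgEquiv.ext
    intro x
    have h1 := congrArg (fun ρ : Q.inertia (L ≃ₐ[K] L) => ρ.1 x) hστ
    exact h1
  have e4 := Ideal.ramificationIdx_tower (R := ℤ) P Q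
  rw [e1, e2] at e3
  have e5 : 0 < Q.ramificationIdx (𝓞 K) := by
    rw [← e2]
    exact Nat.card_pos
  have e6 : 0 < P.ramificationIdx ℤ := P.ramificationIdx_pos ℤ
  have e7 : P.ramificationIdx ℤ = 1 := by
    rw [e4] at e3
    have : P.ramificationIdx ℤ ≤ 1 := by
      by_contra hcon
      push Not at hcon
      nlinarith
    omega
  have : (P.under ℤ).IsMaximal := by
    have h2 : p = P.under ℤ := hPl.over
    rw [← h2]
    exact hpmax
  exact Ideal.ramificationIdx_eq_one_iff.mp e7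

theorem discr_of_inertia (M M' : IntermediateField ℚ ℂ) [NumberField M]
    [NumberField M'] [IsGalois ℚ M'] (hMM : M ≤ M') (l : ℕ) (hl : l.Prime)
    (h : ∀ Q : Ideal (𝓞 M'), Q.IsPrime → (l : 𝓞 M') ∈ Q → ∀ σ : M' ≃ₐ[ℚ] M',
      (∀ a : 𝓞 M', ∃ b ∈ Q, σ (a : M') - (a : M') = ((b : 𝓞 M') : M')) →
      ∀ x : M, σ (IntermediateField.inclusion hMM x) = IntermediateField.inclusion hMM x) :
    ¬ (l : ℤ) ∣ NumberField.discr M := by
  letI : Algebra M M' := (IntermediateField.inclusion hMM).toRingHom.toAlgebra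
  exact discr_of_inertia_aux M M' l hl h

end Pool.Agent.UFC
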