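import Mathlib
import Pool.Agent.UFC.C7a
import Pool.Agent.UFC.C7b

/-!
# UFC, C7: a prime whose inertia groups act trivially on `M` does not divide the discriminant of `M`
-/

set_option autoImplicit false

namespace Pool.Agent.UFC

open Polynomial NumberField

theorem not_dvd_discr (M M' : IntermediateField ℚ ℂ) [NumberField M]
    [NumberField M'] [IsGalois ℚ M'] (hMM : M ≤ M') (l : ℕ) (hl : l.Prime)
    (h : ∀ A : ValuationSubring M', A.valuation (l : M') < 1 → ∀ σ : M' ≃ₐ[ℚ] M',
      Inert A (σ : M' ≃+* M') →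
      ∀ x : M, σ (IntermediateField.inclusion hMM x) = IntermediateField.inclusion hMM x) :
    ¬ (l : ℤ) ∣ NumberField.discr M := by
  refine discr_of_inertia M M' hMM l hl fun Q hQ hlQ σ hσ x => ?_
  obtain ⟨A, hA, hin⟩ := inert_of_inertia M' Q hQ l hl hlQ
  exact h A hA σ (hin σ hσ) x

end Pool.Agent.UFC
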