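import Mathlib
import Pool.Agent.UFC.C0

/-!
# UFC, module C8a: Galois closures

`galois_closure`: every finite set of algebraic numbers and every number field in `ℂ` are contained in a finite Galois extension of `ℚ` in `ℂ`
(normal closure of `M ⊔ adjoin ℚ T`, `normalClosure ℚ L ℂ`).

`closure_deg`: `[normal closure of L : ℚ]` is bounded in terms of `[L : ℚ] ≤ d`: it is the join of the images of the at most `d` embeddings of `L`
(`IntermediateField.finrank_sup_le`), or `L = ℚ(θ)` and the splitting field of the minimal polynomial of `θ` has degree at most `d!`.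

`closure_fixed`: `normalClosure ℚ L ℂ` is generated by the images `ρ(L)` of the embeddings `ρ : L → ℂ`, each of them is the restriction of some
`ρ ∈ Gal(M'/ℚ)` (`M'` normal, contains `L`); if `ρ⁻¹ τ ρ` fixes `L`, then `τ` fixes `ρ(L)`.
-/

set_option autoImplicit false

namespace Pool.Agent.UFC

open Polynomial

theorem gc_le_nc (L : IntermediateField ℚ ℂ) : L ≤ IntermediateField.normalClosure ℚ L ℂ :=
  L.fieldRange_val.symm.trans_le L.val.fieldRange_le_normalClosure

theorem gc_galois (L : IntermediateField ℚ ℂ) [FiniteDimensional ℚ L] :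
    IsGalois ℚ (IntermediateField.normalClosure ℚ L ℂ) := by
  have h : IsNormalClosure ℚ L (IntermediateField.normalClosure ℚ L ℂ) :=
    Algebra.IsAlgebraic.isNormalClosure_normalClosure (fun x => IsAlgClosed.splits _)
  have h2 : Normal ℚ (IntermediateField.normalClosure ℚ L ℂ) := h.normal
  exact { to_isSeparable := inferInstance, to_normal := h2 }

theorem galois_closure (M : IntermediateField ℚ ℂ) [FiniteDimensional ℚ M] (T : Finset ℂ)
    (hT : ∀ x ∈ T, IsAlgebraic ℚ x) :
    ∃ M' : IntermediateField ℚ ℂ, FiniteDimensional ℚ M' ∧ IsGalois ℚ M' ∧ M ≤ M' ∧ ∀ x ∈ T, x ∈ M' := by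
  have h1 : FiniteDimensional ℚ (IntermediateField.adjoin ℚ (T : Set ℂ)) :=
    IntermediateField.finiteDimensional_adjoin (fun x hx => (hT x hx).isIntegral)
  have h2 : FiniteDimensional ℚ (M ⊔ IntermediateField.adjoin ℚ (T : Set ℂ) : IntermediateField ℚ ℂ) :=
    inferInstance
  refine ⟨IntermediateField.normalClosure ℚ (M ⊔ IntermediateField.adjoin ℚ (T : Set ℂ) : IntermediateField ℚ ℂ) ℂ,
    inferInstance, gc_galois _, le_sup_left.trans (gc_le_nc _), fun x hx => ?_⟩
  exact gc_le_nc _ ((le_sup_right : IntermediateField.adjoin ℚ (T : Set ℂ) ≤ M ⊔ _)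
    (IntermediateField.subset_adjoin ℚ _ hx))

theorem gc_sup_deg (L : IntermediateField ℚ ℂ) [FiniteDimensional ℚ L]
    (s : Finset (L →ₐ[ℚ] ℂ)) :
    Module.finrank ℚ (s.sup AlgHom.fieldRange : IntermediateField ℚ ℂ) ≤
      (Module.finrank ℚ L) ^ s.card := by
  classical
  induction s using Finset.induction_on with
  | empty =>
    rw [Finset.sup_empty, Finset.card_empty, pow_zero]
    exact IntermediateField.finrank_bot.le
  | insert a s ha ih =>
    rw [Finset.sup_insert, Finset.card_insert_of_notMem ha, pow_succ, mul_comm]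
    refine (IntermediateField.finrank_sup_le _ _).trans ?_
    refine Nat.mul_le_mul (le_of_eq ?_) ih
    exact (LinearEquiv.finrank_eq (AlgEquiv.ofInjectiveField a).toLinearEquiv).symm

theorem closure_deg (d : ℕ) : ∃ n : ℕ, ∀ L : IntermediateField ℚ ℂ, FiniteDimensional ℚ L →
    Module.finrank ℚ L ≤ d → ∃ M : IntermediateField ℚ ℂ, FiniteDimensional ℚ M ∧ IsGalois ℚ M ∧
      L ≤ M ∧ Module.finrank ℚ M ≤ n ∧
      ∀ (M' : IntermediateField ℚ ℂ) (hMM : M ≤ M'), FiniteDimensional ℚ M' → IsGalois ℚ M' →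
          ∀ τ : M' ≃ₐ[ℚ] M', (∀ ρ : M' ≃ₐ[ℚ] M', ∀ x : M', (x : ℂ) ∈ L → (ρ⁻¹ * τ * ρ) x = x) →
          ∀ x : M, τ (IntermediateField.inclusion hMM x) = IntermediateField.inclusion hMM x := by
  refine ⟨d ^ d, fun L hL hd => ⟨IntermediateField.normalClosure ℚ L ℂ, inferInstance, gc_galois L, gc_le_nc L, ?_, ?_⟩⟩
  · have h1 : IntermediateField.normalClosure ℚ L ℂ = ((Finset.univ : Finset (L →ₐ[ℚ] ℂ)).sup AlgHom.fieldRange : IntermediateField ℚ ℂ) := by
      rw [Finset.sup_univ_eq_iSup]
      rfl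
    have h2 := gc_sup_deg L Finset.univ
    rw [← h1, Finset.card_univ, AlgHom.card] at h2
    refine h2.trans ?_
    have h3 : 0 < Module.finrank ℚ L := Module.finrank_pos
    exact (Nat.pow_le_pow_left hd _).trans (Nat.pow_le_pow_right (by omega) hd)
  · intro M' hMM hM' hG τ hτ x
    have := hM'
    have := hG
    have hle : IntermediateField.normalClosure ℚ L ℂ ≤
        (IntermediateField.fixedField (Subgroup.zpowers τ)).map M'.val := by
      rw [_root_.normalClosure_le_iff]
      rintro f _ ⟨y, rfl⟩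
      have hy : (y : ℂ) ∈ M' := hMM (gc_le_nc L y.2)
      have hfy : f y ∈ M' := hMM (f.fieldRange_le_normalClosure ⟨y, rfl⟩)
      have hmp : minpoly ℚ (⟨y, hy⟩ : M') = minpoly ℚ y := by
        rw [← minpoly.algebraMap_eq (algebraMap M' ℂ).injective,
          ← minpoly.algebraMap_eq (algebraMap L ℂ).injective]
        rfl
      obtain ⟨ρ, hρ⟩ := minpoly.exists_algEquiv_of_root' (K := ℚ) (L := M')
        (x := ⟨f y, hfy⟩) (y := ⟨y, hy⟩) (Algebra.IsAlgebraic.isAlgebraic _) (by
          rw [hmp]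
          apply (algebraMap M' ℂ).injective
          rw [map_zero]
          rw [← aeval_algebraMap_apply]
          change aeval (f y) (minpoly ℚ y) = 0
          rw [aeval_algHom_apply, minpoly.aeval, map_zero])
      refine ⟨⟨f y, hfy⟩, ?_, rfl⟩
      have h1 := hτ ρ ⟨y, hy⟩ y.2
      have h2 : τ (ρ ⟨y, hy⟩) = ρ ⟨y, hy⟩ := by
        have := congrArg ρ h1
        simpa [AlgEquiv.mul_apply] using this
      rw [hρ] at h2
      change (⟨f y, hfy⟩ : M') ∈ IntermediateField.fixedField (Subgroup.zpowers τ)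
      rw [IntermediateField.mem_fixedField_iff]
      intro g hg
      obtain ⟨k, rfl⟩ := Subgroup.mem_zpowers_iff.1 hg
      have hs : τ ∈ MulAction.stabilizer (M' ≃ₐ[ℚ] M') (⟨f y, hfy⟩ : M') := h2
      exact (MulAction.stabilizer (M' ≃ₐ[ℚ] M') (⟨f y, hfy⟩ : M')).zpow_mem hs k
    obtain ⟨z, hz, hzx⟩ := hle x.2
    have h3 : IntermediateField.inclusion hMM x = z := by
      apply Subtype.ext
      exact hzx.symm
    rw [h3]
    exact (IntermediateField.mem_fixedField_iff _ _).1 hz τ (Subgroup.mem_zpowers τ)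

end Pool.Agent.UFC
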