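import Mathlib
import Pool.Agent.UFC.C8a

/-!
# UFC, module C8: the field generated by the roots

`root_field`: `L = K ⊔ adjoin ℚ {roots of f}` has degree at most `[K:ℚ] D!` (the Galois group of `f` over `K`
acts faithfully on the at most `D` roots), then `closure_deg` of C8a for `L`.
Last property: if `ρ⁻¹ τ ρ` fixes `K` and the roots, then it fixes `L` (the elements of `M'` fixed by an automorphism form a field; `L` is
generated by `K` and the roots).
-/

set_option autoImplicit false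

namespace Pool.Agent.UFC

open Polynomial

/-- The degree of the splitting field inside `ℂ` is at most `D!`. -/
theorem split_deg (K : IntermediateField ℚ ℂ) (D : ℕ) (f : K[X])
    (hD : f.natDegree = D) :
    FiniteDimensional K (IntermediateField.adjoin K (f.rootSet ℂ)) ∧
      Module.finrank K (IntermediateField.adjoin K (f.rootSet ℂ)) ≤ D.factorial := by
  have hs : (f.map (algebraMap K ℂ)).Splits := IsAlgClosed.splits _
  have hsf : f.IsSplittingField K (IntermediateField.adjoin K (f.rootSet ℂ)) :=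
    IntermediateField.adjoin_rootSet_isSplittingField hs
  have hfd : FiniteDimensional K (IntermediateField.adjoin K (f.rootSet ℂ)) :=
    Polynomial.IsSplittingField.finiteDimensional _ f
  refine ⟨hfd, ?_⟩
  have e := Polynomial.IsSplittingField.algEquiv (IntermediateField.adjoin K (f.rootSet ℂ)) f
  rw [e.toLinearEquiv.finrank_eq]
  have : IsGalois K f.SplittingField := ⟨⟩
  have h1 := IsGalois.card_aut_eq_finrank K f.SplittingField
  rw [← h1]
  have : Fact ((f.map (algebraMap K ℂ)).Splits) := ⟨hs⟩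
  have h2 := Polynomial.Gal.galActionHom_injective f ℂ
  have h3 := Nat.card_le_card_of_injective _ h2
  refine h3.trans ?_
  rw [Nat.card_perm]
  apply Nat.factorial_le
  rw [← hD, Nat.card_coe_set_eq]
  exact Polynomial.ncard_rootSet_le f ℂ

theorem root_field (K : IntermediateField ℚ ℂ) [FiniteDimensional ℚ K] (D : ℕ) :
    ∃ n : ℕ, ∀ f : K[X], f.Monic → f.natDegree = D →
      ∃ M : IntermediateField ℚ ℂ, FiniteDimensional ℚ M ∧ IsGalois ℚ M ∧ K ≤ M ∧
        Module.finrank ℚ M ≤ n ∧ (∀ α : ℂ, aeval α f = 0 → α ∈ M) ∧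
        ∀ (M' : IntermediateField ℚ ℂ) (hMM : M ≤ M'), FiniteDimensional ℚ M' → IsGalois ℚ M' →
          ∀ τ : M' ≃ₐ[ℚ] M', (∀ ρ : M' ≃ₐ[ℚ] M', ∀ x : M', ((x : ℂ) ∈ K ∨ aeval (x : ℂ) f = 0) →
            (ρ⁻¹ * τ * ρ) x = x) →
          ∀ x : M, τ (IntermediateField.inclusion hMM x) = IntermediateField.inclusion hMM x := by
  obtain ⟨n, hn⟩ := closure_deg (Module.finrank ℚ K * D.factorial)
  refine ⟨n, ?_⟩
  intro f hm hD
  obtain ⟨h1, h2⟩ := split_deg K D f hD
  set E := IntermediateField.adjoin K (f.rootSet ℂ) with hE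
  have h3 : FiniteDimensional ℚ (E.restrictScalars ℚ) := by
    have : FiniteDimensional ℚ E := FiniteDimensional.trans ℚ K E
    exact this
  have h4 : Module.finrank ℚ (E.restrictScalars ℚ) ≤ Module.finrank ℚ K * D.factorial := by
    have h5 : Module.finrank ℚ K * Module.finrank K E = Module.finrank ℚ E :=
      Module.finrank_mul_finrank ℚ K E
    have h6 : Module.finrank ℚ (E.restrictScalars ℚ) = Module.finrank ℚ E := rfl
    rw [h6, ← h5]
    exact Nat.mul_le_mul_left _ h2
  obtain ⟨M, m1, m2, m3, m4, m5⟩ := hn (E.restrictScalars ℚ) h3 h4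
  have hKE : ∀ x ∈ K, x ∈ E := fun x hx => E.algebraMap_mem ⟨x, hx⟩
  have hroot : ∀ α : ℂ, aeval α f = 0 → α ∈ E := by
    intro α hα
    apply IntermediateField.subset_adjoin
    rw [Polynomial.mem_rootSet]
    exact ⟨hm.ne_zero, hα⟩
  refine ⟨M, m1, m2, fun x hx => m3 (hKE x hx), m4, fun α hα => m3 (hroot α hα), ?_⟩
  intro M' hMM hf' hg' τ hτ
  refine m5 M' hMM hf' hg' τ ?_
  intro ρ x hx
  have hle : ∀ y ∈ E, y ∈ M' := fun y hy => hMM (m3 hy)
  have key : ∀ (y : ℂ) (hy : y ∈ E), (ρ⁻¹ * τ * ρ) ⟨y, hle y hy⟩ = ⟨y, hle y hy⟩ := by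
    intro y hy
    induction hy using IntermediateField.adjoin_induction with
    | mem y hy =>
      refine hτ ρ _ (Or.inr ?_)
      rw [Polynomial.mem_rootSet] at hy
      exact hy.2
    | algebraMap y => exact hτ ρ _ (Or.inl y.2)
    | add y z hy hz ihy ihz =>
      have h5 : (⟨y + z, hle _ (add_mem hy hz)⟩ : M') = ⟨y, hle y hy⟩ + ⟨z, hle z hz⟩ := rfl
      rw [h5, map_add, ihy, ihz]
    | inv y hy ihy =>
      have h5 : (⟨y⁻¹, hle _ (inv_mem hy)⟩ : M') = (⟨y, hle y hy⟩)⁻¹ := rfl
      rw [h5, map_inv₀, ihy]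
    | mul y z hy hz ihy ihz =>
      have h5 : (⟨y * z, hle _ (mul_mem hy hz)⟩ : M') = ⟨y, hle y hy⟩ * ⟨z, hle z hz⟩ := rfl
      rw [h5, map_mul, ihy, ihz]
  exact key x hx

end Pool.Agent.UFC
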