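import Mathlib
import Pool.Agent.UFC.Defs
import Pool.Agent.UFC.A.Small
import Pool.Agent.UFC.A.Rho
import Pool.Agent.UFC.A.Lam1
import Pool.Agent.UFC.A.Eis1
import Pool.Agent.UFC.A.Om
import Pool.Agent.UFC.A.Prod
import Pool.Agent.UFC.A.Irr
import Pool.Agent.UFC.A.GnB
import Pool.Agent.UFC.A.Germ0
import Pool.Agent.UFC.A.Cusp2
import Pool.Agent.UFC.A.Inf
import Pool.Agent.UFC.A.Per

/-!
# UFC, part A: covers over the complex numbers

Assembly of part A.
-/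

set_option autoImplicit false

namespace Pool.Agent.UFC

open Polynomial UpperHalfPlane CongruenceSubgroup Filter Topology
open scoped MatrixGroups Manifold ModularForm

section assembly

variable {G : Type} [Group G]

theorem rho_surj (ρ : Gamma 2 →* G) (x y : G) (hA : ρ gA = x) (hB : ρ gB = y)
    (hgen : Subgroup.closure {x, y} = ⊤) : Function.Surjective ρ := by
  rw [← MonoidHom.range_eq_top, eq_top_iff, ← hgen, Subgroup.closure_le]
  rintro z (rfl | rfl)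
  · exact ⟨gA, hA⟩
  · exact ⟨gB, hB⟩

theorem Ey_mdiff (ρ : Gamma 2 →* G) (x : G) (y : G ⧸ Subgroup.zpowers x) : MDiff (Ey ρ x y) :=
  eis_mdiff _

theorem Ey_slash_mdiff (ρ : Gamma 2 →* G) (x : G) (y : G ⧸ Subgroup.zpowers x) (γ : SL(2, ℤ)) :
    MDiff (Ey ρ x y ∣[(4 : ℤ)] γ) := by
  rw [Ey, eis_slash]
  exact eis_mdiff _

theorem Ey_slash_bdd (ρ : Gamma 2 →* G) (x : G) (y : G ⧸ Subgroup.zpowers x) (γ : SL(2, ℤ)) :
    IsBoundedAtImInfty (Ey ρ x y ∣[(4 : ℤ)] γ) := by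
  rw [Ey, eis_slash]
  exact eis_bdd _

/-- The function attached to a coset. -/
noncomputable def al (ρ : Gamma 2 →* G) (x : G) (y : G ⧸ Subgroup.zpowers x) (z : ℍ) : ℂ :=
  Ey ρ x y z / fZ z ^ 2

theorem al_mdiff (ρ : Gamma 2 →* G) (x : G) (y : G ⧸ Subgroup.zpowers x) : MDiff (al ρ x y) :=
  mdiff_div' (Ey_mdiff ρ x y) (mdiff_pow' fZ_mdiff 2) (fun z => pow_ne_zero _ (fZ_ne z))

theorem al_ne (ρ : Gamma 2 →* G) (hρ : Function.Surjective ρ) (x : G) (hA : ρ gA = x)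
    (hN : ρ gN = 1) (y y' : G ⧸ Subgroup.zpowers x) (h : y ≠ y') : al ρ x y ≠ al ρ x y' := by
  intro he
  apply Ey_ne ρ hρ x hA hN y y' h
  funext z
  have h1 := congrFun he z
  simp only [al] at h1
  have h2 : fZ z ^ 2 ≠ 0 := pow_ne_zero _ (fZ_ne z)
  exact (div_left_inj' h2).mp h1

theorem al_gamma (ρ : Gamma 2 →* G) (x : G) (y : G ⧸ Subgroup.zpowers x) (δ : Gamma 2) (z : ℍ) :
    al ρ x y ((δ : SL(2, ℤ)) • z) = al ρ x ((ρ δ)⁻¹ • y) z := by
  simp only [al]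
  rw [div_smul_eq (k := 4) (l := 2) (Ey ρ x y) fZ 2 (by norm_num) (δ : SL(2, ℤ)) z, Ey_slash,
    fZ_MF.inv _ δ.2]

theorem al_S (ρ : Gamma 2 →* G) (x : G) (y : G ⧸ Subgroup.zpowers x) (z : ℍ) :
    al ρ x y (ModularGroup.S • z) = (Ey ρ x y ∣[(4 : ℤ)] ModularGroup.S) z / fZ z ^ 2 := by
  simp only [al]
  rw [div_smul_eq (k := 4) (l := 2) (Ey ρ x y) fZ 2 (by norm_num) ModularGroup.S z, fZ_S]
  simp

theorem fX_TS : fX ∣[(2 : ℤ)] (ModularGroup.T * ModularGroup.S) = fY := by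
  rw [SlashAction.slash_mul, fX_T, SlashAction.neg_slash, fX_S, neg_neg]

theorem al_TS (ρ : Gamma 2 →* G) (x : G) (y : G ⧸ Subgroup.zpowers x) (z : ℍ) :
    al ρ x y ((ModularGroup.T * ModularGroup.S) • z) *
      ((lam ((ModularGroup.T * ModularGroup.S) • z))⁻¹) ^ 2 =
      (Ey ρ x y ∣[(4 : ℤ)] (ModularGroup.T * ModularGroup.S)) z / fY z ^ 2 := by
  have h1 := div_smul_eq (k := 4) (l := 2) (Ey ρ x y) fX 2 (by norm_num)
    (ModularGroup.T * ModularGroup.S) z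
  rw [fX_TS] at h1
  rw [← h1]
  simp only [al, lam]
  have h2 := fZ_ne ((ModularGroup.T * ModularGroup.S) • z)
  have h3 := fX_ne ((ModularGroup.T * ModularGroup.S) • z)
  field_simp

theorem ev_subT (c : ℂ[X]) (P : ℂ[X][X]) (w : ℂ) : ev w (subT c P) = ev (c.eval w) P := by
  unfold ev subT
  rw [Polynomial.map_map]
  congr 1
  ext <;> simp

theorem subT_subT (c d : ℂ[X]) (P : ℂ[X][X]) : subT c (subT d P) = subT (d.comp c) P := by
  unfold subT
  rw [Polynomial.map_map]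
  congr 1
  ext <;> simp

theorem subT_monic (c : ℂ[X]) (P : ℂ[X][X]) (hP : P.Monic) : (subT c P).Monic := hP.map _

theorem bdd_div (f g : ℍ → ℂ) (hf : IsBoundedAtImInfty f) (hg : Tendsto g atImInfty (𝓝 1)) :
    IsBoundedAtImInfty (fun z => f z / g z ^ 2) := by
  rw [isBoundedAtImInfty_iff] at hf ⊢
  obtain ⟨M, A, hM⟩ := hf
  have h1 : ∀ᶠ z in atImInfty, (1 / 2 : ℝ) ≤ ‖g z‖ := by
    have h2 := (hg.norm).eventually (lt_mem_nhds (b := ‖(1 : ℂ)‖) (a := 1 / 2) (by norm_num))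
    filter_upwards [h2] with z hz using hz.le
  rw [Filter.Eventually, atImInfty_mem] at h1
  obtain ⟨B, hB⟩ := h1
  refine ⟨|M| * 4, max A B, fun z hz => ?_⟩
  have h3 := hM z (le_trans (le_max_left _ _) hz)
  have h4 : (1 / 2 : ℝ) ≤ ‖g z‖ := hB z (le_trans (le_max_right _ _) hz)
  rw [norm_div, norm_pow, div_le_iff₀ (by positivity)]
  have h5 : (1 / 4 : ℝ) ≤ ‖g z‖ ^ 2 := by nlinarith
  have h6 : ‖f z‖ ≤ |M| := h3.trans (le_abs_self _)
  nlinarith [abs_nonneg M]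

/-- The quotients of the expansions. -/
theorem lam_exp : ∃ φ φ' : ℂ → ℂ, AnalyticAt ℂ φ 0 ∧ φ 0 ≠ 0 ∧ AnalyticAt ℂ φ' 0 ∧ φ' 0 ≠ 0 ∧
    ∀ z : ℍ, lam z = q2 z * φ (q2 z) ∧ -(fX z / fY z) = q2 z * φ' (q2 z) := by
  obtain ⟨φX, φY, hX, hY, hX0, hY0, hne, hz⟩ := theta_exp
  have hball : Metric.ball (0 : ℂ) 1 ∈ 𝓝 (0 : ℂ) := Metric.ball_mem_nhds _ one_pos
  have aX : AnalyticAt ℂ φX 0 := hX.analyticAt hball
  have aY : AnalyticAt ℂ φY 0 := hY.analyticAt hball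
  have aY' : AnalyticAt ℂ (fun q => φY (-q)) 0 := by
    have h1 : AnalyticAt ℂ φY (-(0 : ℂ)) := by rw [neg_zero]; exact aY
    exact h1.comp (f := fun q : ℂ => -q) (analyticAt_id.neg)
  refine ⟨fun q => 16 * φX q / φY (-q), fun q => -(16 * φX q / φY q), ?_, ?_, ?_, ?_, fun z => ?_⟩
  · refine (analyticAt_const.mul aX).div aY' ?_
    simp [hY0]
  · simp [hX0, hY0]
  · refine ((analyticAt_const.mul aX).div aY ?_).neg
    simp [hY0]
  · simp [hX0, hY0]
  · obtain ⟨h1, h2, h3⟩ := hz z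
    constructor
    · rw [lam, h1, h3]
      ring
    · rw [h1, h2]
      ring

end assembly

theorem cover (G : Type) [Group G] [Finite G] (p q r : ℕ) (hp : 0 < p) (hq : 0 < q) (hr : 0 < r)
    (x y : G) (hx : x ^ p = 1) (hy : y ^ q = 1) (hxy : (x * y) ^ r = 1)
    (hgen : Subgroup.closure {x, y} = ⊤) :
    ∃ P : ℂ[X][X], PCD ℂ p q r (Subgroup.zpowers x).index P ∧ Irreducible P := by
  classical
  obtain ⟨ρ, hA, hB, hN⟩ := exists_rho G x y
  have hρ := rho_surj ρ x y hA hB hgen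
  let ι := G ⧸ Subgroup.zpowers x
  let _ : Fintype ι := Fintype.ofFinite ι
  have hcard : Fintype.card ι = (Subgroup.zpowers x).index := by
    rw [← Nat.card_eq_fintype_card]
    rfl
  obtain ⟨P, hPm, hPd, hPw, hPev⟩ := exists_P ι (fun i => Ey ρ x i) (fun i => Ey_mdiff ρ x i)
    (fun γ hγ => ⟨MulAction.toPerm ((ρ ⟨γ, hγ⟩)⁻¹), fun i => by
      have := Ey_slash ρ x i ⟨γ, hγ⟩
      simpa using this⟩) (fun i γ => Ey_slash_bdd ρ x i γ)
  have hev : ∀ z : ℍ, ev (lam z) P = ∏ i : ι, (X - C (al ρ x i z)) := hPev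
  rw [hcard] at hPd hPw
  have hne : ∀ i j : ι, i ≠ j → al ρ x i ≠ al ρ x j := fun i j h => al_ne ρ hρ x hA hN i j h
  have hmd : ∀ i : ι, MDiff (al ρ x i) := fun i => al_mdiff ρ x i
  obtain ⟨φ, φ', hφ, hφ0, hφ', hφ0', hexp⟩ := lam_exp
  refine ⟨P, ⟨hPm, hPd, hPw, ?_, ?_, ?_, ?_⟩, ?_⟩
  · -- the cusp `0`
    refine bd_cusp p hp ι (fun i => al ρ x i) hmd hne (fun i z => ?_) (fun i => ?_) φ hφ hφ0 P hPm ?_
    · exact per_zero ρ x hA p hx i z
    · have h1 := (Ey_slash_bdd ρ x i 1)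
      rw [SlashAction.slash_one] at h1
      exact bdd_div _ _ h1 fZ_lim
    · filter_upwards with z
      rw [← (hexp z).1]
      exact hev z
  · -- the cusp `1`
    have h1 : subT (1 - X ^ q) P = subT (X ^ q) (subT (1 - X) P) := by
      rw [subT_subT]
      simp
    rw [h1]
    refine bd_cusp q hq ι (fun i z => al ρ x i (ModularGroup.S • z)) (fun i => ?_) (fun i j hij h => ?_)
      (fun i z => ?_) (fun i => ?_) φ hφ hφ0 (subT (1 - X) P) (subT_monic _ _ hPm) ?_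
    · simp only [al_S]
      exact mdiff_div' (Ey_slash_mdiff ρ x i _) (mdiff_pow' fZ_mdiff 2)
        (fun z => pow_ne_zero _ (fZ_ne z))
    · apply hne i j hij
      funext z
      have h2 := congrFun h (ModularGroup.S⁻¹ • z)
      simpa using h2
    · simp only [al_S]
      exact per_one ρ x y hB q hy i z
    · simp only [al_S]
      exact bdd_div _ _ (Ey_slash_bdd ρ x i _) fZ_lim
    · filter_upwards with z
      rw [← (hexp z).1, ev_subT]
      simp only [eval_sub, eval_one, eval_X]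
      rw [← lam_S]
      exact hev _
  · -- the cusp `∞`
    refine bd_cusp r hr ι
      (fun i z => (Ey ρ x i ∣[(4 : ℤ)] (ModularGroup.T * ModularGroup.S)) z / fY z ^ 2)
      (fun i => ?_) (fun i j hij h => ?_)
      (fun i z => ?_) (fun i => ?_) φ' hφ' hφ0' (inf2 _ P) (inf2_monic _ P hPm hPd) ?_
    · exact mdiff_div' (Ey_slash_mdiff ρ x i _) (mdiff_pow' fY_mdiff 2)
        (fun z => pow_ne_zero _ (fY_ne z))
    · apply hne i j hij
      funext z
      have h2 := congrFun h ((ModularGroup.T * ModularGroup.S)⁻¹ • z)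
      rw [← al_TS, ← al_TS, smul_inv_smul] at h2
      exact mul_right_cancel₀ (pow_ne_zero 2 (inv_ne_zero (lam_ne_zero z))) h2
    · exact per_inf ρ x y hA hB hN r hxy i z
    · exact bdd_div _ _ (Ey_slash_bdd ρ x i _) fY_lim
    · filter_upwards with z
      rw [← (hexp z).2, ← lam_TS]
      have hl := lam_ne_zero ((ModularGroup.T * ModularGroup.S) • z)
      have h2 := ev_inf2 _ P hPm hPd hPw (lam ((ModularGroup.T * ModularGroup.S) • z))⁻¹
        (inv_ne_zero hl) ι (fun i => al ρ x i ((ModularGroup.T * ModularGroup.S) • z))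
        (by rw [inv_inv]; exact hev _)
      rw [h2]
      refine Finset.prod_congr rfl (fun i _ => ?_)
      rw [al_TS]
  · exact gn_of_bd P (fun t h0 h1 => bd_generic ι (fun i => al ρ x i) hmd hne P hPm hev t h0 h1)
  · haveI : Nonempty ι := ⟨((1 : G) : G ⧸ Subgroup.zpowers x)⟩
    refine irreducible_of_trans ι (fun i => al ρ x i) hmd hne (fun i j => ?_) P hPm
      (by rw [hPd, hcard]) hev
    obtain ⟨g, hg⟩ := MulAction.exists_smul_eq G i j
    obtain ⟨δ, hδ⟩ := hρ g⁻¹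
    refine ⟨δ, δ.2, fun z => ?_⟩
    rw [al_gamma, hδ, inv_inv, hg]

end Pool.Agent.UFC
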