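import Mathlib
import Pool.Agent.UFC.Defs
import Pool.Agent.UFC.B1
import Pool.Agent.UFC.B2
import Pool.Agent.UFC.B3
import Pool.Agent.UFC.B4

/-!
# UFC, part B: descent of a cover from the complex numbers to a number field

A finitely generated subring `A` of `ℂ` over which the certificate `PCD` and an irreducibility certificate hold (`B2`, `B3`) has
a homomorphism to a number field (`B4`), and the certificates are functorial (`B1`).
-/

set_option autoImplicit false

namespace Pool.Agent.UFC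

open Polynomial

theorem descend (p q r D : ℕ) (hD : 0 < D) (P : ℂ[X][X]) (hP : PCD ℂ p q r D P)
    (hirr : Irreducible P) :
    ∃ K : IntermediateField ℚ ℂ, FiniteDimensional ℚ K ∧
      ∃ P' : K[X][X], PCD K p q r D P' ∧ Irreducible (toC P') := by
  classical
  obtain ⟨s0, h0⟩ := exists_lift P
  obtain ⟨s1, h1⟩ := hP.eventually
  obtain ⟨s2, h2⟩ := irr_eventually hP.monic hirr
  set s : Finset ℂ := s0 ∪ s1 ∪ s2 with hs
  set A : Subalgebra ℚ ℂ := Algebra.adjoin ℚ (s : Set ℂ) with hA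
  have hsA : (s : Set ℂ) ⊆ (A : Set ℂ) := Algebra.subset_adjoin
  have hs0 : (s0 : Set ℂ) ⊆ (A : Set ℂ) := fun x hx => hsA (by
    rw [hs]; simp only [Finset.coe_union, Set.mem_union]; exact Or.inl (Or.inl hx))
  have hs1 : (s1 : Set ℂ) ⊆ (A : Set ℂ) := fun x hx => hsA (by
    rw [hs]; simp only [Finset.coe_union, Set.mem_union]; exact Or.inl (Or.inr hx))
  have hs2 : (s2 : Set ℂ) ⊆ (A : Set ℂ) := fun x hx => hsA (by
    rw [hs]; simp only [Finset.coe_union, Set.mem_union]; exact Or.inr hx)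
  obtain ⟨P', hP'⟩ := h0 A hs0
  have c1 := h1 A hs1 P' hP'
  have c2 := h2 A hs2 P' hP'
  obtain ⟨K, hK, ⟨f⟩⟩ := exists_alg_point A ⟨s, rfl⟩
  refine ⟨K, hK, P'.map (mapRingHom f), c1.map f, ?_⟩
  have := c2 ((algebraMap K ℂ).comp f)
  rw [toC, Polynomial.map_map]
  rwa [show (mapRingHom (algebraMap K ℂ)).comp (mapRingHom f) =
    mapRingHom ((algebraMap K ℂ).comp f) from (mapRingHom_comp _ _)]

end Pool.Agent.UFC
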