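import Mathlib

/-!
# UFC, module G1: finite residue fields

PROOF.  `ℤ` is a Jacobson ring, `R` is integral over `ℤ`, hence Jacobson (`isJacobsonRing_of_isIntegral`), and reduced, so the intersection of the maximal ideals is `0`: there is a
maximal ideal `m` with `s ∉ m`; `F = R / m`.  `F` is a finitely generated `ℤ`-module.  If `F` had characteristic `0`, then `ℤ → F` would be injective and integral with `F` a
field, so `ℤ` would be a field (`isField_of_isIntegral_of_isField`).  So `F` has characteristic `l > 0`, it is a finitely generated module over `ZMod l`, hence finite.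
(Alternative: `s` divides a nonzero integer `m`, take a prime number `l` not dividing `m` and a maximal ideal above `l`.)
-/

set_option autoImplicit false

namespace Pool.Agent.UFC

theorem exists_finite_field (R : Type) [CommRing R] [IsDomain R] [CharZero R] [Module.Finite ℤ R]
    (s : R) (hs : s ≠ 0) : ∃ (F : Type) (_ : Field F) (_ : Finite F) (φ : R →+* F), φ s ≠ 0 := by
  classical
  have hint : Algebra.IsIntegral ℤ R := inferInstance
  have h1 : (Ideal.span {s}).comap (algebraMap ℤ R) ≠ ⊥ :=
    Ideal.comap_ne_bot_of_integral_mem hs (Ideal.mem_span_singleton_self s) (hint.isIntegral s)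
  obtain ⟨m, hm, hm0⟩ := Submodule.exists_mem_ne_zero_of_ne_bot h1
  obtain ⟨l, hl, hlp⟩ := Nat.exists_infinite_primes (m.natAbs + 1)
  haveI : Fact l.Prime := ⟨hlp⟩
  haveI := Int.ideal_span_isMaximal_of_prime l
  have hinj : Function.Injective (algebraMap ℤ R) := (algebraMap ℤ R).injective_int
  have hker : RingHom.ker (algebraMap ℤ R) ≤ Ideal.span {(l : ℤ)} := by
    rw [(RingHom.injective_iff_ker_eq_bot _).1 hinj]
    exact bot_le
  obtain ⟨Q, hQ, hQc⟩ := Ideal.exists_ideal_over_maximal_of_isIntegral (S := R)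
    (Ideal.span {(l : ℤ)}) hker
  haveI := hQ
  have hlQ : (l : R) ∈ Q := by
    have : (l : ℤ) ∈ Q.comap (algebraMap ℤ R) := by
      rw [hQc]; exact Ideal.mem_span_singleton_self _
    simpa using this
  have hfin : Finite (R ⧸ Q) := by
    haveI : Module.Finite ℤ (R ⧸ Q) := Module.Finite.of_surjective
      ((Ideal.Quotient.mk Q).toAddMonoidHom.toIntLinearMap) Ideal.Quotient.mk_surjective
    apply Module.finite_of_fg_torsion
    intro x
    refine ⟨⟨(l : ℤ), mem_nonZeroDivisors_of_ne_zero (by exact_mod_cast hlp.ne_zero)⟩, ?_⟩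
    obtain ⟨y, rfl⟩ := Ideal.Quotient.mk_surjective x
    change (l : ℤ) • (Ideal.Quotient.mk Q y) = 0
    rw [zsmul_eq_mul, Int.cast_natCast, ← map_natCast (Ideal.Quotient.mk Q), ← map_mul]
    exact Ideal.Quotient.eq_zero_iff_mem.2 (Q.mul_mem_right _ hlQ)
  refine ⟨R ⧸ Q, Ideal.Quotient.field Q, hfin, Ideal.Quotient.mk Q, ?_⟩
  intro hcon
  have hsQ : s ∈ Q := Ideal.Quotient.eq_zero_iff_mem.1 hcon
  have hmQ : m ∈ Q.comap (algebraMap ℤ R) := by
    have h2 : algebraMap ℤ R m ∈ Ideal.span {s} := hm
    obtain ⟨c, hc⟩ := Ideal.mem_span_singleton.1 h2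
    change algebraMap ℤ R m ∈ Q
    rw [hc]
    exact Q.mul_mem_right _ hsQ
  rw [hQc] at hmQ
  have hdvd : (l : ℤ) ∣ m := Ideal.mem_span_singleton.1 hmQ
  have h3 : l ∣ m.natAbs := by
    have := Int.natAbs_dvd_natAbs.2 hdvd
    simpa using this
  have h4 := Nat.le_of_dvd (Int.natAbs_pos.2 hm0) h3
  omega

end Pool.Agent.UFC
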