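import Mathlib

/-!
# UFC, module G2: powers of matrices of determinant one, and a trigonometric inequality

* `pow_scalar`: by Cayley-Hamilton `M² = (u + u⁻¹) M - 1`, hence by induction
  `(u - u⁻¹) M^k = (u^k - u^(-k)) M - (u^(k-1) - u^(1-k)) 1` for `k ≥ 1`; `u^k = u^(-k)`, cancel `u - u⁻¹ ≠ 0`.
* `trace_pow`: `s_k = tr M^k` satisfies `s_0 = 2`, `s_1 = τ`, `s_(k+2) = τ s_(k+1) - s_k`, so `s_k` is real, and by induction `s_(k+1) > s_k ≥ 2`.
* `trig`: with `α = π/p`, `β = π/q`, `γ = π/r` in `(0, π/2]`, `α + β < π - γ`: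
  `cos²α + cos²β + cos²γ + 2 cos α cos β cos γ - 1 = (cos γ + cos (α + β)) (cos γ + cos (α - β))`; the first factor is positive since `cos` is strictly decreasing on `[0, π]` and
  `cos (π - γ) = - cos γ`; in the second one `cos γ ≥ 0` and `|α - β| < π/2`.
-/

set_option autoImplicit false

namespace Pool.Agent.UFC

open Real

/-- Cayley-Hamilton for `2 × 2` matrices of determinant one -/
private theorem g2_ch' {K : Type*} [Field K] (M : Matrix (Fin 2) (Fin 2) K) (hdet : M.det = 1) :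
    M * M = M.trace • M - 1 := by
  rw [Matrix.det_fin_two] at hdet
  ext i j
  fin_cases i <;> fin_cases j
  · simp [Matrix.mul_apply, Fin.sum_univ_two, Matrix.trace_fin_two]
    linear_combination -hdet
  · simp [Matrix.mul_apply, Fin.sum_univ_two, Matrix.trace_fin_two]
    ring
  · simp [Matrix.mul_apply, Fin.sum_univ_two, Matrix.trace_fin_two]
    ring
  · simp [Matrix.mul_apply, Fin.sum_univ_two, Matrix.trace_fin_two]
    linear_combination -hdet

private theorem g2_pow {K : Type*} [Field K] (M : Matrix (Fin 2) (Fin 2) K) (u w : K)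
    (huw : u * w = 1) (hM : M * M = (u + w) • M - 1) (k : ℕ) :
    (u - w) • M ^ k = (u ^ k - w ^ k) • M -
      (u ^ k * w - u * w ^ k) • (1 : Matrix (Fin 2) (Fin 2) K) := by
  induction k with
  | zero =>
    simp only [pow_zero]
    module
  | succ k ih =>
    calc (u - w) • M ^ (k + 1) = ((u - w) • M ^ k) * M := by rw [pow_succ, smul_mul_assoc]
      _ = ((u ^ k - w ^ k) • M -
          (u ^ k * w - u * w ^ k) • (1 : Matrix (Fin 2) (Fin 2) K)) * M := by rw [ih]
      _ = (u ^ k - w ^ k) • (M * M) - (u ^ k * w - u * w ^ k) • M := by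
          rw [sub_mul, smul_mul_assoc, smul_mul_assoc, one_mul]
      _ = (u ^ k - w ^ k) • ((u + w) • M - 1) - (u ^ k * w - u * w ^ k) • M := by rw [hM]
      _ = ((u ^ k - w ^ k) * (u + w) - (u ^ k * w - u * w ^ k)) • M -
          (u ^ k - w ^ k) • (1 : Matrix (Fin 2) (Fin 2) K) := by module
      _ = (u ^ (k + 1) - w ^ (k + 1)) • M -
          (u ^ (k + 1) * w - u * w ^ (k + 1)) • (1 : Matrix (Fin 2) (Fin 2) K) := by
          have e1 : (u ^ k - w ^ k) * (u + w) - (u ^ k * w - u * w ^ k) =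
              u ^ (k + 1) - w ^ (k + 1) := by ring
          have e2 : u ^ k - w ^ k = u ^ (k + 1) * w - u * w ^ (k + 1) := by
            linear_combination (w ^ k - u ^ k) * huw
          rw [e1, e2]

theorem pow_scalar {K : Type*} [Field K] (M : Matrix (Fin 2) (Fin 2) K) (u : K) (hu : u ≠ 0)
    (htr : M.trace = u + u⁻¹) (hdet : M.det = 1) (hu2 : u ^ 2 ≠ 1) (k : ℕ) (hk : (u ^ k) ^ 2 = 1) :
    M ^ k = (u ^ k) • (1 : Matrix (Fin 2) (Fin 2) K) := by
  have huw : u * u⁻¹ = 1 := mul_inv_cancel₀ hu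
  have hM := g2_ch' M hdet
  rw [htr] at hM
  have h1 := g2_pow M u u⁻¹ huw hM k
  have h2 : (u⁻¹) ^ k = u ^ k := by
    have h3 : u ^ k * (u⁻¹) ^ k = 1 := by rw [← mul_pow, huw, one_pow]
    have h4 : u ^ k ≠ 0 := pow_ne_zero k hu
    apply mul_left_cancel₀ h4
    rw [h3, ← hk]
    ring
  rw [h2] at h1
  have h3 : u - u⁻¹ ≠ 0 := by
    intro h4
    apply hu2
    have h5 : u = u⁻¹ := sub_eq_zero.mp h4
    calc u ^ 2 = u * u := by ring
      _ = u * u⁻¹ := by rw [← h5]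
      _ = 1 := huw
  have h4 : (u - u⁻¹) • M ^ k = (u - u⁻¹) • ((u ^ k) • (1 : Matrix (Fin 2) (Fin 2) K)) := by
    rw [h1]
    module
  exact smul_right_injective _ h3 h4

theorem trace_pow (M : Matrix (Fin 2) (Fin 2) ℂ) (hdet : M.det = 1) (τ : ℝ) (hτ : 2 < τ)
    (htr : M.trace = (τ : ℂ)) (k : ℕ) (hk : 0 < k) : ∃ s : ℝ, 2 < s ∧ (M ^ k).trace = (s : ℂ) := by
  have hM := g2_ch' M hdet
  rw [htr] at hM
  have key : ∀ j : ℕ, ∃ s t : ℝ, 2 ≤ s ∧ s < t ∧ (M ^ j).trace = (s : ℂ) ∧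
      (M ^ (j + 1)).trace = (t : ℂ) := by
    intro j
    induction j with
    | zero =>
      refine ⟨2, τ, le_refl _, hτ, ?_, ?_⟩
      · rw [pow_zero, Matrix.trace_one]
        simp
      · rw [zero_add, pow_one, htr]
    | succ j ih =>
      obtain ⟨s, t, h1, h2, h3, h4⟩ := ih
      refine ⟨t, τ * t - s, by linarith, by nlinarith, h4, ?_⟩
      have e : M ^ (j + 1 + 1) = (τ : ℂ) • M ^ (j + 1) - M ^ j := by
        rw [pow_succ, pow_succ, mul_assoc, hM, mul_sub, mul_one, Matrix.mul_smul]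
      rw [e, Matrix.trace_sub, Matrix.trace_smul, h3, h4]
      push_cast
      rw [smul_eq_mul]
  obtain ⟨j, rfl⟩ : ∃ j, k = j + 1 := ⟨k - 1, by omega⟩
  obtain ⟨s, t, h1, h2, h3, h4⟩ := key j
  exact ⟨t, by linarith, h4⟩

theorem trig (p q r : ℕ) (hp : 2 ≤ p) (hq : 2 ≤ q) (hr : 2 ≤ r)
    (h : (1 : ℝ) / p + 1 / q + 1 / r < 1) :
    2 < (2 * cos (π / p)) ^ 2 + (2 * cos (π / q)) ^ 2 + (2 * cos (π / r)) ^ 2 +
      (2 * cos (π / p)) * (2 * cos (π / q)) * (2 * cos (π / r)) - 2 := by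
  have hpi := pi_pos
  have hb : ∀ n : ℕ, 2 ≤ n → 0 < π / n ∧ π / n ≤ π / 2 := by
    intro n hn
    have hn' : (2 : ℝ) ≤ n := by exact_mod_cast hn
    exact ⟨by positivity, div_le_div_of_nonneg_left hpi.le (by norm_num) hn'⟩
  obtain ⟨a0, a1⟩ := hb p hp
  obtain ⟨b0, b1⟩ := hb q hq
  obtain ⟨c0, c1⟩ := hb r hr
  have hsum : π / p + π / q + π / r < π := by
    have e : π / p + π / q + π / r = π * (1 / p + 1 / q + 1 / r) := by ring
    rw [e]
    calc π * (1 / p + 1 / q + 1 / r) < π * 1 := mul_lt_mul_of_pos_left h hpi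
      _ = π := mul_one _
  set α := π / (p : ℝ) with hα
  set β := π / (q : ℝ) with hβ
  set γ := π / (r : ℝ) with hγ
  have f1 : 0 < cos γ + cos (α + β) := by
    have := cos_lt_cos_of_nonneg_of_le_pi (x := α + β) (y := π - γ) (by linarith) (by linarith)
      (by linarith)
    rw [cos_pi_sub] at this
    linarith
  have f2 : 0 < cos γ + cos (α - β) := by
    have g1 : 0 ≤ cos γ := cos_nonneg_of_mem_Icc ⟨by linarith, by linarith⟩
    have g2 : 0 < cos (α - β) := cos_pos_of_mem_Ioo ⟨by linarith, by linarith⟩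
    linarith
  have f3 := mul_pos f1 f2
  have e : (cos γ + cos (α + β)) * (cos γ + cos (α - β)) =
      cos α ^ 2 + cos β ^ 2 + cos γ ^ 2 + 2 * cos α * cos β * cos γ - 1 := by
    rw [cos_add, cos_sub]
    have s1 := sin_sq_add_cos_sq α
    have s2 := sin_sq_add_cos_sq β
    have s3 : sin α ^ 2 = 1 - cos α ^ 2 := by linarith
    have s4 : sin β ^ 2 = 1 - cos β ^ 2 := by linarith
    linear_combination (-sin β ^ 2) * s3 - (1 - cos α ^ 2) * s4
  rw [e] at f3
  nlinarith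

end Pool.Agent.UFC
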