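import Mathlib
import Pool.Agent.UFC.G2

/-!
# UFC, module G3: a matrix representation of the triangle group over a ring of algebraic integers

PROOF.  `z_p = exp(π i / p)`, `a = z_p + z_p⁻¹ = 2 cos(π/p)`, `b = z_q + z_q⁻¹`, `u = - exp(π i / r)`, `u + u⁻¹ = - 2 cos(π/r)`.
`R` = the subring of `ℂ` generated over `ℤ` by `a, b, u, u⁻¹` (`Algebra.adjoin ℤ`), algebraic integers, so `R` is a finite `ℤ`-module
(`Algebra.finite_adjoin_of_finite_of_isIntegral`).
`A = !![a, -1; 1, 0]`, `B = !![0, u; -u⁻¹, b]`, `A B = !![u⁻¹, a u - b; 0, u]`, all of determinant `1`.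
`A^p = z_p^p = -1` by `pow_scalar` with `u := z_p` (`z_p^2 = exp(2 π i / p) ≠ 1` because `p ≥ 2`, `z_p^p = -1`), the same for `B`, and
`(A B)^r = u^r = ± 1` (`u^2 = exp(2 π i / r) ≠ 1`, `(u^r)^2 = 1`).  The equations hold over `ℂ`, hence over `R` (injective map of matrices).
The commutator `A B A⁻¹ B⁻¹` has trace `a² + b² + c² - a b c - 2`, `c = u + u⁻¹ = - 2 cos(π/r)`, which is real and `> 2` by `trig`; so no power `k > 0` of it
is `1` (`trace_pow`; the trace of `1` is `2`).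
-/

set_option autoImplicit false

namespace Pool.Agent.UFC

open Complex in
/-- properties of the root of unity `ζ^(N / (2 p))` -/
theorem g3_root {N m p : ℕ} (hp : 2 ≤ p) (hm : 0 < m) (hN : N = 2 * (m * p)) {ζ : ℂ}
    (hζ : ζ = Complex.exp (2 * Real.pi * I / N)) :
    (ζ ^ m) ^ p = -1 ∧ (ζ ^ m) ^ 2 ≠ 1 ∧ ζ ^ m + (ζ ^ m)⁻¹ = ((2 * Real.cos (Real.pi / p) : ℝ) : ℂ) := by
  have hp0 : 0 < p := by omega
  have hmp : 0 < m * p := Nat.mul_pos hm hp0
  have hN0 : N ≠ 0 := by omega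
  have hprim : IsPrimitiveRoot ζ N := by
    rw [hζ]
    exact Complex.isPrimitiveRoot_exp N hN0
  refine ⟨?_, ?_, ?_⟩
  · have h1 : ((ζ ^ m) ^ p) ^ 2 = 1 := by
      rw [← pow_mul, ← pow_mul, show m * (p * 2) = N by rw [hN]; ring]
      exact hprim.pow_eq_one
    rcases sq_eq_sq_iff_eq_or_eq_neg.1 (h1.trans (one_pow 2).symm) with h2 | h2
    · exfalso
      rw [← pow_mul] at h2
      have := Nat.le_of_dvd hmp ((hprim.pow_eq_one_iff_dvd _).1 h2)
      omega
    · exact h2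
  · intro h
    rw [← pow_mul] at h
    have h1 := Nat.le_of_dvd (by omega) ((hprim.pow_eq_one_iff_dvd _).1 h)
    have h2 : m * 2 ≤ m * p := Nat.mul_le_mul_left m hp
    omega
  · have h1 : ζ ^ m = Complex.exp ((Real.pi / p : ℝ) * I) := by
      rw [hζ, ← Complex.exp_nat_mul]
      congr 1
      have hm' : (m : ℂ) ≠ 0 := by exact_mod_cast hm.ne'
      have hp' : (p : ℂ) ≠ 0 := by exact_mod_cast hp0.ne'
      rw [hN]
      push_cast
      field_simp
    rw [h1, ← Complex.exp_neg]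
    push_cast
    rw [Complex.cos]
    ring_nf

theorem matrices (p q r : ℕ) (hp : 2 ≤ p) (hq : 2 ≤ q) (hr : 2 ≤ r)
    (h : (1 : ℚ) / p + 1 / q + 1 / r < 1) :
    ∃ (R : Subalgebra ℤ ℂ) (_ : Module.Finite ℤ R) (A B : Matrix.SpecialLinearGroup (Fin 2) R),
      A ^ p = -1 ∧ B ^ q = -1 ∧ ((A * B) ^ r = 1 ∨ (A * B) ^ r = -1) ∧
      ∀ k : ℕ, 0 < k → (A * B * A⁻¹ * B⁻¹) ^ k ≠ 1 := by
  have hp0 : 0 < p := by omega
  have hq0 : 0 < q := by omega
  have hr0 : 0 < r := by omega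
  obtain ⟨N, hN⟩ : ∃ N, N = 2 * (q * r * p) := ⟨_, rfl⟩
  have hqrp : 0 < q * r * p := by positivity
  have hN0 : N ≠ 0 := by omega
  obtain ⟨ζ, hζ⟩ : ∃ ζ : ℂ, ζ = Complex.exp (2 * Real.pi * Complex.I / N) := ⟨_, rfl⟩
  have hprim : IsPrimitiveRoot ζ N := by
    rw [hζ]
    exact Complex.isPrimitiveRoot_exp N hN0
  have hζN : ζ ^ N = 1 := hprim.pow_eq_one
  obtain ⟨ha1, ha2, ha3⟩ := g3_root (N := N) (m := q * r) hp (by positivity) hN hζ
  obtain ⟨hb1, hb2, hb3⟩ := g3_root (N := N) (m := p * r) (p := q) hq (by positivity)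
    (by rw [hN]; ring) hζ
  obtain ⟨hc1, hc2, hc3⟩ := g3_root (N := N) (m := p * q) (p := r) hr (by positivity)
    (by rw [hN]; ring) hζ
  have hint : IsIntegral ℤ ζ := hprim.isIntegral (Nat.pos_of_ne_zero hN0)
  let R : Subalgebra ℤ ℂ := Algebra.adjoin ℤ {ζ}
  have hfin : Module.Finite ℤ R := Algebra.finite_adjoin_simple_of_isIntegral hint
  let z : R := ⟨ζ, Algebra.subset_adjoin rfl⟩
  have hz : z ^ N = 1 := Subtype.ext (by
    rw [SubmonoidClass.coe_pow]
    exact hζN)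
  let f : R →+* ℂ := algebraMap R ℂ
  have hf : Function.Injective f := Subtype.val_injective
  have hfz : f z = ζ := rfl
  have hζ0 : ζ ≠ 0 := hprim.ne_zero hN0
  -- inverse powers
  have hinv : ∀ m, m ≤ N → ζ ^ (N - m) = (ζ ^ m)⁻¹ := by
    intro m hm
    apply eq_inv_of_mul_eq_one_left
    rw [← pow_add, Nat.sub_add_cancel hm, hζN]
  have hle1 : q * r ≤ N := by
    rw [hN]
    nlinarith [Nat.le_mul_of_pos_right (q * r) hp0]
  have hle2 : p * r ≤ N := by
    rw [hN, show q * r * p = (p * r) * q by ring]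
    nlinarith [Nat.le_mul_of_pos_right (p * r) hq0]
  have hle3 : p * q ≤ N := by
    rw [hN, show q * r * p = (p * q) * r by ring]
    nlinarith [Nat.le_mul_of_pos_right (p * q) hr0]
  set a : R := z ^ (q * r) + z ^ (N - q * r) with ha
  set b : R := z ^ (p * r) + z ^ (N - p * r) with hb
  set u : R := -z ^ (p * q) with hu
  set u' : R := -z ^ (N - p * q) with hu'
  have huu : u * u' = 1 := by
    rw [hu, hu', neg_mul_neg, ← pow_add, Nat.add_sub_cancel' hle3, hz]
  have hfa : f a = ((2 * Real.cos (Real.pi / p) : ℝ) : ℂ) := by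
    rw [ha, map_add, map_pow, map_pow, hfz, hinv _ hle1, ha3]
  have hfb : f b = ((2 * Real.cos (Real.pi / q) : ℝ) : ℂ) := by
    rw [hb, map_add, map_pow, map_pow, hfz, hinv _ hle2, hb3]
  have hfu : f u = -ζ ^ (p * q) := by rw [hu, map_neg, map_pow, hfz]
  have hfu' : f u' = (f u)⁻¹ := by
    rw [hfu, hu', map_neg, map_pow, hfz, hinv _ hle3, inv_neg]
  have hfu0 : f u ≠ 0 := by
    rw [hfu, neg_ne_zero]
    exact pow_ne_zero _ hζ0
  have hfuu : f u + f u' = -((2 * Real.cos (Real.pi / r) : ℝ) : ℂ) := by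
    rw [hfu', hfu, ← hc3, inv_neg]
    ring
  let A : Matrix.SpecialLinearGroup (Fin 2) R := ⟨!![a, -1; 1, 0], by
    rw [Matrix.det_fin_two_of]
    ring⟩
  let B : Matrix.SpecialLinearGroup (Fin 2) R := ⟨!![0, u; -u', b], by
    rw [Matrix.det_fin_two_of]
    linear_combination huu⟩
  have hinj : ∀ X Y : Matrix (Fin 2) (Fin 2) R, f.mapMatrix X = f.mapMatrix Y → X = Y := by
    intro X Y hXY
    ext i j
    have := congrFun (congrFun hXY i) j
    exact congrArg Subtype.val (hf this)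
  have hneg : f.mapMatrix (-1 : Matrix (Fin 2) (Fin 2) R) = -1 := by
    rw [map_neg, map_one]
  refine ⟨R, hfin, A, B, ?_, ?_, ?_, ?_⟩
  · apply Subtype.ext
    apply hinj
    rw [Matrix.SpecialLinearGroup.coe_pow, map_pow, Matrix.SpecialLinearGroup.coe_neg,
      Matrix.SpecialLinearGroup.coe_one, hneg,
      pow_scalar (f.mapMatrix (A : Matrix (Fin 2) (Fin 2) R)) (ζ ^ (q * r))
        (pow_ne_zero _ hζ0) ?_ ?_ ha2 p (by rw [ha1]; norm_num), ha1]
    · simp
    · rw [ha3, ← hfa]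
      simp [A, Matrix.trace_fin_two]
    · rw [← RingHom.map_det, A.2, map_one]
  · apply Subtype.ext
    apply hinj
    rw [Matrix.SpecialLinearGroup.coe_pow, map_pow, Matrix.SpecialLinearGroup.coe_neg,
      Matrix.SpecialLinearGroup.coe_one, hneg,
      pow_scalar (f.mapMatrix (B : Matrix (Fin 2) (Fin 2) R)) (ζ ^ (p * r))
        (pow_ne_zero _ hζ0) ?_ ?_ hb2 q (by rw [hb1]; norm_num), hb1]
    · simp
    · rw [hb3, ← hfb]
      simp [B, Matrix.trace_fin_two]
    · rw [← RingHom.map_det, B.2, map_one]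
  · have hur2 : ((f u) ^ r) ^ 2 = 1 := by
      rw [hfu, neg_pow, hc1, mul_pow, ← pow_mul, mul_comm r 2, pow_mul]
      norm_num
    have hmat : (f.mapMatrix ((A * B : Matrix.SpecialLinearGroup (Fin 2) R) :
        Matrix (Fin 2) (Fin 2) R)) ^ r = (f u ^ r) • (1 : Matrix (Fin 2) (Fin 2) ℂ) := by
      apply pow_scalar _ (f u) hfu0 ?_ ?_ ?_ r hur2
      · rw [← hfu']
        rw [Matrix.SpecialLinearGroup.coe_mul]
        simp [A, B, Matrix.trace_fin_two]
        ring
      · rw [← RingHom.map_det, (A * B).2, map_one]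
      · rw [hfu, neg_sq]
        exact hc2
    rcases sq_eq_sq_iff_eq_or_eq_neg.1 (hur2.trans (one_pow 2).symm) with h1 | h1
    · left
      apply Subtype.ext
      apply hinj
      rw [Matrix.SpecialLinearGroup.coe_pow, map_pow, hmat, h1, one_smul,
        Matrix.SpecialLinearGroup.coe_one, map_one]
    · right
      apply Subtype.ext
      apply hinj
      rw [Matrix.SpecialLinearGroup.coe_pow, map_pow, hmat, h1, Matrix.SpecialLinearGroup.coe_neg,
        Matrix.SpecialLinearGroup.coe_one, hneg]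
      simp
  · intro k hk heq
    have h' : (1 : ℝ) / p + 1 / q + 1 / r < 1 := by
      have h2 : (((1 : ℚ) / p + 1 / q + 1 / r : ℚ) : ℝ) < ((1 : ℚ) : ℝ) := Rat.cast_lt.2 h
      push_cast at h2
      exact h2
    have htrig := trig p q r hp hq hr h'
    set τ : ℝ := (2 * Real.cos (Real.pi / p)) ^ 2 + (2 * Real.cos (Real.pi / q)) ^ 2 +
      (2 * Real.cos (Real.pi / r)) ^ 2 +
      (2 * Real.cos (Real.pi / p)) * (2 * Real.cos (Real.pi / q)) *
        (2 * Real.cos (Real.pi / r)) - 2 with hτ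
    set C : Matrix (Fin 2) (Fin 2) ℂ := f.mapMatrix ((A * B * A⁻¹ * B⁻¹ :
      Matrix.SpecialLinearGroup (Fin 2) R) : Matrix (Fin 2) (Fin 2) R) with hC
    have hfuu2 : f u * f u' = 1 := by rw [← map_mul, huu, map_one]
    have htr : C.trace = (τ : ℂ) := by
      have h1 : C.trace = f a ^ 2 + f b ^ 2 + (f u + f u') ^ 2 - f a * f b * (f u + f u') - 2 := by
        rw [hC, Matrix.SpecialLinearGroup.coe_mul, Matrix.SpecialLinearGroup.coe_mul,
          Matrix.SpecialLinearGroup.coe_mul, Matrix.SpecialLinearGroup.coe_inv,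
          Matrix.SpecialLinearGroup.coe_inv]
        simp [A, B, Matrix.trace_fin_two,
          Matrix.adjugate_fin_two]
        linear_combination (f a ^ 2 - 2) * hfuu2
      rw [h1, hfuu, hfa, hfb, hτ]
      push_cast
      ring
    obtain ⟨s, hs, hs2⟩ := trace_pow C (by rw [hC, ← RingHom.map_det, (A * B * A⁻¹ * B⁻¹).2,
      map_one]) τ htrig htr k hk
    rw [hC, ← map_pow, ← Matrix.SpecialLinearGroup.coe_pow, heq,
      Matrix.SpecialLinearGroup.coe_one, map_one, Matrix.trace_one] at hs2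
    have h3 : s = 2 := by
      have : ((2 : ℝ) : ℂ) = (s : ℂ) := by
        rw [← hs2]
        simp
      exact_mod_cast this.symm
    linarith

end Pool.Agent.UFC
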