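import Mathlib
import Pool.Agent.UFC.G1
import Pool.Agent.UFC.G3

/-!
# UFC, part G: finite quotients of hyperbolic triangle groups of arbitrarily large order

PROOF.  Let `R, A, B` be as in `matrices`, `C = A B A⁻¹ B⁻¹`, `k = 2 n!`.  `C^k ≠ 1`, so some entry `s` of `C^k - 1` is nonzero; let `φ : R → F` be a homomorphism to a finite field with
`φ s ≠ 0` (`exists_finite_field`), `A', B'` the images of `A, B` in `SL(2, F)`, `x, y` their images in `SL(2, F) / center` and `G` the subgroup generated by `x, y`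
(as a type, `Subgroup.closure {x, y}`).  `-1` is in the center, so `x^p = y^q = (x y)^r = 1`.  Suppose `card G < n`.  The image `c` of `C` in `G` satisfies `c^(n!) = 1`
(`card G ∣ n!`), so `C'^(n!)` is in the center of `SL(2, F)`, i.e. a scalar matrix `λ` with `λ^2 = 1` (`Matrix.SpecialLinearGroup.mem_center_iff`), so `C'^k = 1`, a
contradiction to `φ s ≠ 0`.
-/

set_option autoImplicit false

namespace Pool.Agent.UFC

private theorem neg_one_mem_center (F : Type) [Field F] :
    (-1 : Matrix.SpecialLinearGroup (Fin 2) F) ∈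
      Subgroup.center (Matrix.SpecialLinearGroup (Fin 2) F) := by
  rw [Subgroup.mem_center_iff]
  intro g
  simp

private theorem center_sq (F : Type) [Field F] (D : Matrix.SpecialLinearGroup (Fin 2) F)
    (hD : D ∈ Subgroup.center (Matrix.SpecialLinearGroup (Fin 2) F)) : D ^ 2 = 1 := by
  obtain ⟨r, hr, hr2⟩ := Matrix.SpecialLinearGroup.mem_center_iff.1 hD
  apply Subtype.ext
  rw [Matrix.SpecialLinearGroup.coe_pow, ← hr2, ← map_pow]
  rw [Fintype.card_fin] at hr
  rw [hr, map_one, Matrix.SpecialLinearGroup.coe_one]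

theorem finite_groups (p q r : ℕ) (hp : 2 ≤ p) (hq : 2 ≤ q) (hr : 2 ≤ r)
    (h : (1 : ℚ) / p + 1 / q + 1 / r < 1) (n : ℕ) :
    ∃ (G : Type) (_ : Group G) (_ : Finite G) (x y : G), x ^ p = 1 ∧ y ^ q = 1 ∧
      (x * y) ^ r = 1 ∧ Subgroup.closure {x, y} = ⊤ ∧ n ≤ Nat.card G := by
  classical
  obtain ⟨R, hfin, A, B, hA, hB, hAB, hk⟩ := matrices p q r hp hq hr h
  have hC := hk (2 * n.factorial) (by positivity)
  set C := A * B * A⁻¹ * B⁻¹ with hCdef
  have hex : ∃ i j, ((C ^ (2 * n.factorial) : Matrix.SpecialLinearGroup (Fin 2) R) :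
      Matrix (Fin 2) (Fin 2) R) i j ≠ (1 : Matrix (Fin 2) (Fin 2) R) i j := by
    by_contra hcon
    push Not at hcon
    apply hC
    apply Subtype.ext
    ext i j
    rw [hcon i j]
    rfl
  obtain ⟨i, j, hij⟩ := hex
  haveI : CharZero R := ⟨fun a b hab => by
    have h1 := congrArg (fun z : R => (z : ℂ)) hab
    exact_mod_cast h1⟩
  obtain ⟨F, hF, hFfin, φ, hφ⟩ := exists_finite_field R _ (sub_ne_zero.2 hij)
  haveI : Finite (Matrix.SpecialLinearGroup (Fin 2) F) :=
    Finite.of_injective (fun g => (g : Matrix (Fin 2) (Fin 2) F)) Subtype.val_injective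
  let Z := Subgroup.center (Matrix.SpecialLinearGroup (Fin 2) F)
  let f : Matrix.SpecialLinearGroup (Fin 2) R →* (Matrix.SpecialLinearGroup (Fin 2) F ⧸ Z) :=
    (QuotientGroup.mk' Z).comp (Matrix.SpecialLinearGroup.map φ)
  have hfneg : f (-1) = 1 := by
    change (QuotientGroup.mk' Z) (Matrix.SpecialLinearGroup.map φ (-1)) = 1
    have h1 : Matrix.SpecialLinearGroup.map φ (-1 : Matrix.SpecialLinearGroup (Fin 2) R) = -1 := by
      apply Subtype.ext
      ext a b
      fin_cases a <;> fin_cases b <;> simp [Matrix.SpecialLinearGroup.map]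
    rw [h1]
    exact (QuotientGroup.eq_one_iff _).2 (neg_one_mem_center F)
  have hfx : f A ∈ Subgroup.closure {f A, f B} := Subgroup.subset_closure (by simp)
  have hfy : f B ∈ Subgroup.closure {f A, f B} := Subgroup.subset_closure (by simp)
  refine ⟨Subgroup.closure {f A, f B}, inferInstance, inferInstance, ⟨f A, hfx⟩, ⟨f B, hfy⟩,
    ?_, ?_, ?_, ?_, ?_⟩
  · apply Subtype.ext
    change (f A) ^ p = 1
    rw [← map_pow, hA, hfneg]
  · apply Subtype.ext
    change (f B) ^ q = 1
    rw [← map_pow, hB, hfneg]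
  · apply Subtype.ext
    change (f A * f B) ^ r = 1
    rw [← map_mul, ← map_pow]
    rcases hAB with h1 | h1
    · rw [h1, map_one]
    · rw [h1, hfneg]
  · have h1 := Subgroup.closure_closure_coe_preimage (k := ({f A, f B} : Set _))
    have h2 : (({⟨f A, hfx⟩, ⟨f B, hfy⟩} : Set (Subgroup.closure {f A, f B}))) =
        ((↑) : Subgroup.closure {f A, f B} → _) ⁻¹' {f A, f B} := by
      ext z
      simp only [Set.mem_insert_iff, Set.mem_singleton_iff, Set.mem_preimage]
      constructor
      · rintro (rfl | rfl)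
        · left; rfl
        · right; rfl
      · rintro (h3 | h3)
        · left; exact Subtype.ext h3
        · right; exact Subtype.ext h3
    rw [h2]
    exact h1
  · by_contra hlt
    push Not at hlt
    set G := Subgroup.closure {f A, f B} with hG
    have hdvd : Nat.card G ∣ n.factorial :=
      Nat.dvd_factorial Nat.card_pos hlt.le
    have hCG : f C ∈ G := by
      rw [hCdef]
      simp only [map_mul, map_inv]
      exact G.mul_mem (G.mul_mem (G.mul_mem hfx hfy) (G.inv_mem hfx)) (G.inv_mem hfy)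
    have hc1 : (⟨f C, hCG⟩ : G) ^ n.factorial = 1 := by
      obtain ⟨m, hm⟩ := hdvd
      rw [hm, pow_mul, pow_card_eq_one', one_pow]
    have hc2 : f (C ^ n.factorial) = 1 := by
      rw [map_pow]
      exact congrArg Subtype.val hc1
    have hc3 : Matrix.SpecialLinearGroup.map φ (C ^ n.factorial) ∈ Z :=
      (QuotientGroup.eq_one_iff _).1 hc2
    have hc4 := center_sq F _ hc3
    rw [← map_pow, ← pow_mul, mul_comm n.factorial 2] at hc4
    apply hφ
    have h5 := congrArg (fun g : Matrix.SpecialLinearGroup (Fin 2) F =>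
      (g : Matrix (Fin 2) (Fin 2) F) i j) hc4
    simp only [Matrix.SpecialLinearGroup.map_apply_coe, RingHom.mapMatrix_apply,
      Matrix.map_apply, Matrix.SpecialLinearGroup.coe_one] at h5
    rw [map_sub, h5]
    rw [sub_eq_zero, Matrix.one_apply, Matrix.one_apply]
    split_ifs
    · rw [map_one]
    · rw [map_zero]

end Pool.Agent.UFC
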