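import Mathlib
import Pool.Agent.UFC.Defs
import Pool.Agent.UFC.PartA
import Pool.Agent.UFC.PartB
import Pool.Agent.UFC.PartG

/-!
# UFC: covers of arbitrarily large degree over number fields (assembly of the parts A, B, G)
-/

set_option autoImplicit false

namespace Pool.Agent.UFC

open Polynomial

theorem covers (p q r : ℕ) (hp : 2 ≤ p) (hq : 2 ≤ q) (hr : 2 ≤ r)
    (h : (1 : ℚ) / p + 1 / q + 1 / r < 1) (n : ℕ) :
    ∃ D : ℕ, n ≤ D ∧ 0 < D ∧ ∃ K : IntermediateField ℚ ℂ, FiniteDimensional ℚ K ∧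
      ∃ P : K[X][X], PCD K p q r D P ∧ Irreducible (toC P) := by
  obtain ⟨G, hG, hfin, x, y, hx, hy, hxy, hgen, hcard⟩ := finite_groups p q r hp hq hr h (n * p)
  obtain ⟨P, hP, hirr⟩ := cover G p q r (by omega) (by omega) (by omega) x y hx hy hxy hgen
  have hD : 0 < (Subgroup.zpowers x).index := Nat.pos_of_ne_zero Subgroup.index_ne_zero_of_finite
  have hn : n ≤ (Subgroup.zpowers x).index := by
    have h1 := Subgroup.card_mul_index (Subgroup.zpowers x)
    have h2 : Nat.card (Subgroup.zpowers x) ≤ p := by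
      rw [Nat.card_zpowers]
      exact Nat.le_of_dvd (by omega) (orderOf_dvd_of_pow_eq_one hx)
    have h3 : n * p ≤ p * (Subgroup.zpowers x).index := by
      calc n * p ≤ Nat.card G := hcard
        _ = Nat.card (Subgroup.zpowers x) * (Subgroup.zpowers x).index := h1.symm
        _ ≤ p * (Subgroup.zpowers x).index := Nat.mul_le_mul_right _ h2
    rw [mul_comm] at h3
    exact Nat.le_of_mul_le_mul_left h3 (by omega)
  obtain ⟨K, hK, P', hP', hirr'⟩ := descend p q r _ hD P hP hirr
  exact ⟨_, hn, hD, K, hK, P', hP', hirr'⟩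

end Pool.Agent.UFC
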