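import Mathlib
import Pool.Agent.UFC.Defs

/-!
# UFC, D: intersection with an auxiliary curve

`P : ℂ[X][X]` monic of degree `D` in `U`, irreducible, coefficients of degree `≤ e` in `T`; `c ≠ 0`,
`G = ∑_{(i,j)} c_ij T^i U^j`, nonzero, of degree `< D` in `U` and coefficients of degree `≤ I`.  Over `L = RatFunc ℂ`, `P` is
irreducible (Gauss) and does not divide `G` (degree), so `P`, `G` are coprime over `L` and the resultant
`R = resultant P G D (D-1) ∈ ℂ[X]`, the determinant of the Sylvester matrix of size `2D - 1`, is not zero (the Sylvester matrix is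
the matrix of the map `(a, b) ↦ a P + b G` on `deg a < D - 1`, `deg b < D`, which is injective for coprime `P`, `G`, `deg P = D`;
Mathlib: `Mathlib/RingTheory/Polynomial/Resultant/Basic.lean`, e.g. `resultant_ne_zero` type lemmas).  Its entries have
degree `≤ max e I ≤ e + I`, so `deg R ≤ (2D-1)(e+I)`.  If `P(γ, t) = G(γ, t) = 0` then `R(t) = 0`, because the
Sylvester determinant of `P(., t)`, `G(., t)` (formal degrees `D`, `D-1`) vanishes when they have a common root (kernel vector
`(γ^k)_k`, or `R = a P + b G`).  So the set is contained in the set of roots of `R`: at most `(2D-1)(e+I)` elements.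
-/

set_option autoImplicit false

namespace Pool.Agent.UFC

open Polynomial

theorem da_det_deg {m : ℕ} (M : Matrix (Fin m) (Fin m) ℂ[X]) (d : ℕ)
    (h : ∀ i j, (M i j).natDegree ≤ d) : M.det.natDegree ≤ m * d := by
  rw [Matrix.det_apply]
  refine natDegree_sum_le_of_forall_le _ _ fun σ _ => ?_
  have h1 : (∏ i, M (σ i) i).natDegree ≤ m * d := by
    refine (natDegree_prod_le _ _).trans ?_
    refine (Finset.sum_le_sum fun i _ => h (σ i) i).trans ?_
    simp
  rcases Int.units_eq_one_or (Equiv.Perm.sign σ) with hs | hs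
  · rw [hs, one_smul]
    exact h1
  · rw [hs]
    simpa using h1

/-- the auxiliary polynomial -/
noncomputable def daG (I D : ℕ) (c : Fin (I + 1) × Fin D → ℂ) : ℂ[X][X] :=
  ∑ x : Fin (I + 1) × Fin D, monomial (x.2 : ℕ) (monomial (x.1 : ℕ) (c x))

theorem daG_coeff (I D : ℕ) (c : Fin (I + 1) × Fin D → ℂ) (j : ℕ) :
    (daG I D c).coeff j = ∑ x : Fin (I + 1) × Fin D,
      if (x.2 : ℕ) = j then monomial (x.1 : ℕ) (c x) else 0 := by
  unfold daG
  rw [finsetSum_coeff]
  exact Finset.sum_congr rfl fun x _ => by rw [coeff_monomial]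

theorem daG_coeff_coeff (I D : ℕ) (c : Fin (I + 1) × Fin D → ℂ) (y : Fin (I + 1) × Fin D) :
    ((daG I D c).coeff y.2).coeff y.1 = c y := by
  rw [daG_coeff, finsetSum_coeff, Finset.sum_eq_single y]
  · rw [if_pos rfl, coeff_monomial, if_pos rfl]
  · intro x _ hx
    split_ifs with h
    · rw [coeff_monomial, if_neg]
      intro h'
      exact hx (Prod.ext (Fin.ext h') (Fin.ext h))
    · simp
  · intro h
    exact absurd (Finset.mem_univ _) h

theorem daG_deg (I D : ℕ) (hD : 0 < D) (c : Fin (I + 1) × Fin D → ℂ) :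
    (daG I D c).natDegree ≤ D - 1 := by
  unfold daG
  refine natDegree_sum_le_of_forall_le _ _ fun x _ => ?_
  refine (natDegree_monomial_le _).trans ?_
  have := x.2.2
  omega

theorem daG_cdeg (I D : ℕ) (c : Fin (I + 1) × Fin D → ℂ) (j : ℕ) :
    ((daG I D c).coeff j).natDegree ≤ I := by
  rw [daG_coeff]
  refine natDegree_sum_le_of_forall_le _ _ fun x _ => ?_
  split_ifs
  · refine (natDegree_monomial_le _).trans ?_
    have := x.1.2
    omega
  · simp

theorem daG_eval (I D : ℕ) (c : Fin (I + 1) × Fin D → ℂ) (t γ : ℂ) :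
    (ev t (daG I D c)).eval γ = ∑ x, c x * t ^ (x.1 : ℕ) * γ ^ (x.2 : ℕ) := by
  unfold daG ev
  rw [Polynomial.map_sum, eval_finsetSum]
  refine Finset.sum_congr rfl fun x _ => ?_
  rw [map_monomial, eval_monomial, coe_evalRingHom, eval_monomial]

theorem aux_bound (P : ℂ[X][X]) (hP : P.Monic) (hirr : Irreducible P) (D e : ℕ)
    (hdeg : P.natDegree = D) (hD : 0 < D) (he : ∀ i, (P.coeff i).natDegree ≤ e) (I : ℕ)
    (c : Fin (I + 1) × Fin D → ℂ) (hc : c ≠ 0) :
    {t : ℂ | ∃ γ : ℂ, (ev t P).eval γ = 0 ∧ ∑ x, c x * t ^ (x.1 : ℕ) * γ ^ (x.2 : ℕ) = 0}.Finite ∧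
    {t : ℂ | ∃ γ : ℂ, (ev t P).eval γ = 0 ∧ ∑ x, c x * t ^ (x.1 : ℕ) * γ ^ (x.2 : ℕ) = 0}.ncard ≤
      (2 * D - 1) * (e + I) := by
  set G := daG I D c with hG
  have hGd : G.natDegree ≤ D - 1 := daG_deg I D hD c
  have hG0 : G ≠ 0 := by
    intro h0
    apply hc
    funext y
    have := daG_coeff_coeff I D c y
    rw [← hG, h0] at this
    simpa using this.symm
  set R := resultant P G D (D - 1) with hR
  -- degree
  have hRd : R.natDegree ≤ (2 * D - 1) * (e + I) := by
    have h1 : D + (D - 1) = 2 * D - 1 := by omega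
    rw [← h1, hR, resultant]
    refine da_det_deg _ _ fun i j => ?_
    induction j using Fin.addCases with
    | left j =>
      simp only [sylvester, Matrix.of_apply, Fin.addCases_left]
      split_ifs
      · exact (daG_cdeg I D c _).trans (by omega)
      · simp
    | right j =>
      simp only [sylvester, Matrix.of_apply, Fin.addCases_right]
      split_ifs
      · exact (he _).trans (by omega)
      · simp
  -- the resultant is not zero
  have hR0 : R ≠ 0 := by
    have e1 : R = resultant P G D G.natDegree := by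
      obtain ⟨k, hk⟩ := Nat.exists_eq_add_of_le hGd
      rw [hR, hk, resultant_add_right_deg _ _ _ _ _ le_rfl]
      have : P.coeff D = 1 := by rw [← hdeg]; exact hP.coeff_natDegree
      rw [this, one_pow, one_mul]
    have hinj : Function.Injective (algebraMap ℂ[X] (RatFunc ℂ)) := IsFractionRing.injective _ _
    have hirr' : Irreducible (P.map (algebraMap ℂ[X] (RatFunc ℂ))) :=
      (hP.irreducible_iff_irreducible_map_fraction_map (K := RatFunc ℂ)).1 hirr
    have hcop : IsCoprime (P.map (algebraMap ℂ[X] (RatFunc ℂ))) (G.map (algebraMap ℂ[X] (RatFunc ℂ))) := by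
      rw [hirr'.coprime_iff_not_dvd]
      intro hdvd
      have hne : G.map (algebraMap ℂ[X] (RatFunc ℂ)) ≠ 0 := by
        rw [Ne, Polynomial.map_eq_zero_iff hinj]
        exact hG0
      have := natDegree_le_of_dvd hdvd hne
      rw [natDegree_map_eq_of_injective hinj, natDegree_map_eq_of_injective hinj, hdeg] at this
      omega
    have h2 := resultant_ne_zero _ _ hcop
    rw [natDegree_map_eq_of_injective hinj, natDegree_map_eq_of_injective hinj, hdeg,
      resultant_map_map] at h2
    rw [e1]
    intro h0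
    exact h2 (by rw [h0, map_zero])
  -- zeros
  have hsub : {t : ℂ | ∃ γ : ℂ, (ev t P).eval γ = 0 ∧
      ∑ x, c x * t ^ (x.1 : ℕ) * γ ^ (x.2 : ℕ) = 0} ⊆ (R.roots.toFinset : Set ℂ) := by
    rintro t ⟨γ, h1, h2⟩
    obtain ⟨p, q, -, -, hpq⟩ := exists_mul_add_mul_eq_C_resultant P G hdeg.le hGd
      (Or.inl hD.ne')
    rw [Finset.mem_coe, Multiset.mem_toFinset, mem_roots hR0, IsRoot.def]
    have h3 := congrArg (fun Q : ℂ[X][X] => (ev t Q).eval γ) hpq
    simp only [ev, Polynomial.map_add, Polynomial.map_mul, eval_add, eval_mul, map_C, eval_C,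
      coe_evalRingHom] at h3
    have h4 : (G.map (evalRingHom t)).eval γ = 0 := by
      have := daG_eval I D c t γ
      rw [h2] at this
      exact this
    have h5 : (P.map (evalRingHom t)).eval γ = 0 := h1
    rw [h4, h5, zero_mul, zero_mul, zero_add] at h3
    exact h3.symm
  refine ⟨(Finset.finite_toSet _).subset hsub, ?_⟩
  refine (Set.ncard_le_ncard hsub (Finset.finite_toSet _)).trans ?_
  rw [Set.ncard_coe_finset]
  exact (Multiset.toFinset_card_le _).trans ((card_roots' R).trans hRd)

end Pool.Agent.UFC
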