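import Mathlib
import Pool.Agent.UFC.Defs

/-!
# UFC, part D: definitions for the determinant method

`M` is a number field, `Q : (𝓞 M)[X][X]` (outer variable `U`, inner variable `T`) monic of degree `D` in `U`.
-/

set_option autoImplicit false

namespace Pool.Agent.UFC

open Polynomial NumberField

/-- the data used by the determinant method, with all bounds independent of the number field `M` -/
structure DDat (M : Type) [Field M] [NumberField M] (D e d : ℕ) (A : ℝ) (B : ℕ → ℕ) (Δ : ℤ[X])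
    (Q : (𝓞 M)[X][X]) : Prop where
  monic : Q.Monic
  deg : Q.natDegree = D
  degT : ∀ i, (Q.coeff i).natDegree ≤ e
  rank : Module.finrank ℚ M ≤ d
  house : ∀ σ : M →+* ℂ, ∀ i j, ‖σ (algebraMap (𝓞 M) M ((Q.coeff i).coeff j))‖ ≤ A
  res : ∃ a b : (𝓞 M)[X][X], a * Q + b * derivative Q = C (Δ.map (algebraMap ℤ (𝓞 M)))
  aux : ∀ I : ℕ, ∀ c : Fin (I + 1) × Fin D → M, c ≠ 0 →
    {t : ℚ | ∃ γ : M, (ev (algebraMap ℚ M t) (Q.map (mapRingHom (algebraMap (𝓞 M) M)))).eval γ = 0 ∧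
      ∑ x, c x * (algebraMap ℚ M t) ^ (x.1 : ℕ) * γ ^ (x.2 : ℕ) = 0}.Finite ∧
    {t : ℚ | ∃ γ : M, (ev (algebraMap ℚ M t) (Q.map (mapRingHom (algebraMap (𝓞 M) M)))).eval γ = 0 ∧
      ∑ x, c x * (algebraMap ℚ M t) ^ (x.1 : ℕ) * γ ^ (x.2 : ℕ) = 0}.ncard ≤ B I

/-- `γ` is a root of `Q(., t)` -/
def IsRt {M : Type} [Field M] [NumberField M] (Q : (𝓞 M)[X][X]) (t : ℚ) (γ : M) : Prop :=
  (ev (algebraMap ℚ M t) (Q.map (mapRingHom (algebraMap (𝓞 M) M)))).eval γ = 0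

/-- `t` is good for the prime `l`: `l` does not divide the denominator of `t` and `Δ(t)` is not zero modulo `l` -/
def GoodT (Δ : ℤ[X]) (l : ℕ) (t : ℚ) : Prop :=
  ¬ l ∣ t.den ∧ ((Δ.map (Int.castRingHom (ZMod l))).eval ((t.num : ZMod l) * (t.den : ZMod l)⁻¹) ≠ 0)

end Pool.Agent.UFC
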