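import Mathlib
import Pool.Agent.UFC.DDefs

/-!
# UFC, D: few rational numbers are bad for several primes at once

`L` a finite set of primes not dividing the leading coefficient of `Δ ≠ 0`, `∏ L > 2 N²`.  To `t = u/v` (height `≤ N`) that is bad
for all `l ∈ L` attach for `l ∈ L` the class: `none` if `l ∣ v`, else `some (u v⁻¹) : Option (ZMod l)`, a root of `Δ mod l`, a
nonzero polynomial of degree `≤ deg Δ`; so at most `deg Δ + 1` values for each `l`.  The map is injective: if `t, t'` have the same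
classes then `u v' ≡ u' v mod l` for all `l ∈ L`, so `∏ L ∣ u v' - u' v`, of absolute value `≤ 2N²`, hence `u v' = u' v`, `t = t'`.
-/

set_option autoImplicit false

namespace Pool.Agent.UFC

open Polynomial

open Classical in
/-- the possible classes of a bad rational number modulo `l` -/
noncomputable def badCls (Δ : ℤ[X]) (l : ℕ) : Finset (Option (ZMod l)) :=
  if h : l.Prime then
    (haveI := Fact.mk h
     insert none ((Δ.map (Int.castRingHom (ZMod l))).roots.toFinset.image some))
  else ∅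

theorem badCls_card (Δ : ℤ[X]) (l : ℕ) : (badCls Δ l).card ≤ Δ.natDegree + 1 := by
  classical
  unfold badCls
  split_ifs with h
  · haveI := Fact.mk h
    refine le_trans (Finset.card_insert_le _ _) ?_
    refine Nat.succ_le_succ ?_
    refine le_trans Finset.card_image_le ?_
    refine le_trans (Multiset.toFinset_card_le _) ?_
    exact le_trans (Polynomial.card_roots' _) (Polynomial.natDegree_map_le)
  · simp

/-- the class of a rational number modulo `l` -/
noncomputable def ratCls (l : ℕ) (t : ℚ) : Option (ZMod l) :=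
  if l ∣ t.den then none else some ((t.num : ZMod l) * (t.den : ZMod l)⁻¹)

theorem ratCls_mem (Δ : ℤ[X]) (l : ℕ) (hl : l.Prime) (hlc : ¬ (l : ℤ) ∣ Δ.leadingCoeff)
    (t : ℚ) (ht : ¬ GoodT Δ l t) : ratCls l t ∈ badCls Δ l := by
  classical
  haveI := Fact.mk hl
  unfold ratCls badCls
  rw [dif_pos hl]
  split_ifs with h
  · exact Finset.mem_insert_self _ _
  · refine Finset.mem_insert_of_mem (Finset.mem_image_of_mem _ ?_)
    have hne : Δ.map (Int.castRingHom (ZMod l)) ≠ 0 := by
      intro h0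
      apply hlc
      have h1 := congrArg (fun p => p.coeff Δ.natDegree) h0
      simp only [Polynomial.coeff_map, Polynomial.coeff_zero] at h1
      have h2 : ((Δ.leadingCoeff : ℤ) : ZMod l) = 0 := by
        rw [eq_intCast] at h1
        exact h1
      exact (ZMod.intCast_zmod_eq_zero_iff_dvd _ _).1 h2
    rw [Multiset.mem_toFinset, Polynomial.mem_roots hne, Polynomial.IsRoot.def]
    by_contra hcon
    exact ht ⟨h, hcon⟩

theorem ratCls_dvd (l : ℕ) (hl : l.Prime) (t t' : ℚ) (h : ratCls l t = ratCls l t') :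
    l ∣ (t.num * t'.den - t'.num * t.den).natAbs := by
  haveI := Fact.mk hl
  rw [← Int.natCast_dvd]
  unfold ratCls at h
  by_cases h1 : l ∣ t.den
  · by_cases h2 : l ∣ t'.den
    · exact dvd_sub (Dvd.dvd.mul_left (Int.natCast_dvd_natCast.2 h2) _)
        (Dvd.dvd.mul_left (Int.natCast_dvd_natCast.2 h1) _)
    · simp [h1, h2] at h
  · by_cases h2 : l ∣ t'.den
    · simp [h1, h2] at h
    · simp only [h1, h2, if_false] at h
      have h3 : (t.num : ZMod l) * (t.den : ZMod l)⁻¹ = (t'.num : ZMod l) * (t'.den : ZMod l)⁻¹ :=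
        Option.some.inj h
      have hd1 : (t.den : ZMod l) ≠ 0 := by
        rw [Ne, ZMod.natCast_eq_zero_iff]
        exact h1
      have hd2 : (t'.den : ZMod l) ≠ 0 := by
        rw [Ne, ZMod.natCast_eq_zero_iff]
        exact h2
      rw [← ZMod.intCast_zmod_eq_zero_iff_dvd]
      push_cast
      field_simp at h3
      rw [sub_eq_zero]
      linear_combination h3

theorem bad_count (Δ : ℤ[X]) (hΔ : Δ ≠ 0) (L : Finset ℕ) (hL : ∀ l ∈ L, l.Prime)
    (hlc : ∀ l ∈ L, ¬ (l : ℤ) ∣ Δ.leadingCoeff) (N : ℕ) (hN : 2 * N ^ 2 < ∏ l ∈ L, l) :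
    {t : ℚ | |t.num| ≤ N ∧ t.den ≤ N ∧ ∀ l ∈ L, ¬ GoodT Δ l t}.ncard ≤
      (Δ.natDegree + 1) ^ L.card := by
  classical
  set S : Set ℚ := {t : ℚ | |t.num| ≤ N ∧ t.den ≤ N ∧ ∀ l ∈ L, ¬ GoodT Δ l t} with hSdef
  have hinj : Set.InjOn (fun t : ℚ => (fun (l : ℕ) (_ : l ∈ L) => ratCls l t :
      (l : ℕ) → l ∈ L → Option (ZMod l))) S := by
    intro t ht t' ht' heq
    have hdvd : ∀ l ∈ L, l ∣ (t.num * t'.den - t'.num * t.den).natAbs := by
      intro l hl
      exact ratCls_dvd l (hL l hl) t t' (congrFun (congrFun heq l) hl)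
    have hprod : ∏ l ∈ L, l ∣ (t.num * t'.den - t'.num * t.den).natAbs :=
      Finset.prod_primes_dvd _ (fun l hl => (hL l hl).prime) hdvd
    have hbd : (t.num * t'.den - t'.num * t.den).natAbs ≤ 2 * N ^ 2 := by
      have h1 : |t.num * t'.den - t'.num * t.den| ≤ (2 * N ^ 2 : ℤ) := by
        have hN0 : (0 : ℤ) ≤ N := Int.natCast_nonneg _
        have ha : |t.num * (t'.den : ℤ)| ≤ (N : ℤ) * N := by
          rw [abs_mul, Nat.abs_cast]
          exact mul_le_mul ht.1 (by exact_mod_cast ht'.2.1) (Int.natCast_nonneg _) hN0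
        have hb : |t'.num * (t.den : ℤ)| ≤ (N : ℤ) * N := by
          rw [abs_mul, Nat.abs_cast]
          exact mul_le_mul ht'.1 (by exact_mod_cast ht.2.1) (Int.natCast_nonneg _) hN0
        have hc := abs_sub (t.num * (t'.den : ℤ)) (t'.num * (t.den : ℤ))
        nlinarith
      have h2 : ((t.num * t'.den - t'.num * t.den).natAbs : ℤ) ≤ ((2 * N ^ 2 : ℕ) : ℤ) := by
        rw [Int.natCast_natAbs]
        push_cast
        exact h1
      exact_mod_cast h2
    have hz : (t.num * t'.den - t'.num * t.den).natAbs = 0 :=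
      Nat.eq_zero_of_dvd_of_lt hprod (lt_of_le_of_lt hbd hN)
    rw [Int.natAbs_eq_zero, sub_eq_zero] at hz
    exact Rat.eq_iff_mul_eq_mul.2 hz
  have hmaps : ∀ t ∈ S, (fun t : ℚ => (fun (l : ℕ) (_ : l ∈ L) => ratCls l t :
      (l : ℕ) → l ∈ L → Option (ZMod l))) t ∈ ((L.pi (badCls Δ) : Finset _) : Set _) := by
    intro t ht
    rw [Finset.mem_coe, Finset.mem_pi]
    intro l hl
    exact ratCls_mem Δ l (hL l hl) (hlc l hl) t (ht.2.2 l hl)
  have h1 := Set.ncard_le_ncard_of_injOn _ hmaps hinj (Finset.finite_toSet _)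
  refine le_trans h1 ?_
  rw [Set.ncard_coe_finset, Finset.card_pi]
  exact Finset.prod_le_pow_card _ _ _ fun l _ => badCls_card Δ l

end Pool.Agent.UFC
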