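import Mathlib
import Pool.Agent.UFC.Defs

/-!
# UFC, D: clearing denominators, discriminant, auxiliary curves

1. `clear_denoms`: choose `m ≥ 1` with `m · P.coeff i .coeff j` an algebraic integer for all `i, j` (finitely many;
   `exists_integer_multiples` / `IsIntegral.exists_multiple_integral`).  The polynomial `m^D P(U/m) = P.scaleRoots (C m)` has
   coefficients `P.coeff i * m^(D-i)`, algebraic integers for `i < D`, and `1` for `i = D`; lift it to `𝓞 K`.
2. `irr_scale`: `P ↦ P.scaleRoots (C m)` with `C m` a unit of `ℂ[X]` preserves irreducibility: up to a unit it is the image of `P`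
   under the automorphism `U ↦ m⁻¹ U` of `ℂ[X][X]` (`Polynomial.algEquivCMulXAddC` or
   `comp (C (C m⁻¹) * X)`).
-/

set_option autoImplicit false

namespace Pool.Agent.UFC

open Polynomial NumberField

/-- a common denominator of the coefficients -/
theorem dClr_denom (K : IntermediateField ℚ ℂ) [NumberField K] (P : K[X][X]) :
    ∃ m : ℕ, 0 < m ∧ ∀ i j, IsIntegral ℤ ((m : K) * (P.coeff i).coeff j) := by
  classical
  have : Algebra.IsAlgebraic ℤ K :=
    (IsFractionRing.comap_isAlgebraic_iff (A := ℤ) (K := ℚ) (C := K)).2 inferInstance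
  obtain ⟨y, hy, hint⟩ := Algebra.IsAlgebraic.exists_integral_multiples (R := ℤ)
    (P.support.biUnion fun i => (P.coeff i).support.image (P.coeff i).coeff)
  refine ⟨y.natAbs, Int.natAbs_pos.2 hy, fun i j => ?_⟩
  by_cases h : (P.coeff i).coeff j = 0
  · rw [h, mul_zero]
    exact isIntegral_zero
  · have hi : i ∈ P.support := by
      rw [Polynomial.mem_support_iff]
      intro h0
      rw [h0] at h
      exact h (by simp)
    have hj : j ∈ (P.coeff i).support := by
      rw [Polynomial.mem_support_iff]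
      exact h
    have h1 := hint ((P.coeff i).coeff j)
      (Finset.mem_biUnion.2 ⟨i, hi, Finset.mem_image.2 ⟨j, hj, rfl⟩⟩)
    have h2 : (y.natAbs : ℤ) • (P.coeff i).coeff j = ((y.natAbs : ℕ) : K) * (P.coeff i).coeff j := by
      rw [natCast_zsmul, nsmul_eq_mul]
    rw [← h2]
    rcases Int.natAbs_eq y with h3 | h3
    · rw [← h3]
      exact h1
    · have h4 : (y.natAbs : ℤ) = -y := by omega
      rw [h4, neg_smul]
      exact h1.neg

theorem clear_denoms (K : IntermediateField ℚ ℂ) [NumberField K] (P : K[X][X]) (hP : P.Monic) :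
    ∃ (m : ℕ) (Q : (𝓞 K)[X][X]), 0 < m ∧ Q.Monic ∧ Q.natDegree = P.natDegree ∧
      Q.map (mapRingHom (algebraMap (𝓞 K) K)) = P.scaleRoots (C (m : K)) := by
  obtain ⟨m, hm, hint⟩ := dClr_denom K P
  have hmon : (P.scaleRoots (C (m : K))).Monic := (monic_scaleRoots_iff _).2 hP
  have hl : P.scaleRoots (C (m : K)) ∈ lifts (mapRingHom (algebraMap (𝓞 K) K)) := by
    rw [lifts_iff_coeff_lifts]
    intro i
    rw [coeff_scaleRoots]
    rcases lt_trichotomy i P.natDegree with h | h | h
    · have h1 : P.coeff i * C (m : K) ^ (P.natDegree - i) ∈ lifts (algebraMap (𝓞 K) K) := by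
        rw [lifts_iff_coeff_lifts]
        intro j
        rw [← C_pow, coeff_mul_C]
        obtain ⟨d, hd⟩ := Nat.exists_eq_succ_of_ne_zero (Nat.sub_ne_zero_of_lt h)
        rw [hd, pow_succ]
        have h2 : (P.coeff i).coeff j * ((m : K) ^ d * (m : K)) =
            ((m : K) * (P.coeff i).coeff j) * (m : K) ^ d := by ring
        rw [h2]
        have h3 : IsIntegral ℤ (((m : K) * (P.coeff i).coeff j) * (m : K) ^ d) := by
          refine (hint i j).mul ?_
          refine IsIntegral.pow ?_ d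
          exact isIntegral_natCast (R := ℤ) m
        exact ⟨⟨_, h3⟩, rfl⟩
      obtain ⟨q, hq⟩ := (mem_lifts _).1 h1
      exact ⟨q, hq⟩
    · rw [h, Nat.sub_self, pow_zero, mul_one, hP.coeff_natDegree]
      exact ⟨1, map_one _⟩
    · rw [coeff_eq_zero_of_natDegree_lt h, zero_mul]
      exact ⟨0, map_zero _⟩
  obtain ⟨Q, hQ, hdeg, hQm⟩ := lifts_and_natDegree_eq_and_monic hl hmon
  refine ⟨m, Q, hm, hQm, ?_, hQ⟩
  rw [hdeg, natDegree_scaleRoots]

/-- units are not created by scaling -/
theorem dClr_unit (a : ℂ[X][X]) (r : ℂ[X]) (h : IsUnit (a.scaleRoots r)) : IsUnit a := by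
  have h1 : (a.scaleRoots r).natDegree = 0 := natDegree_eq_zero_of_isUnit h
  rw [natDegree_scaleRoots] at h1
  obtain ⟨c, rfl⟩ : ∃ c, a = C c := ⟨_, eq_C_of_natDegree_eq_zero h1⟩
  rwa [scaleRoots_C] at h

theorem irr_scale (P : ℂ[X][X]) (hP : P.Monic) (hirr : Irreducible P) (m : ℂ) (hm : m ≠ 0) :
    Irreducible (P.scaleRoots (C m)) := by
  have hinv : ∀ a : ℂ[X][X], (a.scaleRoots (C m)).scaleRoots (C m⁻¹) = a := by
    intro a
    rw [← scaleRoots_mul, ← C_mul, mul_inv_cancel₀ hm, C_1, scaleRoots_one]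
  have hinv' : ∀ a : ℂ[X][X], (a.scaleRoots (C m⁻¹)).scaleRoots (C m) = a := by
    intro a
    rw [← scaleRoots_mul, ← C_mul, inv_mul_cancel₀ hm, C_1, scaleRoots_one]
  refine ⟨fun h => hirr.not_isUnit (dClr_unit _ _ h), ?_⟩
  intro a b hab
  have h1 : P = a.scaleRoots (C m⁻¹) * b.scaleRoots (C m⁻¹) := by
    rw [← mul_scaleRoots_of_noZeroDivisors, ← hab, hinv]
  rcases hirr.isUnit_or_isUnit h1 with h | h
  · exact Or.inl (dClr_unit _ _ h)
  · exact Or.inr (dClr_unit _ _ h)

end Pool.Agent.UFC
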