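import Mathlib
import Pool.Agent.UFC.DDefs

/-!
# UFC, D: integrality and size of the roots

Let `t = u/v` (`u = t.num`, `v = t.den`, `|u|, v ≤ N`, `N ≥ 1`), `γ ∈ M` a root of `Q(., t)`, `β = v^e γ`.  Multiplying
`Q(γ, t) = 0` by `v^(e D)`: `β^D + ∑_{i<D} v^(e(D-i)) q_i(t) β^i = 0`, `q_i = Q.coeff i`, where
`v^(e(D-i)) q_i(t) = v^(e(D-i-1)) ∑_j q_ij u^j v^(e-j)` is an algebraic integer of `M`, of absolute value at most
`(e+1) A N^(e(D-i))` in every embedding.  So `β` is an algebraic integer.  If `‖σ β‖ ≥ N^e` then dividing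
`‖σβ‖^D ≤ ∑_{i<D} (e+1) A N^(e(D-i)) ‖σβ‖^i ≤ D (e+1) A N^e ‖σβ‖^(D-1)` gives `‖σ β‖ ≤ D (e+1) A N^e`.  So in all cases
`‖σβ‖ ≤ (1 + D (e+1) A) N^e`.  (`A ≥ 0` because the house bound holds for some entry; if `D = 0` there is no root.)
-/

set_option autoImplicit false

namespace Pool.Agent.UFC

open Polynomial NumberField

/-- the numerator of `v^e q(u/v)` -/
noncomputable def rootNum {R : Type*} [CommRing R] (e : ℕ) (q : R[X]) (u : ℤ) (v : ℕ) : R :=
  ∑ j ∈ Finset.range (e + 1), q.coeff j * (u : R) ^ j * (v : R) ^ (e - j)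

theorem rootNum_spec {R M : Type*} [CommRing R] [Field M] [Algebra R M] [CharZero M] (e : ℕ) (q : R[X])
    (hq : q.natDegree ≤ e) (t : ℚ) :
    algebraMap R M (rootNum e q t.num t.den)
      = (t.den : M) ^ e * (q.map (algebraMap R M)).eval (algebraMap ℚ M t) := by
  have hv : (t.den : M) ≠ 0 := by exact_mod_cast t.den_ne_zero
  have ht : (algebraMap ℚ M t) = (t.num : M) / (t.den : M) := by
    rw [eq_ratCast, Rat.cast_def]
  have hdeg : (q.map (algebraMap R M)).natDegree < e + 1 :=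
    lt_of_le_of_lt natDegree_map_le (Nat.lt_succ_of_le hq)
  rw [eval_eq_sum_range' hdeg, rootNum, map_sum, Finset.mul_sum]
  refine Finset.sum_congr rfl fun j hj => ?_
  have hj' : j ≤ e := Nat.lt_succ_iff.1 (Finset.mem_range.1 hj)
  rw [map_mul, map_mul, map_pow, map_pow, map_intCast, map_natCast, coeff_map, ht, div_pow]
  have h1 : (t.den : M) ^ e = (t.den : M) ^ (e - j) * (t.den : M) ^ j := by
    rw [← pow_add]; congr 1; omega
  rw [h1]
  field_simp

theorem root_eqn {M : Type} [Field M] [NumberField M] {D e d : ℕ} {A : ℝ} {B : ℕ → ℕ} {Δ : ℤ[X]}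
    {Q : (𝓞 M)[X][X]} (hQ : DDat M D e d A B Δ Q) (t : ℚ) (γ : M) (h : IsRt Q t γ) :
    ((t.den : M) ^ e * γ) ^ D + ∑ i ∈ Finset.range D,
      algebraMap (𝓞 M) M ((t.den : 𝓞 M) ^ (e * (D - 1 - i)) * rootNum e (Q.coeff i) t.num t.den)
        * ((t.den : M) ^ e * γ) ^ i = 0 := by
  have hc : Q.coeff D = 1 := by
    have := hQ.monic.coeff_natDegree
    rwa [hQ.deg] at this
  have h0 : ∑ i ∈ Finset.range (D + 1),
      ((Q.coeff i).map (algebraMap (𝓞 M) M)).eval (algebraMap ℚ M t) * γ ^ i = 0 := by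
    have hh : (ev (algebraMap ℚ M t) (Q.map (mapRingHom (algebraMap (𝓞 M) M)))).eval γ = 0 := h
    have hd : (ev (algebraMap ℚ M t) (Q.map (mapRingHom (algebraMap (𝓞 M) M)))).natDegree < D + 1 := by
      unfold ev
      refine lt_of_le_of_lt (natDegree_map_le.trans natDegree_map_le) ?_
      rw [hQ.deg]; exact Nat.lt_succ_self D
    rw [eval_eq_sum_range' hd] at hh
    rw [← hh]
    refine Finset.sum_congr rfl fun i _ => ?_
    congr 1
    unfold ev
    rw [coeff_map, coeff_map, coe_mapRingHom, coe_evalRingHom]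
  rw [Finset.sum_range_succ, hc] at h0
  simp only [Polynomial.map_one, eval_one, one_mul] at h0
  have h1 : (t.den : M) ^ (e * D) * (∑ i ∈ Finset.range D,
      ((Q.coeff i).map (algebraMap (𝓞 M) M)).eval (algebraMap ℚ M t) * γ ^ i + γ ^ D) = 0 := by
    rw [h0, mul_zero]
  rw [← h1, mul_add, add_comm]
  congr 1
  · rw [Finset.mul_sum]
    refine Finset.sum_congr rfl fun i hi => ?_
    have hi' : i < D := Finset.mem_range.1 hi
    rw [map_mul, map_pow, map_natCast, rootNum_spec e (Q.coeff i) (hQ.degT i) t, mul_pow]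
    have h2 : (t.den : M) ^ (e * D) = (t.den : M) ^ (e * (D - 1 - i)) * (t.den : M) ^ e
        * ((t.den : M) ^ e) ^ i := by
      rw [← pow_mul, ← pow_add, ← pow_add]
      congr 1
      obtain ⟨k, rfl⟩ : ∃ k, D = i + 1 + k := ⟨D - (i + 1), by omega⟩
      have : i + 1 + k - 1 - i = k := by omega
      rw [this]; ring
    rw [h2]; ring
  · rw [mul_pow, ← pow_mul]

theorem root_norm_aux (D : ℕ) (hD : 0 < D) (b : ℝ) (hb0 : 0 ≤ b) (K : ℝ) (hK : 0 ≤ K) (n : ℝ)
    (hn : 0 ≤ n)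
    (h : b ^ D ≤ ∑ i ∈ Finset.range D, K * n ^ (D - i) * b ^ i) : b ≤ (1 + D * K) * n := by
  by_contra hlt
  push Not at hlt
  have hDK : 0 ≤ (D : ℝ) * K := by positivity
  have hnb : n ≤ b := by nlinarith
  have hbpos : 0 < b := by
    rcases hb0.lt_or_eq with h1 | h1
    · exact h1
    · rw [← h1] at hlt
      have : 0 ≤ (1 + (D : ℝ) * K) * n := by positivity
      linarith
  have h1 : ∀ i ∈ Finset.range D, K * n ^ (D - i) * b ^ i ≤ K * n * b ^ (D - 1) := by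
    intro i hi
    have hi' : i < D := Finset.mem_range.1 hi
    have h2 : n ^ (D - i) = n * n ^ (D - 1 - i) := by
      rw [← pow_succ']; congr 1; omega
    have h3 : b ^ (D - 1) = b ^ (D - 1 - i) * b ^ i := by
      rw [← pow_add]; congr 1; omega
    rw [h2, h3]
    have h4 : n ^ (D - 1 - i) ≤ b ^ (D - 1 - i) := pow_le_pow_left₀ hn hnb _
    have h5 : 0 ≤ K * n * b ^ i := by positivity
    nlinarith [mul_le_mul_of_nonneg_left h4 h5]
  have h6 : b ^ D ≤ D * (K * n * b ^ (D - 1)) := by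
    refine h.trans ((Finset.sum_le_sum h1).trans ?_)
    rw [Finset.sum_const, Finset.card_range, nsmul_eq_mul]
  have h7 : b ^ D = b * b ^ (D - 1) := by rw [← pow_succ']; congr 1; omega
  rw [h7] at h6
  have h8 : 0 < b ^ (D - 1) := pow_pos hbpos _
  have h9 : b ≤ D * K * n := by
    by_contra hcon
    push Not at hcon
    have := mul_lt_mul_of_pos_right hcon h8
    nlinarith
  nlinarith

theorem rootNum_norm {M : Type} [Field M] [NumberField M] (e : ℕ) (q : (𝓞 M)[X]) (A : ℝ)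
    (σ : M →+* ℂ) (hA : ∀ j, ‖σ (algebraMap (𝓞 M) M (q.coeff j))‖ ≤ A) (u : ℤ) (v N : ℕ)
    (hN : 1 ≤ N) (hu : |u| ≤ N) (hv : v ≤ N) :
    ‖σ (algebraMap (𝓞 M) M (rootNum e q u v))‖ ≤ (e + 1) * A * (N : ℝ) ^ e := by
  have hA0 : 0 ≤ A := (norm_nonneg _).trans (hA 0)
  have hu' : ‖((u : ℤ) : ℂ)‖ ≤ (N : ℝ) := by
    rw [Complex.norm_intCast]
    exact_mod_cast hu
  have hv' : ‖((v : ℕ) : ℂ)‖ ≤ (N : ℝ) := by
    rw [Complex.norm_natCast]
    exact_mod_cast hv
  unfold rootNum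
  rw [map_sum, map_sum]
  refine (norm_sum_le _ _).trans ?_
  have h1 : ∀ j ∈ Finset.range (e + 1),
      ‖σ (algebraMap (𝓞 M) M (q.coeff j * (u : 𝓞 M) ^ j * (v : 𝓞 M) ^ (e - j)))‖
        ≤ A * (N : ℝ) ^ e := by
    intro j hj
    have hj' : j ≤ e := Nat.lt_succ_iff.1 (Finset.mem_range.1 hj)
    have h0 : σ (algebraMap (𝓞 M) M (q.coeff j * (u : 𝓞 M) ^ j * (v : 𝓞 M) ^ (e - j)))
        = σ (algebraMap (𝓞 M) M (q.coeff j)) * ((u : ℤ) : ℂ) ^ j * ((v : ℕ) : ℂ) ^ (e - j) := by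
      simp only [map_mul, map_pow, map_intCast, map_natCast]
    rw [h0, norm_mul, norm_mul, norm_pow, norm_pow]
    have h2 : (N : ℝ) ^ e = (N : ℝ) ^ j * (N : ℝ) ^ (e - j) := by
      rw [← pow_add]; congr 1; omega
    rw [h2, ← mul_assoc]
    have h3 : ‖((u : ℤ) : ℂ)‖ ^ j ≤ (N : ℝ) ^ j := pow_le_pow_left₀ (norm_nonneg _) hu' _
    have h4 : ‖((v : ℕ) : ℂ)‖ ^ (e - j) ≤ (N : ℝ) ^ (e - j) :=
      pow_le_pow_left₀ (norm_nonneg _) hv' _
    have h5 : ‖σ (algebraMap (𝓞 M) M (q.coeff j))‖ * ‖((u : ℤ) : ℂ)‖ ^ j ≤ A * (N : ℝ) ^ j :=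
      mul_le_mul (hA j) h3 (by positivity) hA0
    exact mul_le_mul h5 h4 (by positivity) (by positivity)
  refine (Finset.sum_le_sum h1).trans ?_
  rw [Finset.sum_const, Finset.card_range, nsmul_eq_mul]
  push_cast
  linarith

theorem root_bound {M : Type} [Field M] [NumberField M] {D e d : ℕ} {A : ℝ} {B : ℕ → ℕ} {Δ : ℤ[X]}
    {Q : (𝓞 M)[X][X]} (hQ : DDat M D e d A B Δ Q) (hD : 0 < D) (t : ℚ) (γ : M) (h : IsRt Q t γ) :
    (∃ β : 𝓞 M, algebraMap (𝓞 M) M β = (t.den : M) ^ e * γ) ∧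
    ∀ (N : ℕ), 1 ≤ N → |t.num| ≤ N → t.den ≤ N → ∀ σ : M →+* ℂ,
      ‖σ ((t.den : M) ^ e * γ)‖ ≤ (1 + D * (e + 1) * A) * (N : ℝ) ^ e := by
  have heq := root_eqn hQ t γ h
  set β : M := (t.den : M) ^ e * γ with hβ
  set c : ℕ → 𝓞 M := fun i =>
    (t.den : 𝓞 M) ^ (e * (D - 1 - i)) * rootNum e (Q.coeff i) t.num t.den with hc
  have heq' : β ^ D + ∑ i ∈ Finset.range D, algebraMap (𝓞 M) M (c i) * β ^ i = 0 := heq
  constructor
  · have hint : IsIntegral (𝓞 M) β := by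
      refine ⟨X ^ D + ∑ i ∈ Finset.range D, C (c i) * X ^ i, ?_, ?_⟩
      · apply monic_X_pow_add
        refine (degree_sum_le _ _).trans_lt ?_
        rw [Finset.sup_lt_iff (by exact_mod_cast WithBot.bot_lt_coe D)]
        intro i hi
        refine (degree_C_mul_X_pow_le i (c i)).trans_lt ?_
        exact_mod_cast Finset.mem_range.1 hi
      · rw [eval₂_add, eval₂_pow, eval₂_X, eval₂_finsetSum]
        rw [← heq']
        congr 1
        refine Finset.sum_congr rfl fun i _ => ?_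
        rw [eval₂_mul, eval₂_C, eval₂_pow, eval₂_X]
    exact (IsIntegrallyClosed.isIntegral_iff (R := 𝓞 M) (K := M)).1 hint
  · intro N hN hu hv σ
    have hA0 : 0 ≤ A := (norm_nonneg _).trans (hQ.house σ 0 0)
    have hbd : ∀ i ∈ Finset.range D, ‖σ (algebraMap (𝓞 M) M (c i))‖
        ≤ ((e + 1) * A) * ((N : ℝ) ^ e) ^ (D - i) := by
      intro i hi
      have hi' : i < D := Finset.mem_range.1 hi
      rw [hc]
      simp only
      rw [map_mul, map_mul, norm_mul, map_pow, map_pow, map_natCast, map_natCast, norm_pow,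
        Complex.norm_natCast]
      have h1 := rootNum_norm e (Q.coeff i) A σ (fun j => hQ.house σ i j) t.num t.den N hN hu hv
      have h2 : ((t.den : ℕ) : ℝ) ^ (e * (D - 1 - i)) ≤ (N : ℝ) ^ (e * (D - 1 - i)) :=
        pow_le_pow_left₀ (by positivity) (by exact_mod_cast hv) _
      have h3 : ((N : ℝ) ^ e) ^ (D - i) = (N : ℝ) ^ (e * (D - 1 - i)) * (N : ℝ) ^ e := by
        rw [← pow_mul, ← pow_add]
        congr 1
        obtain ⟨k, rfl⟩ : ∃ k, D = i + 1 + k := ⟨D - (i + 1), by omega⟩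
        have e1 : i + 1 + k - 1 - i = k := by omega
        have e2 : i + 1 + k - i = k + 1 := by omega
        rw [e1, e2]; ring
      rw [h3]
      have h4 := mul_le_mul h2 h1 (norm_nonneg _) (by positivity)
      linarith
    have hpow : ‖σ β‖ ^ D ≤ ∑ i ∈ Finset.range D,
        ((e + 1) * A) * ((N : ℝ) ^ e) ^ (D - i) * ‖σ β‖ ^ i := by
      have h1 : β ^ D = -∑ i ∈ Finset.range D, algebraMap (𝓞 M) M (c i) * β ^ i :=
        eq_neg_of_add_eq_zero_left heq'
      have h2 : ‖σ β‖ ^ D = ‖∑ i ∈ Finset.range D, σ (algebraMap (𝓞 M) M (c i)) * (σ β) ^ i‖ := by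
        rw [← norm_pow, ← map_pow, h1, map_neg, norm_neg, map_sum]
        congr 1
        refine Finset.sum_congr rfl fun i _ => ?_
        rw [map_mul, map_pow]
      rw [h2]
      refine (norm_sum_le _ _).trans (Finset.sum_le_sum fun i hi => ?_)
      rw [norm_mul, norm_pow]
      exact mul_le_mul_of_nonneg_right (hbd i hi) (by positivity)
    have hfin := root_norm_aux D hD ‖σ β‖ (norm_nonneg _) ((e + 1) * A) (by positivity)
      ((N : ℝ) ^ e) (by positivity) hpow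
    calc ‖σ β‖ ≤ (1 + D * ((e + 1) * A)) * (N : ℝ) ^ e := hfin
      _ = (1 + D * (e + 1) * A) * (N : ℝ) ^ e := by ring

end Pool.Agent.UFC
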