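import Mathlib

/-!
# UFC, D: linear algebra and the product formula

1. If all `n × n` determinants of a family of vectors `w_s ∈ F^n` (`s ∈ S` arbitrary set) vanish, `n ≥ 1`, then some nonzero linear
   form vanishes on all `w_s`: otherwise the `w_s` span `F^n` (a proper subspace is killed by a nonzero functional,
   `Submodule.exists_le_ker_of_lt_top`), so contain a basis (`exists_linearIndependent`/`Basis.ofSpan`), whose determinant is
   nonzero.
2. `x` an algebraic integer of `M`, divisible by the natural number `L`, all conjugates of absolute value `< L`: `x = 0`.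
   `x = L y`, `|N(y)| = ∏ ‖σ x‖ / L < 1` (`Algebra.norm_eq_prod_embeddings`), an integer, so `0`.
-/

set_option autoImplicit false

namespace Pool.Agent.UFC

open NumberField

theorem exists_ker {F : Type*} [Field F] {n : ℕ} (hn : 0 < n) {S : Type*} (w : S → Fin n → F)
    (h : ∀ s : Fin n → S, Matrix.det (Matrix.of fun i j => w (s j) i) = 0) :
    ∃ c : Fin n → F, c ≠ 0 ∧ ∀ s, ∑ i, c i * w s i = 0 := by
  by_cases hW : Submodule.span F (Set.range w) = ⊤
  · exfalso
    obtain ⟨b, hb, hspan, hli⟩ := exists_linearIndependent F (Set.range w)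
    rw [hW] at hspan
    let B : Module.Basis b F (Fin n → F) := Module.Basis.mk hli (by
      rw [Subtype.range_coe_subtype, Set.setOf_mem_eq, hspan])
    have hB : ∀ x : b, B x = (x : Fin n → F) := fun x => Module.Basis.mk_apply _ _ x
    haveI : Finite b := Module.Finite.finite_basis B
    haveI : Fintype b := Fintype.ofFinite b
    have hcard : Fintype.card b = n := by
      rw [← Module.finrank_eq_card_basis B]
      simp
    let e : Fin n ≃ b := (Fintype.equivFinOfCardEq hcard).symm
    have hch : ∀ j : Fin n, ∃ s, w s = (e j : Fin n → F) := fun j => hb (e j).2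
    choose s hs using hch
    have hli2 : LinearIndependent F (fun j : Fin n => w (s j)) := by
      have h1 := hli.comp e e.injective
      have h2 : (fun j : Fin n => w (s j)) = (fun x : b => (x : Fin n → F)) ∘ e := by
        funext j
        exact hs j
      rw [h2]
      exact h1
    have hunit : IsUnit (Matrix.of fun i j => w (s j) i : Matrix (Fin n) (Fin n) F) := by
      rw [← Matrix.linearIndependent_cols_iff_isUnit]
      exact hli2
    rw [Matrix.isUnit_iff_isUnit_det, h s] at hunit
    exact not_isUnit_zero hunit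
  · obtain ⟨f, hf, hle⟩ := Submodule.exists_le_ker_of_lt_top _ (lt_top_iff_ne_top.2 hW)
    refine ⟨fun i => f (Pi.single i 1), ?_, fun s => ?_⟩
    · intro h0
      apply hf
      refine LinearMap.pi_ext' fun i => ?_
      ext
      have := congrFun h0 i
      simpa using this
    · have h1 : f (w s) = 0 := by
        have := hle (Submodule.subset_span (Set.mem_range_self s))
        simpa using this
      have h2 : w s = ∑ i, w s i • (Pi.single i (1 : F) : Fin n → F) := by
        funext j
        simp [Finset.sum_apply, Pi.single_apply]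
      rw [h2, map_sum] at h1
      simp only [map_smul, smul_eq_mul] at h1
      rw [← h1]
      exact Finset.sum_congr rfl fun i _ => mul_comm _ _

theorem eq_zero_of_small (M : Type) [Field M] [NumberField M] (x : 𝓞 M) (L : ℕ)
    (hL : (L : 𝓞 M) ∣ x) (h : ∀ σ : M →+* ℂ, ‖σ (algebraMap (𝓞 M) M x)‖ < L) : x = 0 := by
  obtain ⟨y, hy⟩ := hL
  have hne : Nonempty (M →+* ℂ) := inferInstance
  obtain ⟨σ0⟩ := hne
  have hL0 : (0 : ℝ) < L := lt_of_le_of_lt (norm_nonneg _) (h σ0)
  by_contra hx
  have hy0 : y ≠ 0 := by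
    rintro rfl
    exact hx (by rw [hy, mul_zero])
  have hyM : (algebraMap (𝓞 M) M y) ≠ 0 := by
    simpa using hy0
  have hsm : ∀ σ : M →+* ℂ, ‖σ (algebraMap (𝓞 M) M y)‖ < 1 := by
    intro σ
    have h1 := h σ
    rw [hy, map_mul, map_mul, map_natCast, map_natCast, norm_mul] at h1
    rw [Complex.norm_natCast] at h1
    by_contra hcon
    push_neg at hcon
    have h2 : (L : ℝ) * 1 ≤ (L : ℝ) * ‖σ (algebraMap (𝓞 M) M y)‖ :=
      mul_le_mul_of_nonneg_left hcon hL0.le
    linarith
  have hnorm : (algebraMap ℚ ℂ) (Algebra.norm ℚ (algebraMap (𝓞 M) M y))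
      = ∏ σ : M →ₐ[ℚ] ℂ, σ (algebraMap (𝓞 M) M y) := Algebra.norm_eq_prod_embeddings ℚ ℂ _
  have hint : (Algebra.norm ℚ (algebraMap (𝓞 M) M y)) = ((Algebra.norm ℤ y : ℤ) : ℚ) := by
    rw [Algebra.coe_norm_int]
  have hN0 : Algebra.norm ℤ y ≠ 0 := by
    rw [Ne, Algebra.norm_eq_zero_iff]
    exact hy0
  have hge : (1 : ℝ) ≤ ‖(algebraMap ℚ ℂ) (Algebra.norm ℚ (algebraMap (𝓞 M) M y))‖ := by
    rw [hint]
    simp only [eq_ratCast, Rat.cast_intCast, Complex.norm_intCast]
    exact_mod_cast Int.one_le_abs hN0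
  have hlt : ‖∏ σ : M →ₐ[ℚ] ℂ, σ (algebraMap (𝓞 M) M y)‖ < 1 := by
    rw [norm_prod]
    have hne2 : (Finset.univ : Finset (M →ₐ[ℚ] ℂ)).Nonempty :=
      ⟨σ0.toRatAlgHom, Finset.mem_univ _⟩
    calc ∏ σ : M →ₐ[ℚ] ℂ, ‖σ (algebraMap (𝓞 M) M y)‖ < ∏ σ : M →ₐ[ℚ] ℂ, (1 : ℝ) := by
          refine Finset.prod_lt_prod_of_nonempty ?_ ?_ hne2
          · intro σ _
            rw [norm_pos_iff]
            intro h0
            exact hyM ((map_eq_zero _).1 h0)
          · intro σ _
            exact hsm (σ : M →+* ℂ)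
      _ = 1 := by simp
  rw [hnorm] at hge
  linarith

end Pool.Agent.UFC
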