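import Mathlib
import Pool.Agent.UFC.Defs

/-!
# UFC, D: Hensel polynomial

`R` a commutative ring, `Q : R[X][X]`, `Q(γ0, T0) = 0` and `u = Q_U(γ0, T0)` a unit.  For every `k` there is `φ : R[X]` with
`φ(0) = γ0` and `X^k ∣ Q(φ(X), T0 + X)`.  Here `Q(φ(X), T0 + X)` is `(Q.map (compRingHom (C T0 + X))).eval φ`.
Induction on `k` (Newton): `k = 0` trivial (`φ = C γ0`), `k = 1`: `φ = C γ0`, the constant coefficient is `Q(γ0, T0) = 0`.
Step `k ≥ 1`: `Q(φ, T0 + X) = X^k H`; put `φ' = φ - C (u⁻¹ H(0)) X^k`.  Taylor (`Polynomial.evalSubFactor` or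
`Polynomial.binomExpansion`): `Q(φ + δ) = Q(φ) + Q_U(φ) δ + z δ²`, with `δ = -C (u⁻¹ H(0)) X^k`; modulo `X^(k+1)` this is
`X^k (H(0) - Q_U(φ)(0) u⁻¹ H(0)) = 0`, because `Q_U(φ, T0 + X)` has constant coefficient `Q_U(φ(0), T0) = u` and `2k ≥ k + 1`.
-/

set_option autoImplicit false

namespace Pool.Agent.UFC

open Polynomial

lemma eval_eval_comp {R : Type*} [CommRing R] (G : R[X][X]) (T0 s : R) (φ : R[X]) :
    ((G.map (compRingHom (C T0 + X))).eval φ).eval s = (ev (T0 + s) G).eval (φ.eval s) := by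
  rw [ev, eval_map, eval_map, ← coe_evalRingHom s, hom_eval₂]
  congr 1
  ext x
  · simp
  · simp

theorem hensel_poly {R : Type*} [CommRing R] (Q : R[X][X]) (T0 γ0 : R)
    (h0 : (ev T0 Q).eval γ0 = 0) (hu : IsUnit ((ev T0 (derivative Q)).eval γ0)) (k : ℕ) :
    ∃ φ : R[X], φ.eval 0 = γ0 ∧ X ^ k ∣ (Q.map (compRingHom (C T0 + X))).eval φ := by
  set F : R[X][X] := Q.map (compRingHom (C T0 + X)) with hF
  have hbase : ∃ φ : R[X], φ.eval 0 = γ0 ∧ X ^ 1 ∣ F.eval φ := by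
    refine ⟨C γ0, by simp, ?_⟩
    rw [pow_one, X_dvd_iff, coeff_zero_eq_eval_zero, hF, eval_eval_comp]
    simpa using h0
  induction k with
  | zero => exact ⟨C γ0, by simp, by simp⟩
  | succ k ih =>
    rcases Nat.eq_zero_or_pos k with hk | hk
    · subst hk
      exact hbase
    obtain ⟨φ, hφ0, H, hH⟩ := ih
    obtain ⟨u, hu'⟩ := hu
    set c : R := ↑u⁻¹ * H.eval 0 with hc
    obtain ⟨z, hz⟩ := binomExpansion F φ (-(C c * X ^ k))
    refine ⟨φ + -(C c * X ^ k), ?_, ?_⟩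
    · simp [hφ0, hk.ne']
    · rw [hz, hH]
      have h1 : X ^ k * H + (derivative F).eval φ * -(C c * X ^ k) + z * (-(C c * X ^ k)) ^ 2 =
          X ^ k * (H - (derivative F).eval φ * C c + z * C c ^ 2 * X ^ k) := by ring
      rw [h1, pow_succ]
      apply mul_dvd_mul_left
      rw [X_dvd_iff, coeff_zero_eq_eval_zero]
      have h2 : ((derivative F).eval φ).eval 0 = u := by
        rw [hF, derivative_map, eval_eval_comp, add_zero, hφ0, hu']
      simp only [eval_add, eval_sub, eval_mul, eval_C, eval_pow, eval_X, h2]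
      rw [zero_pow hk.ne', mul_zero, add_zero, hc, ← mul_assoc, Units.mul_inv, one_mul, sub_self]

end Pool.Agent.UFC
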