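import Mathlib

/-!
# UFC, D: uniqueness of roots modulo nilpotents; determinants of polynomial values

1. `f(a) = f(b) = 0`, `a - b` nilpotent, `f'(a)` a unit: `a = b`.  Taylor: `0 = f(b) - f(a) = (b - a)(f'(a) + (b - a) z)` for some
   `z` (`Polynomial.binomExpansion`), and `f'(a) + (b - a) z` is a unit (unit plus nilpotent), so `b - a = 0`.
2. For `F : Fin n → R[X]`, `x : Fin n → R`, `l : R`: `l^(n(n-1)/2)` divides `det (F_i(l x_s))_{i,s}`.  Row `i` is
   `∑_{k<N} c_{ik} l^k v_k`, `v_k = (x_s^k)_s`, `N` larger than all degrees; by multilinearity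
   (`MultilinearMap.map_sum_finset` / `Matrix.detRowAlternating`) the determinant is
   `∑_{κ : Fin n → Fin N} (∏_i c_{i κ(i)} l^κ(i)) det (v_{κ(i)})_i`, and the determinant vanishes if `κ` is not injective
   (`Matrix.det_zero_of_row_eq`); for `κ` injective `∑ κ(i) ≥ 0 + 1 + ... + (n-1) = n(n-1)/2` (the sum of the elements of a set of
   `n` naturals: `Finset.sum_range_id_le_sum` or induction).
-/

set_option autoImplicit false

namespace Pool.Agent.UFC

open Polynomial

theorem root_unique {R : Type*} [CommRing R] (f : R[X]) (a b : R) (ha : f.eval a = 0)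
    (hb : f.eval b = 0) (hu : IsUnit (f.derivative.eval a)) (hn : IsNilpotent (b - a)) : a = b := by
  obtain ⟨z, hz⟩ := binomExpansion f a (b - a)
  rw [add_sub_cancel, hb, ha, zero_add] at hz
  have h1 : (f.derivative.eval a + z * (b - a)) * (b - a) = 0 := by
    linear_combination -hz
  have h2 : IsUnit (f.derivative.eval a + z * (b - a)) := by
    rw [add_comm]
    exact IsNilpotent.isUnit_add_right_of_commute (Commute.isNilpotent_mul_left (Commute.all _ _) hn)
      hu (Commute.all _ _)
  have h3 := (h2.mul_right_eq_zero).mp h1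
  exact (sub_eq_zero.mp h3).symm

lemma range_sum_le (s : Finset ℕ) : ∑ i ∈ Finset.range s.card, i ≤ ∑ x ∈ s, x := by
  induction s using Finset.induction_on_max with
  | empty => simp
  | insert a s ha ih =>
    have h1 : a ∉ s := fun h => lt_irrefl _ (ha a h)
    rw [Finset.card_insert_of_notMem h1, Finset.sum_insert h1, Finset.sum_range_succ]
    have h2 : s.card ≤ a := by
      have : s ⊆ Finset.range a := fun x hx => Finset.mem_range.mpr (ha x hx)
      simpa using Finset.card_le_card this
    omega

/-- the sum of distinct naturals -/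
lemma sum_inj_ge (n : ℕ) (κ : Fin n → ℕ) (hκ : Function.Injective κ) :
    n * (n - 1) / 2 ≤ ∑ i, κ i := by
  have h := Finset.sum_range_id (n := n)
  rw [← h]
  have h2 : ∑ i, κ i = ∑ x ∈ (Finset.univ.image κ), x := by
    rw [Finset.sum_image (fun a _ b _ hab => hκ hab)]
  rw [h2]
  have h3 : (Finset.univ.image κ).card = n := by
    rw [Finset.card_image_of_injective _ hκ, Finset.card_univ, Fintype.card_fin]
  calc ∑ i ∈ Finset.range n, i = ∑ i ∈ Finset.range (Finset.univ.image κ).card, i := by rw [h3]
    _ ≤ ∑ x ∈ (Finset.univ.image κ), x := range_sum_le _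

theorem dvd_det {R : Type*} [CommRing R] (n : ℕ) (l : R) (x : Fin n → R) (F : Fin n → R[X]) :
    l ^ (n * (n - 1) / 2) ∣ Matrix.det (Matrix.of fun i s => (F i).eval (l * x s)) := by
  classical
  set N : ℕ := ∑ i, (F i).natDegree + 1 with hN
  set a : Fin n → Fin N → R := fun i k => (F i).coeff k * l ^ (k : ℕ) with ha
  set v : Fin N → (Fin n → R) := fun k s => x s ^ (k : ℕ) with hv
  have hrow : (Matrix.of fun i s => (F i).eval (l * x s)) =
      Matrix.of (fun i => ∑ k, a i k • v k) := by
    ext i s
    rw [Matrix.of_apply, Matrix.of_apply]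
    rw [Finset.sum_apply]
    have hdeg : (F i).natDegree < N := by
      have : (F i).natDegree ≤ ∑ i, (F i).natDegree :=
        Finset.single_le_sum (f := fun i => (F i).natDegree) (fun _ _ => Nat.zero_le _)
          (Finset.mem_univ i)
      omega
    rw [eval_eq_sum_range' hdeg, Finset.sum_range]
    apply Finset.sum_congr rfl
    intro k _
    simp only [ha, hv, Pi.smul_apply, smul_eq_mul, mul_pow]
    ring
  rw [hrow]
  have hexp : Matrix.det (Matrix.of (fun i => ∑ k, a i k • v k)) =
      ∑ κ : Fin n → Fin N, (∏ i, a i (κ i)) * Matrix.det (Matrix.of (fun i => v (κ i))) := by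
    have h1 := (Matrix.detRowAlternating (n := Fin n) (R := R)).toMultilinearMap.map_sum
      (fun i k => a i k • v k)
    have h2 : ∀ M : Fin n → Fin n → R, Matrix.det (Matrix.of M) =
        (Matrix.detRowAlternating (n := Fin n) (R := R)).toMultilinearMap M := fun M => rfl
    rw [h2, h1]
    apply Finset.sum_congr rfl
    intro κ _
    rw [MultilinearMap.map_smul_univ, smul_eq_mul, ← h2]
  rw [hexp]
  apply Finset.dvd_sum
  intro κ _
  by_cases hκ : Function.Injective κ
  · apply Dvd.dvd.mul_right
    have h1 : n * (n - 1) / 2 ≤ ∑ i, ((κ i : Fin N) : ℕ) :=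
      sum_inj_ge n (fun i => ((κ i : Fin N) : ℕ)) (fun i j hij => hκ (Fin.ext hij))
    have h2 : ∏ i, a i (κ i) = (∏ i, (F i).coeff (κ i)) * l ^ (∑ i, ((κ i : Fin N) : ℕ)) := by
      rw [← Finset.prod_pow_eq_pow_sum, ← Finset.prod_mul_distrib]
    rw [h2]
    exact (pow_dvd_pow l h1).mul_left _
  · have h1 : Matrix.det (Matrix.of (fun i => v (κ i))) = 0 := by
      rw [Function.Injective] at hκ
      push Not at hκ
      obtain ⟨i, j, hij, hne⟩ := hκ
      apply Matrix.det_zero_of_row_eq hne
      show v (κ i) = v (κ j)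
      rw [hij]
    rw [h1, mul_zero]
    exact dvd_zero _

end Pool.Agent.UFC
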