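import Mathlib
import Pool.Agent.UFC.Defs
import Pool.Agent.UFC.DHens
import Pool.Agent.UFC.DUniq

/-!
# UFC, D: the local step in a ring where `l` is nilpotent

`R` a commutative ring, `l^k = 0`, `Q(γ0, T0) = 0`, `Q_U(γ0, T0)` a unit, points `(γ_s, T0 + l x_s)` on `Q = 0` with
`γ_s - γ0` nilpotent.  Let `φ` be the Hensel polynomial with `φ(0) = γ0`, `X^k ∣ Q(φ(X), T0 + X)` (`hensel_poly`).  Evaluating at
`l x_s`: `Q(φ(l x_s), T0 + l x_s) = (l x_s)^k (...) = 0`.  `φ(l x_s) - γ0 = φ(l x_s) - φ(0)` is a multiple of `l x_s`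
(`Polynomial.sub_dvd_eval_sub`), so nilpotent, hence `φ(l x_s) - γ_s` is nilpotent; `Q_U(φ(l x_s), T0 + l x_s)` is a unit
(it differs from the unit `Q_U(γ0, T0)` by a nilpotent: it is the value at `l x_s` of the polynomial `Q_U(φ(X), T0 + X)` whose value
at `0` is `Q_U(γ0, T0)`).  By `root_unique` `γ_s = φ(l x_s)`.  So the entries of the matrix are values at `l x_s` of the
polynomials `(C T0 + X)^(f i).1 * φ^(f i).2`: apply `dvd_det`.
-/

set_option autoImplicit false

namespace Pool.Agent.UFC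

open Polynomial

theorem loc_core {R : Type*} [CommRing R] (l : R) (k n : ℕ) (hl : l ^ k = 0) (Q : R[X][X])
    (T0 γ0 : R) (h0 : (ev T0 Q).eval γ0 = 0) (hu : IsUnit ((ev T0 (derivative Q)).eval γ0))
    (x γ : Fin n → R) (hγ : ∀ s, (ev (T0 + l * x s) Q).eval (γ s) = 0)
    (hnil : ∀ s, IsNilpotent (γ s - γ0)) (f : Fin n → ℕ × ℕ) :
    l ^ (n * (n - 1) / 2) ∣
      Matrix.det (Matrix.of fun i s => (T0 + l * x s) ^ (f i).1 * (γ s) ^ (f i).2) := by
  obtain ⟨φ, hφ0, H, hH⟩ := hensel_poly Q T0 γ0 h0 hu k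
  have hlnil : IsNilpotent l := ⟨k, hl⟩
  have hkey : ∀ s, φ.eval (l * x s) = γ s := by
    intro s
    have hz0 : (l * x s) ^ k = 0 := by rw [mul_pow, hl, zero_mul]
    have hznil : IsNilpotent (l * x s) := ⟨k, hz0⟩
    have e1 : (ev (T0 + l * x s) Q).eval (φ.eval (l * x s)) = 0 := by
      rw [← eval_eval_comp, hH, eval_mul, eval_pow, eval_X, hz0, zero_mul]
    have e2 : IsNilpotent (φ.eval (l * x s) - γ0) := by
      obtain ⟨z, hz⟩ := evalSubFactor φ (l * x s) 0
      rw [hφ0, sub_zero] at hz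
      rw [hz]
      exact (Commute.all _ _).isNilpotent_mul_left hznil
    have e3 : IsNilpotent (γ s - φ.eval (l * x s)) := by
      have : γ s - φ.eval (l * x s) = (γ s - γ0) - (φ.eval (l * x s) - γ0) := by ring
      rw [this]
      exact (Commute.all _ _).isNilpotent_sub (hnil s) e2
    have e4 : IsUnit ((ev (T0 + l * x s) Q).derivative.eval (φ.eval (l * x s))) := by
      have h1 : (ev (T0 + l * x s) Q).derivative = ev (T0 + l * x s) (derivative Q) := by
        rw [ev, ev, derivative_map]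
      rw [h1, ← eval_eval_comp]
      obtain ⟨z, hz⟩ := evalSubFactor (((derivative Q).map (compRingHom (C T0 + X))).eval φ)
        (l * x s) 0
      have h2 : (((derivative Q).map (compRingHom (C T0 + X))).eval φ).eval 0 =
          (ev T0 (derivative Q)).eval γ0 := by
        rw [eval_eval_comp, add_zero, hφ0]
      rw [h2, sub_zero] at hz
      rw [sub_eq_iff_eq_add.mp hz]
      exact IsNilpotent.isUnit_add_right_of_commute
        ((Commute.all _ _).isNilpotent_mul_left hznil) hu (Commute.all _ _)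
    exact root_unique _ _ _ e1 (hγ s) e4 e3
  have hmat : (Matrix.of fun i s => (T0 + l * x s) ^ (f i).1 * (γ s) ^ (f i).2) =
      Matrix.of fun i s => (((C T0 + X) ^ (f i).1 * φ ^ (f i).2 : R[X])).eval (l * x s) := by
    ext i s
    rw [Matrix.of_apply, Matrix.of_apply, eval_mul, eval_pow, eval_pow, eval_add, eval_C, eval_X,
      hkey s]
  rw [hmat]
  exact dvd_det n l x (fun i => (C T0 + X) ^ (f i).1 * φ ^ (f i).2)

end Pool.Agent.UFC
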