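import Mathlib
import Pool.Agent.UFC.DDefs
import Pool.Agent.UFC.DLoc
import Pool.Agent.UFC.DLin
import Pool.Agent.UFC.DRoot

/-!
# UFC, D: all points of one residue class lie on one auxiliary curve

Let `n = (I+1) D`, `k = n(n-1)/2`.  For `t ∈ S`, `u = t.num`, `v = t.den`, let `β ∈ 𝓞 M` with `β = v^e γ_t` (`root_bound`), and for
`(i,j) ∈ Fin (I+1) × Fin D` let `w_t(i,j) = u^i v^(I-i) β^j (v^e)^(D-1-j) ∈ 𝓞 M`; in `M` it is `v^(I+e(D-1)) t^i γ_t^j`.
CLAIM: every `n × n` determinant `det (w_{t_s}(f i))`, `f : Fin n ≃ Fin (I+1) × Fin D`, `t_s ∈ S`, vanishes.  Then `exists_ker`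
(over the field `M`, `S` as a type) gives `c`; divide by `v^(I+e(D-1)) ≠ 0`.
SIZE: `‖σ w_t(i,j)‖ ≤ N^I ((1 + D(e+1)A) N^e)^(D-1)` for every embedding (`root_bound`; `v^e ≤ N^e` too, `A ≥ 0`), so
`‖σ det‖ ≤ n! (...)^n < l^k` (`Matrix.det_apply`, triangle inequality).  By `eq_zero_of_small` with `L = l^k` it is enough that `l^k`
divides the determinant in `𝓞 M`, i.e. that it is `0` in `R = 𝓞 M / (l^k)`.
DIVISIBILITY: if `k = 0` nothing to prove.  Let `y_s ∈ ℤ` with `v_s y_s ≡ 1 mod l^k` (`l` does not divide `v_s`), `T_s = u_s y_s ∈ ℤ`,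
`g_s = y_s^e β_s`.  In `R`: `Q(g_s, T_s) = y_s^(eD) Q^h` where `Q^h = ∑_{i,j} q_ij u^j v^(e(D-i)-j) β^i ∈ 𝓞 M` (`q_ij = 0` for
`j > e`, and for `i = D` only `j = 0` since `Q` is monic), and `Q^h = v^(eD) Q(γ, t) = 0` in `M`.  So `Q(g_s, T_s) = 0` in `R`.
`T_s ≡ T_0 mod l` (same class of `t` mod `l`), so `T_s = T_0 + l x_s`, `x_s ∈ ℤ`.  `g_s - g_0` lies in all prime ideals `𝔩 ∋ l`
(multiply `hcls` by `y_s^e y_0^e`), so it is nilpotent in `R` (`nilradical_eq_sInf`, primes of the quotient; `mem_nilradical`).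
`Q_U(g_0, T_0)` is a unit of `R`: evaluate `a Q + b Q_U = Δ` at `(g_0, T_0)`: `b(g_0,T_0) Q_U(g_0,T_0) = Δ(T_0)`, an integer that is
not divisible by `l` (`GoodT`), hence a unit of `R` (coprime to `l^k`).  By `loc_core` (base point `s = 0`; `n ≥ 1`)
`l^k = 0` divides `det (T_s^i g_s^j)` in `R`, and `w_{t_s}(i,j) = v_s^(I+e(D-1)) T_s^i g_s^j` in `R`, so `det w = 0` in `R`
(`Matrix.det_mul_row` / `det_mul_column`).
-/

set_option autoImplicit false

namespace Pool.Agent.UFC

open Polynomial NumberField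

namespace DVan

/-- evaluation commutes with ring homomorphisms -/
theorem hom_ev {A B : Type*} [CommRing A] [CommRing B] (f : A →+* B) (t γ : A) (P : A[X][X]) :
    f ((ev t P).eval γ) = (ev (f t) (P.map (mapRingHom f))).eval (f γ) := by
  have h1 : (ev (f t) (P.map (mapRingHom f))) = (ev t P).map f := by
    unfold ev
    rw [Polynomial.map_map, Polynomial.map_map]
    congr 1
    ext a
    · simp
    · simp
  rw [h1, Polynomial.eval_map, Polynomial.eval₂_hom]

/-- a root with denominators gives a root in every ring in which the denominators are invertible -/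
theorem root_transfer {A K R : Type*} [CommRing A] [IsDomain A] [Field K] [CommRing R]
    [Algebra A K] (hinj : Function.Injective (algebraMap A K)) (φ : A →+* R) (Q : A[X][X])
    (e : ℕ) (u v β : A) (hv : v ≠ 0) (t γ : K) (ht : algebraMap A K u = algebraMap A K v * t)
    (hγ : algebraMap A K β = (algebraMap A K v) ^ e * γ)
    (h : (ev t (Q.map (mapRingHom (algebraMap A K)))).eval γ = 0) (y : R) (hy : φ v * y = 1) :
    (ev (φ u * y) (Q.map (mapRingHom φ))).eval (φ β * y ^ e) = 0 := by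
  have hvK : algebraMap A K v ≠ 0 := by
    intro h0
    exact hv (hinj (by rw [h0, map_zero]))
  have hu1 : IsUnit (algebraMap A K v) := isUnit_iff_ne_zero.mpr hvK
  have hu2 : IsUnit (φ v) := IsUnit.of_mul_eq_one y hy
  let A' := Localization.Away v
  let f1 : A' →+* K := IsLocalization.Away.lift v hu1
  let f2 : A' →+* R := IsLocalization.Away.lift v hu2
  have hf1 : ∀ a, f1 (algebraMap A A' a) = algebraMap A K a := fun a => IsLocalization.Away.lift_eq v hu1 a
  have hf2 : ∀ a, f2 (algebraMap A A' a) = φ a := fun a => IsLocalization.Away.lift_eq v hu2 a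
  have hi : algebraMap A A' v * IsLocalization.Away.invSelf v = 1 := IsLocalization.Away.mul_invSelf v
  set w : A' := IsLocalization.Away.invSelf v with hw
  have hw1 : algebraMap A K v * f1 w = 1 := by rw [← hf1, ← map_mul, hi, map_one]
  have hw2 : f2 w = y := by
    have h3 : φ v * f2 w = 1 := by rw [← hf2, ← map_mul, hi, map_one]
    calc f2 w = (φ v * y) * f2 w := by rw [hy, one_mul]
      _ = y * (φ v * f2 w) := by ring
      _ = y := by rw [h3, mul_one]
  have hinj1 : Function.Injective f1 := by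
    have hle : Submonoid.powers v ≤ nonZeroDivisors A := powers_le_nonZeroDivisors_of_noZeroDivisors hv
    have := IsLocalization.injective A' hle
    refine (IsLocalization.lift_injective_iff _).mpr ?_
    intro x z
    constructor
    · intro h4
      rw [this h4]
    · intro h4
      rw [hinj h4]
  have ht1 : f1 (algebraMap A A' u * w) = t := by
    rw [map_mul, hf1, ht]
    calc algebraMap A K v * t * f1 w = (algebraMap A K v * f1 w) * t := by ring
      _ = t := by rw [hw1, one_mul]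
  have hγ1 : f1 (algebraMap A A' β * w ^ e) = γ := by
    rw [map_mul, hf1, hγ, map_pow]
    calc algebraMap A K v ^ e * γ * f1 w ^ e = (algebraMap A K v * f1 w) ^ e * γ := by
          rw [mul_pow]; ring
      _ = γ := by rw [hw1, one_pow, one_mul]
  have hmm1 : (Q.map (mapRingHom (algebraMap A A'))).map (mapRingHom f1) =
      Q.map (mapRingHom (algebraMap A K)) := by
    rw [Polynomial.map_map]
    congr 1
    ext a
    · simp [hf1]
    · simp
  have hmm2 : (Q.map (mapRingHom (algebraMap A A'))).map (mapRingHom f2) =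
      Q.map (mapRingHom φ) := by
    rw [Polynomial.map_map]
    congr 1
    ext a
    · simp [hf2]
    · simp
  have hz : (ev (algebraMap A A' u * w) (Q.map (mapRingHom (algebraMap A A')))).eval
      (algebraMap A A' β * w ^ e) = 0 := by
    apply hinj1
    rw [map_zero, hom_ev, ht1, hγ1, hmm1, h]
  have := congrArg f2 hz
  rw [map_zero, hom_ev, hmm2, map_mul, map_mul, map_pow, hf2, hf2, hw2] at this
  exact this

/-- the unit `Q_U(g, T)` -/
theorem unit_of_good {A R : Type*} [CommRing A] [CommRing R] (φ : A →+* R) (Q : A[X][X])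
    (Δ : ℤ[X]) (hres : ∃ a b : A[X][X], a * Q + b * derivative Q = C (Δ.map (algebraMap ℤ A)))
    (l k : ℕ) (hl : l.Prime) (hlk : (l : R) ^ k = 0) (T : ℤ) (hT : ((Δ.eval T : ℤ) : ZMod l) ≠ 0) (g : R)
    (h : (ev (T : R) (Q.map (mapRingHom φ))).eval g = 0) :
    IsUnit ((ev (T : R) (derivative (Q.map (mapRingHom φ)))).eval g) := by
  obtain ⟨a, b, hab⟩ := hres
  have h1 := congrArg (fun P => (ev (T : R) (P.map (mapRingHom φ))).eval g) hab
  simp only [Polynomial.map_add, Polynomial.map_mul, ← Polynomial.derivative_map] at h1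
  unfold ev at h1 h ⊢
  simp only [Polynomial.map_add, Polynomial.map_mul, Polynomial.eval_add, Polynomial.eval_mul, h,
    mul_zero, zero_add] at h1
  have h2 : (Polynomial.map (evalRingHom (T : R)) (Polynomial.map (mapRingHom φ)
      (C (Δ.map (algebraMap ℤ A))))).eval g = ((Δ.eval T : ℤ) : R) := by
    rw [Polynomial.map_C, Polynomial.map_C, Polynomial.eval_C]
    simp only [coe_mapRingHom, coe_evalRingHom]
    rw [Polynomial.map_map, Polynomial.eval_map]
    have : (φ.comp (algebraMap ℤ A)) = Int.castRingHom R := RingHom.ext_int _ _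
    rw [this]
    have h3 := Polynomial.eval₂_hom (p := Δ) (Int.castRingHom R) T
    simp
  rw [h2] at h1
  have hcop : IsCoprime (Δ.eval T) ((l : ℤ) ^ k) := by
    apply IsCoprime.pow_right
    rw [isCoprime_comm]
    rw [Prime.coprime_iff_not_dvd (Nat.prime_iff_prime_int.mp hl)]
    intro hd
    exact hT ((ZMod.intCast_zmod_eq_zero_iff_dvd _ _).mpr hd)
  obtain ⟨c, d, hcd⟩ := hcop
  have h4 : (c : R) * ((Δ.eval T : ℤ) : R) = 1 := by
    have := congrArg (fun z : ℤ => (z : R)) hcd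
    push_cast at this
    rw [hlk, mul_zero, add_zero] at this
    exact this
  have h5 : IsUnit (((Δ.eval T : ℤ) : R)) := IsUnit.of_mul_eq_one (c : R) (by rw [mul_comm]; exact h4)
  rw [← h1] at h5
  exact isUnit_of_mul_isUnit_right h5

/-- the integer entries -/
noncomputable def W {A : Type*} [CommRing A] (I e D : ℕ) (u v β : A) (x : Fin (I + 1) × Fin D) : A :=
  u ^ (x.1 : ℕ) * v ^ (I - (x.1 : ℕ)) * β ^ (x.2 : ℕ) * (v ^ e) ^ (D - 1 - (x.2 : ℕ))

theorem W_eq {A : Type*} [CommRing A] (I e D : ℕ) (u v β T g : A) (hu : u = v * T) (hβ : β = v ^ e * g)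
    (x : Fin (I + 1) × Fin D) :
    W I e D u v β x = (v ^ I * (v ^ e) ^ (D - 1)) * (T ^ (x.1 : ℕ) * g ^ (x.2 : ℕ)) := by
  have h1 : (x.1 : ℕ) ≤ I := Nat.lt_succ_iff.mp x.1.2
  have h2 : (x.2 : ℕ) ≤ D - 1 := Nat.le_sub_one_of_lt x.2.2
  have h3 : v ^ I = v ^ (x.1 : ℕ) * v ^ (I - (x.1 : ℕ)) := by
    rw [← pow_add]; congr 1; omega
  have h4 : (v ^ e) ^ (D - 1) = (v ^ e) ^ (x.2 : ℕ) * (v ^ e) ^ (D - 1 - (x.2 : ℕ)) := by
    rw [← pow_add]; congr 1; omega
  unfold W
  rw [h3, h4, hu, hβ, mul_pow, mul_pow]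
  ring

theorem W_map {A B : Type*} [CommRing A] [CommRing B] (f : A →+* B) (I e D : ℕ) (u v β : A)
    (x : Fin (I + 1) × Fin D) : f (W I e D u v β x) = W I e D (f u) (f v) (f β) x := by
  unfold W
  simp

/-- the determinants vanish in `R` -/
theorem det_core {A K R : Type*} [CommRing A] [IsDomain A] [Field K] [CommRing R] [CharZero A]
    [Algebra A K] [CharZero K] [Algebra ℚ K] (hinj : Function.Injective (algebraMap A K)) (φ : A →+* R)
    (Q : A[X][X]) (Δ : ℤ[X])
    (hres : ∃ a b : A[X][X], a * Q + b * derivative Q = C (Δ.map (algebraMap ℤ A)))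
    (l k : ℕ) (hl : l.Prime) (hlk : (l : R) ^ k = 0)
    (D e I n : ℕ) (hk : k = n * (n - 1) / 2) (hn : 0 < n) (t : Fin n → ℚ) (γ : Fin n → K)
    (hgood : ∀ s, GoodT Δ l (t s))
    (hrt : ∀ s, (ev (algebraMap ℚ K (t s)) (Q.map (mapRingHom (algebraMap A K)))).eval (γ s) = 0)
    (hcl : ∀ s s', ((t s).num : ZMod l) * ((t s).den : ZMod l)⁻¹ =
      ((t s').num : ZMod l) * ((t s').den : ZMod l)⁻¹)
    (β : Fin n → A) (hβ : ∀ s, algebraMap A K (β s) = ((t s).den : K) ^ e * γ s)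
    (hcls : ∀ s s', ∀ P : Ideal R, P.IsPrime →
        φ (((t s').den : A) ^ e * β s - ((t s).den : A) ^ e * β s') ∈ P)
    (f : Fin n → Fin (I + 1) × Fin D) :
    φ (Matrix.det (Matrix.of fun i s => W I e D ((t s).num : A) ((t s).den : A) (β s) (f i))) = 0 := by
  have hFl : Fact l.Prime := ⟨hl⟩
  -- inverses of the denominators
  have hy : ∀ s, ∃ y : ℤ, (l : ℤ) ^ (k + 1) ∣ ((t s).den : ℤ) * y - 1 := by
    intro s
    have hc : IsCoprime (((t s).den : ℤ)) ((l : ℤ) ^ (k + 1)) := by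
      apply IsCoprime.pow_right
      rw [isCoprime_comm, Prime.coprime_iff_not_dvd (Nat.prime_iff_prime_int.mp hl)]
      intro hd
      exact (hgood s).1 (by exact_mod_cast hd)
    obtain ⟨a, b, hab⟩ := hc
    exact ⟨a, ⟨-b, by linear_combination hab⟩⟩
  choose y hy using hy
  have hyR : ∀ s, ((t s).den : R) * (y s : R) = 1 := by
    intro s
    obtain ⟨c, hc⟩ := hy s
    have h1 := congrArg (fun z : ℤ => (z : R)) hc
    push_cast at h1
    rw [pow_succ, hlk, zero_mul, zero_mul] at h1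
    exact sub_eq_zero.mp h1
  have hyZ : ∀ s, ((t s).den : ZMod l) * (y s : ZMod l) = 1 := by
    intro s
    obtain ⟨c, hc⟩ := hy s
    have h1 := congrArg (fun z : ℤ => (z : ZMod l)) hc
    push_cast at h1
    rw [pow_succ, ZMod.natCast_self, mul_zero, zero_mul] at h1
    exact sub_eq_zero.mp h1
  have hyinv : ∀ s, ((t s).den : ZMod l)⁻¹ = (y s : ZMod l) := by
    intro s
    exact inv_eq_of_mul_eq_one_right (hyZ s)
  set T : Fin n → ℤ := fun s => (t s).num * y s with hT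
  set g : Fin n → R := fun s => φ (β s) * (y s : R) ^ e with hg
  let s0 : Fin n := ⟨0, hn⟩
  have hTc : ∀ s, (T s : ZMod l) = ((t s).num : ZMod l) * ((t s).den : ZMod l)⁻¹ := by
    intro s
    rw [hyinv, hT]
    push_cast
    ring
  have hx : ∀ s, ∃ x : ℤ, T s = T s0 + l * x := by
    intro s
    have h1 : ((T s - T s0 : ℤ) : ZMod l) = 0 := by
      rw [Int.cast_sub, hTc, hTc, hcl s s0, sub_self]
    obtain ⟨x, hx⟩ := (ZMod.intCast_zmod_eq_zero_iff_dvd _ _).mp h1
    exact ⟨x, by linear_combination hx⟩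
  choose x hx using hx
  have hxR : ∀ s, (T s0 : R) + (l : R) * (x s : R) = (T s : R) := by
    intro s
    rw [hx s, Int.cast_add]
    congr 1
    rw [Int.cast_mul, Int.cast_natCast]
  have hroot : ∀ s, (ev (T s : R) (Q.map (mapRingHom φ))).eval (g s) = 0 := by
    intro s
    have hden : ((t s).den : A) ≠ 0 := by
      exact_mod_cast (t s).den_nz
    have h1 := root_transfer (K := K) hinj φ Q e ((t s).num : A)
      ((t s).den : A) (β s) hden (algebraMap ℚ K (t s)) (γ s) (by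
        have h2 : ((t s).num : ℚ) = ((t s).den : ℚ) * t s := (Rat.den_mul_eq_num (t s)).symm
        have h3 : algebraMap ℚ K ((t s).num : ℚ) = algebraMap ℚ K (((t s).den : ℚ) * t s) :=
          congrArg (algebraMap ℚ K) h2
        rw [map_mul, map_natCast, map_intCast] at h3
        rw [map_intCast, map_natCast]
        exact h3) (by rw [map_natCast]; exact hβ s) (hrt s) (y s : R)
          (by rw [map_natCast]; exact hyR s)
    have h4 : (T s : R) = φ ((t s).num : A) * (y s : R) := by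
      rw [hT]
      simp
    rw [h4]
    exact h1
  have hunit := unit_of_good φ Q Δ hres l k hl hlk (T s0) (by
    have h1 := (hgood s0).2
    rw [← hTc] at h1
    intro h2
    apply h1
    have h3 := Polynomial.eval₂_hom (p := Δ) (Int.castRingHom (ZMod l)) (T s0)
    rw [Polynomial.eval_map]
    rw [eq_intCast, eq_intCast, h2] at h3
    exact h3) (g s0) (hroot s0)
  have hnil : ∀ s, IsNilpotent (g s - g s0) := by
    intro s
    rw [nilpotent_iff_mem_prime]
    intro P hP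
    have h1 := hcls s s0 P hP
    have h2 : g s - g s0 = ((y s : R) ^ e * (y s0 : R) ^ e) *
        φ (((t s0).den : A) ^ e * β s - ((t s).den : A) ^ e * β s0) := by
      rw [hg]
      simp only [map_sub, map_mul, map_pow, map_natCast]
      have e1 : (y s : R) ^ e * ((t s).den : R) ^ e = 1 := by
        rw [← mul_pow, mul_comm, hyR, one_pow]
      have e2 : (y s0 : R) ^ e * ((t s0).den : R) ^ e = 1 := by
        rw [← mul_pow, mul_comm, hyR, one_pow]
      calc φ (β s) * (y s : R) ^ e - φ (β s0) * (y s0 : R) ^ e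
          = φ (β s) * (y s : R) ^ e * ((y s0 : R) ^ e * ((t s0).den : R) ^ e) -
            φ (β s0) * (y s0 : R) ^ e * ((y s : R) ^ e * ((t s).den : R) ^ e) := by
            rw [e1, e2, mul_one, mul_one]
        _ = _ := by ring
    rw [h2]
    exact P.mul_mem_left _ h1
  have hloc := loc_core (R := R) (l : R) k n hlk (Q.map (mapRingHom φ)) (T s0 : R) (g s0) (hroot s0) hunit
    (fun s => (x s : R)) g (by
      intro s
      rw [hxR s]
      exact hroot s) hnil (fun i => (((f i).1 : ℕ), ((f i).2 : ℕ)))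
  rw [← hk, hlk, zero_dvd_iff] at hloc
  rw [RingHom.map_det]
  have hmat : (φ.mapMatrix (Matrix.of fun i s => W I e D ((t s).num : A) ((t s).den : A) (β s) (f i))) =
      Matrix.of fun i s => (((t s).den : R) ^ I * (((t s).den : R) ^ e) ^ (D - 1)) *
        (Matrix.of fun i s => ((T s0 : R) + (l : R) * (x s : R)) ^ ((f i).1 : ℕ) * (g s) ^ ((f i).2 : ℕ)) i s := by
    ext i s
    simp only [RingHom.mapMatrix_apply, Matrix.map_apply, Matrix.of_apply]
    rw [W_map, map_intCast, map_natCast]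
    rw [hxR s]
    apply W_eq
    · rw [hT]
      push_cast
      calc ((t s).num : R) = (((t s).den : R) * (y s : R)) * ((t s).num : R) := by rw [hyR, one_mul]
        _ = _ := by ring
    · rw [hg]
      calc φ (β s) = (((t s).den : R) * (y s : R)) ^ e * φ (β s) := by rw [hyR, one_pow, one_mul]
        _ = _ := by rw [mul_pow]; ring
  rw [hmat, Matrix.det_mul_row, hloc, mul_zero]

/-- divisibility of the determinants -/
theorem dvd_W {M : Type} [Field M] [NumberField M] {D e d : ℕ} {A : ℝ} {B : ℕ → ℕ}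
    {Δ : ℤ[X]} {Q : (𝓞 M)[X][X]} (hQ : DDat M D e d A B Δ Q) (l : ℕ) (hl : l.Prime)
    (I n : ℕ) (hn : 0 < n) (t : Fin n → ℚ) (γ : Fin n → M) (hgood : ∀ s, GoodT Δ l (t s))
    (hrt : ∀ s, IsRt Q (t s) (γ s))
    (hcl : ∀ s s', ((t s).num : ZMod l) * ((t s).den : ZMod l)⁻¹ =
      ((t s').num : ZMod l) * ((t s').den : ZMod l)⁻¹)
    (β : Fin n → 𝓞 M) (hβ : ∀ s, algebraMap (𝓞 M) M (β s) = ((t s).den : M) ^ e * γ s)
    (hcls : ∀ s s', ∀ p : Ideal (𝓞 M), p.IsPrime →
        (l : 𝓞 M) ∈ p → ((t s').den : 𝓞 M) ^ e * β s - ((t s).den : 𝓞 M) ^ e * β s' ∈ p)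
    (f : Fin n → Fin (I + 1) × Fin D) :
    ((l ^ (n * (n - 1) / 2) : ℕ) : 𝓞 M) ∣
      Matrix.det (Matrix.of fun i s => W I e D ((t s).num : 𝓞 M) ((t s).den : 𝓞 M) (β s) (f i)) := by
  rw [← Ideal.mem_span_singleton, ← Ideal.Quotient.eq_zero_iff_mem]
  set k := n * (n - 1) / 2 with hk
  have hlk : ((l : ℕ) : 𝓞 M ⧸ Ideal.span {((l ^ k : ℕ) : 𝓞 M)}) ^ k = 0 := by
    have h1 : Ideal.Quotient.mk (Ideal.span {((l ^ k : ℕ) : 𝓞 M)}) ((l ^ k : ℕ) : 𝓞 M) = 0 :=
      Ideal.Quotient.eq_zero_iff_mem.mpr (Ideal.mem_span_singleton_self _)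
    rw [map_natCast] at h1
    rw [← Nat.cast_pow]
    exact h1
  refine det_core (K := M) (NumberField.RingOfIntegers.coe_injective) (Ideal.Quotient.mk _) Q Δ hQ.res l k
    hl hlk D e I n hk hn t γ hgood hrt hcl β hβ ?_ f
  intro s s' P hP
  have hP1 : (P.comap (Ideal.Quotient.mk (Ideal.span {((l ^ k : ℕ) : 𝓞 M)}))).IsPrime :=
    Ideal.comap_isPrime _ P
  have hl1 : (l : 𝓞 M) ∈ P.comap (Ideal.Quotient.mk (Ideal.span {((l ^ k : ℕ) : 𝓞 M)})) := by
    apply hP1.mem_of_pow_mem k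
    rw [Ideal.mem_comap, map_pow, map_natCast, hlk]
    exact P.zero_mem
  exact hcls s s' _ hP1 hl1

/-- size of the entries -/
theorem norm_W_le {M : Type} [Field M] [NumberField M] (I e D N : ℕ) (H : ℝ) (hN : 1 ≤ N)
    (hH : (N : ℝ) ^ e ≤ H) (σ : M →+* ℂ) (u : ℤ) (v : ℕ) (hu : |u| ≤ N) (hv : v ≤ N) (b : M)
    (hb : ‖σ b‖ ≤ H) (x : Fin (I + 1) × Fin D) :
    ‖σ (W I e D (u : M) (v : M) b x)‖ ≤ (N : ℝ) ^ I * H ^ (D - 1) := by
  have h1 : (x.1 : ℕ) ≤ I := Nat.lt_succ_iff.mp x.1.2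
  have h2 : (x.2 : ℕ) ≤ D - 1 := Nat.le_sub_one_of_lt x.2.2
  have hN0 : (0 : ℝ) ≤ N := Nat.cast_nonneg _
  have hH0 : 0 ≤ H := le_trans (pow_nonneg hN0 _) hH
  have hu' : ‖(σ (u : M))‖ ≤ N := by
    rw [map_intCast, Complex.norm_intCast]
    exact_mod_cast hu
  have hv' : ‖(σ (v : M))‖ ≤ N := by
    rw [map_natCast, Complex.norm_natCast]
    exact_mod_cast hv
  have hve : ‖(σ (v : M))‖ ^ e ≤ H := le_trans (pow_le_pow_left₀ (norm_nonneg _) hv' e) hH
  rw [W_map]
  unfold W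
  rw [norm_mul, norm_mul, norm_mul, norm_pow, norm_pow, norm_pow, norm_pow, norm_pow]
  have e1 : (N : ℝ) ^ I = (N : ℝ) ^ (x.1 : ℕ) * (N : ℝ) ^ (I - (x.1 : ℕ)) := by
    rw [← pow_add]; congr 1; omega
  have e2 : H ^ (D - 1) = H ^ (x.2 : ℕ) * H ^ (D - 1 - (x.2 : ℕ)) := by
    rw [← pow_add]; congr 1; omega
  rw [e1, e2, ← mul_assoc]
  gcongr

end DVan

theorem class_vanish {M : Type} [Field M] [NumberField M] {D e d : ℕ} {A : ℝ} {B : ℕ → ℕ}
    {Δ : ℤ[X]} {Q : (𝓞 M)[X][X]} (hQ : DDat M D e d A B Δ Q) (hD : 0 < D) (l : ℕ) (hl : l.Prime)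
    (I N : ℕ) (hN : 1 ≤ N)
    (hineq : ((((I + 1) * D).factorial : ℕ) : ℝ) *
        ((N : ℝ) ^ I * ((1 + D * (e + 1) * A) * (N : ℝ) ^ e) ^ (D - 1)) ^ ((I + 1) * D) <
      (l : ℝ) ^ (((I + 1) * D) * ((I + 1) * D - 1) / 2))
    (S : Set ℚ) (γ : ℚ → M) (hS : ∀ t ∈ S, |t.num| ≤ N ∧ t.den ≤ N ∧ GoodT Δ l t ∧ IsRt Q t (γ t))
    (hcl : ∀ t ∈ S, ∀ t' ∈ S, (t.num : ZMod l) * (t.den : ZMod l)⁻¹ =
      (t'.num : ZMod l) * (t'.den : ZMod l)⁻¹)
    (hcls : ∀ t ∈ S, ∀ t' ∈ S, ∀ β β' : 𝓞 M, algebraMap (𝓞 M) M β = (t.den : M) ^ e * γ t →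
      algebraMap (𝓞 M) M β' = (t'.den : M) ^ e * γ t' → ∀ p : Ideal (𝓞 M), p.IsPrime →
        (l : 𝓞 M) ∈ p → (t'.den : 𝓞 M) ^ e * β - (t.den : 𝓞 M) ^ e * β' ∈ p) :
    ∃ c : Fin (I + 1) × Fin D → M, c ≠ 0 ∧
      ∀ t ∈ S, ∑ x, c x * (algebraMap ℚ M t) ^ (x.1 : ℕ) * (γ t) ^ (x.2 : ℕ) = 0 := by
  have hn : 0 < (I + 1) * D := Nat.mul_pos (Nat.succ_pos _) hD
  have hβ : ∀ t : S, ∃ β : 𝓞 M, algebraMap (𝓞 M) M β = ((t : ℚ).den : M) ^ e * γ t := fun t =>
    (root_bound hQ hD t (γ t) (hS t t.2).2.2.2).1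
  choose β hβ using hβ
  have hA : 0 ≤ A := by
    obtain ⟨σ⟩ : Nonempty (M →+* ℂ) := inferInstance
    exact le_trans (norm_nonneg _) (hQ.house σ 0 0)
  have hker := exists_ker (F := M) hn (S := S)
    (fun t i => DVan.W I e D ((t : ℚ).num : M) ((t : ℚ).den : M) (((t : ℚ).den : M) ^ e * γ t)
      (finProdFinEquiv.symm i)) (by
    intro s
    set k := ((I + 1) * D) * ((I + 1) * D - 1) / 2 with hk
    have hdvd := DVan.dvd_W hQ l hl I ((I + 1) * D) hn (fun i => (s i : ℚ)) (fun i => γ (s i))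
      (fun i => (hS _ (s i).2).2.2.1) (fun i => (hS _ (s i).2).2.2.2)
      (fun i j => hcl _ (s i).2 _ (s j).2) (fun i => β (s i)) (fun i => hβ (s i))
      (fun i j => hcls _ (s i).2 _ (s j).2 _ _ (hβ (s i)) (hβ (s j))) finProdFinEquiv.symm
    rw [← hk] at hdvd
    have hmap : algebraMap (𝓞 M) M (Matrix.det (Matrix.of fun i j =>
        DVan.W I e D ((s j : ℚ).num : 𝓞 M) ((s j : ℚ).den : 𝓞 M) (β (s j)) (finProdFinEquiv.symm i))) =
        Matrix.det (Matrix.of fun i j => DVan.W I e D ((s j : ℚ).num : M) ((s j : ℚ).den : M)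
          (((s j : ℚ).den : M) ^ e * γ (s j)) (finProdFinEquiv.symm i)) := by
      rw [RingHom.map_det]
      congr 1
      ext i j
      simp only [RingHom.mapMatrix_apply, Matrix.map_apply, Matrix.of_apply]
      rw [DVan.W_map, map_intCast, map_natCast, hβ]
    have hz := eq_zero_of_small M _ (l ^ k) hdvd (by
      intro σ
      rw [hmap, RingHom.map_det]
      have hle := Matrix.det_le (A := σ.mapMatrix (Matrix.of fun i j =>
        DVan.W I e D ((s j : ℚ).num : M) ((s j : ℚ).den : M)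
          (((s j : ℚ).den : M) ^ e * γ (s j)) (finProdFinEquiv.symm i)))
        (abv := NormedField.toAbsoluteValue ℂ)
        (x := (N : ℝ) ^ I * ((1 + D * (e + 1) * A) * (N : ℝ) ^ e) ^ (D - 1)) (by
          intro i j
          simp only [RingHom.mapMatrix_apply, Matrix.map_apply, Matrix.of_apply]
          apply DVan.norm_W_le I e D N _ hN
          · have h1 : (0 : ℝ) ≤ (N : ℝ) ^ e := by positivity
            have h2 : (0 : ℝ) ≤ D * (e + 1) * A := by positivity
            nlinarith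
          · exact (hS _ (s j).2).1
          · exact (hS _ (s j).2).2.1
          · exact (root_bound hQ hD _ _ (hS _ (s j).2).2.2.2).2 N hN (hS _ (s j).2).1 (hS _ (s j).2).2.1 σ)
      rw [Fintype.card_fin, nsmul_eq_mul] at hle
      refine lt_of_le_of_lt hle ?_
      push_cast
      exact hineq)
    rw [← hmap, hz, map_zero])
  obtain ⟨c, hc0, hc⟩ := hker
  refine ⟨fun x => c (finProdFinEquiv x), ?_, ?_⟩
  · intro h0
    apply hc0
    funext i
    have := congrFun h0 (finProdFinEquiv.symm i)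
    simp only [Equiv.apply_symm_apply] at this
    exact this
  · intro t ht
    have h1 := hc ⟨t, ht⟩
    have hden : (t.den : M) ≠ 0 := by exact_mod_cast t.den_nz
    have h2 : ∀ i, c i * DVan.W I e D (t.num : M) (t.den : M) ((t.den : M) ^ e * γ t)
        (finProdFinEquiv.symm i) = ((t.den : M) ^ I * ((t.den : M) ^ e) ^ (D - 1)) *
        (c i * (algebraMap ℚ M t) ^ ((finProdFinEquiv.symm i).1 : ℕ) *
          (γ t) ^ ((finProdFinEquiv.symm i).2 : ℕ)) := by
      intro i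
      rw [DVan.W_eq I e D (t.num : M) (t.den : M) _ (algebraMap ℚ M t) (γ t) ?_ rfl]
      · ring
      · have h2 : (t.num : ℚ) = (t.den : ℚ) * t := (Rat.den_mul_eq_num t).symm
        have h3 : algebraMap ℚ M (t.num : ℚ) = algebraMap ℚ M ((t.den : ℚ) * t) :=
          congrArg (algebraMap ℚ M) h2
        rw [map_mul, map_natCast, map_intCast] at h3
        exact h3
    simp only at h1
    rw [Finset.sum_congr rfl (fun i _ => h2 i), ← Finset.mul_sum] at h1
    have h3 := (mul_eq_zero.mp h1).resolve_left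
      (mul_ne_zero (pow_ne_zero _ hden) (pow_ne_zero _ (pow_ne_zero _ hden)))
    rw [← h3]
    exact Fintype.sum_equiv finProdFinEquiv _ _ (fun x => by simp)

end Pool.Agent.UFC
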