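import Mathlib
import Pool.Agent.UFC.DDefs
import Pool.Agent.UFC.DRoot
import Pool.Agent.UFC.DVan

/-!
# UFC, D: the number of good points for one prime

Let `V` be the set of the statement, finite (heights `≤ N`; `ht_finite`-type argument: `t ↦ (num, den)` is injective).  Choose for
`t ∈ V` a root `γ_t` and `β_t ∈ 𝓞 M`, `β_t = v^e γ_t` (`root_bound`).  Let `P_1, …, P_m` be the prime ideals of `𝓞 M` containing
`l`; `m ≤ [M:ℚ] ≤ d` (`Ideal.sum_ramification_inertia`: `∑ e_i f_i = [M:ℚ]`, `e_i f_i ≥ 1`), `k_i = 𝓞 M / P_i` a field of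
characteristic `l`.  To `t` attach `τ = u v⁻¹ ∈ ZMod l` and the vector `(β_t v^(-e) mod P_i)_i`.  The `i`-th entry is a root of
the monic polynomial `Q(., τ)` over `k_i` of degree `D` (reduce the homogenised equation of `DVan`), so for given `τ` there are at
most `D^m ≤ D^d` vectors: at most `l D^d` classes.  On one class the hypotheses `hcl`, `hcls` of `class_vanish` hold (any two elements
`β, β'` as there are `β_t, β_t'` by injectivity of `𝓞 M → M`; `v'^e β - v^e β' = v^e v'^e (β/v^e - β'/v'^e)` is `0` mod `P_i`), so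
its points satisfy one auxiliary equation with `c ≠ 0` and there are at most `B I` of them (`hQ.aux`).  Total `≤ l D^d B(I)`
(`Finset.card_le_mul_card_image` or a fibre count).
-/

set_option autoImplicit false

namespace Pool.Agent.UFC

open Polynomial NumberField

theorem ev_hom {A B : Type*} [CommRing A] [CommRing B] (f : A →+* B) (Q : A[X][X]) (t g : A) :
    (ev (f t) (Q.map (mapRingHom f))).eval (f g) = f ((ev t Q).eval g) := by
  unfold ev
  rw [Polynomial.map_map, eval_map, eval_map, hom_eval₂]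
  congr 1
  ext <;> simp

theorem red_root {M : Type} [Field M] [NumberField M] {K : Type*} [Field K] (φ : 𝓞 M →+* K)
    (v : ℕ) (hv0 : v ≠ 0) (hv : φ (v : 𝓞 M) ≠ 0) (u : ℤ) (e : ℕ) (β : 𝓞 M) (γ : M)
    (hβ : algebraMap (𝓞 M) M β = (v : M) ^ e * γ) (Q : (𝓞 M)[X][X])
    (h : (ev ((u : M) / (v : M)) (Q.map (mapRingHom (algebraMap (𝓞 M) M)))).eval γ = 0) :
    (ev ((u : K) / (v : K)) (Q.map (mapRingHom φ))).eval (φ β / (v : K) ^ e) = 0 := by
  have hvM : (v : M) ≠ 0 := by exact_mod_cast hv0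
  have hvK : (v : K) ≠ 0 := by rwa [map_natCast] at hv
  let R' := Localization.Away (v : 𝓞 M)
  let a : R' := IsLocalization.Away.invSelf (v : 𝓞 M)
  have ha : algebraMap (𝓞 M) R' (v : 𝓞 M) * a = 1 := IsLocalization.Away.mul_invSelf _
  have hu1 : IsUnit (algebraMap (𝓞 M) M (v : 𝓞 M)) := by
    rw [map_natCast]; exact isUnit_iff_ne_zero.mpr hvM
  have hu2 : IsUnit (φ (v : 𝓞 M)) := isUnit_iff_ne_zero.mpr hv
  let ψ : R' →+* M := IsLocalization.Away.lift (v : 𝓞 M) hu1
  let χ : R' →+* K := IsLocalization.Away.lift (v : 𝓞 M) hu2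
  have hψ : ∀ x, ψ (algebraMap (𝓞 M) R' x) = algebraMap (𝓞 M) M x := fun x =>
    IsLocalization.Away.lift_eq _ hu1 x
  have hχ : ∀ x, χ (algebraMap (𝓞 M) R' x) = φ x := fun x =>
    IsLocalization.Away.lift_eq _ hu2 x
  have hψi : Function.Injective ψ := by
    have hinj : Function.Injective (algebraMap (𝓞 M) M) := RingOfIntegers.coe_injective
    have hinj2 : Function.Injective (algebraMap (𝓞 M) R') := by
      apply IsLocalization.injective R' (M := Submonoid.powers (v : 𝓞 M))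
      apply powers_le_nonZeroDivisors_of_noZeroDivisors
      exact_mod_cast hv0
    rw [show ψ = IsLocalization.lift (M := Submonoid.powers (v : 𝓞 M)) _ from rfl,
      IsLocalization.lift_injective_iff]
    intro x y
    exact ⟨fun h => by rw [hinj2 h], fun h => by rw [hinj h]⟩
  have hψa : ψ a = (v : M)⁻¹ := by
    have := congrArg ψ ha
    rw [map_mul, hψ, map_one, map_natCast] at this
    exact eq_inv_of_mul_eq_one_right this
  have hχa : χ a = (v : K)⁻¹ := by
    have := congrArg χ ha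
    rw [map_mul, hχ, map_one, map_natCast] at this
    exact eq_inv_of_mul_eq_one_right this
  set t' : R' := algebraMap (𝓞 M) R' (u : 𝓞 M) * a with ht'
  set g' : R' := algebraMap (𝓞 M) R' β * a ^ e with hg'
  have h1 : ψ t' = (u : M) / (v : M) := by
    rw [ht', map_mul, hψ, hψa, map_intCast, div_eq_mul_inv]
  have h2 : ψ g' = γ := by
    rw [hg', map_mul, hψ, map_pow, hψa, hβ, inv_pow]
    field_simp
  have h3 : χ t' = (u : K) / (v : K) := by
    rw [ht', map_mul, hχ, hχa, map_intCast, div_eq_mul_inv]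
  have h4 : χ g' = φ β / (v : K) ^ e := by
    rw [hg', map_mul, hχ, map_pow, hχa, inv_pow, div_eq_mul_inv]
  have h5 : mapRingHom (algebraMap (𝓞 M) M) =
      (mapRingHom ψ).comp (mapRingHom (algebraMap (𝓞 M) R')) := by
    rw [mapRingHom_comp]
    congr 1
    ext x
    exact (hψ x).symm
  have h6 : mapRingHom φ =
      (mapRingHom χ).comp (mapRingHom (algebraMap (𝓞 M) R')) := by
    rw [mapRingHom_comp]
    congr 1
    ext x
    exact (hχ x).symm
  rw [h6, ← Polynomial.map_map, ← h3, ← h4, ev_hom]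
  rw [h5, ← Polynomial.map_map, ← h1, ← h2, ev_hom] at h
  rw [(map_eq_zero_iff ψ hψi).mp h, map_zero]

theorem count_good {M : Type} [Field M] [NumberField M] {D e d : ℕ} {A : ℝ} {B : ℕ → ℕ}
    {Δ : ℤ[X]} {Q : (𝓞 M)[X][X]} (hQ : DDat M D e d A B Δ Q) (hD : 0 < D) (l : ℕ) (hl : l.Prime)
    (I N : ℕ) (hN : 1 ≤ N)
    (hineq : ((((I + 1) * D).factorial : ℕ) : ℝ) *
        ((N : ℝ) ^ I * ((1 + D * (e + 1) * A) * (N : ℝ) ^ e) ^ (D - 1)) ^ ((I + 1) * D) <
      (l : ℝ) ^ (((I + 1) * D) * ((I + 1) * D - 1) / 2)) :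
    {t : ℚ | |t.num| ≤ N ∧ t.den ≤ N ∧ GoodT Δ l t ∧ ∃ γ : M, IsRt Q t γ}.ncard ≤
      l * D ^ d * B I :=  by
  classical
  have : Fact l.Prime := ⟨hl⟩
  let p0 : Ideal ℤ := Ideal.span {(l : ℤ)}
  have hl0 : (l : ℤ) ≠ 0 := by exact_mod_cast hl.ne_zero
  have hp0 : p0 ≠ ⊥ := by
    simp only [p0, ne_eq, Ideal.span_singleton_eq_bot]; exact hl0
  have hp0p : p0.IsPrime := by
    rw [Ideal.span_singleton_prime hl0]; exact Nat.prime_iff_prime_int.mp hl
  have hmax : p0.IsMaximal := hp0p.isMaximal hp0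
  let F := IsDedekindDomain.primesOverFinset p0 (𝓞 M)
  have hFc : F.card ≤ d :=
    (Ideal.card_primesOverFinset_le_finrank (𝓞 M) ℚ M hp0).trans hQ.rank
  have hFm : ∀ P : Ideal (𝓞 M), P ∈ F ↔ (P.IsPrime ∧ P.LiesOver p0) := fun P =>
    IsDedekindDomain.mem_primesOverFinset_iff hp0 _
  have hFp : ∀ P : F, P.1.IsPrime := fun P => ((hFm P.1).mp P.2).1
  have hFl : ∀ P : F, (l : 𝓞 M) ∈ P.1 := by
    intro P
    have h1 := ((hFm P.1).mp P.2).2.over
    have h2 : (l : ℤ) ∈ p0 := Ideal.mem_span_singleton_self _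
    rw [h1] at h2
    have h3 : algebraMap ℤ (𝓞 M) (l : ℤ) ∈ P.1 := h2
    simpa using h3
  have hFof : ∀ P : Ideal (𝓞 M), P.IsPrime → (l : 𝓞 M) ∈ P → P ∈ F := by
    intro P hP hlP
    rw [hFm]
    refine ⟨hP, ⟨?_⟩⟩
    refine hmax.eq_of_le (Ideal.IsPrime.ne_top (Ideal.IsPrime.comap _)) ?_
    rw [Ideal.span_singleton_le_iff_mem]
    show algebraMap ℤ (𝓞 M) (l : ℤ) ∈ P
    simpa using hlP
  have hK0 : ∀ P : F, ((l : ℕ) : (P.1).ResidueField) = 0 := by
    intro P
    have := (Ideal.algebraMap_residueField_eq_zero (I := P.1) (x := (l : 𝓞 M))).mpr (hFl P)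
    simpa using this
  have hKc : ∀ P : F, CharP (P.1).ResidueField l := fun P =>
    (CharP.charP_iff_prime_eq_zero hl).mpr (hK0 P)
  let θ : ∀ P : F, ZMod l →+* (P.1).ResidueField := fun P => ZMod.castHom dvd_rfl _
  let φ : ∀ P : F, 𝓞 M →+* (P.1).ResidueField := fun P => algebraMap (𝓞 M) _
  let pl : ZMod l → ∀ P : F, ((P.1).ResidueField)[X] := fun τ P =>
    ev (θ P τ) (Q.map (mapRingHom (φ P)))
  have hpm : ∀ τ P, (pl τ P).Monic := fun τ P => ((hQ.monic.map _).map _)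
  have hpd : ∀ τ P, (pl τ P).natDegree ≤ D := by
    intro τ P
    refine (natDegree_map_le).trans ?_
    refine (natDegree_map_le).trans ?_
    exact hQ.deg.le
  let rts : ∀ (τ : ZMod l) (P : F), Finset (P.1).ResidueField := fun τ P => (pl τ P).roots.toFinset
  have hrc : ∀ τ P, (rts τ P).card ≤ D := fun τ P =>
    ((Multiset.toFinset_card_le _).trans (card_roots' _)).trans (hpd τ P)
  let CC : Finset (Σ _ : ZMod l, ∀ P : F, (P.1).ResidueField) :=
    Finset.univ.sigma (fun τ => Fintype.piFinset (rts τ))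
  have hCC : CC.card ≤ l * D ^ d := by
    rw [Finset.card_sigma]
    have h1 : ∀ τ ∈ (Finset.univ : Finset (ZMod l)),
        (Fintype.piFinset (rts τ)).card ≤ D ^ d := by
      intro τ _
      rw [Fintype.card_piFinset]
      refine (Finset.prod_le_pow_card _ _ D (fun P _ => hrc τ P)).trans ?_
      rw [Finset.card_univ, Fintype.card_coe]
      exact Nat.pow_le_pow_right hD hFc
    refine (Finset.sum_le_card_nsmul _ _ _ h1).trans ?_
    rw [Finset.card_univ, ZMod.card, smul_eq_mul]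
  set V : Set ℚ := {t : ℚ | |t.num| ≤ N ∧ t.den ≤ N ∧ GoodT Δ l t ∧ ∃ γ : M, IsRt Q t γ} with hV
  have hex : ∀ t : ℚ, ∃ γ : M, t ∈ V → IsRt Q t γ := by
    intro t
    by_cases ht : t ∈ V
    · obtain ⟨γ, hγ⟩ := ht.2.2.2
      exact ⟨γ, fun _ => hγ⟩
    · exact ⟨0, fun h => absurd h ht⟩
  choose γ hγ using hex
  have hexb : ∀ t : ℚ, ∃ β : 𝓞 M, t ∈ V → algebraMap (𝓞 M) M β = (t.den : M) ^ e * γ t := by
    intro t
    by_cases ht : t ∈ V
    · obtain ⟨β, hβ⟩ := (root_bound hQ hD t (γ t) (hγ t ht)).1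
      exact ⟨β, fun _ => hβ⟩
    · exact ⟨0, fun h => absurd h ht⟩
  choose β hβ using hexb
  have hden : ∀ t ∈ V, ∀ P : F, ((t.den : ℕ) : (P.1).ResidueField) ≠ 0 := by
    intro t ht P h0
    rw [CharP.cast_eq_zero_iff (P.1).ResidueField l] at h0
    exact ht.2.2.1.1 h0
  let Φ : ℚ → (Σ _ : ZMod l, ∀ P : F, (P.1).ResidueField) := fun t =>
    ⟨(t.num : ZMod l) * (t.den : ZMod l)⁻¹, fun P => φ P (β t) / (t.den : (P.1).ResidueField) ^ e⟩
  have hΦ : ∀ t ∈ V, Φ t ∈ CC := by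
    intro t ht
    simp only [CC, Finset.mem_sigma, Finset.mem_univ, true_and, Fintype.mem_piFinset, rts, Φ]
    intro P
    rw [Multiset.mem_toFinset, mem_roots (hpm _ P).ne_zero, IsRoot.def]
    have h1 := red_root (φ P) t.den t.den_nz (by rw [map_natCast]; exact hden t ht P) t.num e
      (β t) (γ t) (hβ t ht) Q (by
        have h2 := hγ t ht
        unfold IsRt at h2
        have h3 : algebraMap ℚ M t = (t.num : M) / (t.den : M) := by
          conv_lhs => rw [← Rat.num_div_den t]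
          simp
        rwa [h3] at h2)
    have h4 : θ P ((t.num : ZMod l) * (t.den : ZMod l)⁻¹) =
        (t.num : (P.1).ResidueField) / (t.den : (P.1).ResidueField) := by
      rw [map_mul, map_inv₀, map_intCast, map_natCast, div_eq_mul_inv]
    simp only [pl]
    rw [h4]
    exact h1
  have hfib : ∀ c ∈ CC, {t | t ∈ V ∧ Φ t = c}.Finite ∧ {t | t ∈ V ∧ Φ t = c}.ncard ≤ B I := by
    intro c _
    obtain ⟨cc, hcc0, hcc⟩ := class_vanish hQ hD l hl I N hN hineq {t | t ∈ V ∧ Φ t = c} γ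
      (fun t ht => ⟨ht.1.1, ht.1.2.1, ht.1.2.2.1, hγ t ht.1⟩)
      (fun t ht t' ht' => by
        have h1 : Φ t = Φ t' := ht.2.trans ht'.2.symm
        exact congrArg Sigma.fst h1)
      (by
        intro t ht t' ht' b b' hb hb' p hp hlp
        have h1 : Φ t = Φ t' := ht.2.trans ht'.2.symm
        have hbt : b = β t := RingOfIntegers.coe_injective (hb.trans (hβ t ht.1).symm)
        have hbt' : b' = β t' := RingOfIntegers.coe_injective (hb'.trans (hβ t' ht'.1).symm)
        subst hbt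
        subst hbt'
        have hpF : p ∈ F := hFof p hp hlp
        have h2 : φ ⟨p, hpF⟩ (β t) / (t.den : (p).ResidueField) ^ e =
            φ ⟨p, hpF⟩ (β t') / (t'.den : (p).ResidueField) ^ e := by
          simp only [Φ, Sigma.mk.injEq, heq_eq_eq] at h1
          exact congrFun h1.2 ⟨p, hpF⟩
        have h3 := hden t ht.1 ⟨p, hpF⟩
        have h4 := hden t' ht'.1 ⟨p, hpF⟩
        rw [div_eq_div_iff (pow_ne_zero _ h3) (pow_ne_zero _ h4)] at h2
        rw [← Ideal.algebraMap_residueField_eq_zero, map_sub, map_mul, map_mul, map_pow, map_pow,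
          map_natCast, map_natCast, sub_eq_zero]
        have h5 : algebraMap (𝓞 M) p.ResidueField (β t) * (t'.den : p.ResidueField) ^ e =
          algebraMap (𝓞 M) p.ResidueField (β t') * (t.den : p.ResidueField) ^ e := h2
        rw [mul_comm, h5, mul_comm])
    obtain ⟨hfin, hcard⟩ := hQ.aux I cc hcc0
    have hsub : {t | t ∈ V ∧ Φ t = c} ⊆ {t : ℚ | ∃ γ : M,
        (ev (algebraMap ℚ M t) (Q.map (mapRingHom (algebraMap (𝓞 M) M)))).eval γ = 0 ∧
        ∑ x, cc x * (algebraMap ℚ M t) ^ (x.1 : ℕ) * γ ^ (x.2 : ℕ) = 0} :=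
      fun t ht => ⟨γ t, hγ t ht.1, hcc t ht⟩
    exact ⟨hfin.subset hsub, (Set.ncard_le_ncard hsub hfin).trans hcard⟩
  have hVU : V ⊆ ⋃ c ∈ CC, {t | t ∈ V ∧ Φ t = c} := by
    intro t ht
    simp only [Set.mem_iUnion, Set.mem_setOf_eq, exists_prop]
    exact ⟨Φ t, hΦ t ht, ht, rfl⟩
  have hUfin : (⋃ c ∈ CC, {t | t ∈ V ∧ Φ t = c}).Finite :=
    Set.Finite.biUnion CC.finite_toSet (fun c hc => (hfib c hc).1)
  calc V.ncard ≤ (⋃ c ∈ CC, {t | t ∈ V ∧ Φ t = c}).ncard := Set.ncard_le_ncard hVU hUfin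
    _ ≤ ∑ c ∈ CC, {t | t ∈ V ∧ Φ t = c}.ncard := Finset.set_ncard_biUnion_le _ _
    _ ≤ ∑ c ∈ CC, B I := Finset.sum_le_sum (fun c hc => (hfib c hc).2)
    _ = CC.card * B I := by rw [Finset.sum_const, smul_eq_mul]
    _ ≤ l * D ^ d * B I := Nat.mul_le_mul_right _ hCC

end Pool.Agent.UFC
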