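import Mathlib
import Pool.Agent.UFC.Defs

/-!
# UFC, D: a discriminant with integer coefficients

`Q : (𝓞 K)[X][X]` monic, irreducible over `ℂ` as a polynomial in two variables.  Let `L = FractionRing ℂ[X]`.  By Gauss's lemma
(`Polynomial.Monic.irreducible_iff_irreducible_map_fraction_map`, `ℂ[X]` is integrally closed) `Q` is irreducible over `L`,
characteristic `0`, so separable: `Q` and `Q'` are coprime over `L`.  Coprimality of two polynomials descends to the subfield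
`F = FractionRing (𝓞 K)[X]` (`Polynomial.isCoprime_map` or `Polynomial.Separable.map` iff: `Polynomial.separable_map`), so
`a Q + b Q' = 1` with `a, b : F[X]`; multiply by a common denominator: `a' Q + b' Q' = C δ` over `(𝓞 K)[X]`, `δ ≠ 0`
(`IsLocalization.integerNormalization` or `exists_integer_multiples`).  `(𝓞 K)[X]` is integral over `ℤ[X]` (`𝓞 K` is integral
over `ℤ`; `Polynomial` of an integral extension: coefficients and `X` are integral) and a domain, so `δ` has a nonzero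
multiple `δ δ' = Δ ∈ ℤ[X]` (`Ideal.comap_ne_bot_of_integral_mem`).  Multiply by `C δ'`.
-/

set_option autoImplicit false

namespace Pool.Agent.UFC

open Polynomial NumberField

/-- A nonzero polynomial over the integers of a number field has a nonzero multiple with
coefficients in `ℤ`. -/
theorem ddel_int (K : IntermediateField ℚ ℂ) [NumberField K] (δ : (𝓞 K)[X]) (hδ : δ ≠ 0) :
    ∃ (Δ : ℤ[X]) (δ' : (𝓞 K)[X]), Δ ≠ 0 ∧ δ * δ' = Δ.map (algebraMap ℤ (𝓞 K)) := by
  let _ : Algebra ℤ[X] (𝓞 K)[X] := Polynomial.algebra ℤ (𝓞 K)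
  have hint : Algebra.IsIntegral ℤ[X] (𝓞 K)[X] := inferInstance
  have h1 : (Ideal.span {δ}).comap (algebraMap ℤ[X] (𝓞 K)[X]) ≠ ⊥ :=
    Ideal.comap_ne_bot_of_integral_mem hδ (Ideal.mem_span_singleton_self δ)
      (Algebra.IsIntegral.isIntegral δ)
  obtain ⟨Δ, hΔ, hΔ0⟩ := (Submodule.ne_bot_iff _).mp h1
  rw [Ideal.mem_comap, Ideal.mem_span_singleton] at hΔ
  obtain ⟨δ', hδ'⟩ := hΔ
  exact ⟨Δ, δ', hΔ0, hδ'.symm⟩

theorem exists_disc (K : IntermediateField ℚ ℂ) [NumberField K] (Q : (𝓞 K)[X][X]) (hQ : Q.Monic)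
    (hirr : Irreducible (toC (Q.map (mapRingHom (algebraMap (𝓞 K) K))))) :
    ∃ Δ : ℤ[X], Δ ≠ 0 ∧ ∃ a b : (𝓞 K)[X][X],
      a * Q + b * derivative Q = C (Δ.map (algebraMap ℤ (𝓞 K))) := by
  obtain ⟨φ, hφ⟩ : ∃ φ : (𝓞 K)[X] →+* ℂ[X],
      φ = (mapRingHom (algebraMap K ℂ)).comp (mapRingHom (algebraMap (𝓞 K) K)) := ⟨_, rfl⟩
  have hφi : Function.Injective φ := by
    rw [hφ]
    exact (Polynomial.map_injective _ (algebraMap K ℂ).injective).comp
      (Polynomial.map_injective _ (FaithfulSMul.algebraMap_injective (𝓞 K) K))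
  have hQφ : toC (Q.map (mapRingHom (algebraMap (𝓞 K) K))) = Q.map φ := by
    rw [toC, Polynomial.map_map, hφ]
  rw [hQφ] at hirr
  -- Gauss's lemma
  have hirrL : Irreducible ((Q.map φ).map (algebraMap ℂ[X] (FractionRing ℂ[X]))) :=
    ((hQ.map φ).irreducible_iff_irreducible_map_fraction_map).mp hirr
  have hsepL := hirrL.separable
  -- descend to the fraction field of `(𝓞 K)[X]`
  have hinj : Function.Injective ((algebraMap ℂ[X] (FractionRing ℂ[X])).comp φ) :=
    (IsFractionRing.injective ℂ[X] (FractionRing ℂ[X])).comp hφi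
  obtain ⟨ψ, hψ⟩ : ∃ ψ : FractionRing (𝓞 K)[X] →+* FractionRing ℂ[X],
      ψ.comp (algebraMap (𝓞 K)[X] (FractionRing (𝓞 K)[X])) =
        (algebraMap ℂ[X] (FractionRing ℂ[X])).comp φ :=
    ⟨IsFractionRing.lift hinj, by
      ext x
      · simp [IsFractionRing.lift_algebraMap]
      · simp [IsFractionRing.lift_algebraMap]⟩
  have hQL : (Q.map φ).map (algebraMap ℂ[X] (FractionRing ℂ[X])) =
      (Q.map (algebraMap (𝓞 K)[X] (FractionRing (𝓞 K)[X]))).map ψ := by
    rw [Polynomial.map_map, Polynomial.map_map, hψ]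
  rw [hQL, separable_map] at hsepL
  obtain ⟨a, b, hab⟩ := hsepL
  obtain ⟨d1, hd1, ha⟩ := IsLocalization.integerNormalization_spec
    (nonZeroDivisors (𝓞 K)[X]) a
  obtain ⟨d2, hd2, hb⟩ := IsLocalization.integerNormalization_spec
    (nonZeroDivisors (𝓞 K)[X]) b
  obtain ⟨a', ha'⟩ : ∃ a' : (𝓞 K)[X][X],
      a'.map (algebraMap (𝓞 K)[X] (FractionRing (𝓞 K)[X])) = d1 • a := ⟨_, ha⟩
  obtain ⟨b', hb'⟩ : ∃ b' : (𝓞 K)[X][X],
      b'.map (algebraMap (𝓞 K)[X] (FractionRing (𝓞 K)[X])) = d2 • b := ⟨_, hb⟩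
  have key : C d2 * a' * Q + C d1 * b' * derivative Q = C (d1 * d2) := by
    apply Polynomial.map_injective (algebraMap (𝓞 K)[X] (FractionRing (𝓞 K)[X]))
      (IsFractionRing.injective _ _)
    simp only [Polynomial.map_add, Polynomial.map_mul, Polynomial.map_C, ha', hb',
      ← Polynomial.derivative_map]
    have e1 : d1 • a = C (algebraMap (𝓞 K)[X] (FractionRing (𝓞 K)[X]) d1) * a := by
      rw [← Polynomial.smul_eq_C_mul, algebraMap_smul]
    have e2 : d2 • b = C (algebraMap (𝓞 K)[X] (FractionRing (𝓞 K)[X]) d2) * b := by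
      rw [← Polynomial.smul_eq_C_mul, algebraMap_smul]
    rw [e1, e2, map_mul, map_mul]
    linear_combination (C (algebraMap (𝓞 K)[X] (FractionRing (𝓞 K)[X]) d1)) *
      (C (algebraMap (𝓞 K)[X] (FractionRing (𝓞 K)[X]) d2)) * hab
  obtain ⟨Δ, δ', hΔ, hδ'⟩ := ddel_int K (d1 * d2)
    (mul_ne_zero (nonZeroDivisors.ne_zero hd1) (nonZeroDivisors.ne_zero hd2))
  refine ⟨Δ, hΔ, C δ' * (C d2 * a'), C δ' * (C d1 * b'), ?_⟩
  rw [← hδ', C_mul, ← key]
  ring

end Pool.Agent.UFC
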