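import Mathlib
import Pool.Agent.UFC.DDefs
import Pool.Agent.UFC.DCls
import Pool.Agent.UFC.DBad

/-!
# UFC, D: the main count, uniform in the number field

WLOG `A ≥ 0` (otherwise no `M`, `Q` satisfies `DDat`; or replace `A` by `max A 0`, `DDat` is monotone in `A`; or note that if some
`M`, `Q` exist then `A ≥ 0`).  Let `δ = ε/2`, `C1 = 1 + D(e+1)A ≥ 1`.
CHOICE OF `I`: with `n = (I+1) D`, `δ (n-1)/2 ≥ e (D-1) + 1`.  Let `y = ⌈N^(2/D+δ)⌉`; for a prime `l > y` the hypothesis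
`hineq` of `count_good` holds if `N ≥ N₀`: the left side is `n! C1^((D-1)n) N^((I + e(D-1)) n)`, the right side is at least
`N^((2/D+δ) n(n-1)/2)` (`n(n-1)/2` is an integer, the division in `ℕ` is exact), and
`(2/D+δ)(n-1)/2 - I - e(D-1) = (n-1)/D - I + δ(n-1)/2 - e(D-1) ≥ 1 - 1/D + 1 ≥ 1`, `(n-1)/D = I + 1 - 1/D`; so it is enough
that `N^n > n! C1^((D-1)n)`.
PRIMES (Bertrand, `Nat.exists_prime_lt_and_le_two_mul`): `l_i ∈ (2^i y, 2^(i+1) y]`, `i = 0, …, D`; they are different, their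
product is `> y^(D+1) ≥ N^(2(D+1)/D) ≥ 2 N²` if `N^(2/D) ≥ 2`, and they do not divide the leading coefficient of `Δ` if
`y ≥ |Δ.leadingCoeff|`, true for `N ≥ N₀`.
COUNT (`N ≥ N₀`): every `t` is good for some `l_i` or bad for all:
`≤ (D+1) 2^(D+1) y D^d B(I) + (deg Δ + 1)^(D+1)`, `y ≤ 2 N^(2/D+δ)`, `N^(2/D+δ) ≤ N^(2/D+ε)`.
For `N < N₀`: the set is contained in the finite set of all rational numbers of height `≤ N₀`; take `C` at least its cardinality.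
-/

set_option autoImplicit false

namespace Pool.Agent.UFC

open Polynomial NumberField

lemma hts_finite (N : ℕ) : {t : ℚ | |t.num| ≤ N ∧ t.den ≤ N}.Finite := by
  have h : {t : ℚ | |t.num| ≤ N ∧ t.den ≤ N} ⊆ (fun s : ℤ × ℤ => (s.1 : ℚ) / (s.2 : ℚ)) ''
      ((Set.Icc (-(N : ℤ)) N) ×ˢ (Set.Icc (-(N : ℤ)) N)) := by
    rintro t ⟨h1, h2⟩
    refine ⟨(t.num, (t.den : ℤ)), ⟨abs_le.mp h1, ?_⟩, ?_⟩
    · constructor
      · have : (0 : ℤ) ≤ t.den := by positivity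
        have h3 : (0 : ℤ) ≤ N := by positivity
        simp only
        omega
      · simp only
        exact_mod_cast h2
    · simp only [Int.cast_natCast]
      exact Rat.num_div_den t
  exact (((Set.finite_Icc _ _).prod (Set.finite_Icc _ _)).image _).subset h

lemma ev_ge (s c : ℝ) (hs : 0 < s) : ∃ N0 : ℕ, ∀ N : ℕ, N0 ≤ N → c ≤ (N : ℝ) ^ s := by
  have h := (tendsto_rpow_atTop hs).comp tendsto_natCast_atTop_atTop
  have h2 := h.eventually (Filter.eventually_ge_atTop c)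
  rw [Filter.eventually_atTop] at h2
  exact h2

lemma DDat.A_nonneg {M : Type} [Field M] [NumberField M] {D e d : ℕ} {A : ℝ} {B : ℕ → ℕ}
    {Δ : ℤ[X]} {Q : (𝓞 M)[X][X]} (hQ : DDat M D e d A B Δ Q) : 0 ≤ A := by
  obtain ⟨σ⟩ : Nonempty (M →+* ℂ) := inferInstance
  exact (norm_nonneg _).trans (hQ.house σ 0 0)

/-- the inequality of `count_good` for all large `N` -/
lemma ineq_large (D e : ℕ) (A δ : ℝ) (hD : 0 < D) (hA : 0 ≤ A) (I : ℕ)
    (hI : (e : ℝ) * (D - 1) + 1 ≤ δ * (((I + 1) * D : ℕ) - 1) / 2) :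
    ∃ N0 : ℕ, ∀ N : ℕ, N0 ≤ N → ∀ l : ℕ, (N : ℝ) ^ (2 / (D : ℝ) + δ) ≤ l →
      ((((I + 1) * D).factorial : ℕ) : ℝ) *
        ((N : ℝ) ^ I * ((1 + D * (e + 1) * A) * (N : ℝ) ^ e) ^ (D - 1)) ^ ((I + 1) * D) <
      (l : ℝ) ^ (((I + 1) * D) * ((I + 1) * D - 1) / 2) := by
  set n : ℕ := (I + 1) * D with hn
  have hn1 : 1 ≤ n := Nat.mul_pos (Nat.succ_pos I) hD
  set C1 : ℝ := 1 + D * (e + 1) * A with hC1
  have hC1pos : 0 < C1 := by positivity
  set c : ℝ := (n.factorial : ℝ) * C1 ^ ((D - 1) * n) with hc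
  have hcpos : 0 < c := by positivity
  refine ⟨⌈c⌉₊ + 2, fun N hN l hl => ?_⟩
  have hNc : c < N := by
    calc c ≤ (⌈c⌉₊ : ℝ) := Nat.le_ceil _
      _ < ((⌈c⌉₊ + 2 : ℕ) : ℝ) := by push_cast; linarith
      _ ≤ N := by exact_mod_cast hN
  have hN1 : (1 : ℝ) ≤ N := by exact_mod_cast (by omega : 1 ≤ N)
  have hN0 : (0 : ℝ) < N := by linarith
  set k : ℕ := n * (n - 1) / 2 with hk
  have hk2 : (k : ℝ) * 2 = n * (n - 1) := by
    have h1 : k * 2 = n * (n - 1) := Nat.div_mul_cancel (Nat.even_mul_pred_self n).two_dvd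
    have h2 : ((n - 1 : ℕ) : ℝ) = (n : ℝ) - 1 := by push_cast [Nat.cast_sub hn1]; ring
    calc (k : ℝ) * 2 = ((k * 2 : ℕ) : ℝ) := by push_cast; ring
      _ = ((n * (n - 1) : ℕ) : ℝ) := by rw [h1]
      _ = n * (n - 1) := by rw [Nat.cast_mul, h2]
  have hD' : (0 : ℝ) < D := by exact_mod_cast hD
  have hDm : ((D - 1 : ℕ) : ℝ) = (D : ℝ) - 1 := by push_cast [Nat.cast_sub hD]; ring
  have hnR : (n : ℝ) = (I + 1) * D := by rw [hn]; push_cast; ring
  have hlhs : ((n.factorial : ℕ) : ℝ) * ((N : ℝ) ^ I * (C1 * (N : ℝ) ^ e) ^ (D - 1)) ^ n =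
      c * (N : ℝ) ^ (((I : ℝ) + e * (D - 1)) * n) := by
    rw [mul_pow, mul_pow, mul_pow, ← pow_mul, ← pow_mul, ← pow_mul, ← pow_mul, hc]
    have h1 : (N : ℝ) ^ (((I : ℝ) + e * (D - 1)) * n) = (N : ℝ) ^ (I * n) * (N : ℝ) ^ (e * (D - 1) * n) := by
      rw [← pow_add, ← Real.rpow_natCast]
      congr 1
      push_cast [hDm]
      ring
    rw [h1]
    ring
  rw [hlhs]
  have hexp : ((I : ℝ) + e * (D - 1)) * n + 1 ≤ (2 / (D : ℝ) + δ) * k := by
    have h1 : (2 / (D : ℝ) + δ) * k = ((n - 1) / D + δ * (n - 1) / 2) * n := by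
      have : (k : ℝ) = n * (n - 1) / 2 := by linarith
      rw [this]
      field_simp
    rw [h1]
    have h2 : (I : ℝ) ≤ (n - 1) / D := by
      rw [le_div_iff₀ hD', hnR]
      have : (1 : ℝ) ≤ D := by exact_mod_cast hD
      nlinarith
    have h3 : (e : ℝ) * (D - 1) + 1 ≤ δ * (n - 1) / 2 := hI
    have hn1' : (1 : ℝ) ≤ n := by exact_mod_cast hn1
    nlinarith
  calc c * (N : ℝ) ^ (((I : ℝ) + e * (D - 1)) * n) < N * (N : ℝ) ^ (((I : ℝ) + e * (D - 1)) * n) := by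
        apply mul_lt_mul_of_pos_right hNc (by positivity)
    _ = (N : ℝ) ^ (((I : ℝ) + e * (D - 1)) * n + 1) := by
        rw [Real.rpow_add hN0, Real.rpow_one]; ring
    _ ≤ (N : ℝ) ^ ((2 / (D : ℝ) + δ) * k) := Real.rpow_le_rpow_of_exponent_le hN1 hexp
    _ = ((N : ℝ) ^ (2 / (D : ℝ) + δ)) ^ k := by rw [Real.rpow_mul hN0.le, Real.rpow_natCast]
    _ ≤ (l : ℝ) ^ k := pow_le_pow_left₀ (by positivity) hl k

theorem main_count (D e d : ℕ) (A : ℝ) (B : ℕ → ℕ) (Δ : ℤ[X]) (hD : 0 < D) (hΔ : Δ ≠ 0) (ε : ℝ)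
    (hε : 0 < ε) : ∃ C : ℝ, ∀ (M : Type) [Field M] [NumberField M] (Q : (𝓞 M)[X][X]),
      DDat M D e d A B Δ Q → ∀ N : ℕ, 1 ≤ N →
        (({t : ℚ | |t.num| ≤ N ∧ t.den ≤ N ∧ ∃ γ : M, IsRt Q t γ}.ncard : ℕ) : ℝ) ≤
          C * (N : ℝ) ^ (2 / (D : ℝ) + ε) := by
  classical
  by_cases hA : 0 ≤ A
  swap
  · exact ⟨0, fun M _ _ Q hQ => absurd hQ.A_nonneg hA⟩
  have hD' : (0 : ℝ) < D := by exact_mod_cast hD
  set δ : ℝ := ε / 2 with hδ
  have hδ0 : 0 < δ := by positivity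
  obtain ⟨I, hI⟩ : ∃ I : ℕ, (e : ℝ) * (D - 1) + 1 ≤ δ * (((I + 1) * D : ℕ) - 1) / 2 := by
    obtain ⟨I, hI⟩ := exists_nat_ge (2 * ((e : ℝ) * (D - 1) + 1) / δ)
    refine ⟨I, ?_⟩
    rw [div_le_iff₀ hδ0] at hI
    have h1 : (I : ℝ) ≤ (((I + 1) * D : ℕ) : ℝ) - 1 := by
      push_cast
      have : (1 : ℝ) ≤ D := by exact_mod_cast hD
      nlinarith [(Nat.cast_nonneg I : (0 : ℝ) ≤ I)]
    nlinarith
  obtain ⟨N1, hN1⟩ := ineq_large D e A δ hD hA I hI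
  obtain ⟨N2, hN2⟩ := ev_ge (2 / (D : ℝ)) 3 (by positivity)
  obtain ⟨N3, hN3⟩ := ev_ge (2 / (D : ℝ) + δ) (Δ.leadingCoeff.natAbs) (by positivity)
  set N0 : ℕ := N1 + N2 + N3 with hN0
  set Ca : ℝ := ((D + 1 : ℕ) : ℝ) * (2 ^ (D + 1) * 2 * (D : ℝ) ^ d * B I) with hCa
  set Cb : ℝ := ((Δ.natDegree + 1 : ℕ) : ℝ) ^ (D + 1) with hCb
  set Cc : ℝ := ({t : ℚ | |t.num| ≤ N0 ∧ t.den ≤ N0}.ncard : ℝ) with hCc
  refine ⟨Ca + Cb + Cc, fun M _ _ Q hQ N hN => ?_⟩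
  have hNr : (1 : ℝ) ≤ N := by exact_mod_cast hN
  have hNpos : (0 : ℝ) < N := by linarith
  have hX : (1 : ℝ) ≤ (N : ℝ) ^ (2 / (D : ℝ) + ε) := Real.one_le_rpow hNr (by positivity)
  have hCa0 : 0 ≤ Ca := by positivity
  have hCb0 : 0 ≤ Cb := by positivity
  have hCc0 : 0 ≤ Cc := by positivity
  set V : Set ℚ := {t : ℚ | |t.num| ≤ N ∧ t.den ≤ N ∧ ∃ γ : M, IsRt Q t γ} with hV
  rcases lt_or_ge N N0 with hlt | hge
  · have hsub : V ⊆ {t : ℚ | |t.num| ≤ N0 ∧ t.den ≤ N0} := by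
      rintro t ⟨h1, h2, -⟩
      exact ⟨h1.trans (by exact_mod_cast hlt.le), h2.trans hlt.le⟩
    calc (V.ncard : ℝ) ≤ Cc := by
          rw [hCc]
          exact_mod_cast Set.ncard_le_ncard hsub (hts_finite N0)
      _ ≤ Ca + Cb + Cc := by linarith
      _ ≤ (Ca + Cb + Cc) * (N : ℝ) ^ (2 / (D : ℝ) + ε) :=
          le_mul_of_one_le_right (by positivity) hX
  -- large `N`
  set Y : ℝ := (N : ℝ) ^ (2 / (D : ℝ) + δ) with hY
  have hY1 : 1 ≤ Y := Real.one_le_rpow hNr (by positivity)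
  set y : ℕ := ⌈Y⌉₊ with hy
  have hYy : Y ≤ y := Nat.le_ceil _
  have hyY : (y : ℝ) ≤ 2 * Y := by
    have := (Nat.ceil_lt_add_one (by linarith : (0 : ℝ) ≤ Y)).le
    linarith
  have hy0 : 0 < y := Nat.ceil_pos.mpr (by linarith)
  have hprime : ∀ i : ℕ, ∃ l : ℕ, l.Prime ∧ 2 ^ i * y < l ∧ l ≤ 2 ^ (i + 1) * y := by
    intro i
    obtain ⟨l, hl, h1, h2⟩ := Nat.exists_prime_lt_and_le_two_mul (2 ^ i * y) (by positivity)
    exact ⟨l, hl, h1, h2.trans (by rw [pow_succ]; ring_nf; rfl)⟩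
  choose l hlp hl1 hl2 using hprime
  have hlmono : ∀ i j, i < j → l i < l j := by
    intro i j hij
    calc l i ≤ 2 ^ (i + 1) * y := hl2 i
      _ ≤ 2 ^ j * y := Nat.mul_le_mul_right _ (Nat.pow_le_pow_right (by norm_num) hij)
      _ < l j := hl1 j
  have hlinj : Function.Injective l := by
    intro i j hij
    rcases lt_trichotomy i j with h | h | h
    · exact absurd hij (hlmono i j h).ne
    · exact h
    · exact absurd hij (hlmono j i h).ne'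
  set L : Finset ℕ := (Finset.range (D + 1)).image l with hL
  have hyl : ∀ i, y ≤ l i := fun i =>
    (Nat.le_mul_of_pos_left y (by positivity)).trans (hl1 i).le
  have hLcard : L.card = D + 1 := by rw [hL, Finset.card_image_of_injective _ hlinj, Finset.card_range]
  have hLprod : 2 * N ^ 2 < ∏ x ∈ L, x := by
    have h1 : y ^ (D + 1) ≤ ∏ x ∈ L, x := by
      rw [hL, Finset.prod_image (fun a _ b _ h => hlinj h), ← Finset.card_range (D + 1),
        ← Finset.prod_const]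
      rw [Finset.card_range]
      exact Finset.prod_le_prod' (fun i _ => hyl i)
    have h2 : (2 * (N : ℝ) ^ 2) < (y : ℝ) ^ (D + 1) := by
      have h3 : (3 : ℝ) ≤ (N : ℝ) ^ (2 / (D : ℝ)) := hN2 N (by omega)
      calc 2 * (N : ℝ) ^ 2 < 3 * (N : ℝ) ^ 2 := by nlinarith [pow_pos hNpos 2]
        _ ≤ (N : ℝ) ^ (2 / (D : ℝ)) * (N : ℝ) ^ 2 := by gcongr
        _ = (N : ℝ) ^ ((2 / (D : ℝ)) * ((D + 1 : ℕ) : ℝ)) := by
            rw [← Real.rpow_natCast (N : ℝ) 2, ← Real.rpow_add hNpos]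
            congr 1
            push_cast
            field_simp
            ring
        _ = ((N : ℝ) ^ (2 / (D : ℝ))) ^ (D + 1) := by
            rw [Real.rpow_mul hNpos.le, Real.rpow_natCast]
        _ ≤ Y ^ (D + 1) := by
            apply pow_le_pow_left₀ (by positivity)
            apply Real.rpow_le_rpow_of_exponent_le hNr
            linarith
        _ ≤ (y : ℝ) ^ (D + 1) := pow_le_pow_left₀ (by positivity) hYy _
    have h3 : 2 * N ^ 2 < y ^ (D + 1) := by exact_mod_cast h2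
    exact lt_of_lt_of_le h3 h1
  have hLlc : ∀ x ∈ L, ¬ (x : ℤ) ∣ Δ.leadingCoeff := by
    intro x hx hdvd
    rw [hL, Finset.mem_image] at hx
    obtain ⟨i, -, rfl⟩ := hx
    have h1 : l i ≤ Δ.leadingCoeff.natAbs :=
      Nat.le_of_dvd (Int.natAbs_pos.mpr (leadingCoeff_ne_zero.mpr hΔ)) (Int.natCast_dvd.mp hdvd)
    have h2 : ((Δ.leadingCoeff.natAbs : ℕ) : ℝ) ≤ Y := hN3 N (by omega)
    have h3 : Δ.leadingCoeff.natAbs ≤ y := by exact_mod_cast h2.trans hYy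
    have h4 : y < l i := lt_of_le_of_lt (Nat.le_mul_of_pos_left y (by positivity)) (hl1 i)
    omega
  have hbad := bad_count Δ hΔ L (fun x hx => by
    rw [hL, Finset.mem_image] at hx
    obtain ⟨i, -, rfl⟩ := hx
    exact hlp i) hLlc N hLprod
  set Vb : Set ℚ := {t : ℚ | |t.num| ≤ N ∧ t.den ≤ N ∧ ∀ x ∈ L, ¬ GoodT Δ x t} with hVb
  set Vg : ℕ → Set ℚ := fun i => {t : ℚ | |t.num| ≤ N ∧ t.den ≤ N ∧ GoodT Δ (l i) t ∧
    ∃ γ : M, IsRt Q t γ} with hVg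
  have hgood : ∀ i, (Vg i).ncard ≤ l i * D ^ d * B I := fun i =>
    count_good hQ hD (l i) (hlp i) I N hN (hN1 N (by omega) (l i)
      (hYy.trans (by exact_mod_cast hyl i)))
  have hVsub : V ⊆ (⋃ i ∈ Finset.range (D + 1), Vg i) ∪ Vb := by
    rintro t ⟨h1, h2, h3⟩
    by_cases hb : ∀ x ∈ L, ¬ GoodT Δ x t
    · exact Or.inr ⟨h1, h2, hb⟩
    · left
      push Not at hb
      obtain ⟨x, hx, hg⟩ := hb
      rw [hL, Finset.mem_image] at hx
      obtain ⟨i, hi, rfl⟩ := hx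
      rw [Set.mem_iUnion₂]
      exact ⟨i, hi, h1, h2, hg, h3⟩
  have hVgfin : ∀ i, (Vg i).Finite := fun i =>
    (hts_finite N).subset (fun t ht => ⟨ht.1, ht.2.1⟩)
  have hVbfin : Vb.Finite := (hts_finite N).subset (fun t ht => ⟨ht.1, ht.2.1⟩)
  have hcard : V.ncard ≤ ∑ i ∈ Finset.range (D + 1), (Vg i).ncard + Vb.ncard := by
    calc V.ncard ≤ ((⋃ i ∈ Finset.range (D + 1), Vg i) ∪ Vb).ncard :=
          Set.ncard_le_ncard hVsub ((Set.Finite.biUnion (Finset.finite_toSet _)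
            (fun i _ => hVgfin i)).union hVbfin)
      _ ≤ (⋃ i ∈ Finset.range (D + 1), Vg i).ncard + Vb.ncard := Set.ncard_union_le _ _
      _ ≤ _ := Nat.add_le_add_right (Finset.set_ncard_biUnion_le _ _) _
  have hYε : Y ≤ (N : ℝ) ^ (2 / (D : ℝ) + ε) := by
    apply Real.rpow_le_rpow_of_exponent_le hNr
    rw [hδ]
    linarith
  have hsum : ((∑ i ∈ Finset.range (D + 1), (Vg i).ncard : ℕ) : ℝ) ≤ Ca * Y := by
    push_cast
    calc ∑ i ∈ Finset.range (D + 1), ((Vg i).ncard : ℝ)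
        ≤ ∑ i ∈ Finset.range (D + 1), (2 ^ (D + 1) * 2 * (D : ℝ) ^ d * B I) * Y := by
          apply Finset.sum_le_sum
          intro i hi
          rw [Finset.mem_range] at hi
          have h1 : ((Vg i).ncard : ℝ) ≤ (l i : ℝ) * (D : ℝ) ^ d * B I := by
            exact_mod_cast hgood i
          have h2 : (l i : ℝ) ≤ 2 ^ (D + 1) * (2 * Y) := by
            calc (l i : ℝ) ≤ ((2 ^ (i + 1) * y : ℕ) : ℝ) := by exact_mod_cast hl2 i
              _ = 2 ^ (i + 1) * (y : ℝ) := by push_cast; ring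
              _ ≤ 2 ^ (D + 1) * (2 * Y) := by
                  apply mul_le_mul _ hyY (by positivity) (by positivity)
                  exact pow_le_pow_right₀ (by norm_num) (by omega)
          calc ((Vg i).ncard : ℝ) ≤ (l i : ℝ) * (D : ℝ) ^ d * B I := h1
            _ ≤ (2 ^ (D + 1) * (2 * Y)) * (D : ℝ) ^ d * B I := by gcongr
            _ = _ := by ring
      _ = Ca * Y := by
          rw [Finset.sum_const, Finset.card_range, nsmul_eq_mul, hCa]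
          ring
  have hVbc : (Vb.ncard : ℝ) ≤ Cb := by
    rw [hLcard] at hbad
    rw [hCb]
    exact_mod_cast hbad
  calc (V.ncard : ℝ) ≤ ((∑ i ∈ Finset.range (D + 1), (Vg i).ncard + Vb.ncard : ℕ) : ℝ) := by
        exact_mod_cast hcard
    _ = ((∑ i ∈ Finset.range (D + 1), (Vg i).ncard : ℕ) : ℝ) + (Vb.ncard : ℝ) := by push_cast; ring
    _ ≤ Ca * Y + Cb := add_le_add hsum hVbc
    _ ≤ Ca * (N : ℝ) ^ (2 / (D : ℝ) + ε) + Cb * (N : ℝ) ^ (2 / (D : ℝ) + ε) := by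
        apply add_le_add
        · exact mul_le_mul_of_nonneg_left hYε hCa0
        · exact le_mul_of_one_le_right hCb0 hX
    _ ≤ (Ca + Cb + Cc) * (N : ℝ) ^ (2 / (D : ℝ) + ε) := by
        have : 0 ≤ Cc * (N : ℝ) ^ (2 / (D : ℝ) + ε) := by positivity
        nlinarith

end Pool.Agent.UFC
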