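import Mathlib

/-!
# UFC, C3: the number of number fields of bounded degree and discriminant is polynomially bounded

Quantitative form of `NumberField.finite_of_discr_bdd` (Hermite), same proof
(`Mathlib/NumberTheory/NumberField/Discriminant/Basic.lean`, section `hermiteTheorem`).  Let `[M : ℚ] ≤ n`, `|disc M| ≤ X`.
The Minkowski bound of `M` is `< b = √X 2^n + 1` (proof of `minkowskiBound_lt_boundOfDiscBdd` with `n` in place of
`rankOfDiscrBdd`), so by `exists_primitive_element_lt_of_isReal` / `exists_primitive_element_lt_of_isComplex` there is an algebraic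
integer `x` with `M = ℚ(x)` and all conjugates of absolute value at most `√(1 + b²) ≤ 1 + b`.  The minimal polynomial over `ℤ` has
degree `≤ n` and coefficients of absolute value at most `max(√(1+b²),1)^n choose n (n/2) ≤ c_n X^n =: C₁`
(`Embeddings.coeff_bdd_of_norm_le`).  There are at most `(2 C₁ + 1)^(n+1)` such polynomials (a polynomial of degree `≤ n` is
determined by its coefficients `0..n` in `[-C₁, C₁]`), each with at most `n` roots in `ℂ`; `T` = the set of all these roots.
-/

set_option autoImplicit false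

namespace Pool.Agent.UFC

open Module NumberField NumberField.InfinitePlace Polynomial

open scoped IntermediateField NNReal ENNReal

open MeasureTheory MeasureTheory.Measure ZSpan NumberField.mixedEmbedding

theorem c3_mink (K : Type*) [Field K] [NumberField K] {n X : ℕ} (hn : finrank ℚ K ≤ n)
    (hK : |discr K| ≤ (X : ℤ)) :
    minkowskiBound K ↑1 < ((NNReal.sqrt X * 2 ^ n + 1 : ℝ≥0) : ℝ≥0∞) := by
  have : (NNReal.sqrt X * 2 ^ n : ℝ≥0) < NNReal.sqrt X * 2 ^ n + 1 := by
    simp
  refine lt_of_le_of_lt ?_ (ENNReal.coe_lt_coe.mpr this)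
  rw [minkowskiBound, volume_fundamentalDomain_fractionalIdealLatticeBasis,
    Units.val_one, FractionalIdeal.absNorm_one, Rat.cast_one,
    ENNReal.ofReal_one, one_mul, mixedEmbedding.finrank, volume_fundamentalDomain_latticeBasis,
    ENNReal.coe_mul, ENNReal.coe_pow, ENNReal.coe_ofNat,
    show NNReal.sqrt (X : ℝ≥0) = (1 : ℝ≥0∞) * NNReal.sqrt (X : ℝ≥0) by rw [one_mul]]
  gcongr
  · exact pow_le_one₀ (by positivity) (by simp)
  · rwa [← NNReal.coe_le_coe, coe_nnnorm, Int.norm_eq_abs, ← Int.cast_abs,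
      NNReal.coe_natCast, ← Int.cast_natCast, Int.cast_le]
  · exact one_le_two

/-- the bound on the coefficients -/
def c3B (n X : ℕ) : ℕ := ((2 ^ n + 2) * X) ^ n * 2 ^ n

theorem c3_gen (K : Type*) [Field K] [NumberField K] {n X : ℕ} (hX : 0 < X)
    (hn : finrank ℚ K ≤ n) (hK : |discr K| ≤ (X : ℤ)) :
    ∃ x : 𝓞 K, ℚ⟮(x : K)⟯ = ⊤ ∧ natDegree (minpoly ℤ (x : K)) ≤ n ∧
      ∀ i, |(minpoly ℤ (x : K)).coeff i| ≤ (c3B n X : ℤ) := by
  set B : ℝ≥0 := NNReal.sqrt X * 2 ^ n + 1 with hB
  have hX1 : (1 : ℝ) ≤ X := by exact_mod_cast hX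
  have hsq : Real.sqrt X ≤ X := by
    rw [Real.sqrt_le_left (by positivity)]
    nlinarith
  have hBX : (B : ℝ) ≤ 2 ^ n * X + 1 := by
    rw [hB]
    push_cast
    rw [mul_comm]
    gcongr
  have key : ∃ x : 𝓞 K, ℚ⟮(x : K)⟯ = ⊤ ∧ ∀ w : InfinitePlace K, w x ≤ (2 ^ n + 2) * X := by
    obtain ⟨w₀⟩ := (inferInstance : Nonempty (InfinitePlace K))
    by_cases hw₀ : IsReal w₀
    · have h1 : minkowskiBound K ↑1 < (convexBodyLTFactor K) * B := by
        calc
          minkowskiBound K 1 < B := c3_mink K hn hK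
          _ = 1 * B := by rw [one_mul]
          _ ≤ convexBodyLTFactor K * B := by gcongr; exact mod_cast one_le_convexBodyLTFactor K
      obtain ⟨x, hx₁, hx₂⟩ := exists_primitive_element_lt_of_isReal K hw₀ h1
      refine ⟨x, hx₁, fun w => (hx₂ w).le.trans ?_⟩
      push_cast
      apply max_le
      · nlinarith
      · nlinarith [pow_pos (show (0 : ℝ) < 2 by norm_num) n]
    · have h1 : minkowskiBound K ↑1 < (convexBodyLT'Factor K) * B := by
        calc
          minkowskiBound K 1 < B := c3_mink K hn hK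
          _ = 1 * B := by rw [one_mul]
          _ ≤ convexBodyLT'Factor K * B := by gcongr; exact mod_cast one_le_convexBodyLT'Factor K
      obtain ⟨x, hx₁, hx₂⟩ := exists_primitive_element_lt_of_isComplex K
        (not_isReal_iff_isComplex.mp hw₀) h1
      refine ⟨x, hx₁, fun w => (hx₂ w).le.trans ?_⟩
      rw [Real.sqrt_le_left (by positivity)]
      have hB0 : (0 : ℝ) ≤ B := B.2
      have h2 : (B : ℝ) + 1 ≤ (2 ^ n + 2) * X := by nlinarith
      nlinarith
  obtain ⟨x, hx₁, hx₂⟩ := key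
  have hx := x.isIntegral_coe
  refine ⟨x, hx₁, ?_, fun i => ?_⟩
  · rw [Field.primitive_element_iff_minpoly_natDegree_eq,
      minpoly.isIntegrallyClosed_eq_field_fractions' ℚ x.isIntegral_coe,
      (minpoly.monic x.isIntegral_coe).natDegree_map] at hx₁
    exact hx₁.symm ▸ hn
  · rw [← @Int.cast_le ℝ]
    refine (Eq.trans_le ?_ <| Embeddings.coeff_bdd_of_norm_le
          ((le_iff_le (x : K) _).mp hx₂) i).trans ?_
    · rw [minpoly.isIntegrallyClosed_eq_field_fractions' ℚ hx, coeff_map, eq_intCast,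
          Int.norm_cast_rat, Int.norm_eq_abs, Int.cast_abs]
    · have h1 : (1 : ℝ) ≤ (2 ^ n + 2) * X := by
        nlinarith [pow_pos (show (0 : ℝ) < 2 by norm_num) n]
      rw [max_eq_left h1, c3B]
      push_cast
      gcongr
      have h2 : (finrank ℚ K).choose (finrank ℚ K / 2) ≤ 2 ^ finrank ℚ K :=
        Nat.choose_le_two_pow _ _
      have h3 : (2 : ℕ) ^ finrank ℚ K ≤ 2 ^ n := Nat.pow_le_pow_right (by norm_num) hn
      exact_mod_cast h2.trans h3

/-- the polynomial with given coefficients -/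
noncomputable def c3P (n : ℕ) (f : Fin (n + 1) → ℤ) : ℤ[X] := ∑ i : Fin (n + 1), C (f i) * X ^ (i : ℕ)

theorem c3P_eq {n : ℕ} {P : ℤ[X]} (hP : P.natDegree ≤ n) : c3P n (fun i => P.coeff i) = P := by
  rw [c3P, Fin.sum_univ_eq_sum_range (fun i => C (P.coeff i) * X ^ i) (n + 1)]
  exact (P.as_sum_range_C_mul_X_pow' (Nat.lt_succ_of_le hP)).symm

theorem c3P_deg (n : ℕ) (f : Fin (n + 1) → ℤ) : (c3P n f).natDegree ≤ n := by
  rw [c3P]
  apply natDegree_sum_le_of_forall_le
  intro i _
  exact (natDegree_C_mul_X_pow_le _ _).trans (by omega)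

open scoped Classical in
/-- the set of roots -/
noncomputable def c3T (n C₁ : ℕ) : Finset ℂ :=
  (Fintype.piFinset fun _ : Fin (n + 1) => Finset.Icc (-(C₁ : ℤ)) C₁).biUnion
    fun f => ((c3P n f).map (algebraMap ℤ ℂ)).roots.toFinset

theorem c3T_card (n C₁ : ℕ) : (c3T n C₁).card ≤ (2 * C₁ + 1) ^ (n + 1) * n := by
  classical
  rw [c3T]
  refine Finset.card_biUnion_le.trans ?_
  refine (Finset.sum_le_card_nsmul _ _ n fun f _ => ?_).trans ?_
  · refine (Multiset.toFinset_card_le _).trans ?_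
    refine (card_roots' _).trans ?_
    exact natDegree_map_le.trans (c3P_deg n f)
  · rw [Fintype.card_piFinset, smul_eq_mul]
    simp only [Int.card_Icc, Finset.prod_const, Finset.card_univ, Fintype.card_fin]
    apply Nat.mul_le_mul_right
    apply Nat.pow_le_pow_left
    omega

set_option backward.isDefEq.respectTransparency false in
theorem field_count (n : ℕ) : ∃ C : ℕ, ∀ X : ℕ, 0 < X → ∃ T : Finset ℂ, T.card ≤ C * X ^ C ∧
    ∀ (M : IntermediateField ℚ ℂ) [NumberField M], Module.finrank ℚ M ≤ n →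
      |NumberField.discr M| ≤ (X : ℤ) → ∃ x ∈ T, M = ℚ⟮x⟯ := by
  classical
  set D : ℕ := (3 * ((2 ^ n + 2) ^ n * 2 ^ n)) ^ (n + 1) * n with hD
  refine ⟨D + n * (n + 1), fun X hX => ⟨c3T n (c3B n X), ?_, fun M _ hn hdisc => ?_⟩⟩
  · refine (c3T_card n _).trans ?_
    have h1 : 2 * c3B n X + 1 ≤ 3 * ((2 ^ n + 2) ^ n * 2 ^ n) * X ^ n := by
      have h2 : 0 < c3B n X := by
        rw [c3B]
        positivity
      have h3 : c3B n X = ((2 ^ n + 2) ^ n * 2 ^ n) * X ^ n := by
        rw [c3B, mul_pow]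
        ring
      have h4 : 2 * c3B n X + 1 ≤ 3 * c3B n X := by omega
      refine h4.trans (le_of_eq ?_)
      rw [h3]
      ring
    calc (2 * c3B n X + 1) ^ (n + 1) * n
        ≤ (3 * ((2 ^ n + 2) ^ n * 2 ^ n) * X ^ n) ^ (n + 1) * n := by gcongr
      _ = D * X ^ (n * (n + 1)) := by
          rw [hD, mul_pow, ← pow_mul]
          ring
      _ ≤ (D + n * (n + 1)) * X ^ (D + n * (n + 1)) := by
          apply Nat.mul_le_mul (Nat.le_add_right _ _)
          exact Nat.pow_le_pow_right hX (Nat.le_add_left _ _)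
  · obtain ⟨x, hx₁, hx₂, hx₃⟩ := c3_gen M hX hn hdisc
    have hx := x.isIntegral_coe
    refine ⟨((x : M) : ℂ), ?_, ?_⟩
    · rw [c3T, Finset.mem_biUnion]
      refine ⟨fun i => (minpoly ℤ (x : M)).coeff i, ?_, ?_⟩
      · rw [Fintype.mem_piFinset]
        intro i
        rw [Finset.mem_Icc, ← abs_le]
        exact hx₃ i
      · rw [c3P_eq hx₂, Multiset.mem_toFinset]
        have h0 : (minpoly ℤ (x : M)).Monic := minpoly.monic hx
        rw [mem_roots', IsRoot.def, eval_map]
        refine ⟨(h0.map (algebraMap ℤ ℂ)).ne_zero, ?_⟩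
        have h1 := (aeval_algebraMap_eq_zero_iff ℂ (x : M) (minpoly ℤ (x : M))).mpr
          (minpoly.aeval ℤ (x : M))
        rw [aeval_def] at h1
        exact h1
    · rw [← (IntermediateField.lift_injective _).eq_iff, eq_comm] at hx₁
      convert! hx₁
      · simp only [IntermediateField.lift_top]
      · simp only [IntermediateField.lift_adjoin, Set.image_singleton]

end Pool.Agent.UFC
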