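import Mathlib
import Pool.Agent.UFC.C6
import Pool.Agent.UFC.C7
import Pool.Agent.UFC.C8

/-!
# UFC, part C: the roots lie in a Galois number field of bounded degree, unramified outside `S` and a fixed finite set

Owner: helper87.
-/

set_option autoImplicit false

namespace Pool.Agent.UFC

open Polynomial

theorem val_lt_one_iff' {M : Type*} [Field M] (A : ValuationSubring M) (x : M) (hx : x ≠ 0) :
    A.valuation x < 1 ↔ x⁻¹ ∉ A := by
  rw [← A.valuation_le_one_iff, map_inv₀, not_le, one_lt_inv₀]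
  rw [zero_lt_iff]
  exact (_root_.map_ne_zero _).2 hx

/-- conjugation of inertia -/
theorem val_comap_lt {M : Type*} [Field M] (A : ValuationSubring M) (ρ : M ≃+* M) (x : M) :
    (A.comap (ρ : M →+* M)).valuation x < 1 ↔ A.valuation (ρ x) < 1 := by
  by_cases hx : x = 0
  · subst hx; simp
  · rw [val_lt_one_iff' _ _ hx, val_lt_one_iff' _ _ ((_root_.map_ne_zero ρ).2 hx), ValuationSubring.mem_comap]
    simp

theorem Inert.conj {M : Type*} [Field M] {A : ValuationSubring M} {σ : M ≃+* M} (h : Inert A σ)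
    (ρ τ : M ≃+* M) (hτ : ∀ x, ρ (τ x) = σ (ρ x)) : Inert (A.comap (ρ : M →+* M)) τ := by
  intro a ha
  rw [val_comap_lt, map_sub, hτ]
  exact h _ ha

theorem inertia_field (K : IntermediateField ℚ ℂ) (hK : FiniteDimensional ℚ K) (p q r D : ℕ)
    (hp : 0 < p) (hq : 0 < q) (hr : 0 < r) (hD : 0 < D) (P : K[X][X]) (hP : PCD K p q r D P) :
    ∃ (n B : ℕ) (F : Finset ℚ), 0 < B ∧ ∀ t : ℚ, t ∉ F → ∀ S : Finset ℕ, SolT S p q r t →
      ∃ (M : IntermediateField ℚ ℂ) (_ : NumberField M), IsGalois ℚ M ∧ K ≤ M ∧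
        Module.finrank ℚ M ≤ n ∧ (∀ α : ℂ, (ev (t : ℂ) (toC P)).eval α = 0 → α ∈ M) ∧
        ∀ l : ℕ, l.Prime → l ∉ S → ¬ l ∣ B → ¬ (l : ℤ) ∣ NumberField.discr M := by
  have := hK
  obtain ⟨B, F, hB, hcore⟩ := core_fixed K p q r D hp hq hr P hP
  obtain ⟨n, hroot⟩ := root_field K D
  refine ⟨n, B, F, hB, fun t ht S hS => ?_⟩
  -- the polynomial P(., t) over K
  set f : K[X] := ev (t : K) P with hf
  have hfm : f.Monic := hP.monic.map _
  have hfd : f.natDegree = D := by rw [hf, ev, hP.monic.natDegree_map, hP.deg]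
  have hfe : ∀ α : ℂ, aeval α f = (ev (t : ℂ) (toC P)).eval α := by
    intro α
    rw [hf, ev, ev, toC, aeval_def, eval₂_map, eval, eval₂_map, eval₂_map]
    congr 1
    ext x
    · simp
    · simp
  obtain ⟨M, hMf, hMG, hKM, hMn, hMr, hMfix⟩ := hroot f hfm hfd
  haveI := hMf
  haveI : NumberField M := ⟨⟩
  refine ⟨M, inferInstance, hMG, hKM, hMn, fun α hα => hMr α (by rw [hfe]; exact hα), ?_⟩
  intro l hl hlS hlB
  -- radicals
  obtain ⟨w0, hw0⟩ := IsAlgClosed.exists_pow_nat_eq (t : ℂ) hp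
  obtain ⟨w1, hw1⟩ := IsAlgClosed.exists_pow_nat_eq (1 - t : ℂ) hq
  obtain ⟨w2, hw2⟩ := IsAlgClosed.exists_pow_nat_eq ((t : ℂ)⁻¹) hr
  have alg : ∀ (k : ℕ) (hk : 0 < k) (c : ℚ) (w : ℂ), w ^ k = (c : ℂ) → IsAlgebraic ℚ w := by
    intro k hk c w hw
    refine IsIntegral.isAlgebraic ?_
    refine IsIntegral.of_pow hk ?_
    rw [hw]
    exact isIntegral_algebraMap (R := ℚ) (x := c)
  obtain ⟨M', hM'f, hM'G, hMM, hT⟩ := galois_closure M {w0, w1, w2} (by
    intro x hx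
    simp only [Finset.mem_insert, Finset.mem_singleton] at hx
    rcases hx with rfl | rfl | rfl
    · exact alg p hp t _ hw0
    · exact alg q hq (1 - t) _ (by rw [hw1]; push_cast; ring)
    · exact alg r hr (t⁻¹) _ (by rw [hw2]; push_cast; ring))
  haveI := hM'f
  haveI := hM'G
  haveI : NumberField M' := ⟨⟩
  refine not_dvd_discr M M' hMM l hl ?_
  intro A hA σ hσ
  refine hMfix M' hMM hM'f hM'G σ ?_
  intro ρ x hx
  -- the conjugate automorphism is inert at the conjugate ring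
  set τ : M' ≃ₐ[ℚ] M' := ρ⁻¹ * σ * ρ with hτ
  have h1 : Inert (A.comap ((ρ : M' ≃+* M') : M' →+* M')) (τ : M' ≃+* M') := by
    refine Inert.conj hσ (ρ : M' ≃+* M') (τ : M' ≃+* M') ?_
    intro y
    change ρ ((ρ⁻¹ * σ * ρ) y) = σ (ρ y)
    rw [mul_assoc]
    change ρ (ρ⁻¹ ((σ * ρ) y)) = σ (ρ y)
    have : ρ (ρ⁻¹ ((σ * ρ) y)) = (ρ * ρ⁻¹) ((σ * ρ) y) := rfl
    rw [this, mul_inv_cancel]
    rfl
  have h2 : (A.comap ((ρ : M' ≃+* M') : M' →+* M')).valuation (l : M') < 1 := by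
    rw [val_comap_lt]
    have : (ρ : M' ≃+* M') (l : M') = (l : M') := map_natCast _ l
    rw [this]
    exact hA
  have hc := hcore t ht S hS M' (hKM.trans hMM) ⟨w0, hT w0 (by simp)⟩ ⟨w1, hT w1 (by simp)⟩
    ⟨w2, hT w2 (by simp)⟩ hw0 hw1 hw2 _ l hl hlS hlB h2 (τ : M' ≃+* M') h1
  rcases hx with hx | hx
  · exact hc.1 x hx
  · exact hc.2 x (by rw [← hfe]; exact hx)

end Pool.Agent.UFC
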