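import Mathlib
import Pool.Agent.UFC.Defs
import Pool.Agent.UFC.PartC
import Pool.Agent.UFC.C2b
import Pool.Agent.UFC.FCount

/-!
# UFC: few fields

The roots of `P(., t)`, `t` an `S`-point with `∏ S ≤ R`, lie in one of at most `C R^C` number fields of bounded degree.
-/

set_option autoImplicit false

namespace Pool.Agent.UFC

open Polynomial
open scoped IntermediateField

theorem few_fields (K : IntermediateField ℚ ℂ) (hK : FiniteDimensional ℚ K) (p q r D : ℕ)
    (hp : 0 < p) (hq : 0 < q) (hr : 0 < r) (hD : 0 < D) (P : K[X][X]) (hP : PCD K p q r D P) :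
    ∃ (n C : ℕ) (F : Finset ℚ), ∀ R : ℕ, 0 < R → ∃ U : Finset (IntermediateField ℚ ℂ),
      U.card ≤ C * R ^ C ∧
      (∀ M ∈ U, K ≤ M ∧ FiniteDimensional ℚ M ∧ Module.finrank ℚ M ≤ n) ∧
      ∀ t : ℚ, t ∉ F → ∀ S : Finset ℕ, (∀ l ∈ S, l.Prime) → ∏ l ∈ S, l ≤ R → SolT S p q r t →
        ∃ M ∈ U, ∀ α : ℂ, (ev (t : ℂ) (toC P)).eval α = 0 → α ∈ M := by
  classical
  obtain ⟨n, B, F, hB, hmain⟩ := inertia_field K hK p q r D hp hq hr hD P hP
  obtain ⟨C', hC'⟩ := field_count n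
  refine ⟨n, C' * ((n + 1) * B) ^ (n * C') + n * C', F, fun R hR => ?_⟩
  obtain ⟨T, hT, hTM⟩ := hC' (((n + 1) * B * R) ^ n) (by positivity)
  refine ⟨(T.image (fun x => ℚ⟮x⟯)).filter
    (fun M => K ≤ M ∧ FiniteDimensional ℚ M ∧ Module.finrank ℚ M ≤ n), ?_, ?_, ?_⟩
  · calc ((T.image (fun x => ℚ⟮x⟯)).filter
          (fun M => K ≤ M ∧ FiniteDimensional ℚ M ∧ Module.finrank ℚ M ≤ n)).card
        ≤ (T.image (fun x => ℚ⟮x⟯)).card := Finset.card_filter_le _ _
      _ ≤ T.card := Finset.card_image_le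
      _ ≤ C' * (((n + 1) * B * R) ^ n) ^ C' := hT
      _ = C' * ((n + 1) * B) ^ (n * C') * R ^ (n * C') := by
          rw [← pow_mul, mul_pow]; ring
      _ ≤ (C' * ((n + 1) * B) ^ (n * C') + n * C') *
            R ^ (C' * ((n + 1) * B) ^ (n * C') + n * C') := by
          apply Nat.mul_le_mul (Nat.le_add_right _ _)
          exact Nat.pow_le_pow_right hR (Nat.le_add_left _ _)
  · intro M hM
    exact (Finset.mem_filter.mp hM).2
  · intro t ht S hSp hSR hsol
    obtain ⟨M, hNF, hGal, hKM, hfin, hroots, hdisc⟩ := hmain t ht S hsol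
    refine ⟨M, ?_, hroots⟩
    have hfd : FiniteDimensional ℚ M := hNF.to_finiteDimensional
    have hS0 : 0 < ∏ l ∈ S, l := Finset.prod_pos (fun l hl => (hSp l hl).pos)
    have hb := disc_bound M (B * ∏ l ∈ S, l) (by positivity) (fun l hl hdvd => by
      by_contra hnd
      have h1 : l ∉ S := fun hlS => hnd ((Finset.dvd_prod_of_mem _ hlS).mul_left B)
      have h2 : ¬ l ∣ B := fun hlB => hnd (hlB.mul_right _)
      exact hdisc l hl h1 h2 hdvd)
    have hle : |NumberField.discr M| ≤ ((((n + 1) * B * R) ^ n : ℕ) : ℤ) := by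
      refine hb.trans ?_
      have h1 : Module.finrank ℚ M * (B * ∏ l ∈ S, l) ≤ (n + 1) * B * R := by
        calc Module.finrank ℚ M * (B * ∏ l ∈ S, l) ≤ (n + 1) * (B * R) :=
              Nat.mul_le_mul (by omega) (Nat.mul_le_mul_left _ hSR)
          _ = (n + 1) * B * R := by ring
      have h2 : (Module.finrank ℚ M * (B * ∏ l ∈ S, l)) ^ Module.finrank ℚ M ≤
          ((n + 1) * B * R) ^ n :=
        (Nat.pow_le_pow_left h1 _).trans (Nat.pow_le_pow_right (by positivity) hfin)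
      exact_mod_cast h2
    obtain ⟨x, hx, hMx⟩ := hTM M hfin hle
    rw [Finset.mem_filter, Finset.mem_image]
    exact ⟨⟨x, hx, hMx.symm⟩, hKM, hfd, hfin⟩

end Pool.Agent.UFC
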