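import Mathlib
import Pool.Agent.UFC.Defs
import Pool.Agent.UFC.DDefs
import Pool.Agent.UFC.DPar
import Pool.Agent.UFC.DClr
import Pool.Agent.UFC.DDel
import Pool.Agent.UFC.DAux

/-!
# UFC, part D: rational points of bounded height below a number field point of a curve, uniform in the field
-/

set_option autoImplicit false

namespace Pool.Agent.UFC

open Polynomial NumberField

lemma ev_map_hom {R S : Type*} [CommRing R] [CommRing S] (f : R →+* S) (t : R) (P : R[X][X]) :
    ev (f t) (P.map (mapRingHom f)) = (ev t P).map f := by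
  rw [ev, ev, Polynomial.map_map, Polynomial.map_map]
  congr 1
  ext x
  · simp
  · simp

/-- base change of integral polynomials to a larger subfield of `ℂ` -/
lemma map_tower (K M : IntermediateField ℚ ℂ) (hKM : K ≤ M) (Q : (𝓞 K)[X][X]) :
    toC ((Q.map (mapRingHom (RingOfIntegers.mapRingHom
      (IntermediateField.inclusion hKM : K →+* M)))).map (mapRingHom (algebraMap (𝓞 M) M))) =
    toC (Q.map (mapRingHom (algebraMap (𝓞 K) K))) := by
  rw [toC, toC, Polynomial.map_map, Polynomial.map_map, Polynomial.map_map]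
  congr 1
  ext x
  · simp
  · simp

lemma ev_scale (P : ℂ[X][X]) (hP : P.Monic) (t m : ℂ) :
    ev t (P.scaleRoots (C m)) = (ev t P).scaleRoots m := by
  ext i
  rw [ev, coeff_map, coeff_scaleRoots, coeff_scaleRoots, ev, hP.natDegree_map, coeff_map, map_mul]
  simp

lemma root_scale (P : ℂ[X][X]) (hP : P.Monic) (t m α : ℂ) (hm : m ≠ 0) :
    (ev t (P.scaleRoots (C m))).eval (m * α) = 0 ↔ (ev t P).eval α = 0 := by
  rw [ev_scale P hP]
  have h := scaleRoots_eval₂_mul (p := ev t P) (RingHom.id ℂ) α m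
  rw [eval₂_id, eval₂_id, RingHom.id_apply] at h
  rw [h]
  simp [hm]

theorem dmain (K : IntermediateField ℚ ℂ) (hK : FiniteDimensional ℚ K) (P : K[X][X])
    (hP : P.Monic) (hirr : Irreducible (toC P)) (hD : 0 < P.natDegree) (d : ℕ) (ε : ℝ)
    (hε : 0 < ε) :
    ∃ C : ℝ, ∀ M : IntermediateField ℚ ℂ, K ≤ M → FiniteDimensional ℚ M →
      Module.finrank ℚ M ≤ d → ∀ N : ℕ, 1 ≤ N →
        (({t : ℚ | |t.num| ≤ N ∧ t.den ≤ N ∧
          ∃ α ∈ M, (ev (t : ℂ) (toC P)).eval α = 0}.ncard : ℕ) : ℝ) ≤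
          C * (N : ℝ) ^ (2 / (P.natDegree : ℝ) + ε) := by
  classical
  have hNF : NumberField K := ⟨⟩
  obtain ⟨m, Q, hm, hQm, hQd, hQP⟩ := clear_denoms K P hP
  set D := P.natDegree with hDdef
  have htoC : toC (Q.map (mapRingHom (algebraMap (𝓞 K) K))) = (toC P).scaleRoots (C (m : ℂ)) := by
    rw [hQP, toC, toC]
    ext i : 1
    rw [coeff_map, coeff_scaleRoots, coeff_scaleRoots, map_mul, coeff_map,
      (hP.natDegree_map (mapRingHom (algebraMap K ℂ)))]
    congr 1
    simp
  have hmC : (m : ℂ) ≠ 0 := by exact_mod_cast hm.ne'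
  have hPC : (toC P).Monic := hP.map _
  have hirrQ : Irreducible (toC (Q.map (mapRingHom (algebraMap (𝓞 K) K)))) := by
    rw [htoC]
    exact irr_scale _ hPC hirr _ hmC
  obtain ⟨Δ, hΔ, a, b, hab⟩ := exists_disc K Q hQm hirrQ
  set e : ℕ := ∑ i ∈ Finset.range (D + 1), (Q.coeff i).natDegree with he
  have hdegT : ∀ i, (Q.coeff i).natDegree ≤ e := by
    intro i
    by_cases hi : i ∈ Finset.range (D + 1)
    · exact Finset.single_le_sum (f := fun i => (Q.coeff i).natDegree) (fun _ _ => Nat.zero_le _) hi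
    · have : Q.coeff i = 0 := by
        apply coeff_eq_zero_of_natDegree_lt
        rw [Finset.mem_range] at hi
        omega
      rw [this]
      simp
  set A : ℝ := ∑ σ : K →+* ℂ, ∑ i ∈ Finset.range (D + 1), ∑ j ∈ Finset.range (e + 1),
    ‖σ (algebraMap (𝓞 K) K ((Q.coeff i).coeff j))‖ with hA
  have hA0 : 0 ≤ A := by positivity
  have hhouse : ∀ σ : K →+* ℂ, ∀ i j, ‖σ (algebraMap (𝓞 K) K ((Q.coeff i).coeff j))‖ ≤ A := by
    intro σ i j
    by_cases hi : i ∈ Finset.range (D + 1)
    · by_cases hj : j ∈ Finset.range (e + 1)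
      · calc ‖σ (algebraMap (𝓞 K) K ((Q.coeff i).coeff j))‖
            ≤ ∑ j ∈ Finset.range (e + 1), ‖σ (algebraMap (𝓞 K) K ((Q.coeff i).coeff j))‖ :=
              Finset.single_le_sum (f := fun j => ‖σ (algebraMap (𝓞 K) K ((Q.coeff i).coeff j))‖)
                (fun _ _ => norm_nonneg _) hj
          _ ≤ ∑ i ∈ Finset.range (D + 1), ∑ j ∈ Finset.range (e + 1),
                ‖σ (algebraMap (𝓞 K) K ((Q.coeff i).coeff j))‖ :=
              Finset.single_le_sum (f := fun i => ∑ j ∈ Finset.range (e + 1),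
                ‖σ (algebraMap (𝓞 K) K ((Q.coeff i).coeff j))‖)
                (fun _ _ => Finset.sum_nonneg (fun _ _ => norm_nonneg _)) hi
          _ ≤ A := Finset.single_le_sum (f := fun σ : K →+* ℂ => ∑ i ∈ Finset.range (D + 1),
                ∑ j ∈ Finset.range (e + 1), ‖σ (algebraMap (𝓞 K) K ((Q.coeff i).coeff j))‖)
                (fun _ _ => Finset.sum_nonneg (fun _ _ => Finset.sum_nonneg
                  (fun _ _ => norm_nonneg _))) (Finset.mem_univ σ)
      · have : (Q.coeff i).coeff j = 0 := by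
          apply coeff_eq_zero_of_natDegree_lt
          have := hdegT i
          rw [Finset.mem_range] at hj
          omega
        rw [this]
        simpa using hA0
    · have : Q.coeff i = 0 := by
        apply coeff_eq_zero_of_natDegree_lt
        rw [Finset.mem_range] at hi
        omega
      rw [this]
      simpa using hA0
  obtain ⟨C0, hC0⟩ := main_count D e d A (fun I => (2 * D - 1) * (e + I)) Δ hD hΔ ε hε
  refine ⟨C0, fun M hKM hM hMd N hN => ?_⟩
  have hNFM : NumberField M := ⟨⟩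
  set ι : K →+* M := (IntermediateField.inclusion hKM : K →+* M) with hι
  set g : 𝓞 K →+* 𝓞 M := RingOfIntegers.mapRingHom ι with hg
  set QM : (𝓞 M)[X][X] := Q.map (mapRingHom g) with hQM
  have htower : toC (QM.map (mapRingHom (algebraMap (𝓞 M) M))) =
      (toC P).scaleRoots (C (m : ℂ)) := by
    rw [← htoC]
    exact map_tower K M hKM Q
  have hQMdeg : QM.natDegree = D := by rw [hQM, hQm.natDegree_map, hQd]
  -- roots
  have hroot : ∀ (t : ℚ) (γ : M), IsRt QM t γ ↔
      (ev (t : ℂ) ((toC P).scaleRoots (C (m : ℂ)))).eval (γ : ℂ) = 0 := by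
    intro t γ
    rw [← htower, toC, IsRt]
    have h1 : ((t : ℂ)) = algebraMap M ℂ (algebraMap ℚ M t) := by simp
    rw [h1, ev_map_hom, show (γ : ℂ) = algebraMap M ℂ γ from rfl, eval_map_algebraMap,
      aeval_algebraMap_apply]
    constructor
    · intro h
      rw [coe_aeval_eq_eval, h, map_zero]
    · intro h
      rw [coe_aeval_eq_eval] at h
      exact (map_eq_zero_iff _ (algebraMap M ℂ).injective).mp h
  have hDDat : DDat M D e d A (fun I => (2 * D - 1) * (e + I)) Δ QM := by
    refine ⟨hQm.map _, hQMdeg, fun i => ?_, hMd, fun σ i j => ?_, ?_, fun I c hc => ?_⟩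
    · rw [hQM, coeff_map]
      exact natDegree_map_le.trans (hdegT i)
    · rw [hQM, coeff_map, coe_mapRingHom, coeff_map]
      have := hhouse (σ.comp ι) i j
      simpa [hg] using this
    · refine ⟨a.map (mapRingHom g), b.map (mapRingHom g), ?_⟩
      have := congrArg (Polynomial.map (mapRingHom g)) hab
      rw [Polynomial.map_add, Polynomial.map_mul, Polynomial.map_mul, map_C, coe_mapRingHom,
        Polynomial.map_map] at this
      rw [hQM, derivative_map, this]
      congr 2
    · have hP' : ((toC P).scaleRoots (C (m : ℂ))).Monic := (monic_scaleRoots_iff _).mpr hPC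
      have hc' : (fun x => ((c x : M) : ℂ)) ≠ 0 := by
        intro h0
        apply hc
        funext x
        have := congrFun h0 x
        simpa using this
      have hdegC : ∀ i, (((toC P).scaleRoots (C (m : ℂ))).coeff i).natDegree ≤ e := by
        intro i
        rw [← htower, toC, coeff_map, coeff_map, hQM, coeff_map]
        exact natDegree_map_le.trans (natDegree_map_le.trans (natDegree_map_le.trans (hdegT i)))
      have hDC : ((toC P).scaleRoots (C (m : ℂ))).natDegree = D := by
        rw [natDegree_scaleRoots, toC, hP.natDegree_map]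
      obtain ⟨hf, hn⟩ := aux_bound _ hP' (htoC ▸ hirrQ) D e hDC hD hdegC I _ hc'
      set V : Set ℚ := {t : ℚ | ∃ γ : M, (ev (algebraMap ℚ M t)
        (QM.map (mapRingHom (algebraMap (𝓞 M) M)))).eval γ = 0 ∧
        ∑ x, c x * (algebraMap ℚ M t) ^ (x.1 : ℕ) * γ ^ (x.2 : ℕ) = 0} with hV
      have hsub : (fun t : ℚ => (t : ℂ)) '' V ⊆ {t : ℂ | ∃ γ : ℂ,
          (ev t ((toC P).scaleRoots (C (m : ℂ)))).eval γ = 0 ∧
          ∑ x, ((c x : M) : ℂ) * t ^ (x.1 : ℕ) * γ ^ (x.2 : ℕ) = 0} := by
        rintro _ ⟨t, ⟨γ, h1, h2⟩, rfl⟩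
        refine ⟨(γ : ℂ), (hroot t γ).mp h1, ?_⟩
        have := congrArg (algebraMap M ℂ) h2
        rw [map_sum, map_zero] at this
        rw [← this]
        apply Finset.sum_congr rfl
        intro x _
        simp
      have hinj : Function.Injective (fun t : ℚ => (t : ℂ)) := Rat.cast_injective
      refine ⟨Set.Finite.of_finite_image (hf.subset hsub) hinj.injOn, ?_⟩
      rw [← Set.ncard_image_of_injective V hinj]
      exact (Set.ncard_le_ncard hsub hf).trans hn
  have hset : {t : ℚ | |t.num| ≤ N ∧ t.den ≤ N ∧ ∃ α ∈ M, (ev (t : ℂ) (toC P)).eval α = 0} =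
      {t : ℚ | |t.num| ≤ N ∧ t.den ≤ N ∧ ∃ γ : M, IsRt QM t γ} := by
    ext t
    refine and_congr_right (fun _ => and_congr_right (fun _ => ?_))
    constructor
    · rintro ⟨α, hα, hroot'⟩
      refine ⟨(m : M) * ⟨α, hα⟩, (hroot t _).mpr ?_⟩
      have := (root_scale (toC P) hPC (t : ℂ) (m : ℂ) α hmC).mpr hroot'
      simpa using this
    · rintro ⟨γ, hγ⟩
      have h1 := (hroot t γ).mp hγ
      refine ⟨(m : ℂ)⁻¹ * (γ : ℂ), ?_, ?_⟩
      · exact M.mul_mem (M.inv_mem (by exact_mod_cast natCast_mem M m)) γ.2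
      · apply (root_scale (toC P) hPC (t : ℂ) (m : ℂ) _ hmC).mp
        rwa [← mul_assoc, mul_inv_cancel₀ hmC, one_mul]
  rw [hset]
  exact hC0 M QM hDDat N hN

end Pool.Agent.UFC
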