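import Mathlib
import Pool.Agent.UFC.Defs

/-!
# UFC: coprime solutions give `S`-points
-/

set_option autoImplicit false

namespace Pool.Agent.UFC

/-- coprimality of the terms -/
lemma coprime_terms {a b c x y z : ℤ} {p q r : ℕ}
    (hg : Int.gcd (Int.gcd (a * x) (b * y)) (c * z) = 1)
    (h : a * x ^ p + b * y ^ q = c * z ^ r) :
    IsCoprime (a * x ^ p) (c * z ^ r) ∧ IsCoprime (b * y ^ q) (c * z ^ r) := by
  have key : ∀ l : ℤ, Prime l → l ∣ a * x ^ p → l ∣ b * y ^ q → l ∣ c * z ^ r → False := by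
    intro l hl h1 h2 h3
    have d : ∀ {u v : ℤ} {m : ℕ}, l ∣ u * v ^ m → l ∣ u * v := by
      intro u v m huv
      rcases hl.dvd_or_dvd huv with h | h
      · exact h.mul_right _
      · exact (hl.dvd_of_dvd_pow h).mul_left _
    have e1 := d h1
    have e2 := d h2
    have e3 := d h3
    have e4 : l ∣ ((Int.gcd (Int.gcd (a * x) (b * y)) (c * z) : ℕ) : ℤ) :=
      Int.dvd_coe_gcd (Int.dvd_coe_gcd e1 e2) e3
    rw [hg] at e4
    exact hl.not_isUnit (isUnit_of_dvd_one (by simpa using e4))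
  constructor
  · rw [Int.isCoprime_iff_gcd_eq_one]
    by_contra hne
    obtain ⟨l, hl, hld⟩ := Nat.exists_prime_and_dvd hne
    have hl' : Prime (l : ℤ) := Nat.prime_iff_prime_int.mp hl
    have h1 : (l : ℤ) ∣ a * x ^ p := (Int.natCast_dvd_natCast.mpr hld).trans (Int.gcd_dvd_left _ _)
    have h3 : (l : ℤ) ∣ c * z ^ r := (Int.natCast_dvd_natCast.mpr hld).trans (Int.gcd_dvd_right _ _)
    have h2 : (l : ℤ) ∣ b * y ^ q := by
      have : b * y ^ q = c * z ^ r - a * x ^ p := by linarith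
      rw [this]
      exact dvd_sub h3 h1
    exact key l hl' h1 h2 h3
  · rw [Int.isCoprime_iff_gcd_eq_one]
    by_contra hne
    obtain ⟨l, hl, hld⟩ := Nat.exists_prime_and_dvd hne
    have hl' : Prime (l : ℤ) := Nat.prime_iff_prime_int.mp hl
    have h2 : (l : ℤ) ∣ b * y ^ q := (Int.natCast_dvd_natCast.mpr hld).trans (Int.gcd_dvd_left _ _)
    have h3 : (l : ℤ) ∣ c * z ^ r := (Int.natCast_dvd_natCast.mpr hld).trans (Int.gcd_dvd_right _ _)
    have h1 : (l : ℤ) ∣ a * x ^ p := by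
      have : a * x ^ p = c * z ^ r - b * y ^ q := by linarith
      rw [this]
      exact dvd_sub h3 h2
    exact key l hl' h1 h2 h3

/-- valuation of `a x^p` outside the primes of `a` -/
lemma padicValInt_term {a x : ℤ} {p l : ℕ} (hl : l.Prime) (ha : a ≠ 0) (hx : x ≠ 0)
    (hla : ¬ (l : ℤ) ∣ a) : (p : ℤ) ∣ (padicValInt l (a * x ^ p) : ℤ) := by
  have : Fact l.Prime := ⟨hl⟩
  have h1 : padicValInt l (a * x ^ p) = padicValInt l a + padicValInt l (x ^ p) :=
    padicValInt.mul ha (pow_ne_zero _ hx)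
  have h2 : padicValInt l a = 0 := by
    rw [padicValInt.eq_zero_of_not_dvd hla]
  have h3 : padicValInt l (x ^ p) = p * padicValInt l x := by
    rw [padicValInt, padicValInt, Int.natAbs_pow, padicValNat.pow]
  rw [h1, h2, h3]
  exact ⟨padicValInt l x, by push_cast; ring⟩

lemma val_frac {A E : ℤ} {l : ℕ} (hl : l.Prime) (hA : A ≠ 0) (hE : E ≠ 0) :
    padicValRat l ((A : ℚ) / (E : ℚ)) = (padicValInt l A : ℤ) - (padicValInt l E : ℤ) := by
  have : Fact l.Prime := ⟨hl⟩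
  rw [padicValRat.div (by exact_mod_cast hA) (by exact_mod_cast hE), padicValRat.of_int,
    padicValRat.of_int]

lemma val_zero_of_coprime {A E : ℤ} {l : ℕ} (hl : l.Prime) (h : IsCoprime A E) :
    padicValInt l A = 0 ∨ padicValInt l E = 0 := by
  have : Fact l.Prime := ⟨hl⟩
  by_cases hA : (l : ℤ) ∣ A
  · right
    apply padicValInt.eq_zero_of_not_dvd
    intro hE
    exact (Nat.prime_iff_prime_int.mp hl).not_isUnit (h.isUnit_of_dvd' hA hE)
  · left
    exact padicValInt.eq_zero_of_not_dvd hA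

theorem solT_of_sol {a b c x y z : ℤ} {p q r : ℕ}
    (ha : a ≠ 0) (hb : b ≠ 0) (hc : c ≠ 0) (hx : x ≠ 0) (hy : y ≠ 0) (hz : z ≠ 0)
    (hg : Int.gcd (Int.gcd (a * x) (b * y)) (c * z) = 1)
    (h : a * x ^ p + b * y ^ q = c * z ^ r) :
    SolT (a * b * c).natAbs.primeFactors p q r (((a * x ^ p : ℤ) : ℚ) / ((c * z ^ r : ℤ) : ℚ)) := by
  obtain ⟨hAE, hBE⟩ := coprime_terms hg h
  have hA : a * x ^ p ≠ 0 := mul_ne_zero ha (pow_ne_zero _ hx)
  have hB : b * y ^ q ≠ 0 := mul_ne_zero hb (pow_ne_zero _ hy)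
  have hE : c * z ^ r ≠ 0 := mul_ne_zero hc (pow_ne_zero _ hz)
  have hA' : ((a * x ^ p : ℤ) : ℚ) ≠ 0 := by exact_mod_cast hA
  have hB' : ((b * y ^ q : ℤ) : ℚ) ≠ 0 := by exact_mod_cast hB
  have hE' : ((c * z ^ r : ℤ) : ℚ) ≠ 0 := by exact_mod_cast hE
  have h1t : 1 - ((a * x ^ p : ℤ) : ℚ) / ((c * z ^ r : ℤ) : ℚ) =
      ((b * y ^ q : ℤ) : ℚ) / ((c * z ^ r : ℤ) : ℚ) := by
    rw [eq_div_iff hE', sub_mul, div_mul_cancel₀ _ hE', one_mul]
    have : ((a * x ^ p : ℤ) : ℚ) + ((b * y ^ q : ℤ) : ℚ) = ((c * z ^ r : ℤ) : ℚ) := by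
      exact_mod_cast congrArg (Int.cast (R := ℚ)) h
    linarith
  refine ⟨div_ne_zero hA' hE', ?_, ?_⟩
  · intro h1
    rw [h1, sub_self] at h1t
    exact div_ne_zero hB' hE' h1t.symm
  · intro l hl hlS
    have habc : a * b * c ≠ 0 := mul_ne_zero (mul_ne_zero ha hb) hc
    have hnd : ¬ (l : ℤ) ∣ a * b * c := by
      intro hd
      apply hlS
      rw [Nat.mem_primeFactors]
      exact ⟨hl, Int.natCast_dvd.mp hd, Int.natAbs_ne_zero.mpr habc⟩
    have hla : ¬ (l : ℤ) ∣ a := fun hd => hnd ((hd.mul_right b).mul_right c)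
    have hlb : ¬ (l : ℤ) ∣ b := fun hd => hnd ((hd.mul_left a).mul_right c)
    have hlc : ¬ (l : ℤ) ∣ c := fun hd => hnd (hd.mul_left (a * b))
    refine ⟨fun hpos => ?_, fun hpos => ?_, fun hneg => ?_⟩
    · rw [val_frac hl hA hE] at hpos ⊢
      rcases val_zero_of_coprime hl hAE with h0 | h0
      · rw [h0] at hpos; push_cast at hpos; omega
      · rw [h0]
        simpa using padicValInt_term (p := p) hl ha hx hla
    · rw [h1t, val_frac hl hB hE] at hpos ⊢
      rcases val_zero_of_coprime hl hBE with h0 | h0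
      · rw [h0] at hpos; push_cast at hpos; omega
      · rw [h0]
        simpa using padicValInt_term (p := q) hl hb hy hlb
    · rw [val_frac hl hA hE] at hneg ⊢
      rcases val_zero_of_coprime hl hAE with h0 | h0
      · rw [h0]
        simpa using padicValInt_term (p := r) hl hc hz hlc
      · rw [h0] at hneg; push_cast at hneg; omega

end Pool.Agent.UFC
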