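import Mathlib
import Pool.Agent.FCat.RadE
import Pool.Agent.UFC.Defs
import Pool.Agent.UFC.Covers
import Pool.Agent.UFC.PartD
import Pool.Agent.UFC.Few
import Pool.Agent.UFC.SolA

/-!
# UFC: the count for one signature
-/

set_option autoImplicit false

namespace Pool.Agent.UFC

open Polynomial Pool.Agent.FCat

/-- the terms, of size at most `N`, of the coprime solutions of signature `(p, q, r)` with
`rad (abc) ≤ N^η` -/
def SigU (p q r : ℕ) (η : ℝ) (N : ℕ) : Set (ℤ × ℤ × ℤ) :=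
  {t | |t.1| ≤ N ∧ |t.2.1| ≤ N ∧ |t.2.2| ≤ N ∧
    ∃ a b c x y z : ℤ, a ≠ 0 ∧ b ≠ 0 ∧ c ≠ 0 ∧ x ≠ 0 ∧ y ≠ 0 ∧ z ≠ 0 ∧
      Int.gcd (Int.gcd (a * x) (b * y)) (c * z) = 1 ∧ (rad (a * b * c) : ℝ) ≤ (N : ℝ) ^ η ∧
      a * x ^ p + b * y ^ q = c * z ^ r ∧ t = (a * x ^ p, b * y ^ q, c * z ^ r)}

/-- the rational numbers of height at most `N` -/
def Ht (N : ℕ) : Set ℚ := {t | |t.num| ≤ N ∧ t.den ≤ N}

lemma ht_finite (N : ℕ) : (Ht N).Finite := by
  have h : (Ht N) ⊆ (fun s : ℤ × ℤ => (s.1 : ℚ) / (s.2 : ℚ)) ''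
      ((Set.Icc (-(N : ℤ)) N) ×ˢ (Set.Icc (-(N : ℤ)) N)) := by
    rintro t ⟨h1, h2⟩
    refine ⟨(t.num, (t.den : ℤ)), ⟨abs_le.mp h1, ?_⟩, ?_⟩
    · constructor
      · have : (0 : ℤ) ≤ t.den := by positivity
        have h3 : (0 : ℤ) ≤ N := by positivity
        simp only
        omega
      · simp only
        exact_mod_cast h2
    · simp only [Int.cast_natCast]
      exact Rat.num_div_den t
  exact (((Set.finite_Icc _ _).prod (Set.finite_Icc _ _)).image _).subset h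

/-- the rational number attached to a triple -/
noncomputable def quo (s : ℤ × ℤ × ℤ) : ℚ := (s.1 : ℚ) / (s.2.2 : ℚ)

/-- a triple with coprime first and last term is determined by its quotient and a sign -/
lemma quo_inj {A B E A' B' E' : ℤ} (hE : E ≠ 0) (hE' : E' ≠ 0) (hAE : IsCoprime A E)
    (hAE' : IsCoprime A' E') (h : A + B = E) (h' : A' + B' = E')
    (hq : quo (A, B, E) = quo (A', B', E')) (hs : (0 < E) ↔ (0 < E')) :
    (A, B, E) = (A', B', E') := by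
  have hq' : (A : ℚ) / (E : ℚ) = (A' : ℚ) / (E' : ℚ) := hq
  rw [div_eq_div_iff (by exact_mod_cast hE) (by exact_mod_cast hE')] at hq'
  have hz : A * E' = A' * E := by exact_mod_cast hq'
  have h1 : E ∣ E' := by
    have : E ∣ A * E' := ⟨A', by rw [hz]; ring⟩
    exact hAE.symm.dvd_of_dvd_mul_left this
  have h2 : E' ∣ E := by
    have : E' ∣ A' * E := ⟨A, by rw [← hz]; ring⟩
    exact hAE'.symm.dvd_of_dvd_mul_left this
  have h3 : E = E' := by
    rcases Int.associated_iff.mp (associated_of_dvd_dvd h1 h2) with h4 | h4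
    · exact h4
    · exfalso
      rw [h4] at hs
      rcases lt_or_gt_of_ne hE' with h5 | h5
      · have := hs.mp (by omega); omega
      · have := hs.mpr h5; omega
  subst h3
  have h4 : A = A' := mul_right_cancel₀ hE hz
  subst h4
  have h5 : B = B' := by linarith
  subst h5
  rfl

theorem sig_count (p q r : ℕ) (hp : 2 ≤ p) (hq : 2 ≤ q) (hr : 2 ≤ r)
    (h : (1 : ℚ) / p + 1 / q + 1 / r < 1) (ε : ℝ) (hε : 0 < ε) :
    ∃ η : ℝ, 0 < η ∧ ∃ K : ℝ, 0 < K ∧ ∀ N : ℕ, 1 ≤ N →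
      ((SigU p q r η N).ncard : ℝ) ≤ K * (N : ℝ) ^ ε := by
  classical
  obtain ⟨D, hnD, hD, K, hK, P, hP, hirr⟩ := covers p q r hp hq hr h (⌈8 / ε⌉₊ + 1)
  obtain ⟨n, C, F, hfew⟩ := few_fields K hK p q r D (by omega) (by omega) (by omega) hD P hP
  have hPD : P.natDegree = D := hP.deg
  obtain ⟨C2, hC2⟩ := dmain K hK P hP.monic hirr (by rw [hPD]; exact hD) n (ε / 4) (by positivity)
  have hDε : 2 / (D : ℝ) ≤ ε / 4 := by
    have h1 : 8 / ε ≤ D := by
      calc 8 / ε ≤ (⌈8 / ε⌉₊ : ℝ) := Nat.le_ceil _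
        _ ≤ ((⌈8 / ε⌉₊ + 1 : ℕ) : ℝ) := by push_cast; linarith
        _ ≤ (D : ℝ) := by exact_mod_cast hnD
    have hD' : (0 : ℝ) < D := by exact_mod_cast hD
    rw [div_le_iff₀ hD']
    rw [div_le_iff₀ hε] at h1
    linarith
  set η : ℝ := ε / (4 * (C + 1)) with hη
  have hη0 : 0 < η := by positivity
  set C3 : ℝ := max C2 1 with hC3
  have hC3pos : 0 < C3 := lt_of_lt_of_le one_pos (le_max_right _ _)
  refine ⟨η, hη0, 2 * (F.card + C * C3) + 1, by positivity, fun N hN => ?_⟩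
  have hN1 : (1 : ℝ) ≤ N := by exact_mod_cast hN
  have hN0 : (0 : ℝ) < N := by linarith
  set R : ℕ := ⌊(N : ℝ) ^ η⌋₊ with hR
  have hRle : (R : ℝ) ≤ (N : ℝ) ^ η := Nat.floor_le (by positivity)
  have hR0 : 0 < R := Nat.floor_pos.mpr (Real.one_le_rpow hN1 hη0.le)
  obtain ⟨U, hUcard, hU, hUt⟩ := hfew R hR0
  -- the sets of rational numbers
  set Tm : IntermediateField ℚ ℂ → Set ℚ := fun M => {t : ℚ | |t.num| ≤ N ∧ t.den ≤ N ∧
      ∃ α ∈ M, (ev (t : ℂ) (toC P)).eval α = 0} with hTm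
  have hTmfin : ∀ M, (Tm M).Finite := fun M =>
    (ht_finite N).subset (fun t ht => ⟨ht.1, ht.2.1⟩)
  set TT : Set ℚ := (F : Set ℚ) ∪ ⋃ M ∈ U, Tm M with hTT
  have hTTfin : TT.Finite := (Finset.finite_toSet F).union
    (Set.Finite.biUnion (Finset.finite_toSet U) (fun M _ => hTmfin M))
  -- the map
  set Φ : ℤ × ℤ × ℤ → ℚ × Bool := fun s => (quo s, decide (0 < s.2.2)) with hΦ
  have hmaps : Set.MapsTo Φ (SigU p q r η N) (TT ×ˢ (Set.univ : Set Bool)) := by
    rintro s ⟨h1, h2, h3, a, b, c, x, y, z, ha, hb, hc, hx, hy, hz, hg, hrad, heq, rfl⟩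
    refine ⟨?_, Set.mem_univ _⟩
    simp only [hΦ, quo]
    simp only at h1 h2 h3
    by_cases hF : (((a * x ^ p : ℤ) : ℚ) / ((c * z ^ r : ℤ) : ℚ)) ∈ F
    · exact Or.inl hF
    · right
      have hsol := solT_of_sol ha hb hc hx hy hz hg heq
      have hprod : ∏ l ∈ (a * b * c).natAbs.primeFactors, l ≤ R := by
        apply Nat.le_floor
        exact hrad
      obtain ⟨M, hM, hroot⟩ := hUt _ hF _ (fun l hl => Nat.prime_of_mem_primeFactors hl) hprod hsol
      rw [Set.mem_iUnion₂]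
      refine ⟨M, hM, ?_, ?_, ?_⟩
      · have hE : c * z ^ r ≠ 0 := mul_ne_zero hc (pow_ne_zero _ hz)
        have hA : a * x ^ p ≠ 0 := mul_ne_zero ha (pow_ne_zero _ hx)
        have hd : (((a * x ^ p : ℤ) : ℚ) / ((c * z ^ r : ℤ) : ℚ)).num ∣ a * x ^ p :=
          by rw [← Rat.divInt_eq_div]; exact Rat.num_dvd _ hE
        calc |(((a * x ^ p : ℤ) : ℚ) / ((c * z ^ r : ℤ) : ℚ)).num| ≤ |a * x ^ p| :=
              Int.le_of_dvd (abs_pos.mpr hA) ((abs_dvd_abs _ _).mpr hd)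
          _ ≤ N := h1
      · have hE : c * z ^ r ≠ 0 := mul_ne_zero hc (pow_ne_zero _ hz)
        have hd : ((((a * x ^ p : ℤ) : ℚ) / ((c * z ^ r : ℤ) : ℚ)).den : ℤ) ∣ c * z ^ r :=
          by rw [← Rat.divInt_eq_div]; exact Rat.den_dvd _ _
        have h4 : ((((a * x ^ p : ℤ) : ℚ) / ((c * z ^ r : ℤ) : ℚ)).den : ℤ) ≤ |c * z ^ r| :=
          Int.le_of_dvd (abs_pos.mpr hE) ((dvd_abs _ _).mpr hd)
        exact_mod_cast h4.trans h3
      · have hmon : (ev ((((a * x ^ p : ℤ) : ℚ) / ((c * z ^ r : ℤ) : ℚ) : ℚ) : ℂ) (toC P)).natDegree = D := by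
          rw [ev, toC, (hP.monic.map _).natDegree_map, hP.monic.natDegree_map, hPD]
        obtain ⟨α, hα⟩ := IsAlgClosed.exists_root
          (ev ((((a * x ^ p : ℤ) : ℚ) / ((c * z ^ r : ℤ) : ℚ) : ℚ) : ℂ) (toC P))
          (by
            intro hdeg
            have := Polynomial.natDegree_eq_zero_iff_degree_le_zero.mpr hdeg.le
            omega)
        exact ⟨α, hroot α hα, hα⟩
  have hinj : Set.InjOn Φ (SigU p q r η N) := by
    rintro s ⟨-, -, -, a, b, c, x, y, z, ha, hb, hc, hx, hy, hz, hg, -, heq, rfl⟩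
      s' ⟨-, -, -, a', b', c', x', y', z', ha', hb', hc', hx', hy', hz', hg', -, heq', rfl⟩ hss
    rw [hΦ, Prod.mk.injEq] at hss
    apply quo_inj (mul_ne_zero hc (pow_ne_zero _ hz)) (mul_ne_zero hc' (pow_ne_zero _ hz'))
      (coprime_terms hg heq).1 (coprime_terms hg' heq').1 heq heq' hss.1
    simpa using hss.2
  have hcard1 : (SigU p q r η N).ncard ≤ (TT ×ˢ (Set.univ : Set Bool)).ncard :=
    Set.ncard_le_ncard_of_injOn Φ (fun s hs => hmaps hs) hinj (hTTfin.prod Set.finite_univ)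
  have hcard2 : (TT ×ˢ (Set.univ : Set Bool)).ncard = TT.ncard * 2 := by
    rw [Set.ncard_prod]
    simp
  have hcard3 : (TT.ncard : ℝ) ≤ F.card + C * C3 * (N : ℝ) ^ ε := by
    have h1 : (⋃ M ∈ U, Tm M).ncard ≤ ∑ M ∈ U, (Tm M).ncard :=
      Finset.set_ncard_biUnion_le U Tm
    have h2 : TT.ncard ≤ F.card + ∑ M ∈ U, (Tm M).ncard := by
      calc TT.ncard ≤ (F : Set ℚ).ncard + (⋃ M ∈ U, Tm M).ncard := Set.ncard_union_le _ _
        _ ≤ _ := by rw [Set.ncard_coe_finset]; exact Nat.add_le_add_left h1 _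
    have h3 : ∀ M ∈ U, ((Tm M).ncard : ℝ) ≤ C3 * (N : ℝ) ^ (ε / 2) := by
      intro M hM
      obtain ⟨hKM, hfd, hfin⟩ := hU M hM
      refine (hC2 M hKM hfd hfin N hN).trans ?_
      rw [hPD]
      calc C2 * (N : ℝ) ^ (2 / (D : ℝ) + ε / 4) ≤ C3 * (N : ℝ) ^ (2 / (D : ℝ) + ε / 4) := by
            apply mul_le_mul_of_nonneg_right (le_max_left _ _) (by positivity)
        _ ≤ C3 * (N : ℝ) ^ (ε / 2) := by
            apply mul_le_mul_of_nonneg_left _ hC3pos.le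
            apply Real.rpow_le_rpow_of_exponent_le hN1
            linarith
    have h4 : ((∑ M ∈ U, (Tm M).ncard : ℕ) : ℝ) ≤ C * C3 * (N : ℝ) ^ ε := by
      push_cast
      calc ∑ M ∈ U, ((Tm M).ncard : ℝ) ≤ ∑ M ∈ U, C3 * (N : ℝ) ^ (ε / 2) :=
            Finset.sum_le_sum h3
        _ = U.card * (C3 * (N : ℝ) ^ (ε / 2)) := by rw [Finset.sum_const, nsmul_eq_mul]
        _ ≤ (C * (R : ℝ) ^ C) * (C3 * (N : ℝ) ^ (ε / 2)) := by
            apply mul_le_mul_of_nonneg_right _ (by positivity)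
            exact_mod_cast hUcard
        _ ≤ (C * (N : ℝ) ^ (ε / 4)) * (C3 * (N : ℝ) ^ (ε / 2)) := by
            apply mul_le_mul_of_nonneg_right _ (by positivity)
            apply mul_le_mul_of_nonneg_left _ (by positivity)
            calc (R : ℝ) ^ C ≤ ((N : ℝ) ^ η) ^ C := pow_le_pow_left₀ (by positivity) hRle _
              _ = (N : ℝ) ^ (η * C) := by rw [← Real.rpow_natCast, ← Real.rpow_mul hN0.le]
              _ ≤ (N : ℝ) ^ (ε / 4) := by
                  apply Real.rpow_le_rpow_of_exponent_le hN1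
                  rw [hη, div_mul_eq_mul_div, div_le_div_iff₀ (by positivity) (by positivity)]
                  nlinarith
        _ = C * C3 * (N : ℝ) ^ (ε / 4 + ε / 2) := by rw [Real.rpow_add hN0]; ring
        _ ≤ C * C3 * (N : ℝ) ^ ε := by
            apply mul_le_mul_of_nonneg_left _ (by positivity)
            apply Real.rpow_le_rpow_of_exponent_le hN1
            linarith
    calc (TT.ncard : ℝ) ≤ ((F.card + ∑ M ∈ U, (Tm M).ncard : ℕ) : ℝ) := by exact_mod_cast h2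
      _ = F.card + ((∑ M ∈ U, (Tm M).ncard : ℕ) : ℝ) := by push_cast; ring
      _ ≤ _ := by linarith
  have hX : (1 : ℝ) ≤ (N : ℝ) ^ ε := Real.one_le_rpow hN1 hε.le
  calc ((SigU p q r η N).ncard : ℝ) ≤ ((TT.ncard * 2 : ℕ) : ℝ) := by
        rw [← hcard2]; exact_mod_cast hcard1
    _ = 2 * (TT.ncard : ℝ) := by push_cast; ring
    _ ≤ 2 * (F.card + C * C3 * (N : ℝ) ^ ε) := by linarith
    _ ≤ 2 * (F.card * (N : ℝ) ^ ε + C * C3 * (N : ℝ) ^ ε) := by
        have : (F.card : ℝ) ≤ F.card * (N : ℝ) ^ ε := le_mul_of_one_le_right (by positivity) hX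
        linarith
    _ = (2 * (F.card + C * C3)) * (N : ℝ) ^ ε := by ring
    _ ≤ (2 * (F.card + C * C3) + 1) * (N : ℝ) ^ ε := by
        apply mul_le_mul_of_nonneg_right _ (by positivity)
        linarith

end Pool.Agent.UFC
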