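import Mathlib
import Pool.Agent.FCat.RadE
import Pool.Agent.UFC.Defs
import Pool.Agent.UFC.Sig

/-!
# UFC: the final theorem
-/

set_option autoImplicit false

namespace Pool.Agent.UFC

open Polynomial Pool.Agent.FCat

/-- The triples of terms, of absolute value at most `N`, of all solutions of `a x^p + b y^q = c z^r` in nonzero
integers with `1/p + 1/q + 1/r < 1`, `gcd (ax, by, cz) = 1` and `rad (abc) ≤ N^η`, all exponents together. -/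
def TrUni (η : ℝ) (N : ℕ) : Set (ℤ × ℤ × ℤ) :=
  {t | |t.1| ≤ N ∧ |t.2.1| ≤ N ∧ |t.2.2| ≤ N ∧
    ∃ a b c x y z : ℤ, ∃ p q r : ℕ, a ≠ 0 ∧ b ≠ 0 ∧ c ≠ 0 ∧ x ≠ 0 ∧ y ≠ 0 ∧ z ≠ 0 ∧
      0 < p ∧ 0 < q ∧ 0 < r ∧ (1 : ℚ) / p + 1 / q + 1 / r < 1 ∧
      Int.gcd (Int.gcd (a * x) (b * y)) (c * z) = 1 ∧ (rad (a * b * c) : ℝ) ≤ (N : ℝ) ^ η ∧
      a * x ^ p + b * y ^ q = c * z ^ r ∧ t = (a * x ^ p, b * y ^ q, c * z ^ r)}

lemma box_finite (N : ℕ) (V : Set (ℤ × ℤ × ℤ))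
    (h : ∀ t ∈ V, |t.1| ≤ (N : ℤ) ∧ |t.2.1| ≤ (N : ℤ) ∧ |t.2.2| ≤ (N : ℤ)) : V.Finite := by
  refine Set.Finite.subset ((Set.finite_Icc (-(N : ℤ)) N).prod
    ((Set.finite_Icc (-(N : ℤ)) N).prod (Set.finite_Icc (-(N : ℤ)) N))) ?_
  rintro ⟨A, B, E⟩ ht
  obtain ⟨h1, h2, h3⟩ := h _ ht
  exact ⟨abs_le.mp h1, abs_le.mp h2, abs_le.mp h3⟩

lemma trUni_finite (η : ℝ) (N : ℕ) : (TrUni η N).Finite :=
  box_finite N _ (fun _ ht => ⟨ht.1, ht.2.1, ht.2.2.1⟩)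

lemma sigU_finite (p q r : ℕ) (η : ℝ) (N : ℕ) : (SigU p q r η N).Finite :=
  box_finite N _ (fun _ ht => ⟨ht.1, ht.2.1, ht.2.2.1⟩)

lemma trRad_finite (R N : ℕ) : (TrRad R N).Finite :=
  box_finite N _ (fun _ ht => ⟨ht.1, ht.2.1, ht.2.2.1⟩)

lemma sigU_mono (p q r : ℕ) {η η' : ℝ} (h : η' ≤ η) {N : ℕ} (hN : 1 ≤ N) :
    SigU p q r η' N ⊆ SigU p q r η N := by
  rintro t ⟨h1, h2, h3, a, b, c, x, y, z, ha, hb, hc, hx, hy, hz, hg, hrad, heq, ht⟩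
  exact ⟨h1, h2, h3, a, b, c, x, y, z, ha, hb, hc, hx, hy, hz, hg,
    hrad.trans (Real.rpow_le_rpow_of_exponent_le (by exact_mod_cast hN) h), heq, ht⟩

theorem sig_count_unif (ε : ℝ) (hε : 0 < ε) (D : Finset (ℕ × ℕ × ℕ))
    (hD : ∀ s ∈ D, 2 ≤ s.1 ∧ 2 ≤ s.2.1 ∧ 2 ≤ s.2.2 ∧ (1 : ℚ) / s.1 + 1 / s.2.1 + 1 / s.2.2 < 1) :
    ∃ η : ℝ, 0 < η ∧ ∃ K : ℝ, 0 < K ∧ ∀ s ∈ D, ∀ N : ℕ, 1 ≤ N →
      ((SigU s.1 s.2.1 s.2.2 η N).ncard : ℝ) ≤ K * (N : ℝ) ^ ε := by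
  classical
  induction D using Finset.induction_on with
  | empty => exact ⟨1, one_pos, 1, one_pos, by simp⟩
  | insert s D' hs ih =>
    obtain ⟨η, hη, K, hK, h1⟩ := ih (fun s' hs' => hD s' (Finset.mem_insert_of_mem hs'))
    obtain ⟨hp, hq, hr, hh⟩ := hD s (Finset.mem_insert_self _ _)
    obtain ⟨η', hη', K', hK', h2⟩ := sig_count s.1 s.2.1 s.2.2 hp hq hr hh ε hε
    refine ⟨min η η', lt_min hη hη', K + K', by positivity, fun s' hs' N hN => ?_⟩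
    have hX : (0 : ℝ) ≤ (N : ℝ) ^ ε := by positivity
    rcases Finset.mem_insert.mp hs' with h | h
    · subst h
      calc ((SigU s'.1 s'.2.1 s'.2.2 (min η η') N).ncard : ℝ)
          ≤ ((SigU s'.1 s'.2.1 s'.2.2 η' N).ncard : ℝ) := by
            exact_mod_cast Set.ncard_le_ncard (sigU_mono _ _ _ (min_le_right _ _) hN)
              (sigU_finite _ _ _ _ _)
        _ ≤ K' * (N : ℝ) ^ ε := h2 N hN
        _ ≤ (K + K') * (N : ℝ) ^ ε := by nlinarith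
    · calc ((SigU s'.1 s'.2.1 s'.2.2 (min η η') N).ncard : ℝ)
          ≤ ((SigU s'.1 s'.2.1 s'.2.2 η N).ncard : ℝ) := by
            exact_mod_cast Set.ncard_le_ncard (sigU_mono _ _ _ (min_le_left _ _) hN)
              (sigU_finite _ _ _ _ _)
        _ ≤ K * (N : ℝ) ^ ε := h1 s' h N hN
        _ ≤ (K + K') * (N : ℝ) ^ ε := by nlinarith

theorem uni_count (ε : ℝ) (hε : 0 < ε) :
    ∃ η : ℝ, 0 < η ∧ ∃ K : ℝ, ∀ N : ℕ, 1 ≤ N →
      ((TrUni η N).ncard : ℝ) ≤ K * (N : ℝ) ^ ε := by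
  classical
  obtain ⟨R, K, hK, hT⟩ := trRad_card ε hε
  set D : Finset (ℕ × ℕ × ℕ) := (Finset.range R ×ˢ Finset.range R ×ˢ Finset.range R).filter
    (fun s => 2 ≤ s.1 ∧ 2 ≤ s.2.1 ∧ 2 ≤ s.2.2 ∧ (1 : ℚ) / s.1 + 1 / s.2.1 + 1 / s.2.2 < 1) with hD
  obtain ⟨η, hη, K', hK', hS⟩ := sig_count_unif ε hε D (fun s hs => (Finset.mem_filter.mp hs).2)
  set η1 : ℝ := min η (1 / (R + 1)) with hη1
  have hη10 : 0 < η1 := lt_min hη (by positivity)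
  refine ⟨η1, hη10, K + D.card * K', fun N hN => ?_⟩
  have hN1 : (1 : ℝ) ≤ N := by exact_mod_cast hN
  have hN0 : (0 : ℝ) < N := by linarith
  have hsub : TrUni η1 N ⊆ TrRad R N ∪ ⋃ s ∈ D, SigU s.1 s.2.1 s.2.2 η N := by
    rintro t ⟨h1, h2, h3, a, b, c, x, y, z, p, q, r, ha, hb, hc, hx, hy, hz, hp, hq, hr, hh, hg,
      hrad, heq, rfl⟩
    obtain ⟨hp2, hq2, hr2⟩ := two_le_of_hyp hp hq hr hh
    by_cases hmax : R ≤ max p (max q r)
    · left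
      refine ⟨h1, h2, h3, a, b, c, x, y, z, p, q, r, ha, hb, hc, hx, hy, hz, hp2, hq2, hr2, hmax,
        ?_, heq, rfl⟩
      have h4 : (rad (a * b * c) : ℝ) ≤ (N : ℝ) ^ (1 / ((R : ℝ) + 1)) :=
        hrad.trans (Real.rpow_le_rpow_of_exponent_le hN1 (min_le_right _ _))
      have h5 : ((rad (a * b * c) ^ R : ℕ) : ℝ) ≤ N := by
        push_cast
        calc (rad (a * b * c) : ℝ) ^ R ≤ ((N : ℝ) ^ (1 / ((R : ℝ) + 1))) ^ R :=
              pow_le_pow_left₀ (by positivity) h4 _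
          _ = (N : ℝ) ^ (1 / ((R : ℝ) + 1) * R) := by
              rw [← Real.rpow_natCast, ← Real.rpow_mul hN0.le]
          _ ≤ (N : ℝ) ^ (1 : ℝ) := by
              apply Real.rpow_le_rpow_of_exponent_le hN1
              rw [div_mul_eq_mul_div, one_mul, div_le_one (by positivity)]
              linarith
          _ = N := Real.rpow_one _
      exact_mod_cast h5
    · right
      push Not at hmax
      rw [Set.mem_iUnion₂]
      refine ⟨(p, q, r), ?_, h1, h2, h3, a, b, c, x, y, z, ha, hb, hc, hx, hy, hz, hg, ?_, heq, rfl⟩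
      · rw [hD, Finset.mem_filter, Finset.mem_product, Finset.mem_product, Finset.mem_range,
          Finset.mem_range, Finset.mem_range]
        have h4 : p < R := lt_of_le_of_lt (le_max_left _ _) hmax
        have h5 : max q r < R := lt_of_le_of_lt (le_max_right _ _) hmax
        exact ⟨⟨h4, lt_of_le_of_lt (le_max_left _ _) h5, lt_of_le_of_lt (le_max_right _ _) h5⟩,
          hp2, hq2, hr2, hh⟩
      · exact hrad.trans (Real.rpow_le_rpow_of_exponent_le hN1 (min_le_left _ _))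
  have hfin : (⋃ s ∈ D, SigU s.1 s.2.1 s.2.2 η N).Finite :=
    Set.Finite.biUnion (Finset.finite_toSet D) (fun s _ => sigU_finite _ _ _ _ _)
  calc ((TrUni η1 N).ncard : ℝ)
      ≤ (((TrRad R N).ncard + ∑ s ∈ D, (SigU s.1 s.2.1 s.2.2 η N).ncard : ℕ) : ℝ) := by
        have h1 := Set.ncard_le_ncard hsub ((trRad_finite R N).union hfin)
        have h2 := Set.ncard_union_le (TrRad R N) (⋃ s ∈ D, SigU s.1 s.2.1 s.2.2 η N)
        have h3 := Finset.set_ncard_biUnion_le D (fun s => SigU s.1 s.2.1 s.2.2 η N)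
        exact_mod_cast h1.trans (h2.trans (Nat.add_le_add_left h3 _))
    _ = ((TrRad R N).ncard : ℝ) + ∑ s ∈ D, ((SigU s.1 s.2.1 s.2.2 η N).ncard : ℝ) := by push_cast; rfl
    _ ≤ K * (N : ℝ) ^ ε + ∑ s ∈ D, K' * (N : ℝ) ^ ε := by
        apply add_le_add (hT N hN)
        exact Finset.sum_le_sum (fun s hs => hS s hs N hN)
    _ = (K + D.card * K') * (N : ℝ) ^ ε := by rw [Finset.sum_const, nsmul_eq_mul]; ring

end Pool.Agent.UFC
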